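import Pool.Agent.LibHPC.C1
import Pool.Agent.LibHPF.G3

/-! C3. The charts of a smooth complete intersection are locally etale over affine spaces. -/

set_option autoImplicit false

namespace Pool.Agent.LibHP

open MvPolynomial in
/-- the relations -/
noncomputable def C3_v {k : Type} [Field k] {n : ℕ} (Q C : MvPolynomial (Fin (n + 1)) k)
    (i a b : Fin (n + 1)) : Fin 4 → MvPolynomial (Option (Fin (n + 1))) k :=
  ![rename some Q, rename some C, X (some i) - 1, X none * rename some (jminor Q C a b) - 1]

open MvPolynomial in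
/-- the quotient by the relations is standard smooth -/
theorem C3_smooth {k : Type} [Field k] {n : ℕ} (Q C : MvPolynomial (Fin (n + 1)) k)
    (i a b : Fin (n + 1)) (hai : a ≠ i) (hbi : b ≠ i) (hab : a ≠ b) :
    Algebra.IsStandardSmooth k
      (MvPolynomial (Option (Fin (n + 1))) k ⧸ Ideal.span (Set.range (C3_v Q C i a b))) := by
  classical
  have hinj : Function.Injective
      (![some a, some b, some i, none] : Fin 4 → Option (Fin (n + 1))) := by
    intro x y hxy
    fin_cases x <;> fin_cases y <;> simp_all
  let P₀ := Algebra.PreSubmersivePresentation.naive (R := k) (v := C3_v Q C i a b)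
    (![some a, some b, some i, none] : Fin 4 → Option (Fin (n + 1))) hinj
  have hsome : ∀ (G : MvPolynomial (Fin (n + 1)) k) (c : Fin (n + 1)),
      pderiv (some c) (rename some G : MvPolynomial (Option (Fin (n + 1))) k) =
        rename some (pderiv c G) := fun G c => pderiv_rename (Option.some_injective _) c G
  have hnone : ∀ (G : MvPolynomial (Fin (n + 1)) k),
      pderiv none (rename some G : MvPolynomial (Option (Fin (n + 1))) k) = 0 := by
    intro G
    refine pderiv_eq_zero_of_notMem_vars fun h => ?_
    obtain ⟨a, -, ha⟩ := Finset.mem_image.1 (vars_rename some G h)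
    exact Option.some_ne_none a ha
  have hX : ∀ c : Fin (n + 1), c ≠ i →
      pderiv (some c) (X (some i) - 1 : MvPolynomial (Option (Fin (n + 1))) k) = 0 := by
    intro c hc
    rw [map_sub, pderiv_one, sub_zero, pderiv_X_of_ne]
    intro h
    exact hc (Option.some_injective _ h).symm
  have hXi : pderiv (some i) (X (some i) - 1 : MvPolynomial (Option (Fin (n + 1))) k) = 1 := by
    rw [map_sub, pderiv_one, sub_zero, pderiv_X_self]
  have hXn : pderiv none (X (some i) - 1 : MvPolynomial (Option (Fin (n + 1))) k) = 0 := by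
    rw [map_sub, pderiv_one, sub_zero, pderiv_X_of_ne]
    exact Option.some_ne_none i
  have hU : pderiv none (X none * rename some (jminor Q C a b) - 1 :
      MvPolynomial (Option (Fin (n + 1))) k) = rename some (jminor Q C a b) := by
    rw [map_sub, pderiv_one, sub_zero, pderiv_mul, pderiv_X_self, hnone]
    ring
  have hdet : P₀.jacobiMatrix.det = (rename some (jminor Q C a b)) ^ 2 := by
    have hM : P₀.jacobiMatrix = !![rename some (pderiv a Q), rename some (pderiv a C), 0,
        pderiv (some a) (X none * rename some (jminor Q C a b) - 1);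
        rename some (pderiv b Q), rename some (pderiv b C), 0,
        pderiv (some b) (X none * rename some (jminor Q C a b) - 1);
        rename some (pderiv i Q), rename some (pderiv i C), 1,
        pderiv (some i) (X none * rename some (jminor Q C a b) - 1);
        0, 0, 0, rename some (jminor Q C a b)] := by
      ext x y : 2
      rw [Algebra.PreSubmersivePresentation.jacobiMatrix_naive]
      fin_cases x <;> fin_cases y <;>
        simp [C3_v, hsome, hnone, hX a hai, hX b hbi, hXi, hXn, hU]
    rw [hM, Matrix.det_succ_row_zero]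
    simp only [Fin.sum_univ_succ, Matrix.det_fin_three, Fin.isValue]
    simp [Fin.succAbove, jminor]
    ring
  have hunit : IsUnit P₀.jacobian := by
    have hal : ∀ x : MvPolynomial (Option (Fin (n + 1))) k,
        algebraMap P₀.Ring (MvPolynomial (Option (Fin (n + 1))) k ⧸
          Ideal.span (Set.range (C3_v Q C i a b))) x = Ideal.Quotient.mkₐ k _ x := by
      intro x
      rw [P₀.algebraMap_apply]
      refine congrFun (congrArg DFunLike.coe (MvPolynomial.algHom_ext (fun i => ?_))) x
      rw [aeval_X]
      rfl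
    rw [Algebra.PreSubmersivePresentation.jacobian_eq_jacobiMatrix_det, hdet, hal, map_pow]
    refine IsUnit.pow 2 ?_
    refine IsUnit.of_mul_eq_one (Ideal.Quotient.mkₐ k _ (X none)) ?_
    rw [← map_mul, ← sub_eq_zero, ← map_one (Ideal.Quotient.mkₐ k
      (Ideal.span (Set.range (C3_v Q C i a b)))), ← map_sub, Ideal.Quotient.mkₐ_eq_mk,
      Ideal.Quotient.eq_zero_iff_mem, mul_comm]
    exact Ideal.subset_span ⟨3, rfl⟩
  exact (⟨P₀, hunit⟩ : Algebra.SubmersivePresentation k _ _ _).isStandardSmooth

open MvPolynomial in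
theorem ci_chart_etale {k K : Type} [Field k] [CharZero k] [Field K] [Algebra k K] {n d e : ℕ}
    (Q C : MvPolynomial (Fin (n + 1)) k) (hQ : Q.IsHomogeneous d) (hC : C.IsHomogeneous e)
    (y : Fin (n + 1) → K) (hy : IsCIPt Q C y) (i a b : Fin (n + 1)) (hai : a ≠ i) (hbi : b ≠ i)
    (hab : a ≠ b) (hi : y i ≠ 0)
    (hh : MvPolynomial.aeval (fun l => y l / y i) (jminor Q C a b) ≠ 0) :
    ∃ (N : ℕ) (ψ : MvPolynomial (Fin N) k →+* chartRingH y i (jminor Q C a b)), ψ.Etale := by
  classical
  set w : Fin (n + 1) → K := fun l => y l / y i with hw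
  set h₀ : K := aeval w (jminor Q C a b) with hh₀
  let val : Option (Fin (n + 1)) → K := fun o => o.elim h₀⁻¹ w
  let Θ : MvPolynomial (Option (Fin (n + 1))) k →ₐ[k] K := aeval val
  have hΘr : ∀ G : MvPolynomial (Fin (n + 1)) k, Θ (rename some G) = aeval w G := by
    intro G
    change aeval val (rename some G) = _
    rw [aeval_rename]
    rfl
  have hΘn : Θ (X none) = h₀⁻¹ := aeval_X _ _
  -- the range
  have hrange : Θ.range = chartRingH y i (jminor Q C a b) := by
    change (aeval val : MvPolynomial (Option (Fin (n + 1))) k →ₐ[k] K).range = _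
    rw [← Algebra.adjoin_range_eq_range_aeval]
    unfold chartRingH
    congr 1
    ext x
    constructor
    · rintro ⟨o, rfl⟩
      rcases o with _ | l
      · exact Or.inr rfl
      · exact Or.inl ⟨l, rfl⟩
    · rintro (⟨l, rfl⟩ | hx)
      · exact ⟨some l, rfl⟩
      · exact ⟨none, (Set.mem_singleton_iff.1 hx).symm⟩
  -- the kernel
  set J : Ideal (MvPolynomial (Option (Fin (n + 1))) k) := Ideal.span (Set.range (C3_v Q C i a b))
    with hJ
  have hJ0 : rename some Q ∈ J := Ideal.subset_span ⟨0, rfl⟩
  have hJ0' : rename some C ∈ J := Ideal.subset_span ⟨1, rfl⟩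
  have hJ1 : X (some i) - 1 ∈ J := Ideal.subset_span ⟨2, rfl⟩
  have hJ2 : X none * rename some (jminor Q C a b) - 1 ∈ J := Ideal.subset_span ⟨3, rfl⟩
  have hrel : ∀ G : MvPolynomial (Fin (n + 1)) k,
      aeval w G = 0 ↔ G ∈ Ideal.span {Q, C, X i - 1} :=
    fun G => ci_chart_relation Q C hQ hC y hy i hi G
  have hle : J ≤ RingHom.ker Θ := by
    rw [hJ, Ideal.span_le]
    rintro _ ⟨x, rfl⟩
    change Θ (C3_v Q C i a b x) = 0
    fin_cases x
    · change Θ (rename some Q) = 0
      rw [hΘr, hrel]
      exact Ideal.subset_span (by simp)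
    · change Θ (rename some C) = 0
      rw [hΘr, hrel]
      exact Ideal.subset_span (by simp)
    · change Θ (X (some i) - 1) = 0
      have h1 : (X (some i) : MvPolynomial (Option (Fin (n + 1))) k) =
          rename some (X i) := by
        rw [rename_X]
      rw [h1, map_sub, hΘr, map_one, aeval_X, hw]
      simp only
      rw [div_self hi, sub_self]
    · change Θ (X none * rename some (jminor Q C a b) - 1) = 0
      rw [map_sub, map_mul, hΘr, hΘn, map_one, inv_mul_cancel₀ hh, sub_self]
  have hker : J = RingHom.ker Θ := by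
    apply le_antisymm hle
    intro P hP
    have hP0 : Θ P = 0 := hP
    obtain ⟨D, G, hDG⟩ := G3_elim (jminor Q C a b) J hJ2 P
    have hDG0 : Θ (P * (rename some (jminor Q C a b)) ^ D - rename some G) = 0 := hle hDG
    rw [map_sub, map_mul, hP0, zero_mul, zero_sub, neg_eq_zero, hΘr, hrel] at hDG0
    have hGJ : rename some G ∈ J := by
      have hle2 : Ideal.span {Q, C, X i - 1} ≤ J.comap (rename some :
          MvPolynomial (Fin (n + 1)) k →ₐ[k] MvPolynomial (Option (Fin (n + 1))) k) := by
        rw [Ideal.span_le]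
        rintro x (rfl | rfl | rfl)
        · exact hJ0
        · exact hJ0'
        · change rename some (X i - 1) ∈ J
          rw [map_sub, rename_X, map_one]
          exact hJ1
      exact hle2 hDG0
    have hPD : P * (rename some (jminor Q C a b)) ^ D ∈ J := by
      have := J.add_mem hDG hGJ
      rwa [sub_add_cancel] at this
    have h2 : (X none * rename some (jminor Q C a b)) ^ D - 1 ∈ J := by
      have h3 : X none * rename some (jminor Q C a b) - 1 ∣
          (X none * rename some (jminor Q C a b)) ^ D - 1 := by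
        have := sub_dvd_pow_sub_pow (X none * rename some (jminor Q C a b) :
          MvPolynomial (Option (Fin (n + 1))) k) 1 D
        rwa [one_pow] at this
      exact Ideal.mem_of_dvd _ h3 hJ2
    have h4 : P = P * (rename some (jminor Q C a b)) ^ D * (X none) ^ D -
        P * ((X none * rename some (jminor Q C a b)) ^ D - 1) := by
      rw [mul_pow]
      ring
    rw [h4]
    exact J.sub_mem (J.mul_mem_right _ hPD) (J.mul_mem_left _ h2)
  have hsm := C3_smooth Q C i a b hai hbi hab
  have e1 : (MvPolynomial (Option (Fin (n + 1))) k ⧸ J) ≃ₐ[k]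
      MvPolynomial (Option (Fin (n + 1))) k ⧸ RingHom.ker Θ := Ideal.quotientEquivAlgOfEq k hker
  have e2 : (MvPolynomial (Option (Fin (n + 1))) k ⧸ RingHom.ker Θ) ≃ₐ[k] Θ.range :=
    Ideal.quotientKerEquivRange Θ
  have e3 : Θ.range ≃ₐ[k] chartRingH y i (jminor Q C a b) := Subalgebra.equivOfEq _ _ hrange
  have hst : Algebra.IsStandardSmooth k (chartRingH y i (jminor Q C a b)) :=
    Algebra.IsStandardSmooth.of_algEquiv ((e1.trans e2).trans e3)
  obtain ⟨N, g, -, hg⟩ := RingHom.IsStandardSmooth.exists_etale_mvPolynomial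
    (RingHom.isStandardSmooth_algebraMap.2 hst)
  exact ⟨N, g, hg⟩

/-- The charts of a smooth complete intersection. -/
theorem ci_etaleCharts {k K : Type} [Field k] [CharZero k] [Field K] [Algebra k K] {n d e : ℕ}
    (Q C : MvPolynomial (Fin (n + 1)) k) (hQ : Q.IsHomogeneous d) (hC : C.IsHomogeneous e)
    (hsm : IsSmoothCI Q C) (y : Fin (n + 1) → K) (hy : IsCIPt Q C y) : EtaleCharts k y := by
  intro i hi P hP
  obtain ⟨a, b, hai, hbi, hab, h⟩ := ci_jacobian Q C hQ hC hsm y hy i hi P hP
  exact ⟨jminor Q C a b, h, ci_chart_etale Q C hQ hC y hy i a b hai hbi hab hi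
    (H1_ne y i _ P h)⟩

end Pool.Agent.LibHP
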