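import Pool.Agent.LibHPC.C1

/-! C8. Normalized coordinates. -/

set_option autoImplicit false

namespace Pool.Agent.LibHP

/-- a linear coordinate is not in the ideal of two forms of degree at least two -/
theorem X_notMem_span {k : Type} [Field k] {n d e : ℕ}
    {Q C : MvPolynomial (Fin (n + 1)) k} (hQ : Q.IsHomogeneous d) (hC : C.IsHomogeneous e)
    (hd : 2 ≤ d) (he : 2 ≤ e) (i : Fin (n + 1)) :
    (MvPolynomial.X i : MvPolynomial (Fin (n + 1)) k) ∉ Ideal.span {Q, C} := by
  intro h1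
  rw [Ideal.mem_span_pair] at h1
  obtain ⟨a, b, hab⟩ := h1
  have h2 := congrArg (MvPolynomial.coeff (Finsupp.single i 1)) hab
  rw [MvPolynomial.coeff_add, MvPolynomial.coeff_X] at h2
  have key : ∀ {m : ℕ} (A G : MvPolynomial (Fin (n + 1)) k), G.IsHomogeneous m → 2 ≤ m →
      MvPolynomial.coeff (Finsupp.single i 1) (A * G) = 0 := by
    intro m A G hG hm
    classical
    rw [MvPolynomial.coeff_mul]
    refine Finset.sum_eq_zero fun p hp => ?_
    have hp := Finset.HasAntidiagonal.mem_antidiagonal.1 hp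
    have : MvPolynomial.coeff p.2 G = 0 := by
      refine hG.coeff_eq_zero ?_
      have h3 := congrArg Finsupp.degree hp
      rw [map_add, Finsupp.degree_single] at h3
      omega
    rw [this, mul_zero]
  rw [key a Q hQ hd, key b C hC he, add_zero] at h2
  simp at h2

theorem exists_ciPt {k K : Type} [Field k] [Field K] [Algebra k K] {n d e : ℕ}
    (Q C : MvPolynomial (Fin (n + 1)) k) (hQ : Q.IsHomogeneous d) (hC : C.IsHomogeneous e)
    (hd : 2 ≤ d) (he : 2 ≤ e) (z : Fin (n + 1) → K)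
    (hz : IsCICoord Q C z) : ∃ y : Fin (n + 1) → K, IsCIPt Q C y := by
  obtain ⟨_, hz2, hz3⟩ := hz
  have h0 : z 0 ≠ 0 := by
    intro h
    exact X_notMem_span hQ hC hd he 0
      ((hz2 1 (MvPolynomial.X 0) (MvPolynomial.isHomogeneous_X k 0)).1
        (by rw [MvPolynomial.aeval_X, h]))
  refine ⟨fun i => (z 0)⁻¹ * z i, inv_mul_cancel₀ h0, fun d G hG => ?_, ?_⟩
  · rw [G8_aeval_scale hG, ← hz2 d G hG, mul_eq_zero]
    exact ⟨fun h => h.resolve_left (pow_ne_zero _ (inv_ne_zero h0)), fun h => Or.inr h⟩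
  · rw [eq_top_iff, ← hz3, IntermediateField.adjoin_le_iff]
    rintro c ⟨i, j, hj, rfl⟩
    have h1 : z i / z j = ((z 0)⁻¹ * z i) / ((z 0)⁻¹ * z j) := by
      rw [mul_div_mul_left _ _ (inv_ne_zero h0)]
    have hmem : ∀ l : Fin (n + 1), (z 0)⁻¹ * z l ∈
        IntermediateField.adjoin k (Set.range fun i => (z 0)⁻¹ * z i) := fun l =>
      IntermediateField.subset_adjoin k _ ⟨l, rfl⟩
    rw [h1]
    exact div_mem (hmem i) (hmem j)

end Pool.Agent.LibHP
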