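import Pool.Agent.LibHPC.Defs0
import Pool.Agent.LibHPF.Q1

set_option autoImplicit false
open MvPolynomial

namespace Pool.Agent.LibHP.CI

variable {k : Type} [Field k] [CharZero k] {n : ℕ} {D : Dat k n}

/-!
# Row E1: forms of degrees two and three as symmetric tensors

PLAN. Same proof as `exists_tensor` (LibHPF/Q1.lean, proved): `β i j = (1/2) * constantCoeff (∂_i ∂_j F₂)`,
`γ i j s = (1/6) * constantCoeff (∂_i ∂_j ∂_s F₃)`, Euler's identity.
-/

theorem exists_dat (k : Type) [Field k] [CharZero k] (n : ℕ)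
    (F₂ F₃ : MvPolynomial (Fin (n + 1)) k) (h2 : F₂.IsHomogeneous 2) (h3 : F₃.IsHomogeneous 3) :
    ∃ D : Dat k n, IsSymm23 D ∧ QQ D = F₂ ∧ CC D = F₃ := by
  refine ⟨⟨fun i j => (2 : k)⁻¹ * constantCoeff (pderiv i (pderiv j F₂)),
    fun i j s => (6 : k)⁻¹ * constantCoeff (pderiv i (pderiv j (pderiv s F₃)))⟩, ⟨?_, ?_⟩, ?_, ?_⟩
  · intro i j
    simp only
    rw [Q1_comm j i]
  · intro i j s
    refine ⟨?_, ?_⟩
    · simp only
      rw [Q1_comm j i]
    · simp only
      rw [Q1_comm s j]
  · have h4 : ∀ i j, pderiv i (pderiv j F₂) = C (constantCoeff (pderiv i (pderiv j F₂))) := by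
      intro i j
      have h := (h2.pderiv (i := j)).pderiv (i := i)
      exact (totalDegree_eq_zero_iff_eq_C.1 (Nat.le_zero.1 h.totalDegree_le))
    have e1 := h2.sum_X_mul_pderiv
    have e2 : ∀ j, ∑ i, X i * pderiv i (pderiv j F₂) = 1 • pderiv j F₂ := fun j =>
      (h2.pderiv (i := j)).sum_X_mul_pderiv
    have e5 : (2 : MvPolynomial (Fin (n + 1)) k) * F₂ =
        ∑ j, X j * ∑ i, X i * pderiv i (pderiv j F₂) := by
      simp only [e2, one_smul, e1]
      simp only [nsmul_eq_mul]
      push_cast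
      ring
    have e6 : C (2 : k)⁻¹ * (2 : MvPolynomial (Fin (n + 1)) k) = 1 := by
      rw [show (2 : MvPolynomial (Fin (n + 1)) k) = C (2 : k) from (map_ofNat C 2).symm, ← C_mul,
        inv_mul_cancel₀ (by norm_num), C_1]
    calc QQ (⟨fun i j => (2 : k)⁻¹ * constantCoeff (pderiv i (pderiv j F₂)),
          fun i j s => (6 : k)⁻¹ * constantCoeff (pderiv i (pderiv j (pderiv s F₃)))⟩ : Dat k n)
        = C (2 : k)⁻¹ * ∑ j, X j * ∑ i, X i * pderiv i (pderiv j F₂) := by
          unfold QQ Bq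
          simp only [Finset.mul_sum]
          refine Finset.sum_congr rfl fun i _ => Finset.sum_congr rfl fun j _ => ?_
          rw [Q1_comm j i F₂, h4 i j, map_mul]
          simp only [algebraMap_eq, constantCoeff_C]
          ring
      _ = F₂ := by rw [← e5, ← mul_assoc, e6, one_mul]
  · have h4 : ∀ i j s, pderiv i (pderiv j (pderiv s F₃)) =
        C (constantCoeff (pderiv i (pderiv j (pderiv s F₃)))) := by
      intro i j s
      have h := ((h3.pderiv (i := s)).pderiv (i := j)).pderiv (i := i)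
      exact (totalDegree_eq_zero_iff_eq_C.1 (Nat.le_zero.1 h.totalDegree_le))
    have e1 := h3.sum_X_mul_pderiv
    have e2 : ∀ s, ∑ j, X j * pderiv j (pderiv s F₃) = 2 • pderiv s F₃ := fun s =>
      (h3.pderiv (i := s)).sum_X_mul_pderiv
    have e3 : ∀ j s, ∑ i, X i * pderiv i (pderiv j (pderiv s F₃)) = 1 • pderiv j (pderiv s F₃) :=
      fun j s => ((h3.pderiv (i := s)).pderiv (i := j)).sum_X_mul_pderiv
    have e5 : (6 : MvPolynomial (Fin (n + 1)) k) * F₃ =
        ∑ s, X s * ∑ j, X j * ∑ i, X i * pderiv i (pderiv j (pderiv s F₃)) := by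
      simp only [e3, one_smul, e2, e1, mul_smul_comm, ← Finset.smul_sum]
      simp only [nsmul_eq_mul]
      push_cast
      ring
    have e6 : C (6 : k)⁻¹ * (6 : MvPolynomial (Fin (n + 1)) k) = 1 := by
      rw [show (6 : MvPolynomial (Fin (n + 1)) k) = C (6 : k) from (map_ofNat C 6).symm, ← C_mul,
        inv_mul_cancel₀ (by norm_num), C_1]
    calc CC (⟨fun i j => (2 : k)⁻¹ * constantCoeff (pderiv i (pderiv j F₂)),
          fun i j s => (6 : k)⁻¹ * constantCoeff (pderiv i (pderiv j (pderiv s F₃)))⟩ : Dat k n)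
        = C (6 : k)⁻¹ * ∑ s, X s * ∑ j, X j * ∑ i, X i * pderiv i (pderiv j (pderiv s F₃)) := by
          unfold CC Cq
          simp only [Finset.mul_sum]
          refine Finset.sum_congr rfl fun i _ => Finset.sum_congr rfl fun j _ =>
            Finset.sum_congr rfl fun s _ => ?_
          have h6 : pderiv s (pderiv j (pderiv i F₃)) = pderiv i (pderiv j (pderiv s F₃)) := by
            rw [Q1_comm j i F₃, Q1_comm s i, Q1_comm s j F₃]
          rw [h6, h4 i j s, map_mul]
          simp only [algebraMap_eq, constantCoeff_C]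
          ring
      _ = F₃ := by rw [← e5, ← mul_assoc, e6, one_mul]

end Pool.Agent.LibHP.CI
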