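import Pool.Agent.LibHPC.Defs0
import Pool.Agent.LibHPF.Q23

set_option autoImplicit false
open MvPolynomial

namespace Pool.Agent.LibHP.CI

variable {k : Type} [Field k] [CharZero k] {n : ℕ} {D : Dat k n}

/-!
# Row E23: first order behaviour of the moves

NOTATION. `HasJet f a b` : `f ∈ Ω(t)` has expansion `a + b t + ...`. See LibHPF/Q23.lean (proved; `q23_sum`, `q23_congr`,
`q23_algebraMap`, `HasJet.Phi` and the models of all steps).

PLAN of `jets_move`. `w = prj W` (constant), `z' = prj z` has the jet `(d x, d β)` with `d = dd D P e₁ e₂` (`prj` is linear in `z`,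
`prj_tangent` for `x`, `β`). `st w z' = b(z', z') w - 2 b(w, z') z'` has the jet with value `- 2 d^2 b(w, x) x` and derivative
`2 d^2 b(x, β) w - 2 d^2 b(w, β) x - 2 d^2 b(w, x) β`, where `b(x, x) = 0`, `b(x, β) = 0`. So `v = st w z'` has the jet
`(λ x, μ x + λ β)`, `λ = - 2 d^2 b(w, x) ≠ 0`. `mv P v = g(v, v, v) P - 3 g(P, v, v) v`: `g(v, v, v)` has the jet
`(λ^3 g(x, x, x), 3 λ^2 g(x, x, μ x + λ β)) = (0, 0)` and `-3 g(P, v, v) v` has value `-3 λ^3 g(P, x, x) x` and derivative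
(multiple of `x`) `+ (-3 λ^3 g(P, x, x)) β`. `c0 = -3 λ^3 g(P, x, x)`.
`jets_anchor`: the value of `mvz` at `t = 0` is `g(v, v, v) P - 3 g(P, v, v) v = g(v, v, v) P`.
-/

theorem HasJet.Bq {Ω : Type} [Field Ω] [Algebra k Ω] (x y : Fin (n + 1) → RatFunc Ω)
    (x0 x1 y0 y1 : Fin (n + 1) → Ω) (hx : ∀ i, HasJet (x i) (x0 i) (x1 i))
    (hy : ∀ i, HasJet (y i) (y0 i) (y1 i)) :
    HasJet (Bq D x y) (Bq D x0 y0) (Bq D x1 y0 + Bq D x0 y1) := by
  unfold CI.Bq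
  simp only [← Finset.sum_add_distrib]
  refine q23_sum _ _ _ _ fun i => q23_sum _ _ _ _ fun j => ?_
  refine q23_congr ((q23_algebraMap (Ω := Ω) (D.β i j)).mul ((hx i).mul (hy j))) rfl ?_
  ring

theorem HasJet.Cq {Ω : Type} [Field Ω] [Algebra k Ω] (x y z : Fin (n + 1) → RatFunc Ω)
    (x0 x1 y0 y1 z0 z1 : Fin (n + 1) → Ω) (hx : ∀ i, HasJet (x i) (x0 i) (x1 i))
    (hy : ∀ i, HasJet (y i) (y0 i) (y1 i)) (hz : ∀ i, HasJet (z i) (z0 i) (z1 i)) :
    HasJet (Cq D x y z) (Cq D x0 y0 z0)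
      (Cq D x1 y0 z0 + Cq D x0 y1 z0 + Cq D x0 y0 z1) := by
  unfold CI.Cq
  simp only [← Finset.sum_add_distrib]
  refine q23_sum _ _ _ _ fun i => q23_sum _ _ _ _ fun j => q23_sum _ _ _ _ fun s => ?_
  refine q23_congr ((q23_algebraMap (Ω := Ω) (D.γ i j s)).mul
    (((hx i).mul (hy j)).mul (hz s))) rfl ?_
  ring

/-- The jets of the determinant. -/
private theorem e23_dd {Ω : Type} [Field Ω] [Algebra k Ω] (P : Fin (n + 1) → Ω)
    (a b : Fin (n + 1) → RatFunc Ω) (a0 a1 b0 b1 : Fin (n + 1) → Ω)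
    (ha : ∀ i, HasJet (a i) (a0 i) (a1 i)) (hb : ∀ i, HasJet (b i) (b0 i) (b1 i)) :
    HasJet (dd D (fun j => RatFunc.C (P j)) a b) (dd D P a0 b0)
      (dd D P a1 b0 + dd D P a0 b1) := by
  have hP : ∀ i, HasJet (RatFunc.C (P i)) (P i) ((0 : Fin (n + 1) → Ω) i) := fun i => HasJet.C _
  have h1 := HasJet.Bq (D := D) _ _ _ _ _ _ hP ha
  have h2 := HasJet.Bq (D := D) _ _ _ _ _ _ hP hb
  have h3 := HasJet.Cq (D := D) _ _ _ _ _ _ _ _ _ hP hP ha
  have h4 := HasJet.Cq (D := D) _ _ _ _ _ _ _ _ _ hP hP hb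
  have h5 := (h1.mul h4).add (h2.mul h3).neg
  unfold dd
  rw [sub_eq_add_neg]
  refine q23_congr h5 ?_ ?_
  · ring
  · simp only [Bq_zero1, Cq_zero1, Cq_zero2]
    ring

private theorem e23_dd_zero1 {Ω : Type} [Field Ω] [Algebra k Ω] (P b : Fin (n + 1) → Ω) :
    dd D P 0 b = 0 := by
  simp only [dd, Bq_zero2, Cq_zero3]
  ring

private theorem e23_dd_zero2 {Ω : Type} [Field Ω] [Algebra k Ω] (P b : Fin (n + 1) → Ω) :
    dd D P b 0 = 0 := by
  simp only [dd, Bq_zero2, Cq_zero3]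
  ring

/-- The jets of the projection. -/
private theorem e23_prj {Ω : Type} [Field Ω] [Algebra k Ω] (P e₁ e₂ x β : Fin (n + 1) → Ω)
    (z : Fin (n + 1) → RatFunc Ω) (hz : ∀ i, HasJet (z i) (x i) (β i)) (i : Fin (n + 1)) :
    HasJet (prj D (fun j => RatFunc.C (P j)) (fun j => RatFunc.C (e₁ j))
      (fun j => RatFunc.C (e₂ j)) z i) (prj D P e₁ e₂ x i) (prj D P e₁ e₂ β i) := by
  have he1 : ∀ i, HasJet (RatFunc.C (e₁ i)) (e₁ i) ((0 : Fin (n + 1) → Ω) i) :=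
    fun i => HasJet.C _
  have he2 : ∀ i, HasJet (RatFunc.C (e₂ i)) (e₂ i) ((0 : Fin (n + 1) → Ω) i) :=
    fun i => HasJet.C _
  have h1 := e23_dd (D := D) P _ _ _ _ _ _ he1 he2
  have h2 := e23_dd (D := D) P _ _ _ _ _ _ hz he2
  have h3 := e23_dd (D := D) P _ _ _ _ _ _ he1 hz
  have h4 := ((h1.mul (hz i)).add (h2.mul (he1 i)).neg).add (h3.mul (he2 i)).neg
  simp only [prj, Pi.sub_apply, Pi.smul_apply, smul_eq_mul]
  rw [sub_eq_add_neg (_ - _), sub_eq_add_neg (_ * z i)]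
  refine q23_congr h4 ?_ ?_
  · ring
  · simp only [e23_dd_zero1, e23_dd_zero2, Pi.zero_apply]
    ring

/-- The jets of the stereographic vector. -/
private theorem e23_st (hD : IsSymm23 D) {Ω : Type} [Field Ω] [Algebra k Ω]
    (w0 a b : Fin (n + 1) → Ω)
    (w z : Fin (n + 1) → RatFunc Ω) (hw : ∀ i, HasJet (w i) (w0 i) ((0 : Fin (n + 1) → Ω) i))
    (hz : ∀ i, HasJet (z i) (a i) (b i)) (i : Fin (n + 1)) :
    HasJet (st D w z i) (st D w0 a i)
      (2 * Bq D a b * w0 i - 2 * Bq D w0 b * a i - 2 * Bq D w0 a * b i) := by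
  have h1 := HasJet.Bq (D := D) _ _ _ _ _ _ hz hz
  have h2 := HasJet.Bq (D := D) _ _ _ _ _ _ hw hz
  have h0 : HasJet (2 : RatFunc Ω) 2 0 := by
    have := HasJet.C (2 : Ω)
    rwa [map_ofNat] at this
  have h3 := (h1.mul (hw i)).add ((h0.mul h2).mul (hz i)).neg
  simp only [st, Pi.sub_apply, Pi.smul_apply, smul_eq_mul]
  rw [sub_eq_add_neg (_ * w i)]
  refine q23_congr h3 ?_ ?_
  · ring
  · simp only [Bq_zero1, Pi.zero_apply]
    rw [Bq_comm hD b a]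
    ring

/-- The jets of the residual point. -/
private theorem e23_mv (hD : IsSymm23 D) {Ω : Type} [Field Ω] [Algebra k Ω]
    (P a b : Fin (n + 1) → Ω)
    (v : Fin (n + 1) → RatFunc Ω) (hv : ∀ i, HasJet (v i) (a i) (b i)) (i : Fin (n + 1)) :
    HasJet (mv D (fun j => RatFunc.C (P j)) v i) (mv D P a i)
      (3 * Cq D a a b * P i - 6 * Cq D P a b * a i - 3 * Cq D P a a * b i) := by
  have hP : ∀ i, HasJet (RatFunc.C (P i)) (P i) ((0 : Fin (n + 1) → Ω) i) := fun i => HasJet.C _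
  have h1 := HasJet.Cq (D := D) _ _ _ _ _ _ _ _ _ hv hv hv
  have h2 := HasJet.Cq (D := D) _ _ _ _ _ _ _ _ _ hP hv hv
  have h0 : HasJet (3 : RatFunc Ω) 3 0 := by
    have := HasJet.C (3 : Ω)
    rwa [map_ofNat] at this
  have h3 := (h1.mul (hP i)).add ((h0.mul h2).mul (hv i)).neg
  simp only [mv, Pi.sub_apply, Pi.smul_apply, smul_eq_mul]
  rw [sub_eq_add_neg (_ * RatFunc.C (P i))]
  have e1 : Cq D a b a = Cq D a a b := Cq_comm23 hD _ _ _
  have e2 : Cq D b a a = Cq D a a b := by rw [Cq_comm12 hD b a a, e1]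
  have e3 : Cq D P b a = Cq D P a b := Cq_comm23 hD _ _ _
  refine q23_congr h3 ?_ ?_
  · ring
  · simp only [Cq_zero1, Pi.zero_apply, e1, e2, e3]
    ring

theorem jets_move (hD : IsSymm23 D) {Ω : Type} [Field Ω] [CharZero Ω] [Algebra k Ω]
    (P e₁ e₂ W x β : Fin (n + 1) → Ω) (he : dd D P e₁ e₂ ≠ 0) (h1 : Bq D P x = 0)
    (h2 : Cq D P P x = 0) (h3 : Bq D x x = 0) (h4 : Cq D P x x ≠ 0) (h5 : Cq D x x x = 0)
    (h6 : Bq D x β = 0) (h7 : Cq D x x β = 0) (h8 : Bq D P β = 0) (h9 : Cq D P P β = 0)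
    (hW : Bq D (prj D P e₁ e₂ W) x ≠ 0) (z : Fin (n + 1) → RatFunc Ω)
    (hz : ∀ i, HasJet (z i) (x i) (β i)) :
    ∃ c0 c1 : Ω, c0 ≠ 0 ∧ ∀ i, HasJet (mvz D (fun j => RatFunc.C (P j))
      (fun j => RatFunc.C (e₁ j)) (fun j => RatFunc.C (e₂ j)) (fun j => RatFunc.C (W j)) z i)
      (c0 * x i) (c1 * x i + c0 * β i) := by
  set l : Ω := dd D P e₁ e₂ with hl
  set w0 : Fin (n + 1) → Ω := prj D P e₁ e₂ W with hw0
  have ex : prj D P e₁ e₂ x = l • x := prj_tangent P e₁ e₂ x h1 h2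
  have eβ : prj D P e₁ e₂ β = l • β := prj_tangent P e₁ e₂ β h8 h9
  have e0 : prj D P e₁ e₂ (0 : Fin (n + 1) → Ω) = 0 := by
    simp only [prj, e23_dd_zero1, e23_dd_zero2, zero_smul, sub_zero, smul_zero]
  have hz' : ∀ i, HasJet (prj D (fun j => RatFunc.C (P j)) (fun j => RatFunc.C (e₁ j))
      (fun j => RatFunc.C (e₂ j)) z i) ((l • x) i) ((l • β) i) := by
    intro i
    have := e23_prj (D := D) P e₁ e₂ x β z hz i
    rwa [ex, eβ] at this
  have hw : ∀ i, HasJet (prj D (fun j => RatFunc.C (P j)) (fun j => RatFunc.C (e₁ j))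
      (fun j => RatFunc.C (e₂ j)) (fun j => RatFunc.C (W j)) i) (w0 i)
      ((0 : Fin (n + 1) → Ω) i) := by
    intro i
    have := e23_prj (D := D) P e₁ e₂ W 0 (fun j => RatFunc.C (W j)) (fun i => HasJet.C _) i
    rwa [e0] at this
  have hv := e23_st hD w0 _ _ _ _ hw hz'
  set ν : Ω := -(2 * l ^ 2 * Bq D w0 x) with hν
  set ν' : Ω := -(2 * l ^ 2 * Bq D w0 β) with hν'
  have hν0 : ν ≠ 0 := by
    rw [hν, neg_ne_zero]
    exact mul_ne_zero (mul_ne_zero two_ne_zero (pow_ne_zero 2 he)) hW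
  have hv' : ∀ i, HasJet (st D
      (prj D (fun j => RatFunc.C (P j)) (fun j => RatFunc.C (e₁ j))
        (fun j => RatFunc.C (e₂ j)) (fun j => RatFunc.C (W j)))
      (prj D (fun j => RatFunc.C (P j)) (fun j => RatFunc.C (e₁ j))
        (fun j => RatFunc.C (e₂ j)) z) i)
      ((ν • x) i) ((ν' • x + ν • β) i) := by
    intro i
    refine q23_congr (hv i) ?_ ?_
    · simp only [st, Bq_smul1, Bq_smul2, h3, Pi.smul_apply, Pi.sub_apply, smul_eq_mul, hν]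
      ring
    · simp only [Bq_smul1, Bq_smul2, h6, Pi.smul_apply, Pi.add_apply, smul_eq_mul, hν, hν']
      ring
  have hm := e23_mv hD P _ _ _ hv'
  refine ⟨-(3 * ν ^ 2 * Cq D P x x * ν),
    -(6 * Cq D P (ν • x) (ν' • x + ν • β) * ν) - 3 * ν ^ 2 * Cq D P x x * ν',
    ?_, fun i => ?_⟩
  · rw [neg_ne_zero]
    exact mul_ne_zero (mul_ne_zero (mul_ne_zero (by norm_num : (3 : Ω) ≠ 0) (pow_ne_zero 2 hν0)) h4) hν0
  · refine q23_congr (hm i) ?_ ?_
    · simp only [mv, Cq_smul1, Cq_smul2, Cq_smul3, h5, Pi.smul_apply, Pi.sub_apply,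
        smul_eq_mul]
      ring
    · simp only [Cq_smul1, Cq_smul2, Cq_smul3, Cq_add3, h5, h7, Pi.smul_apply,
        Pi.add_apply, smul_eq_mul]
      ring

end Pool.Agent.LibHP.CI
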