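import Pool.Agent.LibHPC.E8
import Pool.Agent.LibHPF.Q11

set_option autoImplicit false
open MvPolynomial

namespace Pool.Agent.LibHP.CI

variable {k : Type} [Field k] [CharZero k] {n : ℕ} {D : Dat k n}

/-!
# Row E11: a special point of a prime divisor on the cone of contact directions of the generic point

PLAN. Same proof as `exists_special_point` in LibHPF/Q11.lean (proved), with the `2 + (n - 5) = n - 3` forms over
`Ω = AlgebraicClosure (FractionRing (MvPolynomial (Fin (n - 5) × Fin (n + 1)) K))`: `Bq D P' X` (degree 1),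
`Cq D P' P' X` (degree 1) and `∑ j, C (h (i, j)) * (X j - C (P' j) * X 0)` (degree 1; `i : Fin (n - 5)`), `N = n - 3`
(`exists_common_zero`; `T` has `n - 3` elements, the cone `n - 2 = N + 1`). The point `x ≠ 0` satisfies the homogeneous
relations of `d`, so `b(x, x) = 0`, `g(x, x, x) = 0`. If `g(P', x, x) = 0` then `lines_section` gives `x = c • P'`, `c ≠ 0`, and
`G0(P') = 0`, contradiction.
-/

section Forms
variable {K : Type} [Field K] [Algebra k K]

/-- first form -/
private noncomputable def E11_A (D : Dat k n) (P : Fin (n + 1) → K) :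
    MvPolynomial (Fin (n + 1)) K :=
  Bq D (fun i => C (P i)) X

/-- second form -/
private noncomputable def E11_B (D : Dat k n) (P : Fin (n + 1) → K) :
    MvPolynomial (Fin (n + 1)) K :=
  Cq D (fun i => C (P i)) (fun i => C (P i)) X

omit [CharZero k] in
private theorem E11_homA (P : Fin (n + 1) → K) : (E11_A D P).IsHomogeneous 1 := by
  unfold E11_A Bq
  refine IsHomogeneous.sum _ _ _ fun i _ => IsHomogeneous.sum _ _ _ fun j _ => ?_
  rw [Q11_algebraMap]
  exact (isHomogeneous_C _ _).mul ((isHomogeneous_C _ _).mul (isHomogeneous_X K j))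

omit [CharZero k] in
private theorem E11_homB (P : Fin (n + 1) → K) : (E11_B D P).IsHomogeneous 1 := by
  unfold E11_B Cq
  refine IsHomogeneous.sum _ _ _ fun i _ => IsHomogeneous.sum _ _ _ fun j _ =>
    IsHomogeneous.sum _ _ _ fun s _ => ?_
  rw [Q11_algebraMap]
  exact (isHomogeneous_C _ _).mul
    (((isHomogeneous_C _ _).mul (isHomogeneous_C _ _)).mul (isHomogeneous_X K s))

omit [CharZero k] in
private theorem E11_evalA (P y : Fin (n + 1) → K) : eval y (E11_A D P) = Bq D P y := by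
  unfold E11_A
  rw [Bq_map_ringHom D (eval y) (fun c => by rw [Q11_algebraMap, eval_C])]
  simp only [eval_C, eval_X]

omit [CharZero k] in
private theorem E11_evalB (P y : Fin (n + 1) → K) : eval y (E11_B D P) = Cq D P P y := by
  unfold E11_B
  rw [Cq_map_ringHom D (eval y) (fun c => by rw [Q11_algebraMap, eval_C])]
  simp only [eval_C, eval_X]

end Forms

private theorem E11_core (hD : IsSymm23 D) (hs : Smooth23 D) (hn : 5 ≤ n) {K : Type} [Field K]
    [Algebra k K] (P : Fin (n + 1) → K) (hP : IsGenPt D P) {κ : Type} [Field κ] [Algebra k κ]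
    (d : Fin (n + 1) → κ) (i0 : Fin (n + 1)) (hd : d i0 = 1) (hd2 : Bq D d d = 0)
    (hd3 : Cq D d d d = 0) (T : Fin (n - 3) → MvPolynomial (Fin (n + 1)) k)
    (hT : AlgebraicIndependent k fun i => aeval d (T i))
    (e0 : ℕ) (G0 : MvPolynomial (Fin (n + 1)) k) (hG0 : G0.IsHomogeneous e0)
    (hG0d : aeval d G0 = 0) (hG0F : G0 ∉ II D) (Ω : Type) [Field Ω] [IsAlgClosed Ω]
    [Algebra k Ω] [Algebra K Ω] [IsScalarTower k K Ω] (h : Fin (n - 5) × Fin (n + 1) → Ω)
    (hh : AlgebraicIndependent K h) :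
    ∃ (P' x : Fin (n + 1) → Ω), IsGenPt D P' ∧ x ≠ 0 ∧
      (∀ (e : ℕ) (G : MvPolynomial (Fin (n + 1)) k), G.IsHomogeneous e → aeval d G = 0 →
        aeval x G = 0) ∧
      Bq D P' x = 0 ∧ Cq D P' P' x = 0 ∧ Cq D P' x x ≠ 0 := by
  obtain ⟨κ', _, _, f, s, hs0, hker, hind⟩ := exists_cone_of_point k (Fin (n + 1)) κ d i0 hd
  obtain ⟨T', hT'⟩ := hind (n - 3) T hT
  -- forms vanishing at `d` vanish at the cone point
  have hform : ∀ (e : ℕ) (G : MvPolynomial (Fin (n + 1)) k), G.IsHomogeneous e →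
      aeval d G = 0 → aeval (fun i => s * f (d i)) G = 0 := by
    intro e G hG hGd
    rw [hker]
    intro e'
    rw [homogeneousComponent_of_mem hG]
    split_ifs
    · exact hGd
    · exact map_zero _
  have hP' : IsGenPt D (fun i => algebraMap K Ω (P i)) :=
    hP.map (IsScalarTower.toAlgHom k K Ω)
  obtain ⟨P', hPP'⟩ : ∃ P' : Fin (n + 1) → Ω, P' = fun i => algebraMap K Ω (P i) := ⟨_, rfl⟩
  rw [← hPP'] at hP'
  have hcard : n - 3 = 2 + (n - 5) := by omega
  let eqv : Fin (n - 3) ≃ Fin 2 ⊕ Fin (n - 5) := (finCongr hcard).trans finSumFinEquiv.symm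
  let fm : Fin 2 ⊕ Fin (n - 5) → MvPolynomial (Fin (n + 1)) Ω :=
    Sum.elim ![E11_A D P', E11_B D P'] (fun i => Q11_L P' (fun j => h (i, j)))
  let dg : Fin 2 ⊕ Fin (n - 5) → ℕ := Sum.elim ![1, 1] (fun _ => 1)
  have hdg : ∀ i, 0 < dg i := by
    rintro (i | i)
    · fin_cases i
      · exact Nat.one_pos
      · exact Nat.one_pos
    · exact Nat.one_pos
  have hfm : ∀ i, (fm i).IsHomogeneous (dg i) := by
    rintro (i | i)
    · fin_cases i
      · exact E11_homA P'
      · exact E11_homB P'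
    · exact Q11_homL P' _
  obtain ⟨y, hy0, hyG, hyf⟩ := exists_common_zero k (Fin (n + 1)) Ω κ' (fun i => s * f (d i))
    (fun G hG e => hform e _ (homogeneousComponent_isHomogeneous e G) ((hker G).mp hG e))
    (n - 3) T' hT' (fun i => fm (eqv i)) (fun i => dg (eqv i)) (fun i => hdg _) (fun i => hfm _)
  have hyf' : ∀ i, eval y (fm i) = 0 := fun i => by
    have := hyf (eqv.symm i)
    rwa [eqv.apply_symm_apply] at this
  have e1 : Bq D P' y = 0 := by
    rw [← E11_evalA]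
    exact hyf' (Sum.inl 0)
  have e2 : Cq D P' P' y = 0 := by
    rw [← E11_evalB]
    exact hyf' (Sum.inl 1)
  have e3 : ∀ i, ∑ j, h (i, j) * (y j - y 0 * P' j) = 0 := fun i => by
    rw [← Q11_evalL P' (fun j => h (i, j)) y]
    exact hyf' (Sum.inr i)
  have hyd : ∀ (e : ℕ) (G : MvPolynomial (Fin (n + 1)) k), G.IsHomogeneous e → aeval d G = 0 →
      aeval y G = 0 := fun e G hG hGd => hyG G (hform e G hG hGd)
  have e4 : Bq D y y = 0 := by
    rw [← aeval_QQ]
    refine hyd 2 _ (isHomogeneous_QQ D) ?_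
    rw [aeval_QQ, hd2]
  have e5 : Cq D y y y = 0 := by
    rw [← aeval_CC]
    refine hyd 3 _ (isHomogeneous_CC D) ?_
    rw [aeval_CC, hd3]
  refine ⟨P', y, hP', hy0, hyd, e1, e2, fun e6 => ?_⟩
  obtain ⟨c, hc⟩ := lines_section hD hs hn P hP h hh P' y (fun i => congrFun hPP' i) e1 e4 e2 e6
    e5 e3
  have hc0 : c ≠ 0 := by
    rintro rfl
    exact hy0 (by rw [hc, zero_smul])
  have h6 := hyd e0 G0 hG0 hG0d
  have h7 : y = fun i => c * P' i := hc
  rw [h7, Q11_scale hG0] at h6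
  rcases mul_eq_zero.mp h6 with h8 | h8
  · exact hc0 (eq_zero_of_pow_eq_zero h8)
  · exact hG0F ((hP'.2 e0 G0 hG0).mp h8)

theorem exists_special_point (hD : IsSymm23 D) (hs : Smooth23 D) (hn : 5 ≤ n) {K : Type} [Field K]
    [Algebra k K] (P : Fin (n + 1) → K) (hP : IsGenPt D P) {κ : Type} [Field κ] [Algebra k κ]
    (d : Fin (n + 1) → κ) (i0 : Fin (n + 1)) (hd : d i0 = 1) (hd2 : Bq D d d = 0)
    (hd3 : Cq D d d d = 0) (T : Fin (n - 3) → MvPolynomial (Fin (n + 1)) k)
    (hT : AlgebraicIndependent k fun i => aeval d (T i))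
    (e0 : ℕ) (G0 : MvPolynomial (Fin (n + 1)) k) (hG0 : G0.IsHomogeneous e0)
    (hG0d : aeval d G0 = 0) (hG0F : G0 ∉ II D) :
    ∃ (Ω : Type) (_ : Field Ω) (_ : Algebra k Ω) (P' x : Fin (n + 1) → Ω), IsGenPt D P' ∧ x ≠ 0 ∧
      (∀ (e : ℕ) (G : MvPolynomial (Fin (n + 1)) k), G.IsHomogeneous e → aeval d G = 0 →
        aeval x G = 0) ∧
      Bq D P' x = 0 ∧ Cq D P' P' x = 0 ∧ Cq D P' x x ≠ 0 := by
  obtain ⟨Ω, _, _, _, h, hh⟩ := Q11_ind K (Fin (n - 5) × Fin (n + 1))
  letI : Algebra k Ω := ((algebraMap K Ω).comp (algebraMap k K)).toAlgebra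
  haveI : IsScalarTower k K Ω := IsScalarTower.of_algebraMap_eq fun _ => rfl
  obtain ⟨P', x, hx⟩ := E11_core hD hs hn P hP d i0 hd hd2 hd3 T hT e0 G0 hG0 hG0d hG0F Ω h hh
  exact ⟨Ω, _, _, P', x, hx⟩

end Pool.Agent.LibHP.CI
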