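import Pool.Agent.LibHPC.E7
import Pool.Agent.LibHPF.Q12
import Pool.Agent.LibHPF.Q13

set_option autoImplicit false
open MvPolynomial

namespace Pool.Agent.LibHP.CI

variable {k : Type} [Field k] [CharZero k] {n : ℕ} {D : Dat k n}

/-!
# Row E13: from a special point to the generic point of the prime divisor

PLAN. Same proof as `exists_generic_pair` in LibHPF/Q13.lean (proved), with `e = 4` equations in the unknown vector `Y` over
`B = MvPolynomial (Fin (n + 1)) k` (coordinates `Xc` of the point of the divisor): `Bq D Y Y`, `Cq D Y Y Y`, `Bq D Y Xc`,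
`Cq D Y Y Xc`. Their gradients at `(P, x)` are `2 b(P, .)`, `3 g(P, P, .)`, `b(x, .)`, `2 g(P, x, .)`: independent by `pair_indep`.
`going_down_smooth` (LibHPF/Q12.lean) is general.
-/

section Eqs

/-- the four equations -/
private noncomputable def E13_g (D : Dat k n) :
    Fin 4 → MvPolynomial (Fin (n + 1)) (MvPolynomial (Fin (n + 1)) k) :=
  ![Bq D X X, Cq D X X X, Bq D X (Q13_Xc k n), Cq D X X (Q13_Xc k n)]

omit [CharZero k] in
private theorem E13_evalB {E : Type} [Field E] [Algebra k E]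
    (τ : MvPolynomial (Fin (n + 1)) k →+* E)
    (hτ : ∀ c : k, τ (C c) = algebraMap k E c) (y : Fin (n + 1) → E)
    (a b : Fin (n + 1) → MvPolynomial (Fin (n + 1)) (MvPolynomial (Fin (n + 1)) k)) :
    eval₂ τ y (Bq D a b) = Bq D (fun i => eval₂ τ y (a i)) (fun i => eval₂ τ y (b i)) := by
  have h := Bq_map_ringHom D (eval₂Hom τ y) (fun c => by
    rw [MvPolynomial.algebraMap_apply, MvPolynomial.algebraMap_eq, coe_eval₂Hom, eval₂_C]
    exact hτ c) a b
  exact h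

omit [CharZero k] in
private theorem E13_evalC {E : Type} [Field E] [Algebra k E]
    (τ : MvPolynomial (Fin (n + 1)) k →+* E)
    (hτ : ∀ c : k, τ (C c) = algebraMap k E c) (y : Fin (n + 1) → E)
    (a b c : Fin (n + 1) → MvPolynomial (Fin (n + 1)) (MvPolynomial (Fin (n + 1)) k)) :
    eval₂ τ y (Cq D a b c) = Cq D (fun i => eval₂ τ y (a i)) (fun i => eval₂ τ y (b i))
      (fun i => eval₂ τ y (c i)) := by
  have h := Cq_map_ringHom D (eval₂Hom τ y) (fun c => by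
    rw [MvPolynomial.algebraMap_apply, MvPolynomial.algebraMap_eq, coe_eval₂Hom, eval₂_C]
    exact hτ c) a b c
  exact h

omit [CharZero k] in
private theorem E13_jac0 (hD : IsSymm23 D) {E : Type} [Field E] [Algebra k E]
    (τ : MvPolynomial (Fin (n + 1)) k →+* E)
    (hτ : ∀ c : k, τ (C c) = algebraMap k E c) (y : Fin (n + 1) → E) (j : Fin (n + 1)) :
    eval₂ τ y (pderiv j (E13_g D 0)) = 2 * Bq D y (Pi.single j 1) := by
  have h : pderiv j (E13_g D 0) = 2 * Bq D X (fun i => pderiv j (X i)) :=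
    Bq_deriv2 hD (Q13_D k j) X
  rw [h, eval₂_mul, E13_evalB τ hτ, Q13_eX, Q13_dX]
  congr 1
  exact map_ofNat (eval₂Hom τ y) 2

omit [CharZero k] in
private theorem E13_jac1 (hD : IsSymm23 D) {E : Type} [Field E] [Algebra k E]
    (τ : MvPolynomial (Fin (n + 1)) k →+* E)
    (hτ : ∀ c : k, τ (C c) = algebraMap k E c) (y : Fin (n + 1) → E) (j : Fin (n + 1)) :
    eval₂ τ y (pderiv j (E13_g D 1)) = 3 * Cq D y y (Pi.single j 1) := by
  have h : pderiv j (E13_g D 1) = 3 * Cq D X X (fun i => pderiv j (X i)) :=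
    Cq_deriv3 hD (Q13_D k j) X
  rw [h, eval₂_mul, E13_evalC τ hτ, Q13_eX, Q13_dX]
  congr 1
  exact map_ofNat (eval₂Hom τ y) 3

omit [CharZero k] in
private theorem E13_jac2 (hD : IsSymm23 D) {E : Type} [Field E] [Algebra k E]
    (τ : MvPolynomial (Fin (n + 1)) k →+* E)
    (hτ : ∀ c : k, τ (C c) = algebraMap k E c) (y : Fin (n + 1) → E) (j : Fin (n + 1)) :
    eval₂ τ y (pderiv j (E13_g D 2)) = Bq D (fun i => τ (X i)) (Pi.single j 1) := by
  have h : pderiv j (E13_g D 2) = Bq D (Q13_Xc k n) (fun i => pderiv j (X i)) := by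
    have h1 := Bq_deriv D (Q13_D k j) X (Q13_Xc k n)
    have h2 : pderiv j (E13_g D 2) = Q13_D k j (Bq D X (Q13_Xc k n)) := rfl
    rw [h2, h1, Q13_D_Xc, Bq_zero2, add_zero, Bq_comm hD]
    rfl
  rw [h, E13_evalB τ hτ, Q13_dX, Q13_eXc]

omit [CharZero k] in
private theorem E13_jac3 (hD : IsSymm23 D) {E : Type} [Field E] [Algebra k E]
    (τ : MvPolynomial (Fin (n + 1)) k →+* E)
    (hτ : ∀ c : k, τ (C c) = algebraMap k E c) (y : Fin (n + 1) → E) (j : Fin (n + 1)) :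
    eval₂ τ y (pderiv j (E13_g D 3)) =
      2 * Cq D y (fun i => τ (X i)) (Pi.single j 1) := by
  have h : pderiv j (E13_g D 3) = 2 * Cq D X (Q13_Xc k n) (fun i => pderiv j (X i)) := by
    have h1 := Cq_deriv D (Q13_D k j) X X (Q13_Xc k n)
    have h2 : pderiv j (E13_g D 3) = Q13_D k j (Cq D X X (Q13_Xc k n)) := rfl
    rw [h2, h1, Q13_D_Xc, Cq_zero3, add_zero]
    have e2 : Cq D X (fun i => Q13_D k j (X i)) (Q13_Xc k n) =
        Cq D X (Q13_Xc k n) (fun i => Q13_D k j (X i)) := Cq_comm23 hD _ _ _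
    have e1 : Cq D (fun i => Q13_D k j (X i)) X (Q13_Xc k n) =
        Cq D X (Q13_Xc k n) (fun i => Q13_D k j (X i)) := by
      rw [Cq_comm12 hD, e2]
    rw [e1, e2]
    show _ = 2 * Cq D X (Q13_Xc k n) (fun i => Q13_D k j (X i))
    ring
  rw [h, eval₂_mul, E13_evalC τ hτ, Q13_eX, Q13_dX, Q13_eXc]
  congr 1
  exact map_ofNat (eval₂Hom τ y) 2

end Eqs

private theorem E13_jac (hD : IsSymm23 D) (hs : Smooth23 D) {Ω : Type} [Field Ω] [Algebra k Ω]
    (P x : Fin (n + 1) → Ω) (hP : IsGenPt D P) (h1 : Bq D P x = 0) (h2 : Bq D x x = 0)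
    (h3 : Cq D P P x = 0) (h4 : Cq D P x x ≠ 0)
    (τ : MvPolynomial (Fin (n + 1)) k →+* Ω)
    (hτ : ∀ c : k, τ (C c) = algebraMap k Ω c) (hτx : (fun i => τ (X i)) = x) :
    LinearIndependent Ω (fun (i : Fin 4) (j : Fin (n + 1)) =>
      eval₂ τ P (pderiv j (E13_g D i))) := by
  haveI : CharZero Ω := charZero_of_injective_algebraMap (algebraMap k Ω).injective
  rw [Fintype.linearIndependent_iff]
  intro ρ hρ
  rw [Fin.sum_univ_four] at hρ
  have hj : ∀ j : Fin (n + 1), ρ 0 * (2 * Bq D P (Pi.single j 1)) +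
      ρ 1 * (3 * Cq D P P (Pi.single j 1)) + ρ 2 * Bq D x (Pi.single j 1) +
      ρ 3 * (2 * Cq D P x (Pi.single j 1)) = 0 := by
    intro j
    have h5 := congrFun hρ j
    simp only [Pi.add_apply, Pi.smul_apply, smul_eq_mul, Pi.zero_apply] at h5
    rw [E13_jac0 hD τ hτ, E13_jac1 hD τ hτ, E13_jac2 hD τ hτ, E13_jac3 hD τ hτ, hτx] at h5
    exact h5
  have ha : ∀ a : Fin (n + 1) → Ω, (2 * ρ 0) * Bq D P a + (3 * ρ 1) * Cq D P P a +
      ρ 2 * Bq D x a + (2 * ρ 3) * Cq D P x a = 0 := by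
    intro a
    rw [Bq_eq_sum D P a, Cq_eq_sum D P P a, Bq_eq_sum D x a, Cq_eq_sum D P x a, Finset.mul_sum,
      Finset.mul_sum, Finset.mul_sum, Finset.mul_sum, ← Finset.sum_add_distrib,
      ← Finset.sum_add_distrib, ← Finset.sum_add_distrib]
    refine Finset.sum_eq_zero fun j _ => ?_
    have h5 := hj j
    calc 2 * ρ 0 * (a j * Bq D P (Pi.single j 1)) +
          3 * ρ 1 * (a j * Cq D P P (Pi.single j 1)) +
          ρ 2 * (a j * Bq D x (Pi.single j 1)) +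
          2 * ρ 3 * (a j * Cq D P x (Pi.single j 1))
        = a j * (ρ 0 * (2 * Bq D P (Pi.single j 1)) +
          ρ 1 * (3 * Cq D P P (Pi.single j 1)) + ρ 2 * Bq D x (Pi.single j 1) +
          ρ 3 * (2 * Cq D P x (Pi.single j 1))) := by ring
      _ = 0 := by rw [h5, mul_zero]
  have hz := pair_indep hD hs P x hP h1 h2 h3 h4 ![2 * ρ 0, 3 * ρ 1, ρ 2, 2 * ρ 3] ha
  have q0 : 2 * ρ 0 = 0 := congrFun hz 0
  have q1 : 3 * ρ 1 = 0 := congrFun hz 1
  have q2 : ρ 2 = 0 := congrFun hz 2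
  have q3 : 2 * ρ 3 = 0 := congrFun hz 3
  have c3 : (3 : Ω) ≠ 0 := by norm_num
  have c2 : (2 : Ω) ≠ 0 := by norm_num
  intro i
  fin_cases i
  · exact (mul_eq_zero.mp q0).resolve_left c2
  · exact (mul_eq_zero.mp q1).resolve_left c3
  · exact q2
  · exact (mul_eq_zero.mp q3).resolve_left c2

theorem exists_generic_pair (hD : IsSymm23 D) (hs : Smooth23 D) {Ω : Type} [Field Ω] [Algebra k Ω]
    (P x : Fin (n + 1) → Ω) (hP : IsGenPt D P) (h1 : Bq D P x = 0) (h2 : Bq D x x = 0)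
    (h3 : Cq D P P x = 0) (h4 : Cq D P x x ≠ 0) {κ : Type} [Field κ] [Algebra k κ]
    (d : Fin (n + 1) → κ) (i0 : Fin (n + 1)) (hd : d i0 = 1) (hgen : GenBy k d)
    (hsp : ∀ (e : ℕ) (G : MvPolynomial (Fin (n + 1)) k), G.IsHomogeneous e → aeval d G = 0 →
      aeval x G = 0) :
    ∃ (Ω' : Type) (_ : Field Ω') (_ : Algebra k Ω') (g : κ →ₐ[k] Ω') (P' : Fin (n + 1) → Ω'),
      IsGenPt D P' ∧ Bq D P' (fun i => g (d i)) = 0 ∧
      Cq D P' P' (fun i => g (d i)) = 0 ∧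
      Cq D P' (fun i => g (d i)) (fun i => g (d i)) ≠ 0 := by
  obtain ⟨κ', _, _, f, s, hs0, hker, -⟩ := exists_cone_of_point k (Fin (n + 1)) κ d i0 hd
  let 𝔭 : Ideal (MvPolynomial (Fin (n + 1)) k) :=
    RingHom.ker (aeval (fun i => s * f (d i)) : MvPolynomial (Fin (n + 1)) k →ₐ[k] κ')
  have h𝔭 : ∀ G : MvPolynomial (Fin (n + 1)) k,
      G ∈ 𝔭 ↔ ∀ e, aeval d (homogeneousComponent e G) = 0 := fun G => by
    rw [← hker G]
    exact RingHom.mem_ker
  haveI : 𝔭.IsPrime := RingHom.ker_isPrime _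
  let τ : MvPolynomial (Fin (n + 1)) k →+* Ω := (aeval x : _ →ₐ[k] Ω).toRingHom
  have hτ : ∀ c : k, τ (C c) = algebraMap k Ω c := fun c => aeval_C x c
  have hτx : (fun i => τ (X i)) = x := by
    funext i
    exact aeval_X x i
  have hle : ∀ b ∈ 𝔭, τ b = 0 := by
    intro b hb
    rw [h𝔭] at hb
    rw [← sum_homogeneousComponent b, map_sum]
    refine Finset.sum_eq_zero fun e _ => ?_
    exact hsp e _ (homogeneousComponent_isHomogeneous e b) (hb e)
  have hy : ∀ i, eval₂ τ P (E13_g D i) = 0 := by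
    intro i
    fin_cases i
    · show eval₂ τ P (Bq D X X) = 0
      rw [E13_evalB τ hτ, Q13_eX]
      exact hP.self.1
    · show eval₂ τ P (Cq D X X X) = 0
      rw [E13_evalC τ hτ, Q13_eX]
      exact hP.self.2
    · show eval₂ τ P (Bq D X (Q13_Xc k n)) = 0
      rw [E13_evalB τ hτ, Q13_eX, Q13_eXc, hτx]
      exact h1
    · show eval₂ τ P (Cq D X X (Q13_Xc k n)) = 0
      rw [E13_evalC τ hτ, Q13_eX, Q13_eXc, hτx]
      exact h3
  obtain ⟨Ω', _, τ', y', hkτ, hy', hspec⟩ := going_down_smooth (MvPolynomial (Fin (n + 1)) k)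
    (n + 1) 4 (E13_g D) Ω τ P hy (E13_jac hD hs P x hP h1 h2 h3 h4 τ hτ hτx) 𝔭 hle
  letI : Algebra k Ω' := (τ'.comp C).toAlgebra
  have hτ' : ∀ c : k, τ' (C c) = algebraMap k Ω' c := fun c => rfl
  obtain ⟨x', hx'⟩ : ∃ x' : Fin (n + 1) → Ω', x' = fun i => τ' (X i) := ⟨_, rfl⟩
  have hax : ∀ G : MvPolynomial (Fin (n + 1)) k, aeval x' G = τ' G := by
    intro G
    have h4 : (aeval x' : MvPolynomial (Fin (n + 1)) k →ₐ[k] Ω').toRingHom = τ' := by
      refine MvPolynomial.ringHom_ext (fun c => ?_) (fun i => ?_)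
      · exact (aeval_C x' c).trans (hτ' c).symm
      · exact (aeval_X x' i).trans (congrFun hx' i)
    exact congrArg (fun F : MvPolynomial (Fin (n + 1)) k →+* Ω' => F G) h4
  have hx0 : ∀ G : MvPolynomial (Fin (n + 1)) k,
      aeval x' G = 0 ↔ ∀ e, aeval d (homogeneousComponent e G) = 0 := fun G => by
    rw [hax, ← h𝔭, ← hkτ]
    exact RingHom.mem_ker.symm
  have hxh : ∀ (e : ℕ) (G : MvPolynomial (Fin (n + 1)) k), G.IsHomogeneous e →
      (aeval d G = 0 ↔ aeval x' G = 0) := by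
    intro e G hG
    rw [hx0]
    constructor
    · intro h4 e'
      rw [homogeneousComponent_of_mem hG]
      split_ifs
      · exact h4
      · exact map_zero _
    · intro h4
      have h5 := h4 e
      rw [homogeneousComponent_of_mem hG, if_pos rfl] at h5
      exact h5
  have hxi0 : x' i0 ≠ 0 := by
    intro h4
    have h5 := (hxh 1 (X i0) (isHomogeneous_X k i0)).mpr (by rw [aeval_X]; exact h4)
    rw [aeval_X, hd] at h5
    exact one_ne_zero h5
  obtain ⟨g, hg⟩ := exists_hom_of_gen k (Fin (n + 1)) κ Ω' d i0 hd hgen x' hxi0 hxh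
  have hy0 : y' 0 ≠ 0 := by
    intro h4
    have h5 := hspec (X 0) (by rw [eval₂_X]; exact h4)
    rw [eval₂_X, hP.1] at h5
    exact one_ne_zero h5
  have hyG : ∀ G : MvPolynomial (Fin (n + 1)) k, aeval y' G = 0 → aeval P G = 0 := by
    intro G hG
    have h5 := hspec (map C G) (by rw [eval₂_map]; exact hG)
    rw [eval₂_map] at h5
    have h6 : τ.comp C = algebraMap k Ω := RingHom.ext hτ
    rw [h6] at h5
    exact h5
  have f0 : Bq D y' y' = 0 := by
    have h4 : eval₂ τ' y' (Bq D X X) = 0 := hy' 0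
    rwa [E13_evalB τ' hτ', Q13_eX] at h4
  have f1 : Cq D y' y' y' = 0 := by
    have h4 : eval₂ τ' y' (Cq D X X X) = 0 := hy' 1
    rwa [E13_evalC τ' hτ', Q13_eX] at h4
  have f2 : Bq D y' x' = 0 := by
    have h4 : eval₂ τ' y' (Bq D X (Q13_Xc k n)) = 0 := hy' 2
    rwa [E13_evalB τ' hτ', Q13_eX, Q13_eXc, ← hx'] at h4
  have f3 : Cq D y' y' x' = 0 := by
    have h4 : eval₂ τ' y' (Cq D X X (Q13_Xc k n)) = 0 := hy' 3
    rwa [E13_evalC τ' hτ', Q13_eX, Q13_eXc, ← hx'] at h4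
  have f4 : Cq D y' x' x' ≠ 0 := by
    intro h5
    have h6 := hspec (Cq D X (Q13_Xc k n) (Q13_Xc k n)) (by
      rw [E13_evalC τ' hτ', Q13_eX, Q13_eXc, ← hx']
      exact h5)
    rw [E13_evalC τ hτ, Q13_eX, Q13_eXc, hτx] at h6
    exact h4 h6
  have hgd : (fun i => g (d i)) = (x' i0)⁻¹ • x' := by
    funext i
    rw [hg i, Pi.smul_apply, smul_eq_mul, div_eq_inv_mul]
  have hyi : (y' 0)⁻¹ ≠ 0 := inv_ne_zero hy0
  have hxi : (x' i0)⁻¹ ≠ 0 := inv_ne_zero hxi0
  refine ⟨Ω', inferInstance, inferInstance, g, (y' 0)⁻¹ • y', ⟨?_, ?_⟩, ?_, ?_, ?_⟩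
  · rw [Pi.smul_apply, smul_eq_mul, inv_mul_cancel₀ hy0]
  · intro e G hG
    have h5 : aeval ((y' 0)⁻¹ • y') G = (y' 0)⁻¹ ^ e * aeval y' G := Q13_scale hG (y' 0)⁻¹ y'
    rw [h5]
    constructor
    · intro h6
      rcases mul_eq_zero.mp h6 with h7 | h7
      · exact absurd h7 (pow_ne_zero e hyi)
      · exact (hP.2 e G hG).mp (hyG G h7)
    · intro h6
      rw [aeval_of_mem_II D y' f0 f1 G h6, mul_zero]
  · rw [hgd, Bq_smul1, Bq_smul2, f2]
    simp only [mul_zero]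
  · rw [hgd, Cq_smul1, Cq_smul2, Cq_smul3, f3]
    simp only [mul_zero]
  · rw [hgd, Cq_smul1, Cq_smul2, Cq_smul3]
    exact mul_ne_zero hyi (mul_ne_zero hxi (mul_ne_zero hxi f4))

end Pool.Agent.LibHP.CI
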