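import Pool.Agent.LibHPC.E6

set_option autoImplicit false
open MvPolynomial

namespace Pool.Agent.LibHP.CI

variable {k : Type} [Field k] [CharZero k] {n : ℕ} {D : Dat k n}

/-!
# Row E7: independence of gradients

NOTATION. `b(x, y) = Bq D x y`, `g(x, y, z) = Cq D x y z`. See LibHPF/T1.lean (proved) for the model of the derivation
arguments (`exists_derivation_pt` needs `c 0 = 0`: for a tangent vector `β` at `x` use `β - β 0 • x`).

PLAN. `pair_indep` (`P` generic). Put `a = x`: `ρ 3 * g(P, x, x) = 0` (`b(P, x) = g(P, P, x) = b(x, x) = 0`), `ρ 3 = 0`. If `ρ 2 ≠ 0`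
then `b(x, .)` is a combination of `b(P, .)` and `g(P, P, .)`, so `x = c • P` by `lemmaA`, and `g(P, x, x) = 0`, contradiction.
So `ρ 2 = 0`, and `ρ 0 = ρ 1 = 0` by `grad_ne`.

`tri_indep` (`x` generic). Put `a = x`: `ρ 3 = 0` (`b(x, x) = 0`, `b(P, x) = 0`, `g(P, P, x) = 0`). Let `β` be tangent at `x`
(`b(x, β) = 0`, `g(x, x, β) = 0`) with `β 0 = 0`, `δ` a derivation with `δx = β`, `a = δP`. `δ` of `h1, h2, h3`:
`b(P, a) = 0`, `g(P, P, a) = 0`, `b(a, x) + b(P, β) = 0`. The relation at `a`: `ρ 2 * b(x, a) = 0`, i.e. `ρ 2 * b(P, β) = 0`. Suppose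
`ρ 2 ≠ 0`: `b(P, β) = 0` for all tangent `β` with `β 0 = 0`, hence for all tangent `β` (subtract `β 0 • x`, `b(P, x) = 0`). So
`b(P, a) = ν b(x, a) + μ g(x, x, a)` for all `a` (functional vanishing on a common kernel). At `a = P`:
`0 = b(P, P) = ν b(x, P) + μ g(x, x, P) = μ g(P, x, x)`, so `μ = 0`: `u = P - ν x` is a vertex (`b(u, a) = 0` for all `a`). With
`A = g(x, x, u) = g(P, x, x) ≠ 0` (`g(x, x, x) = 0`), `B = g(x, u, u)`, `E = g(u, u, u)`: `h4` is
`0 = g(νx + u, νx + u, x) = 2 ν A + B`; `0 = g(P, P, P) - ν g(P, P, x) = g(P, P, u) = ν^2 A + 2 ν B + E`. So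
`B = -2 ν A`, `E = 3 ν^2 A`, `4 E A = 3 B^2`, and `u = 0` by `vertex_relation` (at the generic point `x`), contradiction to
`A ≠ 0`. So `ρ 2 = 0`; then `ρ 0 b(P, .) + ρ 1 g(P, P, .) = 0` and `smooth_ext` at `P` (`P ≠ 0`) gives `ρ 0 = ρ 1 = 0`.

`bad_indep` (`x` generic). If `ρ 3 = 0`: if `ρ 1 ≠ 0`, `b(v, .)` is a combination of `b(x, .)` and `g(x, x, .)`, `v = c • x` by `lemmaA`,
contradiction; so `ρ 1 = 0` and `grad_ne`. Let `ρ 3 ≠ 0`. For tangent `β` at `x`, `β 0 = 0`, `δx = β`, `w = δv`: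
`b(β, v) + b(x, w) = 0`, `b(v, w) = 0`, `2 g(x, β, v) + g(x, x, w) = 0`, `g(β, v, v) + 2 g(x, v, w) = 0`. The relation at `w`:
`ρ 0 * b(v, β) + 2 * ρ 2 * g(x, v, β) + (ρ 3 / 2) * g(v, v, β) = 0`; it holds also for `β = x` (each term vanishes), so for all
tangent `β`, so there are `x1, x2` with `ρ 0 * b(v, a) + 2 * ρ 2 * g(x, v, a) + (ρ 3 / 2) * g(v, v, a) = x1 b(x, a) + x2 g(x, x, a)`
for all `a`. At `a = v`: `(ρ 3 / 2) * g(v, v, v) = 0`. So `g(v, v, v) = 0` and `lemmaB` with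
`![ρ 0, ρ 1, ρ 2, ρ 3, 0]` gives `ρ 3 = 0`, contradiction.
-/

/-- A functional vanishing on the common kernel of two functionals. -/
private theorem E7_span {Ω V : Type} [Field Ω] [AddCommGroup V] [Module Ω V]
    (f g h : V →ₗ[Ω] Ω) (H : ∀ a, g a = 0 → h a = 0 → f a = 0) :
    ∃ x y : Ω, ∀ a, f a = x * g a + y * h a := by
  have h1 : f ∈ Submodule.span Ω (Set.range ![g, h]) := by
    refine mem_span_of_iInf_ker_le_ker ?_
    intro a ha
    rw [Submodule.mem_iInf] at ha
    have h2 := ha 0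
    have h3 := ha 1
    rw [LinearMap.mem_ker] at h2 h3 ⊢
    exact H a h2 h3
  have h2 : Set.range ![g, h] = {g, h} := by
    rw [Matrix.range_cons, Matrix.range_cons, Matrix.range_empty, Set.union_empty]
    rfl
  rw [h2, Submodule.mem_span_pair] at h1
  obtain ⟨x, y, hxy⟩ := h1
  refine ⟨x, y, fun a => ?_⟩
  rw [← hxy]
  rfl

/-- A functional vanishing at the generic point and on the tangent vectors with first coordinate
zero is a combination of the two gradients. -/
private theorem E7_all {Ω : Type} [Field Ω] [Algebra k Ω] (x : Fin (n + 1) → Ω)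
    (hx : IsGenPt D x) (f : (Fin (n + 1) → Ω) →ₗ[Ω] Ω) (hfx : f x = 0)
    (hf : ∀ b, Bq D x b = 0 → Cq D x x b = 0 → b 0 = 0 → f b = 0) :
    ∃ ν μ : Ω, ∀ a, f a = ν * Bq D x a + μ * Cq D x x a := by
  refine E7_span f (BqL D x) (CqL D x x) fun b hb1 hb2 => ?_
  rw [BqL_apply] at hb1
  rw [CqL_apply] at hb2
  obtain ⟨hx2, hx3⟩ := hx.self
  have h2 := hf (b - b 0 • x) (by rw [Bq_sub2, Bq_smul2, hb1, hx2]; ring)
    (by rw [Cq_sub3, Cq_smul3, hb2, hx3]; ring)
    (by rw [Pi.sub_apply, Pi.smul_apply, smul_eq_mul, hx.1, mul_one, sub_self])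
  rw [map_sub, map_smul, hfx, smul_zero, sub_zero] at h2
  exact h2

theorem pair_indep (hD : IsSymm23 D) (hs : Smooth23 D) {Ω : Type} [Field Ω] [Algebra k Ω]
    (P x : Fin (n + 1) → Ω) (hP : IsGenPt D P) (h1 : Bq D P x = 0) (h2 : Bq D x x = 0)
    (h3 : Cq D P P x = 0) (h4 : Cq D P x x ≠ 0) (ρ : Fin 4 → Ω)
    (hρ : ∀ a, ρ 0 * Bq D P a + ρ 1 * Cq D P P a + ρ 2 * Bq D x a + ρ 3 * Cq D P x a = 0) :
    ρ = 0 := by
  obtain ⟨hPP, hPPP⟩ := hP.self
  have hr3 : ρ 3 = 0 := by
    have h5 := hρ x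
    rw [h1, h2, h3, mul_zero, mul_zero, mul_zero, zero_add, zero_add, zero_add] at h5
    exact (mul_eq_zero.1 h5).resolve_right h4
  have hr2 : ρ 2 = 0 := by
    by_contra hr2
    obtain ⟨c, hc⟩ := lemmaA' hD hs P x hP h1 h3 (fun a ha1 ha2 => by
      have h5 := hρ a
      rw [ha1, ha2, hr3] at h5
      have h6 : ρ 2 * Bq D x a = 0 := by linear_combination h5
      exact (mul_eq_zero.1 h6).resolve_left hr2)
    apply h4
    rw [hc, Cq_smul2, Cq_smul3, hPPP]
    ring
  have hr := grad_ne hs P hP (ρ 0) (ρ 1) (fun a => by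
    have h5 := hρ a
    rw [hr2, hr3] at h5
    linear_combination h5)
  funext j
  fin_cases j
  · exact hr.1
  · exact hr.2
  · exact hr2
  · exact hr3

theorem tri_indep (hD : IsSymm23 D) (hs : Smooth23 D) {Ω : Type} [Field Ω] [Algebra k Ω]
    (x P : Fin (n + 1) → Ω) (hx : IsGenPt D x) (h1 : Bq D P P = 0) (h2 : Cq D P P P = 0)
    (h3 : Bq D P x = 0) (h4 : Cq D P P x = 0) (h5 : Cq D P x x ≠ 0) (ρ : Fin 4 → Ω)
    (hρ : ∀ a, ρ 0 * Bq D P a + ρ 1 * Cq D P P a + ρ 2 * Bq D x a + ρ 3 * Cq D P x a = 0) :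
    ρ = 0 := by
  have hch : CharZero Ω := charZero_of_injective_algebraMap (algebraMap k Ω).injective
  obtain ⟨hxx, hxxx⟩ := hx.self
  have hP0 : P ≠ 0 := by
    intro h6
    apply h5
    rw [h6, Cq_zero1]
  have hr3 : ρ 3 = 0 := by
    have h6 := hρ x
    rw [h3, h4, hxx, mul_zero, mul_zero, mul_zero, zero_add, zero_add, zero_add] at h6
    exact (mul_eq_zero.1 h6).resolve_right h5
  have h3' : Bq D x P = 0 := by rw [Bq_comm hD]; exact h3
  have h5' : Cq D x x P ≠ 0 := by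
    rw [Cq_comm23 hD, Cq_comm12 hD]
    exact h5
  have hr2 : ρ 2 = 0 := by
    by_contra hr2
    obtain ⟨ν, μ, hall⟩ := E7_all x hx (BqL D P) (by rw [BqL_apply]; exact h3)
      (fun β hb1 hb2 hb0 => by
        obtain ⟨δ, hδ⟩ := exists_derivation_pt hD x β hx hb1 hb2 hb0
        have hδx : (fun i => δ (x i)) = β := funext hδ
        have e1 := Bq_deriv2 hD δ P
        rw [h1, map_zero] at e1
        have e1' : Bq D P (fun i => δ (P i)) = 0 :=
          (mul_eq_zero.1 e1.symm).resolve_left (by norm_num)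
        have e2 := Cq_deriv3 hD δ P
        rw [h2, map_zero] at e2
        have e2' : Cq D P P (fun i => δ (P i)) = 0 :=
          (mul_eq_zero.1 e2.symm).resolve_left (by norm_num)
        have e3 := Bq_deriv D δ P x
        rw [h3, map_zero, hδx, Bq_comm hD (fun i => δ (P i)) x] at e3
        have e4 := hρ (fun i => δ (P i))
        rw [e1', e2', hr3] at e4
        have e5 : ρ 2 * Bq D x (fun i => δ (P i)) = 0 := by linear_combination e4
        have e6 := (mul_eq_zero.1 e5).resolve_left hr2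
        rw [BqL_apply]
        rw [e6] at e3
        linear_combination -e3)
    have hall' : ∀ a, Bq D P a = ν * Bq D x a + μ * Cq D x x a := hall
    have hμ : μ = 0 := by
      have h6 := hall' P
      rw [h1, h3'] at h6
      have h7 : μ * Cq D x x P = 0 := by linear_combination -h6
      exact (mul_eq_zero.1 h7).resolve_right h5'
    obtain ⟨u, hu⟩ : ∃ u, u = P - ν • x := ⟨_, rfl⟩
    have hPu : P = ν • x + u := by rw [hu]; abel
    have hub : ∀ a, Bq D u a = 0 := by
      intro a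
      rw [hu, Bq_sub1, Bq_smul1, hall', hμ]
      ring
    have hA : Cq D x x u ≠ 0 := by
      rw [hu, Cq_sub3, Cq_smul3, hxxx, mul_zero, sub_zero]
      exact h5'
    have s1 : Cq D x u x = Cq D x x u := Cq_comm23 hD _ _ _
    have s2 : Cq D u x x = Cq D x x u := by rw [Cq_comm12 hD, s1]
    have s3 : Cq D u u x = Cq D x u u := by rw [Cq_comm23 hD, Cq_comm12 hD]
    have s4 : Cq D u x u = Cq D x u u := Cq_comm12 hD _ _ _
    have hB : 2 * ν * Cq D x x u + Cq D x u u = 0 := by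
      have h6 := h4
      rw [hPu] at h6
      simp only [Cq_add1, Cq_add2, Cq_smul1, Cq_smul2, s1, s2, s3, hxxx] at h6
      linear_combination h6
    have hE : ν ^ 2 * Cq D x x u + 2 * ν * Cq D x u u + Cq D u u u = 0 := by
      have h6 : Cq D P P u = 0 := by
        have h7 : Cq D P P u = Cq D P P P - ν * Cq D P P x := by
          rw [hu, Cq_sub3, Cq_smul3]
        rw [h7, h2, h4]
        ring
      rw [hPu] at h6
      simp only [Cq_add1, Cq_add2, Cq_smul1, Cq_smul2, s4] at h6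
      linear_combination h6
    have hu0 : u = 0 := by
      refine vertex_relation hs x u hx.2 hub ?_
      have hB' : Cq D x u u = -(2 * ν * Cq D x x u) := by linear_combination hB
      have hE' : Cq D u u u = 3 * ν ^ 2 * Cq D x x u := by
        rw [hB'] at hE
        linear_combination hE
      rw [hB', hE']
      ring
    apply hA
    rw [hu0, Cq_zero3]
  have hr := smooth_ext hs P hP0 h1 h2 (ρ 0) (ρ 1) (fun a => by
    have h6 := hρ a
    rw [hr2, hr3] at h6
    linear_combination h6)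
  funext j
  fin_cases j
  · exact hr.1
  · exact hr.2
  · exact hr2
  · exact hr3

theorem bad_indep (hD : IsSymm23 D) (hs : Smooth23 D) {Ω : Type} [Field Ω] [Algebra k Ω]
    (x v : Fin (n + 1) → Ω) (hx : IsGenPt D x) (h1 : Bq D x v = 0) (h2 : Bq D v v = 0)
    (h3 : Cq D x x v = 0) (h4 : Cq D x v v = 0) (hv : ∀ c : Ω, v ≠ c • x) (ρ : Fin 4 → Ω)
    (hρ : ∀ a, ρ 0 * Bq D x a + ρ 1 * Bq D v a + ρ 2 * Cq D x x a + ρ 3 * Cq D x v a = 0) :
    ρ = 0 := by
  have hch : CharZero Ω := charZero_of_injective_algebraMap (algebraMap k Ω).injective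
  obtain ⟨hxx, hxxx⟩ := hx.self
  have hr3 : ρ 3 = 0 := by
    by_contra hr3
    obtain ⟨f, hf⟩ : ∃ f : (Fin (n + 1) → Ω) →ₗ[Ω] Ω, ∀ b, f b = ρ 0 * Bq D v b +
        2 * ρ 2 * Cq D x v b + ρ 3 / 2 * Cq D v v b := by
      refine ⟨ρ 0 • BqL D v + (2 * ρ 2) • CqL D x v + (ρ 3 / 2) • CqL D v v, fun b => ?_⟩
      simp only [LinearMap.add_apply, LinearMap.smul_apply, BqL_apply, CqL_apply, smul_eq_mul]
    obtain ⟨x1, x2, hall⟩ := E7_all x hx f
      (by
        rw [hf, Bq_comm hD v x, Cq_comm23 hD x v x, Cq_comm23 hD v v x, Cq_comm12 hD v x v, h1,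
          h3, h4]
        ring)
      (fun β hb1 hb2 hb0 => by
        obtain ⟨δ, hδ⟩ := exists_derivation_pt hD x β hx hb1 hb2 hb0
        have hδx : (fun i => δ (x i)) = β := funext hδ
        have e1 := Bq_deriv D δ x v
        rw [h1, map_zero, hδx, Bq_comm hD β v] at e1
        have e2 := Bq_deriv2 hD δ v
        rw [h2, map_zero] at e2
        have e3 := Cq_deriv D δ x x v
        rw [h3, map_zero, hδx, Cq_comm12 hD β x v, Cq_comm23 hD x β v] at e3
        have e4 := Cq_deriv D δ x v v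
        rw [h4, map_zero, hδx, Cq_comm12 hD β v v, Cq_comm23 hD v β v,
          Cq_comm23 hD x (fun i => δ (v i)) v] at e4
        have e5 := hρ (fun i => δ (v i))
        rw [hf]
        linear_combination -e5 - ρ 0 * e1 - ρ 1 / 2 * e2 - ρ 2 * e3 - ρ 3 / 2 * e4)
    have h5 := hall v
    rw [hf, h1, h2, h3, h4] at h5
    have h6 : Cq D v v v = 0 := by
      have h7 : ρ 3 / 2 * Cq D v v v = 0 := by linear_combination h5
      rcases mul_eq_zero.1 h7 with h | h
      · rcases div_eq_zero_iff.1 h with h | h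
        · exact absurd h hr3
        · exact absurd h (by norm_num)
      · exact h
    have h8 := lemmaB hD hs x v hx h1 h3 h2 h4 h6 hv ![ρ 0, ρ 1, ρ 2, ρ 3, 0] (fun a => by
      have h9 := hρ a
      change ρ 0 * Bq D x a + ρ 1 * Bq D v a + ρ 2 * Cq D x x a + ρ 3 * Cq D x v a +
        0 * Cq D v v a = 0
      linear_combination h9)
    exact hr3 (congrFun h8 3)
  have hr1 : ρ 1 = 0 := by
    by_contra hr1
    obtain ⟨c, hc⟩ := lemmaA' hD hs x v hx h1 h3 (fun a ha1 ha2 => by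
      have h5 := hρ a
      rw [ha1, ha2, hr3] at h5
      have h6 : ρ 1 * Bq D v a = 0 := by linear_combination h5
      exact (mul_eq_zero.1 h6).resolve_left hr1)
    exact hv c hc
  have hr := grad_ne hs x hx (ρ 0) (ρ 2) (fun a => by
    have h5 := hρ a
    rw [hr1, hr3] at h5
    linear_combination h5)
  funext j
  fin_cases j
  · exact hr.1
  · exact hr1
  · exact hr.2
  · exact hr3

end Pool.Agent.LibHP.CI
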