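import Pool.Agent.LibHPC.E2
import Pool.Agent.LibHPC.E7

set_option autoImplicit false
open MvPolynomial

namespace Pool.Agent.LibHP.CI

variable {k : Type} [Field k] [CharZero k] {n : ℕ} {D : Dat k n}

/-!
# Row E15: adapting a transversal tangent vector

PLAN. See `exists_tangent` in LibHPF/Q15.lean (proved). By `pair_indep` (four independent functionals take arbitrary
values) there is `a` with `b(P, a) = 0`, `g(P, P, a) = 0`, `b(x, a) = - b(P, ξ)`, `g(P, x, a) = -(1/2) g(P, P, ξ)`; subtract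
`a 0 • P` (all four values do not change: `b(P, P) = g(P, P, P) = 0`, `b(x, P) = 0`, `g(P, x, P) = 0`), so `a 0 = 0`. Let `δ` be a
derivation with `δP = a` (`exists_derivation_pt`) and `β i = ξ i - δ (x i)`. For `G` with `aeval x G = 0`:
`0 = δ (aeval x G) = ∑ i, δ (x i) * aeval x (pderiv i G)` (see Q15.lean), which gives the last property. `δ (b(P, x)) = 0`:
`b(a, x) + b(P, δx) = 0`, so `b(P, β) = b(P, ξ) + b(a, x) = 0`. `δ (g(P, P, x)) = 0`: `2 g(P, a, x) + g(P, P, δx) = 0`, so
`g(P, P, β) = g(P, P, ξ) + 2 g(P, x, a) = 0`.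
-/

/-- chain rule for a derivation -/
private theorem E15_chain {k Ω σ : Type} [Field k] [Field Ω] [Algebra k Ω] [Fintype σ]
    (δ : Derivation k Ω Ω) (x : σ → Ω) (G : MvPolynomial σ k) :
    δ (aeval x G) = ∑ i, δ (x i) * aeval x (pderiv i G) := by
  classical
  induction G using MvPolynomial.induction_on with
  | C a => simp
  | add p q hp hq =>
    simp only [map_add, mul_add, Finset.sum_add_distrib, hp, hq]
  | mul_X p j hp =>
    have h1 : ∀ i, δ (x i) * aeval x (pderiv i (p * X j)) =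
        (if i = j then aeval x p * δ (x j) else 0) +
          x j * (δ (x i) * aeval x (pderiv i p)) := by
      intro i
      rw [Derivation.leibniz, pderiv_X]
      by_cases h : i = j
      · subst h
        simp only [smul_eq_mul, Pi.single_eq_same, mul_one, map_add, map_mul, aeval_X, if_true]
        ring
      · simp only [smul_eq_mul, Pi.single_eq_of_ne (Ne.symm h), mul_zero, zero_add, map_mul,
          aeval_X, if_neg h]
        ring
    rw [Finset.sum_congr rfl fun i _ => h1 i, Finset.sum_add_distrib, ← Finset.mul_sum, ← hp,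
      Finset.sum_ite_eq' Finset.univ j, if_pos (Finset.mem_univ j), map_mul, aeval_X,
      Derivation.leibniz, smul_eq_mul, smul_eq_mul]

/-- independent functionals take arbitrary values -/
private theorem E15_values {Ω V : Type} [Field Ω] [AddCommGroup V] [Module Ω V] {m : ℕ}
    (L : Fin m → V →ₗ[Ω] Ω)
    (hL : ∀ ρ : Fin m → Ω, (∀ a, ∑ i, ρ i * L i a = 0) → ρ = 0) (b : Fin m → Ω) :
    ∃ a : V, ∀ i, L i a = b i := by
  have h : LinearMap.range (LinearMap.pi L) = ⊤ := by
    by_contra hcon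
    obtain ⟨f, hf, hle⟩ := Submodule.exists_le_ker_of_lt_top _ (lt_top_iff_ne_top.2 hcon)
    apply hf
    have h1 : (fun i => f (fun j => if i = j then 1 else 0)) = (0 : Fin m → Ω) := by
      refine hL _ fun a => ?_
      have h2 : f (LinearMap.pi L a) = 0 := hle (LinearMap.mem_range_self _ a)
      rw [f.pi_apply_eq_sum_univ] at h2
      simp only [LinearMap.pi_apply, smul_eq_mul] at h2
      exact Eq.trans (Finset.sum_congr rfl fun i _ => mul_comm _ _) h2
    refine LinearMap.ext fun y => ?_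
    rw [f.pi_apply_eq_sum_univ]
    refine Finset.sum_eq_zero fun i _ => ?_
    have h3 := congrFun h1 i
    simp only [Pi.zero_apply] at h3
    rw [h3, smul_zero]
  have hb : b ∈ LinearMap.range (LinearMap.pi L) := by rw [h]; trivial
  obtain ⟨a, ha⟩ := hb
  exact ⟨a, fun i => congrFun ha i⟩

theorem exists_tangent (hD : IsSymm23 D) (hs : Smooth23 D) {Ω : Type} [Field Ω] [Algebra k Ω]
    (P x ξ : Fin (n + 1) → Ω) (hP : IsGenPt D P) (h1 : Bq D P x = 0) (h2 : Bq D x x = 0)
    (h3 : Cq D P P x = 0) (h4 : Cq D P x x ≠ 0) :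
    ∃ β : Fin (n + 1) → Ω, Bq D P β = 0 ∧ Cq D P P β = 0 ∧
      ∀ G : MvPolynomial (Fin (n + 1)) k, aeval x G = 0 →
        ∑ i, β i * aeval x (pderiv i G) = ∑ i, ξ i * aeval x (pderiv i G) := by
  have hc : CharZero Ω := charZero_of_injective_algebraMap (algebraMap k Ω).injective
  have hPP : Bq D P P = 0 := by
    have h := (hP.2 2 (QQ D) (isHomogeneous_QQ D)).2 (QQ_mem D)
    rwa [aeval_QQ] at h
  have hPPP : Cq D P P P = 0 := by
    have h := (hP.2 3 (CC D) (isHomogeneous_CC D)).2 (CC_mem D)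
    rwa [aeval_CC] at h
  have e1 : Bq D x P = 0 := by rw [Bq_comm hD, h1]
  have e2 : Cq D P x P = 0 := by rw [Cq_comm23 hD, h3]
  -- the four functionals are independent
  obtain ⟨a', ha'⟩ := E15_values ![BqL D P, CqL D P P, BqL D x, CqL D P x] (by
    intro ρ hρ
    refine pair_indep hD hs P x hP h1 h2 h3 h4 ρ fun a => ?_
    have h := hρ a
    rw [Fin.sum_univ_four] at h
    exact h)
    ![0, 0, -Bq D P ξ, -(1 / 2) * Cq D P P ξ]
  have a0 : Bq D P a' = 0 := ha' 0
  have a1 : Cq D P P a' = 0 := ha' 1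
  have a2 : Bq D x a' = -Bq D P ξ := ha' 2
  have a3 : Cq D P x a' = -(1 / 2) * Cq D P P ξ := ha' 3
  obtain ⟨a, haP, ha0, ha1, ha2, ha3⟩ : ∃ a : Fin (n + 1) → Ω, a 0 = 0 ∧ Bq D P a = 0 ∧
      Cq D P P a = 0 ∧ Bq D x a = -Bq D P ξ ∧ Cq D P x a = -(1 / 2) * Cq D P P ξ := by
    refine ⟨a' - a' 0 • P, ?_, ?_, ?_, ?_, ?_⟩
    · rw [Pi.sub_apply, Pi.smul_apply, hP.1, smul_eq_mul, mul_one, sub_self]
    · rw [Bq_sub2, Bq_smul2, hPP, a0, mul_zero, sub_zero]
    · rw [Cq_sub3, Cq_smul3, hPPP, a1, mul_zero, sub_zero]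
    · rw [Bq_sub2, Bq_smul2, e1, a2, mul_zero, sub_zero]
    · rw [Cq_sub3, Cq_smul3, e2, a3, mul_zero, sub_zero]
  obtain ⟨δ, hδ⟩ := exists_derivation_pt hD P a hP ha0 ha1 haP
  have hδP : (fun i => δ (P i)) = a := funext hδ
  have d1 := congrArg δ h1
  rw [Bq_deriv, hδP, map_zero, Bq_comm hD a x, ha2] at d1
  have d2 := congrArg δ h3
  rw [Cq_deriv, hδP, map_zero, Cq_comm12 hD a P x, Cq_comm23 hD P a x, ha3] at d2
  refine ⟨ξ - fun i => δ (x i), ?_, ?_, ?_⟩
  · rw [Bq_sub2]
    linear_combination (-1 : Ω) * d1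
  · rw [Cq_sub3]
    linear_combination (-1 : Ω) * d2
  · intro G hG
    have h5 := E15_chain δ x G
    rw [hG, map_zero] at h5
    simp only [Pi.sub_apply, sub_mul, Finset.sum_sub_distrib]
    rw [← h5, sub_zero]

end Pool.Agent.LibHP.CI
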