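import Pool.Agent.LibHPC.E10
import Pool.Agent.LibHPC.E11
import Pool.Agent.LibHPC.E13
import Pool.Agent.LibHPC.E15
import Pool.Agent.LibHPF.Q25

set_option autoImplicit false
open MvPolynomial

namespace Pool.Agent.LibHP.CI

variable {k : Type} [Field k] [CharZero k] {n : ℕ} {D : Dat k n}

/-!
# Row E25: the data at a prime divisor of a chart

PLAN. Same proof as `exists_datum` in LibHPF/Q25.lean (proved), with: `independent_chart` (row E10; `n - 2 = (n - 3) + 1`
independent elements of the chart ring) and `exists_algebraicIndependent_of_height_one` (LibHPF/Q9.lean), which give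
`n - 3` independent elements of `chartRing / p`; `exists_special_point` (E11), `exists_generic_pair` (E13),
`exists_derivation_of_dvr` (LibHPF/Q14.lean), `exists_tangent` (E15). `G0`: homogenization of a nonzero element of `p`
(see Q25.lean). `b(x, x) = g(x, x, x) = 0` because `QQ D`, `CC D` are relations of the chart; `b(x, β) = g(x, x, β) = 0` by the
last property of `exists_tangent` for `G = QQ D`, `CC D` (`sum_pderiv_QQ`, `sum_pderiv_CC`) and the fact that the vector `ξ`
comes from a derivation of the chart ring. `β i = 0`: subtract `β i • x` if necessary (as in Q25.lean; all conditions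
are stable: `b(P', x) = g(P', P', x) = b(x, x) = g(x, x, x) = 0`, and Euler's identity for homogeneous relations, or choose
it as in Q25.lean).
-/

private theorem E25_smul {k σ E : Type} [Field k] [CommRing E] [Algebra k E]
    {F : MvPolynomial σ k} {D : ℕ} (hF : F.IsHomogeneous D) (c : E) (y : σ → E) :
    aeval (fun j => c * y j) F = c ^ D * aeval y F := by
  rw [aeval_def, aeval_def, eval₂_eq, eval₂_eq, Finset.mul_sum]
  refine Finset.sum_congr rfl fun d hd => ?_
  have hdeg : ∑ i ∈ d.support, d i = D := by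
    by_contra hne
    exact (MvPolynomial.mem_support_iff.1 hd) (hF.coeff_eq_zero hne)
  have h1 : ∏ i ∈ d.support, (c * y i) ^ d i = c ^ D * ∏ i ∈ d.support, y i ^ d i := by
    rw [← hdeg, ← Finset.prod_pow_eq_pow_sum, ← Finset.prod_mul_distrib]
    exact Finset.prod_congr rfl fun i _ => mul_pow _ _ _
  rw [h1]
  ring

/-- the homogenisation -/
private noncomputable def E25_h {k σ : Type} [Field k] (i0 : σ) (G : MvPolynomial σ k) :
    MvPolynomial σ k :=
  ∑ e ∈ Finset.range (G.totalDegree + 1),
    X i0 ^ (G.totalDegree - e) * homogeneousComponent e G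

private theorem E25_h_hom {k σ : Type} [Field k] (i0 : σ) (G : MvPolynomial σ k) :
    (E25_h i0 G).IsHomogeneous G.totalDegree := by
  unfold E25_h
  refine IsHomogeneous.sum _ _ _ fun e he => ?_
  have h1 := (isHomogeneous_X_pow (R := k) i0 (G.totalDegree - e)).mul
    (homogeneousComponent_isHomogeneous e G)
  have h2 : G.totalDegree - e + e = G.totalDegree := by
    rw [Finset.mem_range] at he
    omega
  rwa [h2] at h1

private theorem E25_h_eval {k σ E : Type} [Field k] [Field E] [Algebra k E] (i0 : σ)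
    (G : MvPolynomial σ k) (x : σ → E) (hx : x i0 = 1) : aeval x (E25_h i0 G) = aeval x G := by
  conv_rhs => rw [← sum_homogeneousComponent G]
  unfold E25_h
  rw [map_sum, map_sum]
  refine Finset.sum_congr rfl fun e _ => ?_
  rw [map_mul, map_pow, aeval_X, hx, one_pow, one_mul]

omit [CharZero k] in
/-- The chain rule for a derivation of the chart with values in a field. -/
private theorem E25_chain {K : Type} [Field K] [Algebra k K] (P : Fin (n + 1) → K)
    (i : Fin (n + 1)) {κ Ω : Type} [Field κ] [Algebra k κ] [Algebra (chartRing k P i) κ]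
    [IsScalarTower k (chartRing k P i) κ] [Field Ω] [Algebra k Ω]
    (Dv : Derivation k (chartRing k P i) κ) (g : κ →ₐ[k] Ω) (x : Fin (n + 1) → Ω)
    (hx : ∀ G : MvPolynomial (Fin (n + 1)) k,
      aeval x G = g (algebraMap (chartRing k P i) κ (chartMap k P i G)))
    (G : MvPolynomial (Fin (n + 1)) k) :
    ∑ l, g (Dv (chartMap k P i (X l))) * aeval x (pderiv l G) = g (Dv (chartMap k P i G)) := by
  induction G using MvPolynomial.induction_on with
  | C c =>
    simp only [pderiv_C, map_zero, mul_zero, Finset.sum_const_zero]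
    have h1 : chartMap k P i (C c) = algebraMap k (chartRing k P i) c := by
      rw [← MvPolynomial.algebraMap_eq]
      exact (chartMap k P i).commutes c
    rw [h1, Derivation.map_algebraMap, map_zero]
  | add p q hp hq =>
    simp only [map_add, mul_add, Finset.sum_add_distrib, hp, hq]
  | mul_X p j hp =>
    have h1 : ∀ l, aeval x (pderiv l (p * X j)) =
        aeval x (pderiv l p) * x j + aeval x p * (if l = j then 1 else 0) := by
      intro l
      rw [Derivation.leibniz, map_add, smul_eq_mul, smul_eq_mul, map_mul, map_mul, aeval_X,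
        pderiv_X]
      by_cases h : l = j
      · subst h
        rw [if_pos rfl, Pi.single_eq_same, map_one]
        ring
      · rw [if_neg h, Pi.single_eq_of_ne (Ne.symm h), map_zero]
        ring
    simp only [h1, mul_add, Finset.sum_add_distrib]
    rw [map_mul, Derivation.leibniz, map_add, Algebra.smul_def, Algebra.smul_def, map_mul,
      map_mul, ← hx, ← hx, aeval_X, ← hp]
    have h2 : ∑ l, g (Dv (chartMap k P i (X l))) * (aeval x p * (if l = j then 1 else 0)) =
        g (Dv (chartMap k P i (X j))) * aeval x p := by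
      rw [Finset.sum_eq_single j]
      · rw [if_pos rfl, mul_one]
      · intro l _ hl
        rw [if_neg hl, mul_zero, mul_zero]
      · intro h
        exact absurd (Finset.mem_univ _) h
    rw [h2, Finset.mul_sum, add_comm]
    congr 1
    · ring
    · exact Finset.sum_congr rfl fun l _ => by ring

theorem exists_datum (hD : IsSymm23 D) (hs : Smooth23 D) (hn : 5 ≤ n) {K : Type} [Field K]
    [Algebra k K] (P : Fin (n + 1) → K) (hP : IsGenPt D P) (i : Fin (n + 1))
    (p : Ideal (chartRing k P i)) [p.IsPrime] (hp : p.height = 1)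
    (hdvr : IsDiscreteValuationRing (Localization.AtPrime p)) :
    ∃ (Ω : Type) (_ : Field Ω) (_ : Algebra k Ω) (P' x β : Fin (n + 1) → Ω), IsGenPt D P' ∧
      x i = 1 ∧ β i = 0 ∧ Bq D P' x = 0 ∧ Cq D P' P' x = 0 ∧ Cq D P' x x ≠ 0 ∧
      Bq D x x = 0 ∧ Cq D x x x = 0 ∧ Bq D x β = 0 ∧ Cq D x x β = 0 ∧
      Bq D P' β = 0 ∧ Cq D P' P' β = 0 ∧
      (∀ G : MvPolynomial (Fin (n + 1)) k, aeval x G = 0 ↔ chartMap k P i G ∈ p) ∧
      ∃ G : MvPolynomial (Fin (n + 1)) k, aeval x G = 0 ∧
        ∑ l, β l * aeval x (pderiv l G) ≠ 0 := by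
  have hPi : P i ≠ 0 := hP.ne_zero i
  have hFT : Algebra.FiniteType k (chartRing k P i) :=
    Algebra.FiniteType.of_surjective (chartMap k P i) (chartMap_surjective k P i)
  set π : chartRing k P i →ₐ[k] p.ResidueField :=
    IsScalarTower.toAlgHom k (chartRing k P i) p.ResidueField with hπ
  have hπa : ∀ a, π a = algebraMap (chartRing k P i) p.ResidueField a := fun a => rfl
  have hπ0 : ∀ a, π a = 0 ↔ a ∈ p := fun a => Ideal.algebraMap_residueField_eq_zero
  set d : Fin (n + 1) → p.ResidueField := fun l => π (chartMap k P i (X l)) with hd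
  have hev : ∀ G, aeval d G = π (chartMap k P i G) := by
    intro G
    have h : (π.comp (chartMap k P i)) = aeval d := by
      refine MvPolynomial.algHom_ext fun l => ?_
      rw [aeval_X]
      rfl
    rw [← h]
    rfl
  have hXi : chartMap k P i (X i) = 1 := by
    refine Subtype.ext ?_
    rw [coe_chartMap, aeval_X, div_self hPi]
    rfl
  have hdi : d i = 1 := by
    rw [hd]
    show π (chartMap k P i (X i)) = 1
    rw [hXi, map_one]
  have hscale : ∀ (e : ℕ) (G : MvPolynomial (Fin (n + 1)) k), G.IsHomogeneous e →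
      (chartMap k P i G : K) = (P i)⁻¹ ^ e * aeval P G := by
    intro e G hG
    rw [coe_chartMap, ← E25_smul hG]
    congr 2
    funext j
    rw [div_eq_inv_mul]
  have hQ0 : chartMap k P i (QQ D) = 0 := by
    refine Subtype.ext ?_
    rw [hscale 2 _ (isHomogeneous_QQ D), (hP.2 2 _ (isHomogeneous_QQ D)).2 (QQ_mem D), mul_zero]
    rfl
  have hC0 : chartMap k P i (CC D) = 0 := by
    refine Subtype.ext ?_
    rw [hscale 3 _ (isHomogeneous_CC D), (hP.2 3 _ (isHomogeneous_CC D)).2 (CC_mem D), mul_zero]
    rfl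
  have hQd : Bq D d d = 0 := by
    rw [← aeval_QQ, hev, hQ0, map_zero]
  have hCd : Cq D d d d = 0 := by
    rw [← aeval_CC, hev, hC0, map_zero]
  have hgen : GenBy k d := by
    intro z
    have hnt : Nontrivial (chartRing k P i ⧸ p) :=
      Ideal.Quotient.nontrivial_iff.2 Ideal.IsPrime.ne_top'
    obtain ⟨a, b, hb, rfl⟩ := IsFractionRing.div_surjective (A := chartRing k P i ⧸ p) z
    obtain ⟨a, rfl⟩ := Ideal.Quotient.mk_surjective a
    obtain ⟨b, rfl⟩ := Ideal.Quotient.mk_surjective b
    obtain ⟨G, rfl⟩ := chartMap_surjective k P i a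
    obtain ⟨H, rfl⟩ := chartMap_surjective k P i b
    have hb' : algebraMap (chartRing k P i ⧸ p) p.ResidueField
        (Ideal.Quotient.mk p (chartMap k P i H)) ≠ 0 :=
      IsFractionRing.to_map_ne_zero_of_mem_nonZeroDivisors hb
    rw [Ideal.algebraMap_quotient_residueField_mk] at hb'
    refine ⟨G, H, ?_, ?_⟩
    · rw [hev]
      exact hb'
    · rw [hev, hev, Ideal.algebraMap_quotient_residueField_mk,
        Ideal.algebraMap_quotient_residueField_mk]
      exact div_mul_cancel₀ _ hb'
  -- transcendence degree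
  obtain ⟨T, hT⟩ : ∃ T : Fin (n - 3) → MvPolynomial (Fin (n + 1)) k,
      AlgebraicIndependent k fun m => aeval d (T m) := by
    obtain ⟨t0, ht0⟩ := independent_chart hD hs (by omega : 3 ≤ n) P hP i
    have hn2 : n - 3 + 1 = n - 2 := by omega
    have ht := ht0.comp (Fin.cast hn2) (Fin.cast_injective hn2)
    obtain ⟨u, hu⟩ := exists_algebraicIndependent_of_height_one k (chartRing k P i) (n - 3)
      (t0 ∘ Fin.cast hn2) ht p hp
    have hlift : ∀ m, ∃ T : MvPolynomial (Fin (n + 1)) k,
        Ideal.Quotient.mk p (chartMap k P i T) = u m := by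
      intro m
      obtain ⟨a, ha⟩ := Ideal.Quotient.mk_surjective (u m)
      obtain ⟨G, rfl⟩ := chartMap_surjective k P i a
      exact ⟨G, ha⟩
    choose T hT using hlift
    refine ⟨T, ?_⟩
    have h1 := hu.map' (f := IsScalarTower.toAlgHom k (chartRing k P i ⧸ p) p.ResidueField)
      (Ideal.injective_algebraMap_quotient_residueField p)
    have h2 : (fun m => aeval d (T m)) =
        (IsScalarTower.toAlgHom k (chartRing k P i ⧸ p) p.ResidueField) ∘ u := by
      funext m
      rw [hev, Function.comp_apply, ← hT m]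
      exact (Ideal.algebraMap_quotient_residueField_mk p _).symm
    rw [h2]
    exact h1
  -- the form `G0`
  have hpbot : p ≠ ⊥ := by
    rintro rfl
    rw [Ideal.height_bot] at hp
    exact zero_ne_one hp
  obtain ⟨a, hap, ha0⟩ := Submodule.exists_mem_ne_zero_of_ne_bot hpbot
  obtain ⟨G', rfl⟩ := chartMap_surjective k P i a
  have hG0d : aeval d (E25_h i G') = 0 := by
    rw [E25_h_eval i G' d hdi, hev]
    exact (hπ0 _).2 hap
  have hG0F : E25_h i G' ∉ II D := by
    intro hdvd
    apply ha0
    refine Subtype.ext ?_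
    have h1 : aeval P (E25_h i G') = 0 := (hP.2 _ _ (E25_h_hom i G')).2 hdvd
    have h2 := hscale _ _ (E25_h_hom i G')
    rw [h1, mul_zero, coe_chartMap, E25_h_eval i G' _ (div_self hPi), ← coe_chartMap] at h2
    exact h2
  obtain ⟨Ω1, _, _, P1, x1, hP1, -, hsp, h1, h2, h3⟩ := exists_special_point hD hs hn P hP d i hdi
    hQd hCd T hT _ _ (E25_h_hom i G') hG0d hG0F
  have h10 : Bq D x1 x1 = 0 := by
    rw [← aeval_QQ]
    exact hsp 2 _ (isHomogeneous_QQ D) (by rw [aeval_QQ, hQd])
  obtain ⟨Ω, _, _, g, P', hP', h1', h2', h3'⟩ := exists_generic_pair hD hs P1 x1 hP1 h1 h10 h2 h3 d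
    i hdi hgen hsp
  obtain ⟨Dv, a0, ha0p, hDa0⟩ := exists_derivation_of_dvr k (chartRing k P i) p hdvr
  set x : Fin (n + 1) → Ω := fun l => g (d l) with hx
  have hevx : ∀ G : MvPolynomial (Fin (n + 1)) k, aeval x G = g (π (chartMap k P i G)) := by
    intro G
    rw [← hev]
    exact (MvPolynomial.comp_aeval_apply (φ := g) d G).symm
  have hchain := E25_chain P i Dv g x hevx
  have hxQ : aeval x (QQ D) = 0 := by
    rw [hevx, hQ0, map_zero, map_zero]
  have hxC : aeval x (CC D) = 0 := by
    rw [hevx, hC0, map_zero, map_zero]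
  have hxQ' : Bq D x x = 0 := by
    rw [← aeval_QQ]
    exact hxQ
  have hxC' : Cq D x x x = 0 := by
    rw [← aeval_CC]
    exact hxC
  obtain ⟨β, hβ1, hβ2, hβ3⟩ := exists_tangent hD hs P' x
    (fun l => g (Dv (chartMap k P i (X l)))) hP' h1' hxQ' h2' h3'
  have hβ : ∀ G : MvPolynomial (Fin (n + 1)) k, aeval x G = 0 →
      ∑ l, β l * aeval x (pderiv l G) = g (Dv (chartMap k P i G)) := by
    intro G hG
    rw [hβ3 G hG]
    exact hchain G
  have hcz : CharZero Ω := charZero_of_injective_algebraMap (algebraMap k Ω).injective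
  refine ⟨Ω, inferInstance, inferInstance, P', x, β, hP', ?_, ?_, h1', h2', h3', hxQ', hxC', ?_, ?_,
    hβ1, hβ2, ?_, ?_⟩
  · rw [hx]
    show g (d i) = 1
    rw [hdi, map_one]
  · have h4 : chartMap k P i (X i - 1) = 0 := by
      rw [map_sub, hXi, map_one, sub_self]
    have h5 := hβ (X i - 1) (by rw [hevx, h4, map_zero, map_zero])
    rw [h4, map_zero, map_zero] at h5
    rw [← h5, Finset.sum_eq_single i]
    · rw [map_sub, pderiv_X_self, pderiv_one, sub_zero, map_one, mul_one]
    · intro l _ hl
      rw [map_sub, pderiv_X_of_ne (Ne.symm hl), pderiv_one, sub_zero, map_zero, mul_zero]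
    · intro h
      exact absurd (Finset.mem_univ _) h
  · have h4 := hβ (QQ D) hxQ
    rw [hQ0, map_zero, map_zero, sum_pderiv_QQ hD] at h4
    exact (mul_eq_zero.1 h4).resolve_left (by norm_num)
  · have h4 := hβ (CC D) hxC
    rw [hC0, map_zero, map_zero, sum_pderiv_CC hD] at h4
    exact (mul_eq_zero.1 h4).resolve_left (by norm_num)
  · intro G
    rw [hevx, map_eq_zero_iff g g.injective]
    exact hπ0 _
  · obtain ⟨G, rfl⟩ := chartMap_surjective k P i a0
    have hG : aeval x G = 0 := by
      rw [hevx, (hπ0 _).2 ha0p, map_zero]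
    refine ⟨G, hG, ?_⟩
    rw [hβ G hG]
    exact fun h => hDa0 ((map_eq_zero_iff g g.injective).1 h)

end Pool.Agent.LibHP.CI
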