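import Pool.Agent.LibHPC.E16
import Pool.Agent.LibHPC.E23
import Pool.Agent.LibHPC.E25
import Pool.Agent.LibHPF.Q26

set_option autoImplicit false
open MvPolynomial

namespace Pool.Agent.LibHP.CI

variable {k : Type} [Field k] [CharZero k] {n : ℕ} {D : Dat k n}

/-!
# Row E26: the family of moves meets every prime divisor transversally

PLAN. Same proof as `metAt_all` in LibHPF/Q26.lean (proved), with `exists_datum` (E25), `prime_quadW`, `quadW_not_dvd` (E16),
`jets_move` (E23), `map_quadW`, `eval₂_quadW` (Defs0), `exists_joint` (Q18), `exists_hom_of_gen` (Q19), `exists_arc`,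
`exists_valuation_at_zero`, `IsUnif.comap` (Q22), `HasJet.aeval`, `generator_of_unif` (Q26a). `x` is not a multiple of `P'`:
`Cq D P' x x ≠ 0`.
-/

/-- The jets of the moved point, in the affine coordinates of a chart. -/
private theorem E26_core (hD : IsSymm23 D) {K M Ω4 : Type} [Field K] [Field M] [Algebra k M]
    [Field Ω4] [Algebra k Ω4] [CharZero Ω4] (P : Fin (n + 1) → K)
    (W PM eM₁ eM₂ : Fin (n + 1) → M) (σ : K →+* RF M (n + 1))
    (hσ : ∀ i, σ (P i) * mvRF D PM eM₁ eM₂ W 0 = mvRF D PM eM₁ eM₂ W i)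
    (h0 : mvRF D PM eM₁ eM₂ W 0 ≠ 0)
    (i : Fin (n + 1)) (θ : RF M (n + 1) →ₐ[k] RatFunc Ω4)
    (P4 e4 f4 W4 x4 β4 : Fin (n + 1) → Ω4)
    (hθP : ∀ l, θ (algebraMap M (RF M (n + 1)) (PM l)) = RatFunc.C (P4 l))
    (hθe : ∀ l, θ (algebraMap M (RF M (n + 1)) (eM₁ l)) = RatFunc.C (e4 l))
    (hθf : ∀ l, θ (algebraMap M (RF M (n + 1)) (eM₂ l)) = RatFunc.C (f4 l))
    (hθW : ∀ l, θ (algebraMap M (RF M (n + 1)) (W l)) = RatFunc.C (W4 l))
    (hθX : ∀ l, HasJet (θ (algebraMap (MvPolynomial (Fin (n + 1)) M) (RF M (n + 1)) (X l)))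
      (x4 l) (β4 l))
    (he : dd D P4 e4 f4 ≠ 0) (h1 : Bq D P4 x4 = 0)
    (h2 : Cq D P4 P4 x4 = 0) (h3 : Bq D x4 x4 = 0) (h4 : Cq D P4 x4 x4 ≠ 0)
    (h5 : Cq D x4 x4 x4 = 0) (h6 : Bq D x4 β4 = 0) (h7 : Cq D x4 x4 β4 = 0)
    (h8 : Bq D P4 β4 = 0) (h9 : Cq D P4 P4 β4 = 0)
    (hW : Bq D (prj D P4 e4 f4 W4) x4 ≠ 0) (hx : x4 i = 1) (hβ : β4 i = 0) (l : Fin (n + 1)) :
    HasJet (θ (σ (P l / P i))) (x4 l) (β4 l) := by
  obtain ⟨c0, c1, hc0, hc⟩ := jets_move hD P4 e4 f4 W4 x4 β4 he h1 h2 h3 h4 h5 h6 h7 h8 h9 hW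
    (fun l => θ (algebraMap (MvPolynomial (Fin (n + 1)) M) (RF M (n + 1)) (X l))) hθX
  have hY : ∀ l, HasJet (θ (mvRF D PM eM₁ eM₂ W l)) (c0 * x4 l) (c1 * x4 l + c0 * β4 l) := by
    intro l
    have hm := mvz_map D θ (fun i => algebraMap M (RF M (n + 1)) (PM i))
      (fun i => algebraMap M (RF M (n + 1)) (eM₁ i))
      (fun i => algebraMap M (RF M (n + 1)) (eM₂ i)) (fun i => algebraMap M (RF M (n + 1)) (W i))
      (fun i => algebraMap (MvPolynomial (Fin (n + 1)) M) (RF M (n + 1)) (X i)) l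
    simp only [hθP, hθe, hθf, hθW] at hm
    have hm2 : θ (mvRF D PM eM₁ eM₂ W l) = mvz D (fun j => RatFunc.C (P4 j))
      (fun j => RatFunc.C (e4 j)) (fun j => RatFunc.C (f4 j)) (fun j => RatFunc.C (W4 j))
      (fun l => θ (algebraMap (MvPolynomial (Fin (n + 1)) M) (RF M (n + 1)) (X l))) l := hm
    rw [hm2]
    exact hc l
  have hθi : Function.Injective θ := θ.toRingHom.injective
  have hY0 : θ (mvRF D PM eM₁ eM₂ W 0) ≠ 0 := fun h => h0 ((map_eq_zero_iff θ hθi).1 h)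
  have hσ' : ∀ l, θ (σ (P l)) * θ (mvRF D PM eM₁ eM₂ W 0) = θ (mvRF D PM eM₁ eM₂ W l) := by
    intro l
    rw [← map_mul, hσ]
  have hYi : θ (mvRF D PM eM₁ eM₂ W i) ≠ 0 := by
    intro h
    have h8 := hY i
    rw [h] at h8
    have h9 : HasJet (0 : RatFunc Ω4) 0 0 := by
      have := HasJet.C (0 : Ω4)
      rwa [map_zero] at this
    have h10 := (h8.unique h9).1
    rw [hx, mul_one] at h10
    exact hc0 h10
  have hq : θ (σ (P l / P i)) = θ (mvRF D PM eM₁ eM₂ W l) * (θ (mvRF D PM eM₁ eM₂ W i))⁻¹ := by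
    rw [map_div₀, map_div₀, ← hσ' l, ← hσ' i, mul_inv, div_eq_mul_inv]
    field_simp
  rw [hq]
  have hi := hY i
  rw [hx, hβ, mul_one, mul_one, mul_zero, add_zero] at hi
  have hj := (hY l).mul (hi.inv hc0)
  have e1 : c0 * x4 l * c0⁻¹ = x4 l := by field_simp
  have e2 : c0 * x4 l * -(c1 / c0 ^ 2) + c0⁻¹ * (c1 * x4 l + c0 * β4 l) = β4 l := by
    field_simp
    ring
  rw [e1, e2] at hj
  exact hj

/-- The conclusion from the jets. -/
private theorem E26_fin {K M Ω4 : Type} [Field K]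
    [Algebra k K] [Field M] [Algebra k M] [Field Ω4] [Algebra k Ω4]
    (P : Fin (n + 1) → K) (σ : K →+* RF M (n + 1))
    (i : Fin (n + 1)) (p : Ideal (chartRing k P i)) [p.IsPrime]
    (hdvr : IsDiscreteValuationRing (Localization.AtPrime p))
    (J : RF (AlgebraicClosure M) (n + 1) →+* RatFunc Ω4)
    (hJc : ∀ c : AlgebraicClosure M, ∃ a : Ω4,
      J (algebraMap (AlgebraicClosure M) (RF (AlgebraicClosure M) (n + 1)) c) = RatFunc.C a)
    (lam : K →ₐ[k] RatFunc Ω4) (hlam : ∀ a : K, J (rfbar M (n + 1) (σ a)) = lam a)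
    (x4 β4 : Fin (n + 1) → Ω4) (hjet : ∀ l, HasJet (lam (P l / P i)) (x4 l) (β4 l))
    (hxp : ∀ G : MvPolynomial (Fin (n + 1)) k, aeval x4 G = 0 ↔ chartMap k P i G ∈ p)
    (G1 : MvPolynomial (Fin (n + 1)) k) (hG1 : aeval x4 G1 = 0)
    (hG1' : ∑ l, β4 l * aeval x4 (pderiv l G1) ≠ 0) :
    MetAt (chartRing k P i) K p σ 1 := by
  obtain ⟨V, hV, hVu⟩ := exists_valuation_at_zero Ω4
  have hj : ∀ G : MvPolynomial (Fin (n + 1)) k, HasJet (lam (chartMap k P i G : K)) (aeval x4 G)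
      (∑ l, β4 l * aeval x4 (pderiv l G)) := by
    intro G
    rw [coe_chartMap]
    have h1 : lam (aeval (fun j => P j / P i) G) = aeval (fun j => lam (P j / P i)) G :=
      MvPolynomial.comp_aeval_apply (φ := lam) (fun j => P j / P i) G
    rw [h1]
    exact HasJet.aeval _ x4 β4 hjet G
  have hA : ∀ a : chartRing k P i, rfbar M (n + 1) (σ (algebraMap (chartRing k P i) K a)) ∈
      V.comap J := by
    intro a
    obtain ⟨G, rfl⟩ := chartMap_surjective k P i a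
    rw [ValuationSubring.mem_comap, hlam, hV]
    exact ⟨_, _, hj G⟩
  have hA' : ∀ a : chartRing k P i, a ∉ p →
      (rfbar M (n + 1) (σ (algebraMap (chartRing k P i) K a)))⁻¹ ∈ V.comap J := by
    intro a ha
    obtain ⟨G, rfl⟩ := chartMap_surjective k P i a
    rw [ValuationSubring.mem_comap, map_inv₀, hlam, hV]
    exact ⟨_, _, (hj G).inv fun h => ha ((hxp G).1 h)⟩
  have hp' : ∀ a : chartRing k P i, a ∈ p → a ≠ 0 →
      (rfbar M (n + 1) (σ (algebraMap (chartRing k P i) K a)))⁻¹ ∉ V.comap J := by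
    intro a ha ha0 hmem
    obtain ⟨G, rfl⟩ := chartMap_surjective k P i a
    rw [ValuationSubring.mem_comap, map_inv₀, hlam, hV] at hmem
    obtain ⟨b0, b1, hb⟩ := hmem
    have h1 := (hj G).mul hb
    have h2 : lam (algebraMap (chartRing k P i) K (chartMap k P i G)) ≠ 0 := by
      intro h
      have h3 := (map_eq_zero_iff lam lam.toRingHom.injective).1 h
      exact ha0 (Subtype.ext h3)
    have h4 : lam (chartMap k P i G : K) *
        (lam (algebraMap (chartRing k P i) K (chartMap k P i G)))⁻¹ = 1 := mul_inv_cancel₀ h2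
    rw [h4, (hxp G).2 ha, zero_mul] at h1
    have h5 : HasJet (1 : RatFunc Ω4) 1 0 := by
      have := HasJet.C (1 : Ω4)
      rwa [map_one] at this
    exact zero_ne_one ((h1.unique h5).1)
  have hg : chartMap k P i G1 ∈ p := (hxp G1).1 hG1
  have hu : IsUnif (V.comap J)
      (rfbar M (n + 1) (σ (algebraMap (chartRing k P i) K (chartMap k P i G1)))) := by
    refine IsUnif.comap J V _ ?_
    rw [hlam]
    have h1 := hj G1
    rw [hG1] at h1
    exact hVu _ _ h1 hG1'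
  refine ⟨V.comap J, rfbar M (n + 1) (σ (algebraMap (chartRing k P i) K (chartMap k P i G1))),
    chartMap k P i G1, hu, ?_, hA, hA', hg, ?_, 1, ?_, ?_, ?_⟩
  · intro c
    obtain ⟨a, ha⟩ := hJc c
    rw [ValuationSubring.mem_comap, ha, hV]
    exact ⟨_, _, HasJet.C a⟩
  · exact generator_of_unif (chartRing k P i) K (RF (AlgebraicClosure M) (n + 1)) p hdvr
      ((rfbar M (n + 1)).comp σ) (V.comap J) hA hA' hp' (chartMap k P i G1) hg hu
  · exact one_mem _
  · rw [inv_one]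
    exact one_mem _
  · rw [pow_one, one_mul]

theorem metAt_all (hD : IsSymm23 D) (hs : Smooth23 D) (hn : 5 ≤ n) {K M : Type} [Field K]
    [Algebra k K] [Field M] [Algebra K M] [Algebra k M] [IsScalarTower k K M]
    (P e₁ e₂ : Fin (n + 1) → K) (hP : IsGenPt D P) (hgenP : GenBy k P) (he : dd D P e₁ e₂ ≠ 0)
    (W PM eM₁ eM₂ : Fin (n + 1) → M) (hPM : ∀ i, PM i = algebraMap K M (P i))
    (heM₁ : ∀ i, eM₁ i = algebraMap K M (e₁ i)) (heM₂ : ∀ i, eM₂ i = algebraMap K M (e₂ i))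
    (hW : ∀ G : MvPolynomial (Fin (n + 1)) K, aeval W G = 0 ↔ quadW D P e₁ e₂ ∣ G)
    (hgenW : GenBy K W) (σ : K →+* RF M (n + 1))
    (hσk : ∀ c : k, σ (algebraMap k K c) = algebraMap k (RF M (n + 1)) c)
    (hσ : ∀ i, σ (P i) * mvRF D PM eM₁ eM₂ W 0 = mvRF D PM eM₁ eM₂ W i)
    (h0 : mvRF D PM eM₁ eM₂ W 0 ≠ 0)
    (i : Fin (n + 1)) (p : Ideal (chartRing k P i)) [p.IsPrime] (hp : p.height = 1)
    (hdvr : IsDiscreteValuationRing (Localization.AtPrime p)) :
    MetAt (chartRing k P i) K p σ 1 := by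
  obtain ⟨Ω, iΩ1, iΩ2, P', x, β, hP', hxi, hβi, d1, d2, d3, d4, d5, d6, d7, d8, d9, hxp, G1, hG1,
    hG1'⟩ := exists_datum hD hs hn P hP i p hp hdvr
  have hself : Cq D P' P' P' = 0 := by
    rw [← aeval_CC]
    exact (hP'.2 3 _ (isHomogeneous_CC D)).2 (CC_mem D)
  have hP'0 : P' 0 ≠ 0 := by
    rw [hP'.1]
    exact one_ne_zero
  obtain ⟨τ, hτ0⟩ := exists_hom_of_gen k (Fin (n + 1)) K Ω P 0 hP.1 hgenP P' hP'0
    (fun d G hG => by rw [hP.2 d G hG, hP'.2 d G hG])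
  have hτ : ∀ l, τ (P l) = P' l := fun l => by rw [hτ0, hP'.1, div_one]
  have hτf : (fun l => τ (P l)) = P' := funext hτ
  have he' : dd D P' (fun l => τ (e₁ l)) (fun l => τ (e₂ l)) ≠ 0 := by
    intro h
    have h1 := dd_map D τ P e₁ e₂
    rw [hτf, h] at h1
    exact he ((map_eq_zero_iff τ τ.injective).1 h1)
  have hmapq : MvPolynomial.map (τ : K →+* Ω) (quadW D P e₁ e₂) =
      quadW D P' (fun l => τ (e₁ l)) (fun l => τ (e₂ l)) := by
    rw [map_quadW, hτf]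
  have hprime : Prime ((quadW D P e₁ e₂).map (τ : K →+* Ω)) := by
    rw [hmapq]
    exact prime_quadW hD hs hn P' _ _ hP' he'
  obtain ⟨Ω3, iΩ3, i3, ψ, hψc, hψW⟩ := exists_joint K (Fin (n + 1)) M Ω (quadW D P e₁ e₂) W hW
    hgenW (τ : K →+* Ω) hprime
  rw [hmapq] at hψW
  -- the field `Ω4`
  let c4 : Ω3 →+* RF Ω3 (n + 1) := algebraMap Ω3 (RF Ω3 (n + 1))
  have hc4 : Function.Injective c4 := c4.injective
  let ak : Algebra k (RF Ω3 (n + 1)) := ((c4.comp i3).comp (algebraMap k Ω)).toAlgebra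
  let κ4 : Ω →ₐ[k] RF Ω3 (n + 1) := { c4.comp i3 with commutes' := fun c => rfl }
  have hκ4 : Function.Injective κ4 := (c4.comp i3).injective
  have hchar : CharZero (RF Ω3 (n + 1)) :=
    charZero_of_injective_algebraMap (algebraMap k (RF Ω3 (n + 1))).injective
  obtain ⟨J, hJc, hJX⟩ := exists_arc (AlgebraicClosure M) Ω3 ψ (n + 1) (fun l => i3 (x l))
    (fun l => i3 (β l))
  -- the homomorphism from `M(z)`
  have hkC : ∀ c : k, algebraMap k (RatFunc (RF Ω3 (n + 1))) c =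
      RatFunc.C (c4 (i3 (algebraMap k Ω c))) := by
    intro c
    rw [IsScalarTower.algebraMap_apply k (RF Ω3 (n + 1)) (RatFunc (RF Ω3 (n + 1)))]
    rfl
  have hJM : ∀ m : M, J (rfbar M (n + 1) (algebraMap M (RF M (n + 1)) m)) =
      RatFunc.C (c4 (ψ (algebraMap M (AlgebraicClosure M) m))) := by
    intro m
    rw [rfbar, rfmap_const, hJc]
  have hJk : ∀ c : k, J (rfbar M (n + 1) (algebraMap k (RF M (n + 1)) c)) =
      algebraMap k (RatFunc (RF Ω3 (n + 1))) c := by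
    intro c
    rw [IsScalarTower.algebraMap_apply k M (RF M (n + 1)), hJM, hkC,
      IsScalarTower.algebraMap_apply k K M, hψc]
    congr 3
    exact τ.commutes c
  let θ : RF M (n + 1) →ₐ[k] RatFunc (RF Ω3 (n + 1)) :=
    { J.comp (rfbar M (n + 1)) with commutes' := hJk }
  let lam : K →ₐ[k] RatFunc (RF Ω3 (n + 1)) :=
    { (J.comp (rfbar M (n + 1))).comp σ with
      commutes' := fun c => by
        show J (rfbar M (n + 1) (σ (algebraMap k K c))) = _
        rw [hσk]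
        exact hJk c }
  have hB : ∀ a b : Fin (n + 1) → Ω, κ4 (Bq D a b) = Bq D (fun l => κ4 (a l))
      (fun l => κ4 (b l)) := Bq_map D κ4
  have hC : ∀ a b c : Fin (n + 1) → Ω, κ4 (Cq D a b c) = Cq D (fun l => κ4 (a l))
      (fun l => κ4 (b l)) (fun l => κ4 (c l)) := Cq_map D κ4
  have hB0 : ∀ a b : Fin (n + 1) → Ω, Bq D a b = 0 → Bq D (fun l => κ4 (a l))
      (fun l => κ4 (b l)) = 0 := by
    intro a b h
    rw [← hB, h, map_zero]
  have hC0 : ∀ a b c : Fin (n + 1) → Ω, Cq D a b c = 0 → Cq D (fun l => κ4 (a l))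
      (fun l => κ4 (b l)) (fun l => κ4 (c l)) = 0 := by
    intro a b c h
    rw [← hC, h, map_zero]
  have hCne : Cq D (fun l => κ4 (P' l)) (fun l => κ4 (x l)) (fun l => κ4 (x l)) ≠ 0 := by
    intro h'
    rw [← hC] at h'
    exact d3 ((map_eq_zero_iff κ4 hκ4).1 h')
  have hdne : dd D (fun l => κ4 (P' l)) (fun l => κ4 (τ (e₁ l))) (fun l => κ4 (τ (e₂ l))) ≠ 0 := by
    intro h'
    rw [← dd_map D κ4 P' (fun l => τ (e₁ l)) (fun l => τ (e₂ l))] at h'
    exact he' ((map_eq_zero_iff κ4 hκ4).1 h')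
  have hWx : Bq D (prj D (fun l => κ4 (P' l)) (fun l => κ4 (τ (e₁ l))) (fun l => κ4 (τ (e₂ l)))
        (fun l => c4 (ψ (algebraMap M (AlgebraicClosure M) (W l))))) (fun l => κ4 (x l)) ≠ 0 := by
    have hnd := quadW_not_dvd hD hs hn P' (fun l => τ (e₁ l)) (fun l => τ (e₂ l)) x hP' he' d1 d2
      (by
        intro c hc
        apply d3
        rw [hc, Cq_smul2, Cq_smul3, hself]
        ring)
    rw [← hψW] at hnd
    intro h
    apply hnd
    apply hc4
    rw [map_zero]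
    let ρ : MvPolynomial (Fin (n + 1)) Ω →ₐ[k] RF Ω3 (n + 1) :=
      { c4.comp (eval₂Hom i3 fun j => ψ (algebraMap M (AlgebraicClosure M) (W j))) with
        commutes' := fun c => by
          show c4 (eval₂ i3 (fun j => ψ (algebraMap M (AlgebraicClosure M) (W j)))
            (algebraMap k (MvPolynomial (Fin (n + 1)) Ω) c)) = _
          rw [IsScalarTower.algebraMap_apply k Ω (MvPolynomial (Fin (n + 1)) Ω),
            MvPolynomial.algebraMap_eq, eval₂_C]
          rfl }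
    have hρC : ∀ a : Ω, ρ (C a) = κ4 a := by
      intro a
      show c4 (eval₂ i3 (fun j => ψ (algebraMap M (AlgebraicClosure M) (W j))) (C a)) = c4 (i3 a)
      rw [eval₂_C]
    have hρX : ∀ l, ρ (X l) = c4 (ψ (algebraMap M (AlgebraicClosure M) (W l))) := by
      intro l
      show c4 (eval₂ i3 (fun j => ψ (algebraMap M (AlgebraicClosure M) (W j))) (X l)) = _
      rw [eval₂_X]
    have hρ := Bq_map D ρ (prj D (fun i => C (P' i)) (fun i => C (τ (e₁ i)))
      (fun i => C (τ (e₂ i))) X) (fun i => C (x i))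
    simp only [prj_map, hρC, hρX] at hρ
    exact hρ.trans h
  have hjet : ∀ l, HasJet (θ (σ (P l / P i))) (κ4 (x l)) (κ4 (β l)) := by
    refine E26_core hD P W PM eM₁ eM₂ σ hσ h0 i θ (fun l => κ4 (P' l)) (fun l => κ4 (τ (e₁ l)))
      (fun l => κ4 (τ (e₂ l)))
      (fun l => c4 (ψ (algebraMap M (AlgebraicClosure M) (W l)))) (fun l => κ4 (x l))
      (fun l => κ4 (β l)) ?_ ?_ ?_ ?_ ?_ hdne (hB0 _ _ d1) (hC0 _ _ _ d2) (hB0 _ _ d4)
      hCne (hC0 _ _ _ d5) (hB0 _ _ d6) (hC0 _ _ _ d7) (hB0 _ _ d8) (hC0 _ _ _ d9)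
      hWx ?_ ?_
    · intro l
      show J (rfbar M (n + 1) (algebraMap M (RF M (n + 1)) (PM l))) = _
      rw [hJM, hPM, hψc]
      show RatFunc.C (c4 (i3 (τ (P l)))) = RatFunc.C (c4 (i3 (P' l)))
      rw [hτ]
    · intro l
      show J (rfbar M (n + 1) (algebraMap M (RF M (n + 1)) (eM₁ l))) = _
      rw [hJM, heM₁, hψc]
      rfl
    · intro l
      show J (rfbar M (n + 1) (algebraMap M (RF M (n + 1)) (eM₂ l))) = _
      rw [hJM, heM₂, hψc]
      rfl
    · intro l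
      exact hJM (W l)
    · intro l
      show HasJet (J (rfbar M (n + 1) (algebraMap (MvPolynomial (Fin (n + 1)) M) (RF M (n + 1))
        (X l)))) _ _
      rw [rfbar, rfmap_algebraMap, map_X]
      exact hJX l
    · show κ4 (x i) = 1
      rw [hxi, map_one]
    · show κ4 (β i) = 0
      rw [hβi, map_zero]
  have hae : ∀ G : MvPolynomial (Fin (n + 1)) k, aeval (fun l => κ4 (x l)) G = κ4 (aeval x G) :=
    fun G => (MvPolynomial.comp_aeval_apply (φ := κ4) x G).symm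
  refine E26_fin P σ i p hdvr J (fun c => ⟨_, hJc c⟩) lam (fun a => rfl) (fun l => κ4 (x l))
    (fun l => κ4 (β l)) hjet ?_ G1 ?_ ?_
  · intro G
    rw [hae, ← hxp]
    exact map_eq_zero_iff κ4 hκ4
  · rw [hae, hG1, map_zero]
  · intro h
    apply hG1'
    apply hκ4
    rw [map_sum, map_zero, ← h]
    refine Finset.sum_congr rfl fun l _ => ?_
    rw [hae, map_mul]

end Pool.Agent.LibHP.CI
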