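import Pool.Agent.LibHPC.E5
import Pool.Agent.LibHPF.Q16

set_option autoImplicit false
open MvPolynomial

namespace Pool.Agent.LibHP.CI

variable {k : Type} [Field k] [CharZero k] {n : ℕ} {D : Dat k n}

/-!
# Row E16: the quadric of isotropic tangent directions is absolutely irreducible

PLAN. See LibHPF/Q16.lean (proved) and `prime_of_quadratic` (LibHPF/Q16a.lean): `quadW` is homogeneous of degree 2 and the
matrix `constantCoeff (∂_i ∂_j quadW) = 2 b(prj e_i, prj e_j)` has rank at least 3: the vectors `prj e_i` span the tangent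
space `T = {b(P, a) = 0, g(P, P, a) = 0}` (`prj z = dd • z` for `z ∈ T`, `prj_tangent`), which has dimension `n + 1 - 2 = n - 1`
(`grad_ne`), and the kernel of `b` on `T` is `Ω P` (`lemmaA'`, `b(P, .)` vanishes on `T`), so the rank is
`n - 2 ≥ 3`. `quadW_not_dvd`: the linear form `b(prj Y, x)` is not zero (`lemmaA'`: some `a ∈ T` has `b(x, a) ≠ 0`, put
`Y = a`), and a quadratic form does not divide a nonzero linear form.
-/

/-- the constants of `MvPolynomial` over `k` -/
private noncomputable def E16_C (k : Type) [Field k] (σ Ω : Type) [Field Ω] [Algebra k Ω] :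
    Ω →ₐ[k] MvPolynomial σ Ω :=
  { (C : Ω →+* MvPolynomial σ Ω) with
    commutes' := fun c => by
      show C (algebraMap k Ω c) = _
      rw [IsScalarTower.algebraMap_apply k Ω (MvPolynomial σ Ω), MvPolynomial.algebraMap_eq] }

section

variable {R : Type} [CommRing R] [Algebra k R]

omit [CharZero k] in
private theorem E16_Bsum (a : Fin (n + 1) → R)
    {α : Type} (s : Finset α) (r : α → R) (v : α → Fin (n + 1) → R) :
    Bq D a (∑ j ∈ s, r j • v j) = ∑ j ∈ s, r j * Bq D a (v j) := by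
  rw [← BqL_apply, map_sum]
  refine Finset.sum_congr rfl fun j _ => ?_
  rw [map_smul, BqL_apply, smul_eq_mul]

omit [CharZero k] in
private theorem E16_prj_add (P e₁ e₂ z w : Fin (n + 1) → R) :
    prj D P e₁ e₂ (z + w) = prj D P e₁ e₂ z + prj D P e₁ e₂ w := by
  funext i
  simp only [prj, dd, Bq_add2, Cq_add3, Pi.add_apply, Pi.sub_apply, Pi.smul_apply, smul_eq_mul]
  ring

omit [CharZero k] in
private theorem E16_prj_smul (P e₁ e₂ z : Fin (n + 1) → R) (r : R) :
    prj D P e₁ e₂ (r • z) = r • prj D P e₁ e₂ z := by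
  funext i
  simp only [prj, dd, Bq_smul2, Cq_smul3, Pi.sub_apply, Pi.smul_apply, smul_eq_mul]
  ring

omit [CharZero k] in
private theorem E16_prj_eq (P e₁ e₂ v : Fin (n + 1) → R) :
    prj D P e₁ e₂ v = ∑ j, v j • prj D P e₁ e₂ (Pi.single j 1) := by
  have h1 : v = ∑ j, v j • (Pi.single j 1 : Fin (n + 1) → R) := by
    funext i
    rw [Finset.sum_apply, Finset.sum_eq_single i]
    · rw [Pi.smul_apply, Pi.single_eq_same, smul_eq_mul, mul_one]
    · intro j _ hj
      rw [Pi.smul_apply, Pi.single_eq_of_ne (Ne.symm hj), smul_zero]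
    · intro h
      exact absurd (Finset.mem_univ _) h
  obtain ⟨L, hL⟩ : ∃ L : (Fin (n + 1) → R) →ₗ[R] (Fin (n + 1) → R),
      ∀ z, L z = prj D P e₁ e₂ z :=
    ⟨{ toFun := prj D P e₁ e₂
       map_add' := E16_prj_add P e₁ e₂
       map_smul' := fun r z => E16_prj_smul P e₁ e₂ z r }, fun _ => rfl⟩
  rw [← hL]
  conv_lhs => rw [h1]
  rw [map_sum]
  refine Finset.sum_congr rfl fun j _ => ?_
  rw [map_smul, hL]

end

section

variable {Ω : Type} [Field Ω] [Algebra k Ω]

omit [CharZero k] in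
private theorem E16_Bq_C (a b : Fin (n + 1) → Ω) :
    Bq D (fun i => (C (a i) : MvPolynomial (Fin (n + 1)) Ω)) (fun i => C (b i)) =
      C (Bq D a b) :=
  (Bq_map D (E16_C k (Fin (n + 1)) Ω) a b).symm

omit [CharZero k] in
private theorem E16_single (j : Fin (n + 1)) :
    (Pi.single j 1 : Fin (n + 1) → MvPolynomial (Fin (n + 1)) Ω) =
      fun i => C ((Pi.single j 1 : Fin (n + 1) → Ω) i) := by
  funext i
  by_cases h : i = j
  · subst h
    rw [Pi.single_eq_same, Pi.single_eq_same, map_one]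
  · rw [Pi.single_eq_of_ne h, Pi.single_eq_of_ne h, map_zero]

omit [CharZero k] in
private theorem E16_prj (P e₁ e₂ : Fin (n + 1) → Ω) :
    prj D (fun i => (C (P i) : MvPolynomial (Fin (n + 1)) Ω)) (fun i => C (e₁ i))
      (fun i => C (e₂ i)) X =
      ∑ j, (X j : MvPolynomial (Fin (n + 1)) Ω) •
        (fun i => C (prj D P e₁ e₂ (Pi.single j 1) i) :
          Fin (n + 1) → MvPolynomial (Fin (n + 1)) Ω) := by
  rw [E16_prj_eq]
  refine Finset.sum_congr rfl fun j _ => ?_
  congr 1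
  rw [E16_single]
  funext i
  exact (prj_map D (E16_C k (Fin (n + 1)) Ω) P e₁ e₂ (Pi.single j 1) i).symm

omit [CharZero k] in
private theorem E16_quad (hD : IsSymm23 D) (P e₁ e₂ : Fin (n + 1) → Ω) :
    quadW D P e₁ e₂ =
      ∑ i, ∑ j, C (Bq D (prj D P e₁ e₂ (Pi.single i 1)) (prj D P e₁ e₂ (Pi.single j 1))) *
      (X i * X j) := by
  unfold quadW qW
  rw [E16_prj, E16_Bsum]
  rw [Finset.sum_comm]
  refine Finset.sum_congr rfl fun j _ => ?_
  rw [Bq_comm hD, E16_Bsum, Finset.mul_sum]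
  refine Finset.sum_congr rfl fun i _ => ?_
  rw [E16_Bq_C, Bq_comm hD (prj D P e₁ e₂ (Pi.single j 1))]
  ring

/-- vectors orthogonal to all projections are multiples of `P` -/
private theorem E16_orth (hD : IsSymm23 D) (hs : Smooth23 D) (P e₁ e₂ x : Fin (n + 1) → Ω)
    (hP : IsGenPt D P) (he : dd D P e₁ e₂ ≠ 0) (hx1 : Bq D P x = 0) (hx2 : Cq D P P x = 0)
    (h : ∀ j, Bq D x (prj D P e₁ e₂ (Pi.single j 1)) = 0) : ∃ c : Ω, x = c • P := by
  refine lemmaA' hD hs P x hP hx1 hx2 fun a ha1 ha2 => ?_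
  have h1 : Bq D x (prj D P e₁ e₂ a) = 0 := by
    rw [E16_prj_eq, E16_Bsum]
    exact Finset.sum_eq_zero fun j _ => by rw [h j, mul_zero]
  rw [prj_tangent P e₁ e₂ a ha1 ha2, Bq_smul2] at h1
  exact (mul_eq_zero.1 h1).resolve_left he

end

theorem prime_quadW (hD : IsSymm23 D) (hs : Smooth23 D) (hn : 5 ≤ n) {Ω : Type} [Field Ω]
    [Algebra k Ω] (P e₁ e₂ : Fin (n + 1) → Ω) (hP : IsGenPt D P) (he : dd D P e₁ e₂ ≠ 0) :
    Prime (quadW D P e₁ e₂) := by
  have hcz : CharZero Ω := charZero_of_injective_algebraMap (algebraMap k Ω).injective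
  obtain ⟨B, hB⟩ : ∃ B : Fin (n + 1) → Fin (n + 1) → Ω, B = fun i j =>
      Bq D (prj D P e₁ e₂ (Pi.single i 1)) (prj D P e₁ e₂ (Pi.single j 1)) := ⟨_, rfl⟩
  have hBs : ∀ i j, B i j = B j i := by
    intro i j
    rw [hB]
    exact Bq_comm hD _ _
  have hq : quadW D P e₁ e₂ = ∑ i, ∑ j, C (B i j) * (X i * X j) := by
    rw [E16_quad hD, hB]
  have hhom : (quadW D P e₁ e₂).IsHomogeneous 2 := by
    rw [hq]
    refine IsHomogeneous.sum _ _ _ fun i _ => IsHomogeneous.sum _ _ _ fun j _ => ?_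
    exact ((isHomogeneous_X Ω i).mul (isHomogeneous_X Ω j)).C_mul _
  have hder : ∀ i j, constantCoeff (pderiv i (pderiv j (quadW D P e₁ e₂))) = 2 * B i j := by
    intro i j
    have h1 : pderiv j (quadW D P e₁ e₂) = ∑ l, C (2 * B j l) * X l := by
      rw [hq, map_sum]
      have h2 : ∀ a, pderiv j (∑ b, C (B a b) * (X a * X b)) =
          ∑ b, (C (B a b) * (X a * (Pi.single j 1 : Fin (n + 1) → MvPolynomial (Fin (n + 1)) Ω) b) +
            C (B a b) * (X b * (Pi.single j 1 : Fin (n + 1) → MvPolynomial (Fin (n + 1)) Ω) a)) := by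
        intro a
        rw [map_sum]
        refine Finset.sum_congr rfl fun b _ => ?_
        rw [pderiv_C_mul, Derivation.leibniz, pderiv_X, pderiv_X, smul_eq_mul, smul_eq_mul,
          mul_add]
      rw [Finset.sum_congr rfl fun a _ => h2 a]
      simp only [Finset.sum_add_distrib]
      have h3 : ∀ a, ∑ b, C (B a b) * (X a *
          (Pi.single j 1 : Fin (n + 1) → MvPolynomial (Fin (n + 1)) Ω) b) =
          C (B a j) * X a := by
        intro a
        rw [Finset.sum_eq_single j]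
        · rw [Pi.single_eq_same, mul_one]
        · intro b _ hb
          rw [Pi.single_eq_of_ne hb, mul_zero, mul_zero]
        · intro h
          exact absurd (Finset.mem_univ _) h
      have h4 : ∑ a, ∑ b, C (B a b) * (X b *
          (Pi.single j 1 : Fin (n + 1) → MvPolynomial (Fin (n + 1)) Ω) a) =
          ∑ b, C (B j b) * X b := by
        rw [Finset.sum_eq_single j]
        · refine Finset.sum_congr rfl fun b _ => ?_
          rw [Pi.single_eq_same, mul_one]
        · intro a _ ha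
          refine Finset.sum_eq_zero fun b _ => ?_
          rw [Pi.single_eq_of_ne ha, mul_zero, mul_zero]
        · intro h
          exact absurd (Finset.mem_univ _) h
      rw [h4, Finset.sum_congr rfl fun a _ => h3 a, ← Finset.sum_add_distrib]
      refine Finset.sum_congr rfl fun b _ => ?_
      rw [hBs b j, two_mul, map_add, add_mul]
    rw [h1, map_sum, map_sum, Finset.sum_eq_single i]
    · rw [pderiv_C_mul, pderiv_X_self, mul_one, constantCoeff_C, hBs]
    · intro l _ hl
      rw [pderiv_C_mul, pderiv_X_of_ne hl, mul_zero, map_zero]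
    · intro h
      exact absurd (Finset.mem_univ _) h
  refine prime_of_quadratic Ω (Fin (n + 1)) _ hhom ?_
  obtain ⟨H, hH⟩ : ∃ H : Matrix (Fin (n + 1)) (Fin (n + 1)) Ω,
      H = Matrix.of fun i j => constantCoeff (pderiv i (pderiv j (quadW D P e₁ e₂))) := ⟨_, rfl⟩
  rw [← hH]
  have hker : LinearMap.ker H.mulVecLin ≤ Submodule.span Ω (Set.range ![P, e₁, e₂]) := by
    intro v hv
    have hv' : H.mulVec v = 0 := hv
    have hv2 : ∀ i, Bq D (prj D P e₁ e₂ v) (prj D P e₁ e₂ (Pi.single i 1)) = 0 := by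
      intro i
      have h1 := congrFun hv' i
      have h2 : (H.mulVec v) i = ∑ j, 2 * B i j * v j := by
        rw [Matrix.mulVec, dotProduct]
        refine Finset.sum_congr rfl fun j _ => ?_
        rw [hH, Matrix.of_apply, hder]
      have h3 : ∑ j, 2 * B i j * v j = 2 * ∑ j, v j * B i j := by
        rw [Finset.mul_sum]
        exact Finset.sum_congr rfl fun j _ => by ring
      rw [h2, h3] at h1
      have h4 := (mul_eq_zero.1 h1).resolve_left two_ne_zero
      rw [Bq_comm hD, E16_prj_eq P e₁ e₂ v, E16_Bsum]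
      rw [← h4, hB]
    obtain ⟨c, hc⟩ := E16_orth hD hs P e₁ e₂ (prj D P e₁ e₂ v) hP he (Bq_prj P e₁ e₂ v)
      (Cq_prj P e₁ e₂ v) hv2
    have h5 : v = ((dd D P e₁ e₂)⁻¹ * c) • P + ((dd D P e₁ e₂)⁻¹ * dd D P v e₂) • e₁ +
        ((dd D P e₁ e₂)⁻¹ * dd D P e₁ v) • e₂ := by
      have h6 : dd D P e₁ e₂ • v = c • P + dd D P v e₂ • e₁ + dd D P e₁ v • e₂ := by
        rw [← hc]
        simp only [prj]
        abel
      have h7 := congrArg (fun z => (dd D P e₁ e₂)⁻¹ • z) h6
      simp only [smul_smul, smul_add, inv_mul_cancel₀ he, one_smul] at h7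
      exact h7
    rw [h5]
    refine Submodule.add_mem _ (Submodule.add_mem _
      (Submodule.smul_mem _ _ (Submodule.subset_span ⟨0, rfl⟩))
      (Submodule.smul_mem _ _ (Submodule.subset_span ⟨1, rfl⟩)))
      (Submodule.smul_mem _ _ (Submodule.subset_span ⟨2, rfl⟩))
  have h1 : Module.finrank Ω (LinearMap.ker H.mulVecLin) ≤ 3 := by
    refine (Submodule.finrank_mono hker).trans ?_
    have h2 := finrank_range_le_card (R := Ω) (b := ![P, e₁, e₂])
    rw [Fintype.card_fin] at h2
    exact h2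
  have h2 := LinearMap.finrank_range_add_finrank_ker H.mulVecLin
  rw [Module.finrank_fintype_fun_eq_card, Fintype.card_fin] at h2
  have h3 : H.rank = Module.finrank Ω (LinearMap.range H.mulVecLin) := rfl
  omega

theorem quadW_not_dvd (hD : IsSymm23 D) (hs : Smooth23 D) (hn : 5 ≤ n) {Ω : Type} [Field Ω]
    [Algebra k Ω] (P e₁ e₂ x : Fin (n + 1) → Ω) (hP : IsGenPt D P) (he : dd D P e₁ e₂ ≠ 0)
    (hx1 : Bq D P x = 0) (hx2 : Cq D P P x = 0) (hx : ∀ c : Ω, x ≠ c • P) :
    ¬ quadW D P e₁ e₂ ∣ Bq D (prj D (fun i => C (P i)) (fun i => C (e₁ i)) (fun i => C (e₂ i)) X)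
      (fun i => C (x i)) := by
  have hL : Bq D (prj D (fun i => (C (P i) : MvPolynomial (Fin (n + 1)) Ω)) (fun i => C (e₁ i))
      (fun i => C (e₂ i)) X) (fun i => C (x i)) =
      ∑ j, X j * C (Bq D x (prj D P e₁ e₂ (Pi.single j 1))) := by
    rw [Bq_comm hD, E16_prj, E16_Bsum]
    refine Finset.sum_congr rfl fun j _ => ?_
    rw [E16_Bq_C]
  rw [hL]
  intro hdvd
  have hpr := prime_quadW hD hs hn P e₁ e₂ hP he
  have hq0 := hpr.ne_zero
  have hhom : (quadW D P e₁ e₂).IsHomogeneous 2 := by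
    rw [E16_quad hD]
    refine IsHomogeneous.sum _ _ _ fun i _ => IsHomogeneous.sum _ _ _ fun j _ => ?_
    exact ((isHomogeneous_X Ω i).mul (isHomogeneous_X Ω j)).C_mul _
  have hlin : (∑ j, (X j : MvPolynomial (Fin (n + 1)) Ω) *
      C (Bq D x (prj D P e₁ e₂ (Pi.single j 1)))).IsHomogeneous 1 := by
    refine IsHomogeneous.sum _ _ _ fun j _ => ?_
    rw [mul_comm]
    exact (isHomogeneous_X Ω j).C_mul _
  have hne : (∑ j, (X j : MvPolynomial (Fin (n + 1)) Ω) *
      C (Bq D x (prj D P e₁ e₂ (Pi.single j 1)))) ≠ 0 := by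
    intro h0
    have h1 : ∀ j, Bq D x (prj D P e₁ e₂ (Pi.single j 1)) = 0 := by
      intro j
      have h2 := congrArg (MvPolynomial.eval (Pi.single j 1 : Fin (n + 1) → Ω)) h0
      rw [map_sum, map_zero, Finset.sum_eq_single j] at h2
      · rw [map_mul, eval_X, eval_C, Pi.single_eq_same, one_mul] at h2
        exact h2
      · intro l _ hl
        rw [map_mul, eval_X, Pi.single_eq_of_ne hl, zero_mul]
      · intro h
        exact absurd (Finset.mem_univ _) h
    obtain ⟨c, hc⟩ := E16_orth hD hs P e₁ e₂ x hP he hx1 hx2 h1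
    exact hx c hc
  obtain ⟨g, hg⟩ := hdvd
  have hg0 : g ≠ 0 := by
    rintro rfl
    exact hne (by rw [hg, mul_zero])
  have h1 := totalDegree_mul_of_isDomain hq0 hg0
  rw [← hg, hlin.totalDegree hne, hhom.totalDegree hq0] at h1
  omega

end Pool.Agent.LibHP.CI
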