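import Pool.Agent.LibHPC.T13

set_option autoImplicit false
open MvPolynomial

namespace Pool.Agent.LibHP.CI

variable {k : Type} [Field k] [CharZero k] {n : ℕ} {D : Dat k n}

/-!
# Row T14: the double contact point of the curve is a generic point of the complete intersection
-/

private theorem T14_dh {L Ω : Type} [Field L] [Field Ω] (f : L →+* Ω)
    (G : MvPolynomial (Fin 4) L) : MvPolynomial.map f (dh G) = dh (MvPolynomial.map f G) := by
  induction G using MvPolynomial.induction_on with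
  | C c =>
    have h1 : dh (C c : MvPolynomial (Fin 4) L) = C c := by
      rw [dh]; exact aeval_C _ _
    have h2 : dh (C (f c) : MvPolynomial (Fin 4) Ω) = C (f c) := by
      rw [dh]; exact aeval_C _ _
    rw [h1, map_C, map_C, h2]
  | add p q hp hq => rw [map_add, map_add, hp, hq, map_add, map_add]
  | mul_X p i hp =>
    rw [map_mul, map_mul, hp, map_mul, map_mul, map_X]
    congr 1
    have h1 : dh (X i : MvPolynomial (Fin 4) L) =
        (Fin.cons 1 X : Fin 4 → MvPolynomial (Fin 3) L) i := by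
      rw [dh]; exact aeval_X _ _
    have h2 : dh (X i : MvPolynomial (Fin 4) Ω) =
        (Fin.cons 1 X : Fin 4 → MvPolynomial (Fin 3) Ω) i := by
      rw [dh]; exact aeval_X _ _
    rw [h1, h2]
    induction i using Fin.cases with
    | zero => simp
    | succ j => simp

theorem affC_map {L Ω : Type} [Field L] [Algebra k L] [Field Ω] [Algebra k Ω] (f : L →ₐ[k] Ω)
    (x : Fin (n + 1) → L) (u : Fin 4 → Fin (n + 1) → L) :
    (affC (cfP D x u) (bP D u)).map (MvPolynomial.map (σ := Fin 3) (f : L →+* Ω)) =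
      affC (cfP D (fun j => f (x j)) (fun a j => f (u a j))) (bP D (fun a j => f (u a j))) := by
  unfold affC
  rw [Ideal.map_span, Set.image_pair, T14_dh, T14_dh]
  simp only [dsc, map_sub, map_mul, map_pow, cfP_map, bP_map]

private theorem T14_frm {L Ω : Type} [Field L] [Algebra k L] [Field Ω] [Algebra k Ω]
    (f : L →ₐ[k] Ω) (u : Fin 4 → Fin (n + 1) → L) (j : Fin (n + 1)) :
    MvPolynomial.map (f : L →+* Ω) (frm (fun a j => (C (u a j) : MvPolynomial (Fin 4) L)) X j) =
      frm (fun a j => C (f (u a j))) X j := by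
  unfold frm
  rw [map_sum]
  refine Finset.sum_congr rfl fun a _ => ?_
  rw [map_mul, map_X, map_C]
  rfl

private theorem T14_vec {L Ω : Type} [Field L] [Algebra k L] [Field Ω] [Algebra k Ω]
    (f : L →ₐ[k] Ω) (x : Fin (n + 1) → L) (u : Fin 4 → Fin (n + 1) → L)
    (G : MvPolynomial (Fin (n + 1)) k) :
    MvPolynomial.map (f : L →+* Ω) (aeval (vec01 D x u) G) =
      aeval (vec01 D (fun j => f (x j)) (fun a j => f (u a j))) G := by
  have h1 : ∀ j, mapAlgHom f (vec01 D x u j) =
      vec01 D (fun j => f (x j)) (fun a j => f (u a j)) j := by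
    intro j
    show MvPolynomial.map (f : L →+* Ω) (vec01 D x u j) = _
    unfold vec01
    rw [map_sub, map_mul, map_mul, cfP_map, cfP_map, map_C, T14_frm]
    rfl
  have h2 := comp_aeval_apply (vec01 D x u) (mapAlgHom (σ := Fin 4) f) G
  rw [funext h1] at h2
  exact h2

private theorem T14_frm_hom {L : Type} [Field L] (u : Fin 4 → Fin (n + 1) → L)
    (j : Fin (n + 1)) :
    (frm (fun a j => (C (u a j) : MvPolynomial (Fin 4) L)) X j).IsHomogeneous 1 := by
  unfold frm
  refine IsHomogeneous.sum _ _ _ fun a _ => ?_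
  have := (isHomogeneous_X L a).mul (isHomogeneous_C (Fin 4) (u a j))
  exact this

private theorem T14_vec_hom {L : Type} [Field L] [Algebra k L] (x : Fin (n + 1) → L)
    (u : Fin 4 → Fin (n + 1) → L) (j : Fin (n + 1)) : (vec01 D x u j).IsHomogeneous 2 := by
  unfold vec01
  exact ((cfP_hom x u 0).mul (T14_frm_hom u j)).sub ((cfP_hom x u 1).mul (isHomogeneous_C _ _))

/-- homogeneous polynomials at multiples -/
private theorem T14_scale {k : Type} [Field k] {n : ℕ} {S : Type} [CommRing S] [Algebra k S]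
    {d : ℕ} {G : MvPolynomial (Fin (n + 1)) k} (hG : G.IsHomogeneous d) (t : S)
    (p : Fin (n + 1) → S) : aeval (fun i => t * p i) G = t ^ d * aeval p G := by
  rw [aeval_def, aeval_def, eval₂_eq', eval₂_eq', Finset.mul_sum]
  refine Finset.sum_congr rfl fun s hs => ?_
  have hd : ∑ i, s i = d := by
    have h1 := hG (mem_support_iff.mp hs)
    have h2 : Finsupp.degree s = Finsupp.weight 1 s := by
      rw [Finsupp.degree_eq_weight_one]
      rfl
    rw [← h1, ← h2, Finsupp.degree_eq_sum]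
  simp only [mul_pow, Finset.prod_mul_distrib, Finset.prod_pow_eq_pow_sum, hd]
  ring

private theorem T14_pow {Ω : Type} [Field Ω] (A : Fin 3 → MvPolynomial (Fin 4) Ω)
    (B : MvPolynomial (Fin 4) Ω)
    (hreg : ∀ f, X 0 * f ∈ ciI A B → f ∈ ciI A B) (d : ℕ) (f : MvPolynomial (Fin 4) Ω)
    (h : X 0 ^ d * f ∈ ciI A B) : f ∈ ciI A B := by
  induction d with
  | zero => rwa [pow_zero, one_mul] at h
  | succ d ih =>
    apply ih
    apply hreg
    rwa [pow_succ', mul_assoc] at h

private theorem T14_vanish {Ω : Type} [Field Ω] (A : Fin 3 → MvPolynomial (Fin 4) Ω)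
    (B : MvPolynomial (Fin 4) Ω)
    (z : Fin 4 → Ω) (h0 : eval z (A 0) = 0) (h1 : eval z (A 1) = 0) (h2 : eval z B = 0)
    {f : MvPolynomial (Fin 4) Ω} (hf : f ∈ ciI A B) : eval z f = 0 := by
  have h : ciI A B ≤ RingHom.ker (eval z) := by
    unfold ciI
    rw [Ideal.span_le]
    rintro x (rfl | rfl)
    · exact h2
    · show eval z (dsc A) = 0
      rw [dsc, map_sub, map_mul, map_pow, h0, h1]; ring
  exact h hf

/-- from the moved vector to the point -/
private theorem T14_core {Ω : Type} [Field Ω] [Algebra k Ω] (A : Fin 3 → MvPolynomial (Fin 4) Ω)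
    (B : MvPolynomial (Fin 4) Ω)
    (hA0 : A 0 = X 0) (hreg : ∀ f, X 0 * f ∈ ciI A B → f ∈ ciI A B)
    (z : Fin 4 → Ω) (z0 : z 0 = 0) (zB : eval z B = 0) (z1 : eval z (A 1) = 0)
    (z2 : eval z (A 2) ≠ 0) (y : Fin (n + 1) → MvPolynomial (Fin 4) Ω) (x : Fin (n + 1) → Ω)
    (d : ℕ) (G : MvPolynomial (Fin (n + 1)) k) (hGd : G.IsHomogeneous d)
    (hG : aeval (fun j => A 0 * y j - A 1 * C (x j)) G ∈ ciI A B) : aeval x G = 0 := by
  set v : Fin (n + 1) → MvPolynomial (Fin 4) Ω := fun j => A 0 * y j - A 1 * C (x j) with hv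
  set w : Fin (n + 1) → MvPolynomial (Fin 4) Ω := fun j => A 1 * y j - A 2 * C (x j) with hw
  have hm2 : dsc A ∈ ciI A B := Ideal.subset_span (by simp)
  let q : MvPolynomial (Fin 4) Ω →ₐ[k] (MvPolynomial (Fin 4) Ω ⧸ ciI A B) :=
    Ideal.Quotient.mkₐ k (ciI A B)
  have hq : ∀ f, q f = 0 ↔ f ∈ ciI A B := fun f => Ideal.Quotient.eq_zero_iff_mem
  have h1 : ∀ j, q (A 1) * q (v j) = q (A 0) * q (w j) := by
    intro j
    rw [← map_mul, ← map_mul, ← sub_eq_zero, ← map_sub, hq]
    have : A 1 * v j - A 0 * w j = C (x j) * dsc A := by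
      simp only [hv, hw, dsc]; ring
    rw [this]
    exact (ciI A B).mul_mem_left _ hm2
  have h2 : q (A 1) ^ d * q (aeval v G) = q (A 0) ^ d * q (aeval w G) := by
    rw [comp_aeval_apply, comp_aeval_apply, ← T14_scale hGd, ← T14_scale hGd]
    congr 2
    funext j
    exact h1 j
  rw [(hq _).2 hG, mul_zero, ← map_pow, ← map_mul, hA0] at h2
  have h3 : aeval w G ∈ ciI A B := T14_pow A B hreg d _ ((hq _).1 h2.symm)
  have h4 := T14_vanish A B z (by rw [hA0, eval_X, z0]) z1 zB h3
  have h5 : eval z (aeval w G) = aeval (fun j => (-eval z (A 2)) * x j) G := by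
    have h6 := comp_aeval_apply w ((aeval z : MvPolynomial (Fin 4) Ω →ₐ[Ω] Ω).restrictScalars k) G
    have h7 : ∀ j, ((aeval z : MvPolynomial (Fin 4) Ω →ₐ[Ω] Ω).restrictScalars k) (w j) =
        (-eval z (A 2)) * x j := by
      intro j
      show eval z (w j) = _
      simp only [hw]
      rw [map_sub, map_mul, map_mul, z1, eval_C]
      ring
    rw [funext h7] at h6
    exact h6
  rw [h5, T14_scale hGd] at h4
  rcases mul_eq_zero.1 h4 with h | h
  · exact absurd h (pow_ne_zero _ (neg_ne_zero.2 z2))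
  · exact h

theorem gen_of_frame (hD : IsSymm23 D) (hs : Smooth23 D) (hn : 5 ≤ n) {K L : Type} [Field K]
    [Algebra k K] [Field L] [Algebra k L] [Algebra K L] [IsScalarTower k K L]
    (x : Fin (n + 1) → K) (hx : IsGenPt D x) (h : Option (Fin (n - 5)) × Fin (n + 1) → L)
    (hh : AlgebraicIndependent K h) (x' : Fin (n + 1) → L)
    (hx' : ∀ i, x' i = algebraMap K L (x i)) (u : Fin 4 → Fin (n + 1) → L)
    (hu : IsFrame D x' h u) (d : ℕ) (G : MvPolynomial (Fin (n + 1)) k) (hGd : G.IsHomogeneous d)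
    (hG : dh (aeval (vec01 D x' u) G) ∈ affC (cfP D x' u) (bP D u)) : aeval x' G = 0 := by
  let Ω : Type := AlgebraicClosure L
  let f : L →ₐ[k] Ω := IsScalarTower.toAlgHom k L Ω
  have hf : ∀ a, f a = algebraMap L Ω a := fun a => rfl
  have hu' := hu.map f
  have tow : IsScalarTower k K Ω := IsScalarTower.of_algebraMap_eq fun a => by
    rw [IsScalarTower.algebraMap_apply k L Ω, IsScalarTower.algebraMap_apply k K L,
      ← IsScalarTower.algebraMap_apply K L Ω]
  have hh' : AlgebraicIndependent K (fun i => f (h i)) :=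
    hh.map' (f := IsScalarTower.toAlgHom K L Ω) (algebraMap L Ω).injective
  obtain ⟨-, reg1, z, z0, zB, z1, z2⟩ := frame_prime hD hs hn x hx (fun i => f (h i)) hh'
    (fun j => f (x' j)) (fun i => by
      rw [hf, hx', ← IsScalarTower.algebraMap_apply K L Ω]) (fun a j => f (u a j)) hu'
  have hA0 := cfP_zero (D := D) _ _ hu'.h0
  have h1 : dh (aeval (vec01 D (fun j => f (x' j)) (fun a j => f (u a j))) G) ∈
      affC (cfP D (fun j => f (x' j)) (fun a j => f (u a j))) (bP D (fun a j => f (u a j))) := by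
    have := Ideal.mem_map_of_mem (MvPolynomial.map (σ := Fin 3) (f : L →+* Ω)) hG
    rwa [affC_map, T14_dh, T14_vec] at this
  have h2 : aeval (vec01 D (fun j => f (x' j)) (fun a j => f (u a j))) G ∈
      ciI (cfP D (fun j => f (x' j)) (fun a j => f (u a j))) (bP D (fun a j => f (u a j))) :=
    mem_of_dh_ci _ _ (cfP_hom _ _) (bP_hom _) reg1 _ (2 * d) (hGd.aeval _ (T14_vec_hom _ _)) h1
  have h3 : aeval (fun j => f (x' j)) G = 0 :=
    T14_core _ _ hA0 reg1 z z0 zB z1 z2 _ _ d G hGd h2
  have h4 := comp_aeval_apply x' f G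
  rw [h3] at h4
  rw [hf] at h4
  exact (map_eq_zero_iff _ (algebraMap L Ω).injective).1 h4

end Pool.Agent.LibHP.CI
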