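import Pool.Agent.LibHPC.W3a
import Pool.Agent.LibHPF.W3

set_option autoImplicit false
open MvPolynomial

namespace Pool.Agent.LibHP.CI

variable {k : Type} [Field k] [CharZero k] {n : ℕ} {D : Dat k n}

/-!
# Row W3: rational points of the quadric of isotropic directions at a special point

PLAN. Same proof as `exists_rational_point` in LibHPF/W3.lean (proved): there the nondegeneracy is given by a determinant
(`hdet`) and used only to find, for an isotropic tangent vector `v` not proportional to `a`, a tangent vector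
`prj D a e₁ e₂ z` with `b(v, prj z) ≠ 0` (`w3_exists`): here it is `NDat` (the vectors `prj D a e₁ e₂ z` are all tangent vectors up
to the factor `dd ≠ 0`, `prj_tangent`). `Phi φ a a x y` becomes `Bq D x y`, `prj φ a e` becomes `prj D a e₁ e₂`, `st φ a` becomes
`st D`.
-/

section
variable {k : Type} [Field k] {n : ℕ} {D : Dat k n} {Ω : Type} [Field Ω] [Algebra k Ω]

private theorem w3_map (x y : Fin (n + 1) → k) :
    Bq D (fun i => algebraMap k Ω (x i)) (fun i => algebraMap k Ω (y i)) =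
      algebraMap k Ω (Bq D x y) :=
  (Bq_map D (Algebra.ofId k Ω) x y).symm

private theorem w3_dd (x y z : Fin (n + 1) → k) :
    dd D (fun i => algebraMap k Ω (x i)) (fun i => algebraMap k Ω (y i))
      (fun i => algebraMap k Ω (z i)) = algebraMap k Ω (dd D x y z) :=
  (dd_map D (Algebra.ofId k Ω) x y z).symm

private theorem w3_prj (x y1 y2 z : Fin (n + 1) → k) :
    prj D (fun i => algebraMap k Ω (x i)) (fun i => algebraMap k Ω (y1 i))
      (fun i => algebraMap k Ω (y2 i))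
      (fun i => algebraMap k Ω (z i)) = fun i => algebraMap k Ω (prj D x y1 y2 z i) :=
  funext fun i => (prj_map D (Algebra.ofId k Ω) x y1 y2 z i).symm

private theorem w3_st (y z : Fin (n + 1) → k) :
    st D (fun i => algebraMap k Ω (y i))
      (fun i => algebraMap k Ω (z i)) = fun i => algebraMap k Ω (st D y z i) :=
  funext fun i => (st_map D (Algebra.ofId k Ω) y z i).symm

private theorem w3_prj_add {R : Type} [CommRing R] [Algebra k R] (a e₁ e₂ x y : Fin (n + 1) → R) :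
    prj D a e₁ e₂ (x + y) = prj D a e₁ e₂ x + prj D a e₁ e₂ y := by
  funext i
  simp only [prj, dd, Bq_add2, Cq_add3, Pi.add_apply, Pi.sub_apply, Pi.smul_apply, smul_eq_mul]
  ring

private theorem w3_prj_smul {R : Type} [CommRing R] [Algebra k R] (a e₁ e₂ x : Fin (n + 1) → R)
    (r : R) : prj D a e₁ e₂ (r • x) = r • prj D a e₁ e₂ x := by
  funext i
  simp only [prj, dd, Bq_smul2, Cq_smul3, Pi.sub_apply, Pi.smul_apply, smul_eq_mul]
  ring

private theorem w3_prj1 {R : Type} [CommRing R] [Algebra k R] (a e₁ e₂ : Fin (n + 1) → R) :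
    prj D a e₁ e₂ e₁ = 0 := by
  funext i
  simp only [prj, dd, Pi.sub_apply, Pi.smul_apply, smul_eq_mul, Pi.zero_apply]
  ring

private theorem w3_prj2 {R : Type} [CommRing R] [Algebra k R] (a e₁ e₂ : Fin (n + 1) → R) :
    prj D a e₁ e₂ e₂ = 0 := by
  funext i
  simp only [prj, dd, Pi.sub_apply, Pi.smul_apply, smul_eq_mul, Pi.zero_apply]
  ring

/-- Some tangent vector is not orthogonal to `v`. -/
private theorem w3_exists (a v e₁ e₂ : Fin (n + 1) → k)
    (hav : LinearIndependent k ![a, v]) (h1 : Bq D a v = 0) (h2 : Cq D a a v = 0)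
    (he : dd D a e₁ e₂ ≠ 0) (hnd : NDat D a) :
    ∃ z : Fin (n + 1) → k, Bq D v (prj D a e₁ e₂ z) ≠ 0 := by
  by_contra hcon
  push Not at hcon
  obtain ⟨c, hc⟩ := hnd v h1 h2 fun y hy1 hy2 => by
    have h := hcon y
    rw [prj_tangent a e₁ e₂ y hy1 hy2, Bq_smul2] at h
    exact (mul_eq_zero.1 h).resolve_left he
  rw [LinearIndependent.pair_iff] at hav
  have h4 := hav (-c) 1 (by rw [one_smul, neg_smul, hc]; exact neg_add_cancel _)
  exact one_ne_zero h4.2

end

/-- An isotropic tangent vector over `k` which is not orthogonal to `τ`. -/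
private theorem w3_isotropic (hD : IsSymm23 D) (a v e₁ e₂ : Fin (n + 1) → k)
    (hav : LinearIndependent k ![a, v]) (h1 : Bq D a v = 0) (h2 : Cq D a a v = 0)
    (h3 : Bq D v v = 0) (he : dd D a e₁ e₂ ≠ 0) (hnd : NDat D a)
    {Ω : Type} [Field Ω] [Algebra k Ω] (τ : Fin (n + 1) → Ω) (z0 : Fin (n + 1) → k)
    (hz0 : Bq D τ (fun i => algebraMap k Ω (prj D a e₁ e₂ z0 i)) ≠ 0) :
    ∃ v' : Fin (n + 1) → k, Bq D a v' = 0 ∧ Cq D a a v' = 0 ∧ Bq D v' v' = 0 ∧
      Bq D (fun i => algebraMap k Ω (v' i)) τ ≠ 0 := by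
  have : CharZero Ω := charZero_of_injective_algebraMap (algebraMap k Ω).injective
  by_cases hv : Bq D (fun i => algebraMap k Ω (v i)) τ ≠ 0
  · exact ⟨v, h1, h2, h3, hv⟩
  rw [not_not] at hv
  obtain ⟨z1, hz1⟩ := w3_exists a v e₁ e₂ hav h1 h2 he hnd
  have hz : ∃ z : Fin (n + 1) → k, Bq D v (prj D a e₁ e₂ z) ≠ 0 ∧
      Bq D τ (fun i => algebraMap k Ω (prj D a e₁ e₂ z i)) ≠ 0 := by
    by_cases c1 : Bq D v (prj D a e₁ e₂ z0) ≠ 0
    · exact ⟨z0, c1, hz0⟩
    by_cases c2 : Bq D τ (fun i => algebraMap k Ω (prj D a e₁ e₂ z1 i)) ≠ 0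
    · exact ⟨z1, hz1, c2⟩
    rw [not_not] at c1 c2
    refine ⟨z0 + z1, ?_, ?_⟩
    · rw [w3_prj_add, Bq_add2, c1, zero_add]
      exact hz1
    · have e1 : (fun i => algebraMap k Ω (prj D a e₁ e₂ (z0 + z1) i)) =
          (fun i => algebraMap k Ω (prj D a e₁ e₂ z0 i)) +
            fun i => algebraMap k Ω (prj D a e₁ e₂ z1 i) := by
        funext i
        rw [w3_prj_add, Pi.add_apply, Pi.add_apply, map_add]
      rw [e1, Bq_add2, c2, add_zero]
      exact hz0
  obtain ⟨z, hz2, hz3⟩ := hz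
  refine ⟨st D v (prj D a e₁ e₂ z), Bq_st1 _ _ _ h1 (Bq_prj _ _ _ _),
    Cq_st1 _ _ _ h2 (Cq_prj _ _ _ _), Bq_st2 hD _ _ h3, ?_⟩
  rw [← w3_st]
  have e2 : Bq D (fun i => algebraMap k Ω (v i)) (fun i => algebraMap k Ω (prj D a e₁ e₂ z i)) ≠
      0 := by
    rw [w3_map]
    intro h
    exact hz2 ((map_eq_zero_iff _ (algebraMap k Ω).injective).mp h)
  simp only [st, Bq_sub1, Bq_smul1, hv]
  rw [mul_zero, zero_sub, neg_ne_zero, Bq_comm hD (fun i => algebraMap k Ω
    (prj D a e₁ e₂ z i)) τ]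
  exact mul_ne_zero (mul_ne_zero two_ne_zero e2) hz3

theorem exists_rational_point (hD : IsSymm23 D) (a v e₁ e₂ : Fin (n + 1) → k)
    (hav : LinearIndependent k ![a, v]) (h0 : Bq D a a = 0) (h0' : Cq D a a a = 0)
    (h1 : Bq D a v = 0) (h2 : Cq D a a v = 0) (h3 : Bq D v v = 0) (he : dd D a e₁ e₂ ≠ 0)
    (hnd : NDat D a)
    (H : MvPolynomial (Fin (n + 1)) k) {Ω : Type} [Field Ω] [Algebra k Ω] (η : Fin (n + 1) → Ω)
    (hη : qW D (fun i => algebraMap k Ω (a i)) (fun i => algebraMap k Ω (e₁ i))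
      (fun i => algebraMap k Ω (e₂ i)) η = 0)
    (hH : aeval η H ≠ 0) (z0 : Fin (n + 1) → k)
    (hz0 : Bq D (prj D (fun i => algebraMap k Ω (a i)) (fun i => algebraMap k Ω (e₁ i))
        (fun i => algebraMap k Ω (e₂ i)) η)
      (prj D (fun i => algebraMap k Ω (a i)) (fun i => algebraMap k Ω (e₁ i))
        (fun i => algebraMap k Ω (e₂ i)) (fun i => algebraMap k Ω (z0 i))) ≠ 0) :
    ∃ b : Fin (n + 1) → k, qW D a e₁ e₂ b = 0 ∧ aeval b H ≠ 0 := by
  have : CharZero Ω := charZero_of_injective_algebraMap (algebraMap k Ω).injective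
  rw [w3_prj] at hz0
  obtain ⟨v', h3', h3'', h4, h5⟩ := w3_isotropic hD a v e₁ e₂ hav h1 h2 h3 he hnd _ z0 hz0
  -- the generic point of the parametrisation
  set N : MvPolynomial (Fin (n + 1) ⊕ Fin 3) k :=
    aeval (fun i => (X (Sum.inr 0) : MvPolynomial (Fin (n + 1) ⊕ Fin 3) k) *
      st D (fun i => algebraMap k _ (v' i))
        (prj D (fun i => algebraMap k _ (a i)) (fun i => algebraMap k _ (e₁ i))
          (fun i => algebraMap k _ (e₂ i))
          (fun i => X (Sum.inl i))) i + X (Sum.inr 1) * algebraMap k _ (e₁ i) +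
          X (Sum.inr 2) * algebraMap k _ (e₂ i)) H with hN
  have key : ∀ {R : Type} [Field R] [Algebra k R] (p : Fin (n + 1) ⊕ Fin 3 → R),
      aeval p N = aeval (fun i => p (Sum.inr 0) *
      st D (fun i => algebraMap k R (v' i))
        (prj D (fun i => algebraMap k R (a i)) (fun i => algebraMap k R (e₁ i))
          (fun i => algebraMap k R (e₂ i))
          (fun i => p (Sum.inl i))) i + p (Sum.inr 1) * algebraMap k R (e₁ i) +
          p (Sum.inr 2) * algebraMap k R (e₂ i)) H := by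
    intro R _ _ p
    rw [hN, comp_aeval_apply]
    congr 2
    funext i
    simp only [map_add, map_mul, aeval_X, st_map, prj_map, AlgHom.commutes]
  have hN0 : N ≠ 0 := by
    intro hN0
    set aΩ : Fin (n + 1) → Ω := fun i => algebraMap k Ω (a i) with haΩ
    set eΩ : Fin (n + 1) → Ω := fun i => algebraMap k Ω (e₁ i) with heΩ
    set fΩ : Fin (n + 1) → Ω := fun i => algebraMap k Ω (e₂ i) with hfΩ
    set vΩ : Fin (n + 1) → Ω := fun i => algebraMap k Ω (v' i) with hvΩ
    set τ : Fin (n + 1) → Ω := prj D aΩ eΩ fΩ η with hτ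
    have hε : dd D aΩ eΩ fΩ ≠ 0 := by
      rw [haΩ, heΩ, hfΩ, w3_dd]
      intro h
      exact he ((map_eq_zero_iff _ (algebraMap k Ω).injective).mp h)
    have h6 : Bq D τ τ = 0 := hη
    have h := key (R := Ω) (Sum.elim η ![-1 / (2 * dd D aΩ eΩ fΩ * Bq D vΩ τ),
      dd D aΩ η fΩ / dd D aΩ eΩ fΩ, dd D aΩ eΩ η / dd D aΩ eΩ fΩ])
    rw [hN0, map_zero] at h
    apply hH
    rw [h]
    congr 2
    funext i
    simp only [Sum.elim_inl, Sum.elim_inr, Matrix.cons_val_zero, Matrix.cons_val_one,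
      Matrix.cons_val_two, Matrix.tail_cons, Matrix.head_cons]
    show η i = _ * st D vΩ τ i + _ * eΩ i + _ * fΩ i
    have h7 : st D vΩ τ i = -(2 * Bq D vΩ τ) *
        (dd D aΩ eΩ fΩ * η i - dd D aΩ η fΩ * eΩ i - dd D aΩ eΩ η * fΩ i) := by
      simp only [st, h6, Pi.sub_apply, Pi.smul_apply, smul_eq_mul]
      have h8 : τ i = dd D aΩ eΩ fΩ * η i - dd D aΩ η fΩ * eΩ i - dd D aΩ eΩ η * fΩ i := by
        simp only [hτ, prj, Pi.sub_apply, Pi.smul_apply, smul_eq_mul]
      rw [h8]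
      ring
    rw [h7]
    field_simp
    ring
  have hp : ∃ p : Fin (n + 1) ⊕ Fin 3 → k, aeval p N ≠ 0 := by
    by_contra hcon
    push Not at hcon
    apply hN0
    refine MvPolynomial.funext fun p => ?_
    rw [map_zero, ← hcon p]
    rfl
  obtain ⟨p, hp⟩ := hp
  set z : Fin (n + 1) → k := fun i => p (Sum.inl i) with hz
  refine ⟨p (Sum.inr 0) • st D v' (prj D a e₁ e₂ z) + p (Sum.inr 1) • e₁ +
    p (Sum.inr 2) • e₂, ?_, ?_⟩
  · have h6 : Bq D a (st D v' (prj D a e₁ e₂ z)) = 0 := Bq_st1 _ _ _ h3' (Bq_prj _ _ _ _)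
    have h6' : Cq D a a (st D v' (prj D a e₁ e₂ z)) = 0 := Cq_st1 _ _ _ h3'' (Cq_prj _ _ _ _)
    have h7 := Bq_st2 hD v' (prj D a e₁ e₂ z) h4
    have h8 : prj D a e₁ e₂ (p (Sum.inr 0) • st D v' (prj D a e₁ e₂ z) + p (Sum.inr 1) • e₁ +
        p (Sum.inr 2) • e₂) =
        (p (Sum.inr 0) * dd D a e₁ e₂) • st D v' (prj D a e₁ e₂ z) := by
      rw [w3_prj_add, w3_prj_add, w3_prj_smul, w3_prj_smul, w3_prj_smul, w3_prj1, w3_prj2,
        smul_zero, smul_zero, add_zero, add_zero, prj_tangent _ _ _ _ h6 h6', smul_smul]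
    rw [qW, h8, Bq_smul1, Bq_smul2, h7, mul_zero, mul_zero]
  · have h := key (R := k) p
    rw [h] at hp
    exact hp

end Pool.Agent.LibHP.CI
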