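import Pool.Agent.LibHPC.DefsC
import Pool.Agent.LibHPC.E1
import Pool.Agent.LibHPC.E26
import Pool.Agent.LibHPC.W5
import Pool.Agent.LibHPC.T16
import Pool.Agent.LibHPF.Q27

set_option autoImplicit false
open MvPolynomial

namespace Pool.Agent.LibHP.CI

variable {k : Type} [Field k] [CharZero k] {n : ℕ} {D : Dat k n}

/-!
# Row E27: assembly of the moves on complete intersections (2,3)
-/

theorem smooth23_of_ci (hD : IsSymm23 D) (h : IsSmoothCI (QQ D) (CC D)) : Smooth23 D := by
  intro x hx h2 h3 r s hrs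
  obtain ⟨i, j, hij⟩ := h x hx (by rw [aeval_QQ]; exact h2) (by rw [aeval_CC]; exact h3)
  rw [map_sub, map_mul, map_mul, aeval_pderiv_QQ hD, aeval_pderiv_QQ hD, aeval_pderiv_CC hD,
    aeval_pderiv_CC hD] at hij
  have e1 := hrs (Pi.single i 1)
  have e2 := hrs (Pi.single j 1)
  set bi := Bq D x (Pi.single i 1)
  set bj := Bq D x (Pi.single j 1)
  set gi := Cq D x x (Pi.single i 1)
  set gj := Cq D x x (Pi.single j 1)
  have hne : bi * gj - bj * gi ≠ 0 := by
    intro h0
    apply hij
    linear_combination 6 * h0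
  constructor
  · have : r * (bi * gj - bj * gi) = 0 := by linear_combination gj * e1 - gi * e2
    exact (mul_eq_zero.1 this).resolve_right hne
  · have : s * (bi * gj - bj * gi) = 0 := by linear_combination bi * e2 - bj * e1
    exact (mul_eq_zero.1 this).resolve_right hne

theorem dense23 (hD : IsSymm23 D) (hd : DenseContact23 (QQ D) (CC D)) (d : ℕ)
    (G : MvPolynomial (Fin (n + 1)) k) (hG : G.IsHomogeneous d) (hF : G ∉ II D) :
    ∃ a v : Fin (n + 1) → k, LinearIndependent k ![a, v] ∧ aeval a G ≠ 0 ∧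
      Bq D a a = 0 ∧ Cq D a a a = 0 ∧ Bq D a v = 0 ∧ Cq D a a v = 0 ∧ Bq D v v = 0 := by
  obtain ⟨P, hP, v, hli, hQ, hC⟩ := hd d G hG hF
  have h1 : (fun i => Polynomial.C (P i) + Polynomial.X * Polynomial.C (v i)) =
      (fun i => Polynomial.C (P i)) + (Polynomial.X : Polynomial k) •
        (fun i => Polynomial.C (v i)) := by
    funext i
    rw [Pi.add_apply, Pi.smul_apply, smul_eq_mul]
  have hB : ∀ a b : Fin (n + 1) → k,
      Bq D (fun i => Polynomial.C (a i)) (fun i => Polynomial.C (b i)) =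
        Polynomial.C (Bq D a b) := by
    intro a b
    exact (Bq_map D (Polynomial.CAlgHom (R := k) (A := k)) a b).symm
  have hCq : ∀ a b c : Fin (n + 1) → k,
      Cq D (fun i => Polynomial.C (a i)) (fun i => Polynomial.C (b i))
        (fun i => Polynomial.C (c i)) = Polynomial.C (Cq D a b c) := by
    intro a b c
    exact (Cq_map D (Polynomial.CAlgHom (R := k) (A := k)) a b c).symm
  have e2 : Cq D P v P = Cq D P P v := Cq_comm23 hD _ _ _
  have e3 : Cq D v P P = Cq D P P v := by rw [Cq_comm12 hD v P P, e2]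
  have hQ' : (Polynomial.C (Bq D P P) + Polynomial.C (2 * Bq D P v) * Polynomial.X +
      Polynomial.C (Bq D v v) * Polynomial.X ^ 2 : Polynomial k) = 0 := by
    rw [aeval_QQ, h1] at hQ
    rw [← hQ]
    simp only [Bq_add1, Bq_smul1, Bq_add2, Bq_smul2, hB, Bq_comm hD v P, map_mul, map_ofNat]
    ring
  have hC' : (Polynomial.X : Polynomial k) ^ 2 ∣ Polynomial.C (Cq D P P P) +
      Polynomial.X * Polynomial.C (3 * Cq D P P v) := by
    rw [aeval_CC, h1] at hC
    have h3 : Cq D ((fun i => Polynomial.C (P i)) + (Polynomial.X : Polynomial k) •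
        (fun i => Polynomial.C (v i))) ((fun i => Polynomial.C (P i)) + (Polynomial.X :
        Polynomial k) • (fun i => Polynomial.C (v i))) ((fun i => Polynomial.C (P i)) +
        (Polynomial.X : Polynomial k) • (fun i => Polynomial.C (v i))) =
        (Polynomial.C (Cq D P P P) + Polynomial.X * Polynomial.C (3 * Cq D P P v)) +
        Polynomial.X ^ 2 * (Polynomial.C (Cq D v v P) + Polynomial.C (Cq D v P v) +
          Polynomial.C (Cq D P v v) + Polynomial.X * Polynomial.C (Cq D v v v)) := by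
      simp only [Cq_add1, Cq_smul1, Cq_add2, Cq_smul2, Cq_add3, Cq_smul3, hCq, e2, e3, map_mul,
        map_ofNat]
      ring
    rw [h3] at hC
    exact (dvd_add_left (Dvd.intro _ rfl)).1 hC
  have q0 := congrArg (fun p => Polynomial.coeff p 0) hQ'
  have q1 := congrArg (fun p => Polynomial.coeff p 1) hQ'
  have q2 := congrArg (fun p => Polynomial.coeff p 2) hQ'
  simp [Polynomial.coeff_X, Polynomial.coeff_C, Polynomial.coeff_X_pow] at q0 q1 q2
  rw [Polynomial.X_pow_dvd_iff] at hC'
  have c0 := hC' 0 (by norm_num)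
  have c1 := hC' 1 (by norm_num)
  rw [Polynomial.coeff_add, Polynomial.coeff_X_mul_zero, Polynomial.coeff_C_zero, add_zero] at c0
  rw [Polynomial.coeff_add, Polynomial.coeff_X_mul, Polynomial.coeff_C_zero,
    Polynomial.coeff_C_of_ne_zero one_ne_zero, zero_add] at c1
  exact ⟨P, v, hli, hP, q0, c0, q1, (mul_eq_zero.1 c1).resolve_left (by norm_num), q2⟩

theorem ci_moves {k K : Type} [Field k] [CharZero k] [Field K] [Algebra k K] {n : ℕ}
    (hn : 5 ≤ n) (Q C : MvPolynomial (Fin (n + 1)) k) (hQ : Q.IsHomogeneous 2)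
    (hC : C.IsHomogeneous 3) (hsm : IsSmoothCI Q C) (y : Fin (n + 1) → K) (hy : IsCIPt Q C y)
    (hd : DenseContact23 Q C)
    (hdvr : ∀ (i : Fin (n + 1)) (p : Ideal (chartRing k y i)) [p.IsPrime], p.height = 1 →
      IsDiscreteValuationRing (Localization.AtPrime p)) :
    ∃ (M : Type) (_ : Field M) (_ : Algebra k M) (r : ℕ) (σ : K →+* RF M r),
      DensePts k M ∧ (∀ c : k, σ (algebraMap k K c) = algebraMap k (RF M r) c) ∧ ClosedIn σ ∧
      ∀ (i : Fin (n + 1)) (p : Ideal (chartRing k y i)), p.IsPrime → p.height = 1 →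
        MetAt (chartRing k y i) K p σ 1 := by
  obtain ⟨D, hD, rfl, rfl⟩ := exists_dat k n Q C hQ hC
  have hs : Smooth23 D := smooth23_of_ci hD hsm
  have hP : IsGenPt D y := ⟨hy.1, hy.2.1⟩
  have hgenP : GenBy k y := genBy_of_adjoin y hy.2.2
  obtain ⟨i0, i1, he⟩ := exists_dd_ne hs y hP
  have hprime : Prime (quadW D y (Pi.single i0 1) (Pi.single i1 1)) :=
    prime_quadW hD hs hn y _ _ hP he
  obtain ⟨M, _, _, W, hW, hgenW⟩ := exists_generic_field K (Fin (n + 1)) _ hprime
  let _ : Algebra k M := ((algebraMap K M).comp (algebraMap k K)).toAlgebra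
  have hst : IsScalarTower k K M := IsScalarTower.of_algebraMap_eq fun _ => rfl
  have hq : qW D (fun i => algebraMap K M (y i))
      (fun i => algebraMap K M ((Pi.single i0 1 : Fin (n + 1) → K) i))
      (fun i => algebraMap K M ((Pi.single i1 1 : Fin (n + 1) → K) i)) W = 0 := by
    have h1 := eval₂_quadW D (IsScalarTower.toAlgHom k K M) y (Pi.single i0 1) (Pi.single i1 1) W
    have h2 := (hW (quadW D y (Pi.single i0 1) (Pi.single i1 1))).2 dvd_rfl
    rw [aeval_def] at h2
    exact h1.symm.trans h2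
  obtain ⟨σ, hσk, hσ, h0, hcl⟩ := exists_sigma_gen hD hs hn y (Pi.single i0 1)
    (Pi.single i1 1) hP hgenP he W (fun i => algebraMap K M (y i))
    (fun i => algebraMap K M ((Pi.single i0 1 : Fin (n + 1) → K) i))
    (fun i => algebraMap K M ((Pi.single i1 1 : Fin (n + 1) → K) i)) (fun _ => rfl)
    (fun _ => rfl) (fun _ => rfl) hW hgenW hq
  have hdense : DensePts k M := densePts_quad hD hs (by omega) y hP hgenP i0 i1 he W hW hgenW
    (dense23 hD hd)
  refine ⟨M, inferInstance, inferInstance, n + 1, σ, hdense, hσk, hcl, ?_⟩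
  intro i p hp hh
  exact metAt_all hD hs hn y (Pi.single i0 1) (Pi.single i1 1) hP hgenP he W
    (fun i => algebraMap K M (y i))
    (fun i => algebraMap K M ((Pi.single i0 1 : Fin (n + 1) → K) i))
    (fun i => algebraMap K M ((Pi.single i1 1 : Fin (n + 1) → K) i)) (fun _ => rfl)
    (fun _ => rfl) (fun _ => rfl) hW hgenW σ hσk hσ h0 i p hh (hdvr i p hh)

end Pool.Agent.LibHP.CI
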