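import Pool.Agent.LibHPC.DefsC
import Pool.Agent.LibHPF.G11

/-! C11. Contact lines of `Q = C = 0` from the isotropy of quadratic forms in five variables, `n ≥ 7`. -/

set_option autoImplicit false

namespace Pool.Agent.LibHP

/-- The restriction of `F(P + X v)` to the span of the vectors `w j`. -/
theorem C11_map {k : Type} [Field k] {n : ℕ} (F : MvPolynomial (Fin (n + 1)) k)
    (P : Fin (n + 1) → k) (w : Fin 5 → (Fin (n + 1) → k)) (t : Fin 5 → k) :
    (MvPolynomial.aeval (fun i => Polynomial.C (P i) +
        Polynomial.X * Polynomial.C ((∑ j, t j • w j : Fin (n + 1) → k) i)) F : Polynomial k) =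
        Polynomial.map (MvPolynomial.eval t)
      (MvPolynomial.aeval (fun i => Polynomial.C (MvPolynomial.C (P i)) +
        Polynomial.X * Polynomial.C (∑ j, MvPolynomial.C (w j i) * MvPolynomial.X j)) F) := by
  have h1 : (MvPolynomial.aeval (fun i => Polynomial.C (P i) +
      Polynomial.X * Polynomial.C ((∑ j, t j • w j : Fin (n + 1) → k) i)) :
        MvPolynomial (Fin (n + 1)) k →ₐ[k] Polynomial k) =
      (Polynomial.mapAlgHom (MvPolynomial.aeval t : MvPolynomial (Fin 5) k →ₐ[k] k)).comp
        (MvPolynomial.aeval (fun i => Polynomial.C (MvPolynomial.C (P i)) +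
          Polynomial.X * Polynomial.C (∑ j, MvPolynomial.C (w j i) * MvPolynomial.X j))) := by
    refine MvPolynomial.algHom_ext fun i => ?_
    rw [AlgHom.comp_apply, MvPolynomial.aeval_X, MvPolynomial.aeval_X, Polynomial.coe_mapAlgHom]
    simp only [Polynomial.map_add, Polynomial.map_mul, Polynomial.map_C, Polynomial.map_X]
    congr 2
    · congr 1
      simp
    · congr 1
      simp [Finset.sum_apply, mul_comm]
  rw [h1]
  rfl

theorem hasContactLine23_of_isotropic {k : Type} [Field k] {n : ℕ} (hn : 7 ≤ n)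
    (Q C : MvPolynomial (Fin (n + 1)) k) (hQ : Q.IsHomogeneous 2)
    (hq : ∀ q : MvPolynomial (Fin 5) k, q.IsHomogeneous 2 → ∃ v : Fin 5 → k, v ≠ 0 ∧
      MvPolynomial.eval v q = 0)
    (P : Fin (n + 1) → k) (hP : P ≠ 0) (hPQ : MvPolynomial.eval P Q = 0)
    (hPC : MvPolynomial.eval P C = 0) :
    HasContactLine23 Q C P := by
  classical
  have key : ∀ F : MvPolynomial (Fin (n + 1)) k, ∃ ℓ : (Fin (n + 1) → k) →ₗ[k] k,
      (∀ v, ℓ v = ∑ i, MvPolynomial.eval P (MvPolynomial.pderiv i F) * v i) ∧
      n ≤ Module.finrank k (LinearMap.ker ℓ) := by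
    intro F
    refine ⟨∑ i, MvPolynomial.eval P (MvPolynomial.pderiv i F) • LinearMap.proj i, ?_, ?_⟩
    · intro v
      simp
    · have h1 := LinearMap.finrank_range_add_finrank_ker
        (∑ i, MvPolynomial.eval P (MvPolynomial.pderiv i F) • LinearMap.proj i :
          (Fin (n + 1) → k) →ₗ[k] k)
      have h2 : Module.finrank k (LinearMap.range
        (∑ i, MvPolynomial.eval P (MvPolynomial.pderiv i F) • LinearMap.proj i :
          (Fin (n + 1) → k) →ₗ[k] k)) ≤ 1 := by
        have := Submodule.finrank_le (LinearMap.range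
          (∑ i, MvPolynomial.eval P (MvPolynomial.pderiv i F) • LinearMap.proj i :
            (Fin (n + 1) → k) →ₗ[k] k))
        rwa [Module.finrank_self] at this
      rw [Module.finrank_fin_fun] at h1
      omega
  obtain ⟨ℓ, hℓ, hfK⟩ := key Q
  obtain ⟨ℓ', hℓ', hfK'⟩ := key C
  obtain ⟨H, hH⟩ := Submodule.exists_isCompl (Submodule.span k {P})
  have hfH : Module.finrank k H = n := by
    have h1 := Submodule.finrank_add_eq_of_isCompl hH
    rw [finrank_span_singleton hP, Module.finrank_fin_fun] at h1
    omega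
  have hsup : ∀ A B : Submodule k (Fin (n + 1) → k),
      Module.finrank k A + Module.finrank k B ≤
        Module.finrank k (A ⊓ B : Submodule k (Fin (n + 1) → k)) + (n + 1) := by
    intro A B
    have h1 := Submodule.finrank_sup_add_finrank_inf_eq A B
    have h2 : Module.finrank k (A ⊔ B : Submodule k (Fin (n + 1) → k)) ≤ n + 1 := by
      have := Submodule.finrank_le (A ⊔ B)
      rwa [Module.finrank_fin_fun] at this
    omega
  have hfW : 5 ≤ Module.finrank k (H ⊓ LinearMap.ker ℓ ⊓ LinearMap.ker ℓ' :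
      Submodule k (Fin (n + 1) → k)) := by
    have h1 := hsup H (LinearMap.ker ℓ)
    have h2 := hsup (H ⊓ LinearMap.ker ℓ) (LinearMap.ker ℓ')
    omega
  set W := (H ⊓ LinearMap.ker ℓ ⊓ LinearMap.ker ℓ' : Submodule k (Fin (n + 1) → k)) with hW
  let b := Module.finBasis k W
  let w : Fin 5 → (Fin (n + 1) → k) := fun j => (b (Fin.castLE hfW j) : Fin (n + 1) → k)
  have hw : LinearIndependent k w := by
    have h1 : LinearIndependent k fun j : Fin 5 => b (Fin.castLE hfW j) :=
      b.linearIndependent.comp _ (Fin.castLE_injective hfW)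
    exact h1.map' W.subtype (Submodule.ker_subtype W)
  let lin : Fin (n + 1) → MvPolynomial (Fin 5) k := fun i =>
    ∑ j, MvPolynomial.C (w j i) * MvPolynomial.X j
  let Fs : Polynomial (MvPolynomial (Fin 5) k) :=
    MvPolynomial.aeval (fun i => Polynomial.C (MvPolynomial.C (P i)) +
      Polynomial.X * Polynomial.C (lin i)) Q
  have hlin : ∀ i, (lin i).IsHomogeneous 1 := fun i =>
    MvPolynomial.IsHomogeneous.sum _ _ _ fun j _ => by
      have := (MvPolynomial.isHomogeneous_C (Fin 5) (w j i)).mul
        (MvPolynomial.isHomogeneous_X k j)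
      rwa [zero_add] at this
  obtain ⟨t, ht0, ht⟩ := hq (Fs.coeff 2)
    (G11_hom (fun i => MvPolynomial.C (P i)) lin
      (fun i => MvPolynomial.isHomogeneous_C _ _) hlin Q 2)
  set v : Fin (n + 1) → k := ∑ j, t j • w j with hv
  have hv0 : v ≠ 0 := by
    intro h
    apply ht0
    funext j
    exact Fintype.linearIndependent_iff.1 hw t h j
  have hvW : v ∈ W := W.sum_mem fun j _ => W.smul_mem _ (b (Fin.castLE hfW j)).2
  have hvH : v ∈ H := hvW.1.1
  have hvℓ : ℓ v = 0 := hvW.1.2
  have hvℓ' : ℓ' v = 0 := hvW.2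
  refine ⟨v, ?_, ?_, ?_⟩
  · rw [LinearIndependent.pair_iff]
    intro s r hsr
    have h1 : r • v ∈ Submodule.span k {P} := by
      have : r • v = -(s • P) := eq_neg_of_add_eq_zero_right hsr
      rw [this]
      exact Submodule.neg_mem _ (Submodule.smul_mem _ _ (Submodule.mem_span_singleton_self P))
    have h2 : r • v = 0 := by
      have h3 := Submodule.disjoint_def.1 hH.disjoint _ h1 (H.smul_mem r hvH)
      exact h3
    have hr : r = 0 := by
      rcases smul_eq_zero.1 h2 with h | h
      · exact h
      · exact absurd h hv0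
    rw [h2, add_zero] at hsr
    rcases smul_eq_zero.1 hsr with h | h
    · exact ⟨h, hr⟩
    · exact absurd h hP
  · have hc := G11_coeff P v Q
    have hdeg : (MvPolynomial.aeval (fun i => Polynomial.C (P i) +
        Polynomial.X * Polynomial.C (v i)) Q : Polynomial k).natDegree ≤ 2 * 1 := by
      refine MvPolynomial.aeval_natDegree_le Q hQ.totalDegree_le _ fun i => ?_
      refine (Polynomial.natDegree_add_le _ _).trans ?_
      rw [Polynomial.natDegree_C, max_eq_right (Nat.zero_le _)]
      exact (Polynomial.natDegree_mul_C_le _ _).trans Polynomial.natDegree_X_le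
    ext d
    rw [Polynomial.coeff_zero]
    rcases Nat.lt_or_ge 2 d with h | h
    · exact Polynomial.coeff_eq_zero_of_natDegree_lt (lt_of_le_of_lt hdeg h)
    · interval_cases d
      · rw [hc.1, hPQ]
      · rw [hc.2, ← hℓ, hvℓ]
      · have hmap := C11_map Q P w t
        rw [← hv] at hmap
        rw [hmap, Polynomial.coeff_map]
        exact ht
  · rw [Polynomial.X_pow_dvd_iff]
    intro d hd
    have hc := G11_coeff P v C
    interval_cases d
    · rw [hc.1, hPC]
    · rw [hc.2, ← hℓ', hvℓ']

end Pool.Agent.LibHP
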