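import Pool.Agent.LibHPC.C10
import Pool.Agent.LibHPC.C11
import Pool.Agent.LibHPF.G12

/-! C13 (assembly, helper98): the final statement for the complete intersections, with the field
hypothesis. -/

set_option autoImplicit false
open AlgebraicGeometry CategoryTheory

namespace Pool.Agent.LibHP

theorem denseContact23_of_isotropic {k : Type} [Field k] {K : Type} [Field K] [Algebra k K]
    {n : ℕ} (hn : 7 ≤ n) (Q C : MvPolynomial (Fin (n + 1)) k) (hQ : Q.IsHomogeneous 2)
    (hC : C.IsHomogeneous 3)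
    (hq : ∀ q : MvPolynomial (Fin 5) k, q.IsHomogeneous 2 → ∃ v : Fin 5 → k, v ≠ 0 ∧
      MvPolynomial.eval v q = 0)
    (hK : DensePts k K) (y : Fin (n + 1) → K) (hy : IsCIPt Q C y) :
    DenseContact23 Q C := by
  intro d G hG hFG
  have ha : MvPolynomial.aeval y G ≠ 0 := fun h => hFG ((hy.2.1 d G hG).1 h)
  set R : Subalgebra k K := Algebra.adjoin k (Set.range y) with hR
  have hRfg : R.FG := Subalgebra.fg_def.2 ⟨Set.range y, Set.finite_range y, rfl⟩
  have hyR : ∀ i, y i ∈ R := fun i => Algebra.subset_adjoin ⟨i, rfl⟩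
  let y' : Fin (n + 1) → R := fun i => ⟨y i, hyR i⟩
  have hy' : ∀ H : MvPolynomial (Fin (n + 1)) k,
      ((MvPolynomial.aeval y' H : R) : K) = MvPolynomial.aeval y H := by
    intro H
    have := MvPolynomial.comp_aeval_apply y' R.val H
    simpa [y'] using this
  obtain ⟨φ, hφ⟩ := hK R hRfg (MvPolynomial.aeval y' G) (by
    intro h
    apply ha
    rw [← hy', h]
    rfl)
  have hev : ∀ H : MvPolynomial (Fin (n + 1)) k,
      φ (MvPolynomial.aeval y' H) = MvPolynomial.eval (fun i => φ (y' i)) H := by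
    intro H
    rw [MvPolynomial.comp_aeval_apply]
    simp [MvPolynomial.aeval_eq_eval]
  have hz : ∀ {m : ℕ} (H : MvPolynomial (Fin (n + 1)) k), H.IsHomogeneous m →
      H ∈ Ideal.span {Q, C} → MvPolynomial.eval (fun i => φ (y' i)) H = 0 := by
    intro m H hH hm
    rw [← hev]
    have : (MvPolynomial.aeval y' H : R) = 0 := by
      apply Subtype.ext
      rw [hy']
      exact (hy.2.1 m H hH).2 hm
    rw [this, map_zero]
  refine ⟨fun i => φ (y' i), ?_, ?_⟩
  · rw [← hev]; exact hφ
  · refine hasContactLine23_of_isotropic hn Q C hQ hq _ ?_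
      (hz Q hQ (Ideal.subset_span (by simp))) (hz C hC (Ideal.subset_span (by simp)))
    intro h
    have h0 : y' 0 = 1 := Subtype.ext hy.1
    have := congrFun h 0
    simp only [h0, map_one, Pi.zero_apply] at this
    exact one_ne_zero this

theorem main_ci_or (k : Type) [Field k] [NumberField k] {X : Scheme}
    (f : X ⟶ Spec (CommRingCat.of k)) [IsIntegral X] [Smooth f] [IsSeparated f] [QuasiCompact f]
    (hsc : GeomSimplyConnected f) {n : ℕ} (hn : 5 ≤ n) (Q C : MvPolynomial (Fin (n + 1)) k)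
    (hQ : Q.IsHomogeneous 2) (hC : C.IsHomogeneous 3) (hsm : IsSmoothCI Q C)
    (hX : IsCIModelOf f Q C)
    (hd : DenseContact23 Q C ∨ 7 ≤ n ∧
      (∀ q : MvPolynomial (Fin 5) k, q.IsHomogeneous 2 → ∃ v : Fin 5 → k, v ≠ 0 ∧
        MvPolynomial.eval v q = 0) ∧
      Dense {x : X | ∃ s : Spec (CommRingCat.of k) ⟶ X, s ≫ f = 𝟙 _ ∧ x ∈ Set.range s.base}) :
    HilbertProp f := by
  rcases hd with hd | ⟨hn7, hq, hdense⟩
  · exact main_ci k f hsc hn Q C hQ hC hsm hd hX
  · refine main_ci k f hsc hn Q C hQ hC hsm ?_ hX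
    letI : Algebra k X.functionField := (toStalk f (genericPoint X)).toAlgebra
    obtain ⟨z, hz0⟩ := hX
    have hz : IsCICoord Q C z := hz0
    obtain ⟨y, hy⟩ := exists_ciPt Q C hQ hC le_rfl (by norm_num) z hz
    exact denseContact23_of_isotropic hn7 Q C hQ hC hq
      (densePts_functionField f (fun _ => rfl) hdense) y hy

end Pool.Agent.LibHP
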