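import Pool.Agent.LibHPC.H1
import Pool.Agent.LibHPF.G8

/-! C1. Charts of the complete intersection `Q = C = 0`: relations and Jacobian criterion. -/

set_option autoImplicit false

namespace Pool.Agent.LibHP

/-- The minor of size two of the Jacobian matrix. -/
noncomputable def jminor {k : Type} [Field k] {n : ℕ} (Q C : MvPolynomial (Fin (n + 1)) k)
    (a b : Fin (n + 1)) : MvPolynomial (Fin (n + 1)) k :=
  MvPolynomial.pderiv a Q * MvPolynomial.pderiv b C -
    MvPolynomial.pderiv b Q * MvPolynomial.pderiv a C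

theorem ci_chart_zero {k K : Type} [Field k] [Field K] [Algebra k K] {n d : ℕ}
    (G : MvPolynomial (Fin (n + 1)) k) (hG : G.IsHomogeneous d)
    (y : Fin (n + 1) → K) (i : Fin (n + 1)) (h : MvPolynomial.aeval y G = 0) :
    MvPolynomial.aeval (fun j => y j / y i) G = 0 := by
  have h1 := G8_aeval_scale hG (y i)⁻¹ y
  rw [h, mul_zero] at h1
  rw [← h1]
  congr 2
  funext j
  rw [div_eq_mul_inv, mul_comm]

theorem ci_chart_relation {k K : Type} [Field k] [Field K] [Algebra k K] {n d e : ℕ}
    (Q C : MvPolynomial (Fin (n + 1)) k) (hQ : Q.IsHomogeneous d) (hC : C.IsHomogeneous e)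
    (y : Fin (n + 1) → K) (hy : IsCIPt Q C y) (i : Fin (n + 1)) (hi : y i ≠ 0)
    (G : MvPolynomial (Fin (n + 1)) k) :
    MvPolynomial.aeval (fun j => y j / y i) G = 0 ↔
      G ∈ Ideal.span {Q, C, MvPolynomial.X i - 1} := by
  have hQm : Q ∈ Ideal.span {Q, C, MvPolynomial.X i - 1} := Ideal.subset_span (by simp)
  have hCm : C ∈ Ideal.span {Q, C, MvPolynomial.X i - 1} := Ideal.subset_span (by simp)
  have hXm : (MvPolynomial.X i - 1 : MvPolynomial (Fin (n + 1)) k) ∈
    Ideal.span {Q, C, MvPolynomial.X i - 1} := Ideal.subset_span (by simp)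
  constructor
  · intro h
    have h1 := G1_hom_aeval G.totalDegree i y hi G le_rfl
    rw [h, zero_mul] at h1
    have h2 : G1_hom G.totalDegree i G ∈ Ideal.span {Q, C} :=
      (hy.2.1 _ _ (G1_hom_isHomogeneous _ i G le_rfl)).1 h1.symm
    obtain ⟨b, hb⟩ := G1_sub_mem G.totalDegree i G
    rw [Ideal.mem_span_pair] at h2
    obtain ⟨a, c, hac⟩ := h2
    have : G = a * Q + c * C + b * (MvPolynomial.X i - 1) := by
      rw [hac, mul_comm b, ← hb]
      ring
    rw [this]
    exact Ideal.add_mem _ (Ideal.add_mem _ (Ideal.mul_mem_left _ _ hQm)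
      (Ideal.mul_mem_left _ _ hCm)) (Ideal.mul_mem_left _ _ hXm)
  · intro h
    have hle : Ideal.span {Q, C, MvPolynomial.X i - 1} ≤
        RingHom.ker (MvPolynomial.aeval (fun j => y j / y i) :
          MvPolynomial (Fin (n + 1)) k →ₐ[k] K) := by
      rw [Ideal.span_le]
      rintro x (rfl | rfl | rfl)
      · exact ci_chart_zero x hQ y i ((hy.2.1 d x hQ).2 (Ideal.subset_span (by simp)))
      · exact ci_chart_zero x hC y i ((hy.2.1 e x hC).2 (Ideal.subset_span (by simp)))
      · change MvPolynomial.aeval (fun j => y j / y i) (MvPolynomial.X i - 1) = 0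
        rw [map_sub, MvPolynomial.aeval_X, map_one, div_self hi, sub_self]
    exact hle h

theorem ci_euler {k : Type} [Field k] {R : Type} [CommRing R] [Algebra k R] {n d : ℕ}
    (G : MvPolynomial (Fin (n + 1)) k) (hG : G.IsHomogeneous d) (w : Fin (n + 1) → R)
    (h0 : MvPolynomial.aeval w G = 0) (i : Fin (n + 1)) (hi : w i = 1) :
    MvPolynomial.aeval w (MvPolynomial.pderiv i G) =
      -∑ j ∈ Finset.univ.erase i, w j * MvPolynomial.aeval w (MvPolynomial.pderiv j G) := by
  have h := congrArg (MvPolynomial.aeval w) hG.sum_X_mul_pderiv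
  rw [map_sum, map_nsmul, h0, smul_zero] at h
  simp only [map_mul, MvPolynomial.aeval_X] at h
  rw [← Finset.add_sum_erase _ _ (Finset.mem_univ i), hi, one_mul] at h
  exact eq_neg_of_add_eq_zero_left h

theorem ci_jacobian {k K : Type} [Field k] [CharZero k] [Field K] [Algebra k K] {n d e : ℕ}
    (Q C : MvPolynomial (Fin (n + 1)) k) (hQ : Q.IsHomogeneous d) (hC : C.IsHomogeneous e)
    (hsm : IsSmoothCI Q C)
    (y : Fin (n + 1) → K) (hy : IsCIPt Q C y) (i : Fin (n + 1)) (hi : y i ≠ 0)
    (P : Ideal (chartRing k y i)) (hP : P.IsPrime) :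
    ∃ a b, a ≠ i ∧ b ≠ i ∧ a ≠ b ∧ MvPolynomial.aeval (chartCoord k y i) (jminor Q C a b) ∉ P := by
  classical
  by_contra hcon
  push Not at hcon
  set w := chartCoord k y i with hw
  have hz : ∀ {m : ℕ} (G : MvPolynomial (Fin (n + 1)) k), G.IsHomogeneous m →
      G ∈ Ideal.span {Q, C} → MvPolynomial.aeval w G = 0 := by
    intro m G hG hm
    apply Subtype.ext
    rw [hw, G2_val]
    have := ci_chart_zero G hG y i ((hy.2.1 m G hG).2 hm)
    rw [this]; rfl
  have hQ0 : MvPolynomial.aeval w Q = 0 := hz Q hQ (Ideal.subset_span (by simp))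
  have hC0 : MvPolynomial.aeval w C = 0 := hz C hC (Ideal.subset_span (by simp))
  have hci : w i = 1 := Subtype.ext (div_self hi)
  have hself : ∀ a, MvPolynomial.aeval w (jminor Q C a a) = 0 := by
    intro a
    rw [jminor, sub_self, map_zero]
  have hswap : ∀ a b, MvPolynomial.aeval w (jminor Q C a b) =
      -MvPolynomial.aeval w (jminor Q C b a) := by
    intro a b
    rw [← map_neg]
    congr 1
    rw [jminor, jminor]
    ring
  have h1 : ∀ a b, a ≠ i → b ≠ i → MvPolynomial.aeval w (jminor Q C a b) ∈ P := by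
    intro a b ha hb
    by_cases hab : a = b
    · subst hab; rw [hself]; exact zero_mem _
    · exact hcon a b ha hb hab
  have h2 : ∀ b, b ≠ i → MvPolynomial.aeval w (jminor Q C i b) ∈ P := by
    intro b hb
    have e : MvPolynomial.aeval w (jminor Q C i b) =
        -∑ j ∈ Finset.univ.erase i, w j * MvPolynomial.aeval w (jminor Q C j b) := by
      have e1 : MvPolynomial.aeval w (jminor Q C i b) =
          MvPolynomial.aeval w (MvPolynomial.pderiv i Q) *
            MvPolynomial.aeval w (MvPolynomial.pderiv b C) -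
          MvPolynomial.aeval w (MvPolynomial.pderiv b Q) *
            MvPolynomial.aeval w (MvPolynomial.pderiv i C) := by
        rw [jminor, map_sub, map_mul, map_mul]
      rw [e1, ci_euler Q hQ w hQ0 i hci, ci_euler C hC w hC0 i hci, neg_mul, mul_neg, sub_neg_eq_add,
        Finset.sum_mul, Finset.mul_sum, ← Finset.sum_neg_distrib, ← Finset.sum_neg_distrib,
        ← Finset.sum_add_distrib]
      refine Finset.sum_congr rfl fun j _ => ?_
      rw [jminor, map_sub, map_mul, map_mul]
      ring
    rw [e]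
    refine neg_mem (Ideal.sum_mem _ fun j hj => P.mul_mem_left _ ?_)
    exact h1 j b (Finset.ne_of_mem_erase hj) hb
  have hall : ∀ a b, MvPolynomial.aeval w (jminor Q C a b) ∈ P := by
    intro a b
    by_cases ha : a = i
    · subst ha
      by_cases hb : b = a
      · subst hb; rw [hself]; exact zero_mem _
      · exact h2 b hb
    · by_cases hb : b = i
      · subst hb
        rw [hswap]
        exact neg_mem (h2 a ha)
      · exact h1 a b ha hb
  obtain ⟨m, hm, hPm⟩ := Ideal.exists_le_maximal P hP.ne_top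
  letI : Field (chartRing k y i ⧸ m) := Ideal.Quotient.field m
  haveI : Algebra.FiniteType k (chartRing k y i) :=
    (Subalgebra.fg_iff_finiteType _).mp (chartRing_fg k y i)
  haveI : Algebra.FiniteType k (chartRing k y i ⧸ m) :=
    Algebra.FiniteType.of_surjective (Ideal.Quotient.mkₐ k m) (Ideal.Quotient.mkₐ_surjective k m)
  haveI : Module.Finite k (chartRing k y i ⧸ m) :=
    finite_of_finite_type_of_isJacobsonRing k (chartRing k y i ⧸ m)
  haveI : Algebra.IsAlgebraic k (chartRing k y i ⧸ m) := Algebra.IsAlgebraic.of_finite k _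
  let ev : (chartRing k y i ⧸ m) →ₐ[k] AlgebraicClosure k := IsAlgClosed.lift
  let φ : chartRing k y i →ₐ[k] AlgebraicClosure k := ev.comp (Ideal.Quotient.mkₐ k m)
  have hφ : ∀ x ∈ P, φ x = 0 := by
    intro x hx
    have : Ideal.Quotient.mkₐ k m x = 0 := by
      rw [Ideal.Quotient.mkₐ_eq_mk]
      exact Ideal.Quotient.eq_zero_iff_mem.2 (hPm hx)
    show ev (Ideal.Quotient.mkₐ k m x) = 0
    rw [this, map_zero]
  have hcomp : ∀ G : MvPolynomial (Fin (n + 1)) k,
      MvPolynomial.aeval (fun j => φ (w j)) G = φ (MvPolynomial.aeval w G) := by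
    intro G
    have := MvPolynomial.comp_aeval (f := w) φ
    exact (DFunLike.congr_fun this G).symm
  have ha : (fun j => φ (w j)) ≠ 0 := by
    intro h
    have h1 := congrFun h i
    simp only [hci, map_one, Pi.zero_apply] at h1
    exact one_ne_zero h1
  obtain ⟨a, b, hab⟩ := hsm _ ha (by rw [hcomp, hQ0, map_zero]) (by rw [hcomp, hC0, map_zero])
  apply hab
  have := hcomp (jminor Q C a b)
  rw [hφ _ (hall a b)] at this
  exact this

/-- All coordinates of the generic point are nonzero. -/
theorem IsCIPt.coord_ne_zero {k K : Type} [Field k] [Field K] [Algebra k K] {n d e : ℕ}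
    {Q C : MvPolynomial (Fin (n + 1)) k} (hQ : Q.IsHomogeneous d) (hC : C.IsHomogeneous e)
    (hd : 2 ≤ d) (he : 2 ≤ e) {y : Fin (n + 1) → K}
    (hy : IsCIPt Q C y) (i : Fin (n + 1)) : y i ≠ 0 := by
  intro h
  have h1 : (MvPolynomial.X i : MvPolynomial (Fin (n + 1)) k) ∈ Ideal.span {Q, C} :=
    (hy.2.1 1 (MvPolynomial.X i) (MvPolynomial.isHomogeneous_X k i)).1 (by simpa using h)
  rw [Ideal.mem_span_pair] at h1
  obtain ⟨a, b, hab⟩ := h1
  have h2 := congrArg (MvPolynomial.coeff (Finsupp.single i 1)) hab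
  rw [MvPolynomial.coeff_add, MvPolynomial.coeff_X] at h2
  have key : ∀ {m : ℕ} (A G : MvPolynomial (Fin (n + 1)) k), G.IsHomogeneous m → 2 ≤ m →
      MvPolynomial.coeff (Finsupp.single i 1) (A * G) = 0 := by
    intro m A G hG hm
    classical
    rw [MvPolynomial.coeff_mul]
    refine Finset.sum_eq_zero fun p hp => ?_
    have hp := Finset.HasAntidiagonal.mem_antidiagonal.1 hp
    have : MvPolynomial.coeff p.2 G = 0 := by
      refine hG.coeff_eq_zero ?_
      have h3 := congrArg Finsupp.degree hp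
      rw [map_add, Finsupp.degree_single] at h3
      omega
    rw [this, mul_zero]
  rw [key a Q hQ hd, key b C hC he, add_zero] at h2
  simp at h2

end Pool.Agent.LibHP
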