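import Pool.Agent.LibHPF.QE
import Pool.Agent.LibHPF.QD

set_option autoImplicit false
open MvPolynomial

namespace Pool.Agent.LibHP.CI

open Pool.Agent.LibHP

/-! ### A quadratic and a cubic form as symmetric tensors -/

/-- The coefficients of a quadratic form and of a cubic form in `n + 1` variables. -/
structure Dat (k : Type) (n : ℕ) : Type where
  /-- the quadratic form -/
  β : Fin (n + 1) → Fin (n + 1) → k
  /-- the cubic form -/
  γ : Fin (n + 1) → Fin (n + 1) → Fin (n + 1) → k

section Def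
variable {k : Type} [Field k] {n : ℕ} (D : Dat k n)
variable {R S : Type} [CommRing R] [Algebra k R] [CommRing S] [Algebra k S]

/-- The bilinear form with coefficients `β`, on vectors with entries in a `k`-algebra. -/
noncomputable def Bq (a b : Fin (n + 1) → R) : R :=
  ∑ i, ∑ j, algebraMap k R (D.β i j) * (a i * b j)

/-- The trilinear form with coefficients `γ`, on vectors with entries in a `k`-algebra. -/
noncomputable def Cq (a b c : Fin (n + 1) → R) : R :=
  ∑ i, ∑ j, ∑ s, algebraMap k R (D.γ i j s) * (a i * b j * c s)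

/-- Both tensors are symmetric. -/
def IsSymm23 : Prop :=
  (∀ i j, D.β j i = D.β i j) ∧ ∀ i j s, D.γ j i s = D.γ i j s ∧ D.γ i s j = D.γ i j s

/-- The quadratic polynomial `β(x, x)`. -/
noncomputable def QQ : MvPolynomial (Fin (n + 1)) k := Bq D X X

/-- The cubic polynomial `γ(x, x, x)`. -/
noncomputable def CC : MvPolynomial (Fin (n + 1)) k := Cq D X X X

/-- The ideal of the complete intersection. -/
noncomputable def II : Ideal (MvPolynomial (Fin (n + 1)) k) := Ideal.span {QQ D, CC D}

/-- The complete intersection `β(x, x) = γ(x, x, x) = 0` is smooth: at each of its points over the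
algebraic closure the two gradients are linearly independent. -/
def Smooth23 : Prop :=
  ∀ x : Fin (n + 1) → AlgebraicClosure k, x ≠ 0 → Bq D x x = 0 → Cq D x x x = 0 →
    ∀ r s : AlgebraicClosure k, (∀ a, r * Bq D x a + s * Cq D x x a = 0) → r = 0 ∧ s = 0

/-- `P` is a generic point of the affine cone over the complete intersection. -/
def IsGenCone {K : Type} [Field K] [Algebra k K] (P : Fin (n + 1) → K) : Prop :=
  ∀ G : MvPolynomial (Fin (n + 1)) k, aeval P G = 0 ↔ G ∈ II D

/-- `P` is a generic point of the complete intersection, with first coordinate `1`. -/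
def IsGenPt {K : Type} [Field K] [Algebra k K] (P : Fin (n + 1) → K) : Prop :=
  P 0 = 1 ∧ ∀ (d : ℕ) (G : MvPolynomial (Fin (n + 1)) k), G.IsHomogeneous d →
    (aeval P G = 0 ↔ G ∈ II D)

/-! ### Linearity -/

theorem Bq_add1 (a a' b : Fin (n + 1) → R) : Bq D (a + a') b = Bq D a b + Bq D a' b := by
  simp only [Bq, ← Finset.sum_add_distrib, Pi.add_apply]
  refine Finset.sum_congr rfl fun i _ => Finset.sum_congr rfl fun j _ => by ring

theorem Bq_add2 (a b b' : Fin (n + 1) → R) : Bq D a (b + b') = Bq D a b + Bq D a b' := by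
  simp only [Bq, ← Finset.sum_add_distrib, Pi.add_apply]
  refine Finset.sum_congr rfl fun i _ => Finset.sum_congr rfl fun j _ => by ring

theorem Bq_smul1 (r : R) (a b : Fin (n + 1) → R) : Bq D (r • a) b = r * Bq D a b := by
  simp only [Bq, Finset.mul_sum, Pi.smul_apply, smul_eq_mul]
  refine Finset.sum_congr rfl fun i _ => Finset.sum_congr rfl fun j _ => by ring

theorem Bq_smul2 (r : R) (a b : Fin (n + 1) → R) : Bq D a (r • b) = r * Bq D a b := by
  simp only [Bq, Finset.mul_sum, Pi.smul_apply, smul_eq_mul]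
  refine Finset.sum_congr rfl fun i _ => Finset.sum_congr rfl fun j _ => by ring

theorem Bq_neg1 (a b : Fin (n + 1) → R) : Bq D (-a) b = -Bq D a b := by
  rw [← neg_one_smul R a, Bq_smul1, neg_one_mul]

theorem Bq_neg2 (a b : Fin (n + 1) → R) : Bq D a (-b) = -Bq D a b := by
  rw [← neg_one_smul R b, Bq_smul2, neg_one_mul]

theorem Bq_sub1 (a a' b : Fin (n + 1) → R) : Bq D (a - a') b = Bq D a b - Bq D a' b := by
  rw [sub_eq_add_neg, Bq_add1, Bq_neg1, sub_eq_add_neg]

theorem Bq_sub2 (a b b' : Fin (n + 1) → R) : Bq D a (b - b') = Bq D a b - Bq D a b' := by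
  rw [sub_eq_add_neg, Bq_add2, Bq_neg2, sub_eq_add_neg]

theorem Cq_add1 (a a' b c : Fin (n + 1) → R) : Cq D (a + a') b c = Cq D a b c + Cq D a' b c := by
  simp only [Cq, ← Finset.sum_add_distrib, Pi.add_apply]
  refine Finset.sum_congr rfl fun i _ => Finset.sum_congr rfl fun j _ =>
    Finset.sum_congr rfl fun s _ => by ring

theorem Cq_add2 (a b b' c : Fin (n + 1) → R) : Cq D a (b + b') c = Cq D a b c + Cq D a b' c := by
  simp only [Cq, ← Finset.sum_add_distrib, Pi.add_apply]
  refine Finset.sum_congr rfl fun i _ => Finset.sum_congr rfl fun j _ =>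
    Finset.sum_congr rfl fun s _ => by ring

theorem Cq_add3 (a b c c' : Fin (n + 1) → R) : Cq D a b (c + c') = Cq D a b c + Cq D a b c' := by
  simp only [Cq, ← Finset.sum_add_distrib, Pi.add_apply]
  refine Finset.sum_congr rfl fun i _ => Finset.sum_congr rfl fun j _ =>
    Finset.sum_congr rfl fun s _ => by ring

theorem Cq_smul1 (r : R) (a b c : Fin (n + 1) → R) : Cq D (r • a) b c = r * Cq D a b c := by
  simp only [Cq, Finset.mul_sum, Pi.smul_apply, smul_eq_mul]
  refine Finset.sum_congr rfl fun i _ => Finset.sum_congr rfl fun j _ =>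
    Finset.sum_congr rfl fun s _ => by ring

theorem Cq_smul2 (r : R) (a b c : Fin (n + 1) → R) : Cq D a (r • b) c = r * Cq D a b c := by
  simp only [Cq, Finset.mul_sum, Pi.smul_apply, smul_eq_mul]
  refine Finset.sum_congr rfl fun i _ => Finset.sum_congr rfl fun j _ =>
    Finset.sum_congr rfl fun s _ => by ring

theorem Cq_smul3 (r : R) (a b c : Fin (n + 1) → R) : Cq D a b (r • c) = r * Cq D a b c := by
  simp only [Cq, Finset.mul_sum, Pi.smul_apply, smul_eq_mul]
  refine Finset.sum_congr rfl fun i _ => Finset.sum_congr rfl fun j _ =>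
    Finset.sum_congr rfl fun s _ => by ring

theorem Cq_neg1 (a b c : Fin (n + 1) → R) : Cq D (-a) b c = -Cq D a b c := by
  rw [← neg_one_smul R a, Cq_smul1, neg_one_mul]

theorem Cq_neg2 (a b c : Fin (n + 1) → R) : Cq D a (-b) c = -Cq D a b c := by
  rw [← neg_one_smul R b, Cq_smul2, neg_one_mul]

theorem Cq_neg3 (a b c : Fin (n + 1) → R) : Cq D a b (-c) = -Cq D a b c := by
  rw [← neg_one_smul R c, Cq_smul3, neg_one_mul]

theorem Cq_sub1 (a a' b c : Fin (n + 1) → R) : Cq D (a - a') b c = Cq D a b c - Cq D a' b c := by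
  rw [sub_eq_add_neg, Cq_add1, Cq_neg1, sub_eq_add_neg]

theorem Cq_sub2 (a b b' c : Fin (n + 1) → R) : Cq D a (b - b') c = Cq D a b c - Cq D a b' c := by
  rw [sub_eq_add_neg, Cq_add2, Cq_neg2, sub_eq_add_neg]

theorem Cq_sub3 (a b c c' : Fin (n + 1) → R) : Cq D a b (c - c') = Cq D a b c - Cq D a b c' := by
  rw [sub_eq_add_neg, Cq_add3, Cq_neg3, sub_eq_add_neg]

/-- The last slot as a linear functional. -/
noncomputable def BqL (a : Fin (n + 1) → R) : (Fin (n + 1) → R) →ₗ[R] R where
  toFun d := Bq D a d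
  map_add' d d' := Bq_add2 D a d d'
  map_smul' r d := Bq_smul2 D r a d

@[simp] theorem BqL_apply (a d : Fin (n + 1) → R) : BqL D a d = Bq D a d := rfl

/-- The last slot as a linear functional. -/
noncomputable def CqL (a b : Fin (n + 1) → R) : (Fin (n + 1) → R) →ₗ[R] R where
  toFun d := Cq D a b d
  map_add' d d' := Cq_add3 D a b d d'
  map_smul' r d := Cq_smul3 D r a b d

@[simp] theorem CqL_apply (a b d : Fin (n + 1) → R) : CqL D a b d = Cq D a b d := rfl

theorem Bq_zero2 (a : Fin (n + 1) → R) : Bq D a 0 = 0 := (BqL D a).map_zero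

theorem Cq_zero3 (a b : Fin (n + 1) → R) : Cq D a b 0 = 0 := (CqL D a b).map_zero

theorem Bq_zero1 (a : Fin (n + 1) → R) : Bq D 0 a = 0 := by
  rw [← zero_smul R (0 : Fin (n + 1) → R), Bq_smul1, zero_mul]

theorem Cq_zero1 (a b : Fin (n + 1) → R) : Cq D 0 a b = 0 := by
  rw [← zero_smul R (0 : Fin (n + 1) → R), Cq_smul1, zero_mul]

theorem Cq_zero2 (a b : Fin (n + 1) → R) : Cq D a 0 b = 0 := by
  rw [← zero_smul R (0 : Fin (n + 1) → R), Cq_smul2, zero_mul]

/-- Expansion in the last slot. -/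
theorem Bq_eq_sum (a d : Fin (n + 1) → R) : Bq D a d = ∑ i, d i * Bq D a (Pi.single i 1) := by
  have h := (BqL D a).pi_apply_eq_sum_univ d
  simp only [BqL_apply, smul_eq_mul] at h
  rw [h]
  refine Finset.sum_congr rfl fun i _ => ?_
  congr 2
  funext j
  rw [Pi.single_apply]
  simp only [eq_comm]

/-- Expansion in the last slot. -/
theorem Cq_eq_sum (a b d : Fin (n + 1) → R) :
    Cq D a b d = ∑ i, d i * Cq D a b (Pi.single i 1) := by
  have h := (CqL D a b).pi_apply_eq_sum_univ d
  simp only [CqL_apply, smul_eq_mul] at h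
  rw [h]
  refine Finset.sum_congr rfl fun i _ => ?_
  congr 2
  funext j
  rw [Pi.single_apply]
  simp only [eq_comm]

/-! ### Symmetry -/

variable {D} in
theorem Bq_comm (hD : IsSymm23 D) (a b : Fin (n + 1) → R) : Bq D a b = Bq D b a := by
  unfold Bq
  rw [Finset.sum_comm]
  refine Finset.sum_congr rfl fun i _ => Finset.sum_congr rfl fun j _ => ?_
  rw [hD.1 i j]
  ring

variable {D} in
theorem Cq_comm12 (hD : IsSymm23 D) (a b c : Fin (n + 1) → R) : Cq D a b c = Cq D b a c := by
  unfold Cq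
  rw [Finset.sum_comm]
  refine Finset.sum_congr rfl fun i _ => Finset.sum_congr rfl fun j _ =>
    Finset.sum_congr rfl fun s _ => ?_
  rw [(hD.2 i j s).1]
  ring

variable {D} in
theorem Cq_comm23 (hD : IsSymm23 D) (a b c : Fin (n + 1) → R) : Cq D a b c = Cq D a c b := by
  unfold Cq
  refine Finset.sum_congr rfl fun i _ => ?_
  rw [Finset.sum_comm]
  refine Finset.sum_congr rfl fun j _ => Finset.sum_congr rfl fun s _ => ?_
  rw [(hD.2 i j s).2]
  ring

/-! ### Base change and derivations -/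

theorem Bq_map (f : R →ₐ[k] S) (a b : Fin (n + 1) → R) :
    f (Bq D a b) = Bq D (fun i => f (a i)) (fun i => f (b i)) := by
  simp only [Bq, map_sum, map_mul, AlgHom.commutes]

theorem Cq_map (f : R →ₐ[k] S) (a b c : Fin (n + 1) → R) :
    f (Cq D a b c) = Cq D (fun i => f (a i)) (fun i => f (b i)) (fun i => f (c i)) := by
  simp only [Cq, map_sum, map_mul, AlgHom.commutes]

theorem Bq_map_ringHom (f : R →+* S) (hf : ∀ c : k, f (algebraMap k R c) = algebraMap k S c)
    (a b : Fin (n + 1) → R) : f (Bq D a b) = Bq D (fun i => f (a i)) (fun i => f (b i)) := by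
  simp only [Bq, map_sum, map_mul, hf]

theorem Cq_map_ringHom (f : R →+* S) (hf : ∀ c : k, f (algebraMap k R c) = algebraMap k S c)
    (a b c : Fin (n + 1) → R) :
    f (Cq D a b c) = Cq D (fun i => f (a i)) (fun i => f (b i)) (fun i => f (c i)) := by
  simp only [Cq, map_sum, map_mul, hf]

theorem Bq_deriv (δ : Derivation k R R) (a b : Fin (n + 1) → R) :
    δ (Bq D a b) = Bq D (fun i => δ (a i)) b + Bq D a (fun i => δ (b i)) := by
  simp only [Bq, map_sum, ← Finset.sum_add_distrib]
  refine Finset.sum_congr rfl fun i _ => Finset.sum_congr rfl fun j _ => ?_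
  simp only [Derivation.leibniz, Derivation.map_algebraMap, smul_eq_mul]
  ring

theorem Cq_deriv (δ : Derivation k R R) (a b c : Fin (n + 1) → R) :
    δ (Cq D a b c) = Cq D (fun i => δ (a i)) b c + Cq D a (fun i => δ (b i)) c +
      Cq D a b (fun i => δ (c i)) := by
  simp only [Cq, map_sum, ← Finset.sum_add_distrib]
  refine Finset.sum_congr rfl fun i _ => Finset.sum_congr rfl fun j _ =>
    Finset.sum_congr rfl fun s _ => ?_
  simp only [Derivation.leibniz, Derivation.map_algebraMap, smul_eq_mul]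
  ring

variable {D} in
theorem Bq_deriv2 (hD : IsSymm23 D) (δ : Derivation k R R) (a : Fin (n + 1) → R) :
    δ (Bq D a a) = 2 * Bq D a (fun i => δ (a i)) := by
  rw [Bq_deriv, Bq_comm hD (fun i => δ (a i))]
  ring

variable {D} in
theorem Cq_deriv3 (hD : IsSymm23 D) (δ : Derivation k R R) (a : Fin (n + 1) → R) :
    δ (Cq D a a a) = 3 * Cq D a a (fun i => δ (a i)) := by
  rw [Cq_deriv, Cq_comm12 hD (fun i => δ (a i)), Cq_comm23 hD a (fun i => δ (a i))]
  ring

/-! ### The two polynomials -/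

theorem aeval_Bq (x : Fin (n + 1) → R) (a b : Fin (n + 1) → MvPolynomial (Fin (n + 1)) k) :
    aeval x (Bq D a b) = Bq D (fun i => aeval x (a i)) (fun i => aeval x (b i)) :=
  Bq_map D (aeval x) a b

theorem aeval_Cq (x : Fin (n + 1) → R) (a b c : Fin (n + 1) → MvPolynomial (Fin (n + 1)) k) :
    aeval x (Cq D a b c) = Cq D (fun i => aeval x (a i)) (fun i => aeval x (b i))
      (fun i => aeval x (c i)) :=
  Cq_map D (aeval x) a b c

theorem aeval_QQ (x : Fin (n + 1) → R) : aeval x (QQ D) = Bq D x x := by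
  unfold QQ
  rw [aeval_Bq]
  simp only [aeval_X]

theorem aeval_CC (x : Fin (n + 1) → R) : aeval x (CC D) = Cq D x x x := by
  unfold CC
  rw [aeval_Cq]
  simp only [aeval_X]

theorem isHomogeneous_QQ : (QQ D).IsHomogeneous 2 := by
  unfold QQ Bq
  refine IsHomogeneous.sum _ _ _ fun i _ => IsHomogeneous.sum _ _ _ fun j _ => ?_
  have h : (2 : ℕ) = 0 + (1 + 1) := by norm_num
  rw [h]
  exact (isHomogeneous_C _ _).mul ((isHomogeneous_X k i).mul (isHomogeneous_X k j))

theorem isHomogeneous_CC : (CC D).IsHomogeneous 3 := by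
  unfold CC Cq
  refine IsHomogeneous.sum _ _ _ fun i _ => IsHomogeneous.sum _ _ _ fun j _ =>
    IsHomogeneous.sum _ _ _ fun s _ => ?_
  have h : (3 : ℕ) = 0 + (1 + 1 + 1) := by norm_num
  rw [h]
  exact (isHomogeneous_C _ _).mul
    (((isHomogeneous_X k i).mul (isHomogeneous_X k j)).mul (isHomogeneous_X k s))

theorem QQ_mem : QQ D ∈ II D := Ideal.subset_span (by simp)

theorem CC_mem : CC D ∈ II D := Ideal.subset_span (by simp)

theorem mem_II_iff (G : MvPolynomial (Fin (n + 1)) k) :
    G ∈ II D ↔ ∃ A B, G = A * QQ D + B * CC D := by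
  unfold II
  rw [Ideal.mem_span_pair]
  constructor
  · rintro ⟨A, B, h⟩
    exact ⟨A, B, h.symm⟩
  · rintro ⟨A, B, h⟩
    exact ⟨A, B, h.symm⟩

/-- The relations vanish at the points of the complete intersection. -/
theorem aeval_of_mem_II (x : Fin (n + 1) → R) (h2 : Bq D x x = 0) (h3 : Cq D x x x = 0)
    (G : MvPolynomial (Fin (n + 1)) k) (hG : G ∈ II D) : aeval x G = 0 := by
  obtain ⟨A, B, rfl⟩ := (mem_II_iff D G).1 hG
  rw [map_add, map_mul, map_mul, aeval_QQ, aeval_CC, h2, h3]
  ring

variable {D} in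
/-- The partial derivatives of the quadratic polynomial. -/
theorem aeval_pderiv_QQ (hD : IsSymm23 D) (x : Fin (n + 1) → R) (i : Fin (n + 1)) :
    aeval x (pderiv i (QQ D)) = 2 * Bq D x (Pi.single i 1) := by
  unfold QQ
  rw [Bq_deriv2 hD, map_mul, aeval_Bq, map_ofNat]
  simp only [aeval_X]
  congr 2
  funext j
  rw [pderiv_X]
  by_cases h : j = i
  · subst h; simp
  · rw [Pi.single_eq_of_ne h, Pi.single_eq_of_ne h, map_zero]

variable {D} in
/-- The partial derivatives of the cubic polynomial. -/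
theorem aeval_pderiv_CC (hD : IsSymm23 D) (x : Fin (n + 1) → R) (i : Fin (n + 1)) :
    aeval x (pderiv i (CC D)) = 3 * Cq D x x (Pi.single i 1) := by
  unfold CC
  rw [Cq_deriv3 hD, map_mul, aeval_Cq, map_ofNat]
  simp only [aeval_X]
  congr 2
  funext j
  rw [pderiv_X]
  by_cases h : j = i
  · subst h; simp
  · rw [Pi.single_eq_of_ne h, Pi.single_eq_of_ne h, map_zero]

variable {D} in
theorem sum_pderiv_QQ (hD : IsSymm23 D) (x c : Fin (n + 1) → R) :
    ∑ i, c i * aeval x (pderiv i (QQ D)) = 2 * Bq D x c := by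
  rw [Bq_eq_sum D x c, Finset.mul_sum]
  refine Finset.sum_congr rfl fun i _ => ?_
  rw [aeval_pderiv_QQ hD]
  ring

variable {D} in
theorem sum_pderiv_CC (hD : IsSymm23 D) (x c : Fin (n + 1) → R) :
    ∑ i, c i * aeval x (pderiv i (CC D)) = 3 * Cq D x x c := by
  rw [Cq_eq_sum D x x c, Finset.mul_sum]
  refine Finset.sum_congr rfl fun i _ => ?_
  rw [aeval_pderiv_CC hD]
  ring

end Def

/-! ### The move -/

section Move
variable {k : Type} [Field k] {n : ℕ} (D : Dat k n)
variable {R S : Type} [CommRing R] [Algebra k R] [CommRing S] [Algebra k S]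

/-- The determinant of the two equations of the tangent space at `P`, on the vectors `e₁, e₂`. -/
noncomputable def dd (P e₁ e₂ : Fin (n + 1) → R) : R :=
  Bq D P e₁ * Cq D P P e₂ - Bq D P e₂ * Cq D P P e₁

/-- Projection of `z` along `e₁, e₂` to the tangent space at `P` (up to a scalar). -/
noncomputable def prj (P e₁ e₂ z : Fin (n + 1) → R) : Fin (n + 1) → R :=
  dd D P e₁ e₂ • z - dd D P z e₂ • e₁ - dd D P e₁ z • e₂

/-- The quadratic form of the projection of `Y`. -/
noncomputable def qW (P e₁ e₂ Y : Fin (n + 1) → R) : R := Bq D (prj D P e₁ e₂ Y) (prj D P e₁ e₂ Y)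

/-- The second intersection point with the quadric cone of the line through the isotropic vector
`w` and the vector `z`. -/
noncomputable def st (w z : Fin (n + 1) → R) : Fin (n + 1) → R :=
  Bq D z z • w - (2 * Bq D w z) • z

/-- The residual intersection point with the complete intersection of the line through `P` and `v`,
for an isotropic tangent vector `v`. -/
noncomputable def mv (P v : Fin (n + 1) → R) : Fin (n + 1) → R :=
  Cq D v v v • P - (3 * Cq D P v v) • v

/-- The move attached to the point `W` of the cone over the quadric, and the free vector `z`. -/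
noncomputable def mvz (P e₁ e₂ W z : Fin (n + 1) → R) : Fin (n + 1) → R :=
  mv D P (st D (prj D P e₁ e₂ W) (prj D P e₁ e₂ z))

theorem dd_map (f : R →ₐ[k] S) (P e₁ e₂ : Fin (n + 1) → R) :
    f (dd D P e₁ e₂) = dd D (fun j => f (P j)) (fun j => f (e₁ j)) (fun j => f (e₂ j)) := by
  simp only [dd, map_sub, map_mul, Bq_map, Cq_map]

theorem prj_map (f : R →ₐ[k] S) (P e₁ e₂ z : Fin (n + 1) → R) (i : Fin (n + 1)) :
    f (prj D P e₁ e₂ z i) = prj D (fun j => f (P j)) (fun j => f (e₁ j)) (fun j => f (e₂ j))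
      (fun j => f (z j)) i := by
  simp only [prj, Pi.sub_apply, Pi.smul_apply, smul_eq_mul, map_sub, map_mul, dd_map]

theorem qW_map (f : R →ₐ[k] S) (P e₁ e₂ z : Fin (n + 1) → R) :
    f (qW D P e₁ e₂ z) = qW D (fun j => f (P j)) (fun j => f (e₁ j)) (fun j => f (e₂ j))
      (fun j => f (z j)) := by
  simp only [qW, Bq_map, prj_map]

theorem st_map (f : R →ₐ[k] S) (w z : Fin (n + 1) → R) (i : Fin (n + 1)) :
    f (st D w z i) = st D (fun j => f (w j)) (fun j => f (z j)) i := by
  simp only [st, Pi.sub_apply, Pi.smul_apply, smul_eq_mul, map_sub, map_mul, Bq_map, map_ofNat]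

theorem mv_map (f : R →ₐ[k] S) (P v : Fin (n + 1) → R) (i : Fin (n + 1)) :
    f (mv D P v i) = mv D (fun j => f (P j)) (fun j => f (v j)) i := by
  simp only [mv, Pi.sub_apply, Pi.smul_apply, smul_eq_mul, map_sub, map_mul, Cq_map, map_ofNat]

theorem mvz_map (f : R →ₐ[k] S) (P e₁ e₂ W z : Fin (n + 1) → R) (i : Fin (n + 1)) :
    f (mvz D P e₁ e₂ W z i) = mvz D (fun j => f (P j)) (fun j => f (e₁ j)) (fun j => f (e₂ j))
      (fun j => f (W j)) (fun j => f (z j)) i := by
  simp only [mvz, mv_map, st_map, prj_map]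

variable {D} in
theorem Bq_prj (P e₁ e₂ z : Fin (n + 1) → R) : Bq D P (prj D P e₁ e₂ z) = 0 := by
  simp only [prj, dd, Bq_sub2, Bq_smul2]
  ring

variable {D} in
theorem Cq_prj (P e₁ e₂ z : Fin (n + 1) → R) : Cq D P P (prj D P e₁ e₂ z) = 0 := by
  simp only [prj, dd, Cq_sub3, Cq_smul3]
  ring

variable {D} in
/-- The projection of a tangent vector. -/
theorem prj_tangent (P e₁ e₂ z : Fin (n + 1) → R) (h1 : Bq D P z = 0) (h2 : Cq D P P z = 0) :
    prj D P e₁ e₂ z = dd D P e₁ e₂ • z := by
  simp only [prj, dd, h1, h2, zero_mul, mul_zero, sub_zero, zero_smul]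

variable {D} in
theorem Bq_st1 (P w z : Fin (n + 1) → R) (hw : Bq D P w = 0) (hz : Bq D P z = 0) :
    Bq D P (st D w z) = 0 := by
  simp only [st, Bq_sub2, Bq_smul2, hw, hz]
  ring

variable {D} in
theorem Cq_st1 (P w z : Fin (n + 1) → R) (hw : Cq D P P w = 0) (hz : Cq D P P z = 0) :
    Cq D P P (st D w z) = 0 := by
  simp only [st, Cq_sub3, Cq_smul3, hw, hz]
  ring

variable {D} in
theorem Bq_st2 (hD : IsSymm23 D) (w z : Fin (n + 1) → R) (hw : Bq D w w = 0) :
    Bq D (st D w z) (st D w z) = 0 := by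
  simp only [st, Bq_sub1, Bq_smul1, Bq_sub2, Bq_smul2, hw, Bq_comm hD z w]
  ring

variable {D} in
/-- The residual point lies on the quadric. -/
theorem Bq_mv (hD : IsSymm23 D) (P v : Fin (n + 1) → R) (h0 : Bq D P P = 0)
    (h1 : Bq D P v = 0) (h2 : Bq D v v = 0) : Bq D (mv D P v) (mv D P v) = 0 := by
  simp only [mv, Bq_sub1, Bq_smul1, Bq_sub2, Bq_smul2, Bq_comm hD v P, h0, h1, h2]
  ring

variable {D} in
/-- The residual point lies on the cubic. -/
theorem Cq_mv (hD : IsSymm23 D) (P v : Fin (n + 1) → R) (h0 : Cq D P P P = 0)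
    (h1 : Cq D P P v = 0) : Cq D (mv D P v) (mv D P v) (mv D P v) = 0 := by
  have e1 : Cq D P v P = Cq D P P v := Cq_comm23 hD _ _ _
  have e2 : Cq D v P P = Cq D P P v := by rw [Cq_comm12 hD v P P, e1]
  have e3 : Cq D v P v = Cq D P v v := Cq_comm12 hD _ _ _
  have e4 : Cq D v v P = Cq D P v v := by rw [Cq_comm23 hD v v P, e3]
  simp only [mv, Cq_sub1, Cq_smul1, Cq_sub2, Cq_smul2, Cq_sub3, Cq_smul3, e1, e2, e3, e4, h0, h1]
  ring

end Move

/-! ### The quadratic polynomial of the isotropic tangent directions -/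

section QuadW
variable {k : Type} [Field k] {n : ℕ} (D : Dat k n)
variable {K M : Type} [Field K] [Algebra k K] [Field M] [Algebra k M]

/-- The quadratic polynomial `B(prj Y, prj Y)` in the variables `Y`. -/
noncomputable def quadW (P e₁ e₂ : Fin (n + 1) → K) : MvPolynomial (Fin (n + 1)) K :=
  qW D (fun i => C (P i)) (fun i => C (e₁ i)) (fun i => C (e₂ i)) X

theorem eval₂_quadW (j : K →ₐ[k] M) (P e₁ e₂ : Fin (n + 1) → K) (W : Fin (n + 1) → M) :
    eval₂ (j : K →+* M) W (quadW D P e₁ e₂) =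
      qW D (fun i => j (P i)) (fun i => j (e₁ i)) (fun i => j (e₂ i)) W := by
  let f : MvPolynomial (Fin (n + 1)) K →ₐ[k] M :=
    { eval₂Hom (j : K →+* M) W with
      commutes' := fun c => by
        show eval₂ (j : K →+* M) W (algebraMap k (MvPolynomial (Fin (n + 1)) K) c) = _
        rw [IsScalarTower.algebraMap_apply k K (MvPolynomial (Fin (n + 1)) K),
          MvPolynomial.algebraMap_eq, eval₂_C]
        exact j.commutes c }
  have h := qW_map D f (fun i => C (P i)) (fun i => C (e₁ i)) (fun i => C (e₂ i)) X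
  have h1 : ∀ c : K, f (C c) = j c := fun c => eval₂_C _ _ _
  have h2 : ∀ i, f (X i) = W i := fun i => eval₂_X _ _ _
  simp only [h1, h2] at h
  exact h

theorem map_quadW (j : K →ₐ[k] M) (P e₁ e₂ : Fin (n + 1) → K) :
    MvPolynomial.map (j : K →+* M) (quadW D P e₁ e₂) =
      quadW D (fun i => j (P i)) (fun i => j (e₁ i)) (fun i => j (e₂ i)) := by
  let f : MvPolynomial (Fin (n + 1)) K →ₐ[k] MvPolynomial (Fin (n + 1)) M :=
    { MvPolynomial.map (j : K →+* M) with
      commutes' := fun c => by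
        show MvPolynomial.map (j : K →+* M) (algebraMap k (MvPolynomial (Fin (n + 1)) K) c) = _
        rw [IsScalarTower.algebraMap_apply k K (MvPolynomial (Fin (n + 1)) K),
          MvPolynomial.algebraMap_eq, map_C,
          IsScalarTower.algebraMap_apply k M (MvPolynomial (Fin (n + 1)) M),
          MvPolynomial.algebraMap_eq]
        congr 1
        exact j.commutes c }
  have h := qW_map D f (fun i => C (P i)) (fun i => C (e₁ i)) (fun i => C (e₂ i)) X
  have h1 : ∀ c : K, f (C c) = C (j c) := fun c => map_C _ _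
  have h2 : ∀ i, f (X i) = X i := fun i => map_X _ _
  simp only [h1, h2] at h
  exact h

/-- The moved point with free vector `z = X`, in `M(z)`. -/
noncomputable def mvRF (P e₁ e₂ W : Fin (n + 1) → M) : Fin (n + 1) → RF M (n + 1) :=
  mvz D (fun i => algebraMap M (RF M (n + 1)) (P i)) (fun i => algebraMap M (RF M (n + 1)) (e₁ i))
    (fun i => algebraMap M (RF M (n + 1)) (e₂ i)) (fun i => algebraMap M (RF M (n + 1)) (W i))
    (fun i => algebraMap (MvPolynomial (Fin (n + 1)) M) (RF M (n + 1)) (X i))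

end QuadW

end Pool.Agent.LibHP.CI
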