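import Mathlib

set_option autoImplicit false
open AlgebraicGeometry CategoryTheory

namespace Pool.Agent.LibHP

/-! ### Complete intersections of a quadric and a cubic -/

/-- The forms `Q`, `C` define a smooth complete intersection: at every point of `Q = C = 0` over the
algebraic closure some minor of size two of the Jacobian matrix does not vanish. -/
def IsSmoothCI {k : Type} [Field k] {n : ℕ} (Q C : MvPolynomial (Fin (n + 1)) k) : Prop :=
  ∀ a : Fin (n + 1) → AlgebraicClosure k, a ≠ 0 → MvPolynomial.aeval a Q = 0 →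
    MvPolynomial.aeval a C = 0 →
      ∃ i j, MvPolynomial.aeval a (MvPolynomial.pderiv i Q * MvPolynomial.pderiv j C -
        MvPolynomial.pderiv j Q * MvPolynomial.pderiv i C) ≠ 0

/-- `z` is a system of homogeneous coordinates, with values in `K`, of a generic point of `Q = C = 0`,
and `K` is generated over `k` by the ratios of these coordinates. -/
def IsCICoord {k K : Type} [Field k] [Field K] [Algebra k K] {n : ℕ}
    (Q C : MvPolynomial (Fin (n + 1)) k) (z : Fin (n + 1) → K) : Prop :=
  z ≠ 0 ∧
  (∀ (d : ℕ) (G : MvPolynomial (Fin (n + 1)) k), G.IsHomogeneous d →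
    (MvPolynomial.aeval z G = 0 ↔ G ∈ Ideal.span {Q, C})) ∧
  IntermediateField.adjoin k {c : K | ∃ i j, z j ≠ 0 ∧ c = z i / z j} = ⊤

/-- `X` is birational to the complete intersection `Q = C = 0`. -/
def IsCIModelOf {k : Type} [Field k] {X : Scheme} [IsIntegral X]
    (f : X ⟶ Spec (CommRingCat.of k)) {n : ℕ} (Q C : MvPolynomial (Fin (n + 1)) k) : Prop :=
  letI : Algebra k X.functionField := RingHom.toAlgebra
    ((Scheme.ΓSpecIso (CommRingCat.of k)).inv ≫ f.appTop ≫
      X.presheaf.germ ⊤ (genericPoint X) trivial).hom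
  ∃ z : Fin (n + 1) → X.functionField, IsCICoord Q C z

/-- Some line over `k` through `P` is contained in `Q = 0` and meets `C = 0` at `P` with multiplicity
at least two: `Q(P + t v) = 0` and `C(P + t v)` is divisible by `t ^ 2` for some vector `v` which is
not proportional to `P`. -/
def HasContactLine23 {k : Type} [Field k] {n : ℕ} (Q C : MvPolynomial (Fin (n + 1)) k)
    (P : Fin (n + 1) → k) : Prop :=
  ∃ v : Fin (n + 1) → k, LinearIndependent k ![P, v] ∧
    MvPolynomial.aeval (fun i => Polynomial.C (P i) + Polynomial.X * Polynomial.C (v i)) Q =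
      (0 : Polynomial k) ∧
    (Polynomial.X : Polynomial k) ^ 2 ∣
      MvPolynomial.aeval (fun i => Polynomial.C (P i) + Polynomial.X * Polynomial.C (v i)) C

/-- The points of `Q = C = 0` over `k` with a contact line over `k` are dense. -/
def DenseContact23 {k : Type} [Field k] {n : ℕ} (Q C : MvPolynomial (Fin (n + 1)) k) : Prop :=
  ∀ (d : ℕ) (G : MvPolynomial (Fin (n + 1)) k), G.IsHomogeneous d → G ∉ Ideal.span {Q, C} →
    ∃ P : Fin (n + 1) → k, MvPolynomial.eval P G ≠ 0 ∧ HasContactLine23 Q C P

/-- Normalized coordinates of the generic point. -/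
def IsCIPt {k K : Type} [Field k] [Field K] [Algebra k K] {n : ℕ}
    (Q C : MvPolynomial (Fin (n + 1)) k) (y : Fin (n + 1) → K) : Prop :=
  y 0 = 1 ∧
  (∀ (d : ℕ) (G : MvPolynomial (Fin (n + 1)) k), G.IsHomogeneous d →
    (MvPolynomial.aeval y G = 0 ↔ G ∈ Ideal.span {Q, C})) ∧
  IntermediateField.adjoin k (Set.range y) = ⊤

end Pool.Agent.LibHP
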