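import Pool.Agent.LibHPF.G2
import Pool.Agent.LibHPC.DefsC

set_option autoImplicit false

namespace Pool.Agent.LibHP

/-- `A[1/h]` inside `K`, `h = H(w)`, `A` the chart ring. -/
noncomputable def chartRingH {k K : Type} [Field k] [Field K] [Algebra k K] {n : ℕ}
    (y : Fin (n + 1) → K) (i : Fin (n + 1)) (H : MvPolynomial (Fin (n + 1)) k) : Subalgebra k K :=
  Algebra.adjoin k (Set.range (fun l => y l / y i) ∪
    {(MvPolynomial.aeval (fun l => y l / y i) H)⁻¹})

/-- Every prime ideal of a chart ring has a principal open neighbourhood which is etale over an affine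
space. -/
def EtaleCharts (k : Type) {K : Type} [Field k] [Field K] [Algebra k K] {n : ℕ}
    (y : Fin (n + 1) → K) : Prop :=
  ∀ i, y i ≠ 0 → ∀ P : Ideal (chartRing k y i), P.IsPrime →
    ∃ H : MvPolynomial (Fin (n + 1)) k, MvPolynomial.aeval (chartCoord k y i) H ∉ P ∧
      ∃ (N : ℕ) (ψ : MvPolynomial (Fin N) k →+* chartRingH y i H), ψ.Etale

end Pool.Agent.LibHP
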