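import Pool.Agent.LibHPC.E4
import Pool.Agent.LibHPF.Q3
import Pool.Agent.LibHPF.Q6

set_option autoImplicit false
open MvPolynomial

namespace Pool.Agent.LibHP.CI

variable {k : Type} [Field k] [CharZero k] {n : ℕ} {D : Dat k n}

/-!
# Row E3: smoothness over extension fields

NOTATION. `b(x, y) = Bq D x y`, `g(x, y, z) = Cq D x y z`, `min D y i j = b_i g_j - b_j g_i`, where `b_i = b(y, e_i)`,
`g_j = g(y, y, e_j)`, `e_i = Pi.single i 1`.

PLAN. See `smooth4_ext` and the private lemmas `Q6_eval`, `Q6_hom`, `Q6_int`, `Q6_ext` of LibHPF/Q6.lean (proved).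
`min_integral`: `integral_mod` (LibHPF/Q3.lean) over `AlgebraicClosure k` with `I = ⊥` and the forms
`f : Option Bool ⊕ ...`: `QQ` (degree 2), `CC` (degree 3) and the minors `min i j` (degree 3), over
`AlgebraicClosure k` (`Bq D X X` etc. in `MvPolynomial (Fin (n + 1)) (AlgebraicClosure k)`, a `k`-algebra). A common zero
`x ≠ 0` has `b(x, x) = g(x, x, x) = 0` and all minors zero; then there is `(r, s) ≠ 0` with `r b(x, e_j) + s g(x, x, e_j) = 0`
for all `j`: if all `b(x, e_j)` vanish take `(1, 0)`, else `b(x, e_i) ≠ 0` for some `i`, take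
`r = - g(x, x, e_i)`, `s = b(x, e_i)`. By linearity (`Bq_eq_sum`, `Cq_eq_sum`) for all `a`, contradiction to `hs`.
At `y` the forms `QQ`, `CC` take the value `0`, which lies in the algebra generated by the minors.
`smooth_min`: replace `Ω` by an algebraic closure (`Q6_ext`); by `min_integral` and the vanishing of the minors all
`y j` are integral (algebraic) over `AlgebraicClosure k`, so in its image (or use the Nullstellensatz as in
`smooth4_ext`: `X j ^ m` is in the ideal of these forms). `smooth_ext`: a relation `(r, s) ≠ 0` makes all minors zero.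
`grad_ne`, `exists_dd_ne`: from `smooth_ext` at the generic point (`P ≠ 0`, `IsGenPt.self`); if all `dd D P e_i e_j`
vanish then `smooth_min` gives `P = 0`.
-/

/-- The minors of the Jacobian matrix at `y`. -/
noncomputable def min2 (D : Dat k n) {R : Type} [CommRing R] [Algebra k R] (y : Fin (n + 1) → R)
    (p : Fin (n + 1) × Fin (n + 1)) : R :=
  Bq D y (Pi.single p.1 1) * Cq D y y (Pi.single p.2 1) -
    Bq D y (Pi.single p.2 1) * Cq D y y (Pi.single p.1 1)

section Aux

variable {k : Type} [Field k] {n : ℕ} {D : Dat k n}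

private theorem E3_single {R S : Type} [CommRing R] [Algebra k R] [CommRing S] [Algebra k S]
    (f : R →ₐ[k] S) (i : Fin (n + 1)) :
    (fun j => f ((Pi.single i 1 : Fin (n + 1) → R) j)) = Pi.single i 1 := by
  funext j
  by_cases hj : j = i
  · subst hj
    rw [Pi.single_eq_same, Pi.single_eq_same, map_one]
  · rw [Pi.single_eq_of_ne hj, Pi.single_eq_of_ne hj, map_zero]

private theorem E3_min_map {R S : Type} [CommRing R] [Algebra k R] [CommRing S] [Algebra k S]
    (f : R →ₐ[k] S) (y : Fin (n + 1) → R) (p : Fin (n + 1) × Fin (n + 1)) :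
    f (min2 D y p) = min2 D (fun j => f (y j)) p := by
  simp only [min2, map_sub, map_mul, Bq_map, Cq_map, E3_single]

/-- The evaluation at `y` of polynomials over the algebraic closure, as a `k`-algebra map. -/
private noncomputable def E3_ev {Ω : Type} [CommRing Ω] [Algebra k Ω]
    [Algebra (AlgebraicClosure k) Ω] [IsScalarTower k (AlgebraicClosure k) Ω]
    (y : Fin (n + 1) → Ω) : MvPolynomial (Fin (n + 1)) (AlgebraicClosure k) →ₐ[k] Ω :=
  (aeval y : MvPolynomial (Fin (n + 1)) (AlgebraicClosure k)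
    →ₐ[AlgebraicClosure k] Ω).restrictScalars k

private theorem E3_ev_X {Ω : Type} [CommRing Ω] [Algebra k Ω]
    [Algebra (AlgebraicClosure k) Ω] [IsScalarTower k (AlgebraicClosure k) Ω]
    (y : Fin (n + 1) → Ω) :
    (fun j => E3_ev (k := k) y
      ((X : Fin (n + 1) → MvPolynomial (Fin (n + 1)) (AlgebraicClosure k)) j)) = y := by
  funext j
  show aeval y (X j : MvPolynomial (Fin (n + 1)) (AlgebraicClosure k)) = y j
  rw [aeval_X]

private theorem E3_evB {Ω : Type} [CommRing Ω] [Algebra k Ω]
    [Algebra (AlgebraicClosure k) Ω] [IsScalarTower k (AlgebraicClosure k) Ω]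
    (y : Fin (n + 1) → Ω) :
    aeval y (Bq D (X : Fin (n + 1) → MvPolynomial (Fin (n + 1)) (AlgebraicClosure k)) X) =
      Bq D y y := by
  have h := Bq_map D (E3_ev (k := k) y)
    (X : Fin (n + 1) → MvPolynomial (Fin (n + 1)) (AlgebraicClosure k)) X
  rw [E3_ev_X] at h
  exact h

private theorem E3_evC {Ω : Type} [CommRing Ω] [Algebra k Ω]
    [Algebra (AlgebraicClosure k) Ω] [IsScalarTower k (AlgebraicClosure k) Ω]
    (y : Fin (n + 1) → Ω) :
    aeval y (Cq D (X : Fin (n + 1) → MvPolynomial (Fin (n + 1)) (AlgebraicClosure k)) X X) =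
      Cq D y y y := by
  have h := Cq_map D (E3_ev (k := k) y)
    (X : Fin (n + 1) → MvPolynomial (Fin (n + 1)) (AlgebraicClosure k)) X X
  rw [E3_ev_X] at h
  exact h

private theorem E3_evM {Ω : Type} [CommRing Ω] [Algebra k Ω]
    [Algebra (AlgebraicClosure k) Ω] [IsScalarTower k (AlgebraicClosure k) Ω]
    (y : Fin (n + 1) → Ω) (p : Fin (n + 1) × Fin (n + 1)) :
    aeval y (min2 D (X : Fin (n + 1) → MvPolynomial (Fin (n + 1)) (AlgebraicClosure k)) p) =
      min2 D y p := by
  have h := E3_min_map (D := D) (E3_ev (k := k) y)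
    (X : Fin (n + 1) → MvPolynomial (Fin (n + 1)) (AlgebraicClosure k)) p
  rw [E3_ev_X] at h
  exact h

private theorem E3_alg (c : k) : (algebraMap k (MvPolynomial (Fin (n + 1))
    (AlgebraicClosure k)) c).IsHomogeneous 0 := by
  rw [IsScalarTower.algebraMap_apply k (AlgebraicClosure k)
    (MvPolynomial (Fin (n + 1)) (AlgebraicClosure k)), MvPolynomial.algebraMap_eq]
  exact isHomogeneous_C _ _

private theorem E3_homB (p q : ℕ)
    (a b : Fin (n + 1) → MvPolynomial (Fin (n + 1)) (AlgebraicClosure k))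
    (ha : ∀ i, (a i).IsHomogeneous p) (hb : ∀ i, (b i).IsHomogeneous q) :
    (Bq D a b).IsHomogeneous (0 + (p + q)) := by
  unfold Bq
  exact IsHomogeneous.sum _ _ _ fun i _ => IsHomogeneous.sum _ _ _ fun j _ =>
    (E3_alg _).mul ((ha i).mul (hb j))

private theorem E3_homC (p q r : ℕ)
    (a b c : Fin (n + 1) → MvPolynomial (Fin (n + 1)) (AlgebraicClosure k))
    (ha : ∀ i, (a i).IsHomogeneous p) (hb : ∀ i, (b i).IsHomogeneous q)
    (hc : ∀ i, (c i).IsHomogeneous r) :
    (Cq D a b c).IsHomogeneous (0 + (p + q + r)) := by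
  unfold Cq
  exact IsHomogeneous.sum _ _ _ fun i _ => IsHomogeneous.sum _ _ _ fun j _ =>
    IsHomogeneous.sum _ _ _ fun s _ => (E3_alg _).mul (((ha i).mul (hb j)).mul (hc s))

private theorem E3_homS (i t : Fin (n + 1)) :
    ((Pi.single i 1 : Fin (n + 1) → MvPolynomial (Fin (n + 1)) (AlgebraicClosure k))
      t).IsHomogeneous 0 := by
  by_cases hj : t = i
  · subst hj
    rw [Pi.single_eq_same]
    exact isHomogeneous_one _ _
  · rw [Pi.single_eq_of_ne hj]
    exact isHomogeneous_zero _ _ _

private theorem E3_homX (i : Fin (n + 1)) :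
    ((X : Fin (n + 1) → MvPolynomial (Fin (n + 1)) (AlgebraicClosure k)) i).IsHomogeneous 1 :=
  isHomogeneous_X _ i

private theorem E3_homM (p : Fin (n + 1) × Fin (n + 1)) :
    (min2 D (X : Fin (n + 1) → MvPolynomial (Fin (n + 1)) (AlgebraicClosure k))
      p).IsHomogeneous 3 := by
  unfold min2
  have h1 := fun i => E3_homB (D := D) 1 0 X (Pi.single i 1) E3_homX (E3_homS (k := k) i)
  have h2 := fun i => E3_homC (D := D) 1 1 0 X X (Pi.single i 1) E3_homX E3_homX
    (E3_homS (k := k) i)
  exact ((h1 p.1).mul (h2 p.2)).sub ((h1 p.2).mul (h2 p.1))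

/-- If all minors vanish there is a relation between the gradients. -/
private theorem E3_rel {Ω : Type} [Field Ω] [Algebra k Ω] (x : Fin (n + 1) → Ω)
    (hm : ∀ p, min2 D x p = 0) :
    ∃ r s : Ω, (r ≠ 0 ∨ s ≠ 0) ∧ ∀ a, r * Bq D x a + s * Cq D x x a = 0 := by
  by_cases hb : ∀ i, Bq D x (Pi.single i 1) = 0
  · refine ⟨1, 0, Or.inl one_ne_zero, fun a => ?_⟩
    rw [Bq_eq_sum, Finset.sum_eq_zero fun i _ => by rw [hb i, mul_zero]]
    ring
  · push Not at hb
    obtain ⟨i, hi⟩ := hb
    refine ⟨-Cq D x x (Pi.single i 1), Bq D x (Pi.single i 1), Or.inr hi, fun a => ?_⟩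
    rw [Bq_eq_sum D x a, Cq_eq_sum D x x a, Finset.mul_sum, Finset.mul_sum,
      ← Finset.sum_add_distrib]
    refine Finset.sum_eq_zero fun j _ => ?_
    have h := hm (i, j)
    simp only [min2] at h
    linear_combination a j * h

/-- A relation between the gradients makes all minors vanish. -/
private theorem E3_min_of_rel {Ω : Type} [Field Ω] [Algebra k Ω] (x : Fin (n + 1) → Ω) (r s : Ω)
    (hrs : r ≠ 0 ∨ s ≠ 0) (h : ∀ a, r * Bq D x a + s * Cq D x x a = 0)
    (p : Fin (n + 1) × Fin (n + 1)) : min2 D x p = 0 := by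
  have h1 := h (Pi.single p.1 1)
  have h2 := h (Pi.single p.2 1)
  unfold min2
  rcases hrs with hr | hs
  · refine (mul_eq_zero.1 (?_ : r * _ = 0)).resolve_left hr
    linear_combination Cq D x x (Pi.single p.2 1) * h1 - Cq D x x (Pi.single p.1 1) * h2
  · refine (mul_eq_zero.1 (?_ : s * _ = 0)).resolve_left hs
    linear_combination Bq D x (Pi.single p.1 1) * h2 - Bq D x (Pi.single p.2 1) * h1

/-- An algebraically closed extension contains the algebraic closure of the ground field. -/
private theorem E3_cl (Ω : Type) [Field Ω] [Algebra k Ω] [IsAlgClosed Ω] :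
    ∃ (_ : Algebra (AlgebraicClosure k) Ω), IsScalarTower k (AlgebraicClosure k) Ω := by
  let f : AlgebraicClosure k →ₐ[k] Ω := IsAlgClosed.lift
  let _ : Algebra (AlgebraicClosure k) Ω := f.toRingHom.toAlgebra
  exact ⟨inferInstance, IsScalarTower.of_algebraMap_eq fun x => (f.commutes x).symm⟩

/-- Over the algebraic closure of `k`, a point with vanishing minors is `0`. -/
private theorem E3_base (hs : Smooth23 D) (z : Fin (n + 1) → AlgebraicClosure k)
    (h2 : Bq D z z = 0) (h3 : Cq D z z z = 0) (hm : ∀ p, min2 D z p = 0) : z = 0 := by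
  by_contra hz
  obtain ⟨r, s, hrs, h⟩ := E3_rel z hm
  have h1 := hs z hz h2 h3 r s h
  rcases hrs with h' | h'
  · exact h' h1.1
  · exact h' h1.2

end Aux

/-- The coordinates of a point of the cone are integral over the minors. -/
theorem min_integral (hs : Smooth23 D) {Ω : Type} [Field Ω] [Algebra k Ω]
    [Algebra (AlgebraicClosure k) Ω] [IsScalarTower k (AlgebraicClosure k) Ω]
    (y : Fin (n + 1) → Ω) (h2 : Bq D y y = 0) (h3 : Cq D y y y = 0) (j : Fin (n + 1)) :
    IsIntegral (Algebra.adjoin (AlgebraicClosure k) (Set.range (min2 D y))) (y j) := by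
  have h := integral_mod (AlgebraicClosure k) (Fin (n + 1))
    (Bool ⊕ (Fin (n + 1) × Fin (n + 1))) ⊥
    (fun G hG d => by
      rw [Ideal.mem_bot] at hG
      rw [hG, map_zero]
      exact Ideal.zero_mem _)
    (Sum.elim (fun b => if b then
        Bq D (X : Fin (n + 1) → MvPolynomial (Fin (n + 1)) (AlgebraicClosure k)) X else
        Cq D (X : Fin (n + 1) → MvPolynomial (Fin (n + 1)) (AlgebraicClosure k)) X X)
      (fun p => min2 D (X : Fin (n + 1) → MvPolynomial (Fin (n + 1)) (AlgebraicClosure k)) p))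
    (Sum.elim (fun b => if b then 2 else 3) (fun _ => 3))
    (by
      rintro (b | p)
      · cases b
        · show 0 < 3
          norm_num
        · show 0 < 2
          norm_num
      · show 0 < 3
        norm_num)
    (by
      rintro (b | p)
      · cases b
        · exact E3_homC (D := D) 1 1 1 X X X E3_homX E3_homX E3_homX
        · exact E3_homB (D := D) 1 1 X X E3_homX E3_homX
      · exact E3_homM p)
    (fun x _ hx => by
      refine E3_base hs x ?_ ?_ fun p => ?_
      · rw [← E3_evB]
        exact hx (Sum.inl true)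
      · rw [← E3_evC]
        exact hx (Sum.inl false)
      · rw [← E3_evM]
        exact hx (Sum.inr p)) y
    (fun G hG => by
      rw [Ideal.mem_bot] at hG
      rw [hG, map_zero]) j
  have heq : Algebra.adjoin (AlgebraicClosure k) (Set.range fun i => aeval y
      ((Sum.elim (fun b : Bool => if b then
        Bq D (X : Fin (n + 1) → MvPolynomial (Fin (n + 1)) (AlgebraicClosure k)) X else
        Cq D (X : Fin (n + 1) → MvPolynomial (Fin (n + 1)) (AlgebraicClosure k)) X X)
      (fun p => min2 D (X : Fin (n + 1) → MvPolynomial (Fin (n + 1)) (AlgebraicClosure k)) p)) i))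
      = Algebra.adjoin (AlgebraicClosure k) (Set.range (min2 D y)) := by
    refine le_antisymm (Algebra.adjoin_le ?_) (Algebra.adjoin_mono ?_)
    · rintro _ ⟨b | p, rfl⟩
      · cases b
        · show aeval y (Cq D (X : Fin (n + 1) →
            MvPolynomial (Fin (n + 1)) (AlgebraicClosure k)) X X) ∈ _
          rw [E3_evC, h3]
          exact zero_mem _
        · show aeval y (Bq D (X : Fin (n + 1) →
            MvPolynomial (Fin (n + 1)) (AlgebraicClosure k)) X) ∈ _
          rw [E3_evB, h2]
          exact zero_mem _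
      · show aeval y (min2 D (X : Fin (n + 1) →
            MvPolynomial (Fin (n + 1)) (AlgebraicClosure k)) p) ∈ _
        rw [E3_evM]
        exact Algebra.subset_adjoin (Set.mem_range_self p)
    · rintro _ ⟨p, rfl⟩
      exact ⟨Sum.inr p, E3_evM y p⟩
  rw [heq] at h
  exact h

theorem smooth_min (hs : Smooth23 D) {Ω : Type} [Field Ω] [Algebra k Ω] (x : Fin (n + 1) → Ω)
    (h2 : Bq D x x = 0) (h3 : Cq D x x x = 0) (hm : ∀ p, min2 D x p = 0) : x = 0 := by
  obtain ⟨iA, iT⟩ := E3_cl (k := k) (AlgebraicClosure Ω)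
  let f : Ω →ₐ[k] AlgebraicClosure Ω := IsScalarTower.toAlgHom k Ω (AlgebraicClosure Ω)
  have hf : Function.Injective f := f.toRingHom.injective
  set y : Fin (n + 1) → AlgebraicClosure Ω := fun i => f (x i) with hy
  have hy2 : Bq D y y = 0 := by
    have h1 := Bq_map D f x x
    rw [h2, map_zero] at h1
    exact h1.symm
  have hy3 : Cq D y y y = 0 := by
    have h1 := Cq_map D f x x x
    rw [h3, map_zero] at h1
    exact h1.symm
  have hy0 : ∀ p, min2 D y p = 0 := by
    intro p
    have h1 := E3_min_map (D := D) f x p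
    rw [hm, map_zero] at h1
    exact h1.symm
  have hint : ∀ j, IsIntegral (AlgebraicClosure k) (y j) := by
    intro j
    have h1 := min_integral hs y hy2 hy3 j
    have h2 : (Algebra.adjoin (AlgebraicClosure k) (Set.range (min2 D y))) = ⊥ := by
      rw [eq_bot_iff]
      refine Algebra.adjoin_le ?_
      rintro _ ⟨i, rfl⟩
      show min2 D y i ∈ (⊥ : Subalgebra (AlgebraicClosure k) (AlgebraicClosure Ω))
      rw [hy0]
      exact Subalgebra.zero_mem _
    rw [h2] at h1
    have : Algebra.IsIntegral (AlgebraicClosure k)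
        (⊥ : Subalgebra (AlgebraicClosure k) (AlgebraicClosure Ω)) := by
      refine ⟨fun z => ?_⟩
      obtain ⟨w, hw⟩ := Algebra.mem_bot.1 z.2
      have : z = algebraMap (AlgebraicClosure k) _ w := Subtype.ext hw.symm
      rw [this]
      exact isIntegral_algebraMap
    exact isIntegral_trans _ h1
  have hz : ∀ j, ∃ z : AlgebraicClosure k, algebraMap _ (AlgebraicClosure Ω) z = y j := by
    intro j
    exact minpoly.mem_range_of_degree_eq_one _ _
      (IsAlgClosed.degree_eq_one_of_irreducible _ (minpoly.irreducible (hint j)))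
  choose z hz using hz
  let g : AlgebraicClosure k →ₐ[k] AlgebraicClosure Ω :=
    IsScalarTower.toAlgHom k (AlgebraicClosure k) (AlgebraicClosure Ω)
  have hg : Function.Injective g := g.toRingHom.injective
  have hgz : (fun j => g (z j)) = y := funext hz
  have hz0 : z = 0 := by
    refine E3_base hs z (hg ?_) (hg ?_) fun p => hg ?_
    · rw [Bq_map, hgz, hy2, map_zero]
    · rw [Cq_map, hgz, hy3, map_zero]
    · rw [E3_min_map, hgz, hy0, map_zero]
  funext j
  apply hf
  show y j = f 0
  rw [← hz j, hz0, Pi.zero_apply, map_zero, map_zero]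

theorem smooth_ext (hs : Smooth23 D) {Ω : Type} [Field Ω] [Algebra k Ω] (x : Fin (n + 1) → Ω)
    (hx : x ≠ 0) (h2 : Bq D x x = 0) (h3 : Cq D x x x = 0) (r s : Ω)
    (h : ∀ a, r * Bq D x a + s * Cq D x x a = 0) : r = 0 ∧ s = 0 := by
  by_contra hcon
  have hrs : r ≠ 0 ∨ s ≠ 0 := by
    by_contra h'
    push Not at h'
    exact hcon h'
  exact hx (smooth_min hs x h2 h3 (E3_min_of_rel x r s hrs h))

theorem grad_ne (hs : Smooth23 D) {Ω : Type} [Field Ω] [Algebra k Ω] (P : Fin (n + 1) → Ω)
    (hP : IsGenPt D P) (r s : Ω) (h : ∀ a, r * Bq D P a + s * Cq D P P a = 0) :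
    r = 0 ∧ s = 0 := by
  refine smooth_ext hs P (fun h0 => ?_) hP.self.1 hP.self.2 r s h
  have h1 := hP.1
  rw [h0, Pi.zero_apply] at h1
  exact zero_ne_one h1

theorem exists_dd_ne (hs : Smooth23 D) {Ω : Type} [Field Ω] [Algebra k Ω]
    (P : Fin (n + 1) → Ω) (hP : IsGenPt D P) :
    ∃ i j, dd D P (Pi.single i 1) (Pi.single j 1) ≠ 0 := by
  by_contra hcon
  push Not at hcon
  have h0 := smooth_min hs P hP.self.1 hP.self.2 fun p => hcon p.1 p.2
  have h1 := hP.1
  rw [h0, Pi.zero_apply] at h1
  exact zero_ne_one h1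

end Pool.Agent.LibHP.CI
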