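import Pool.Agent.LibHPC.E2
import Pool.Agent.LibHPC.E3
import Pool.Agent.LibHPF.CDefs

set_option autoImplicit false
open MvPolynomial

namespace Pool.Agent.LibHP.CI

variable {k : Type} [Field k] [CharZero k] {n : ℕ} {D : Dat k n}

/-!
# Row E10: the transcendence degree of the function field

PLAN. `chartRing k P i = Algebra.adjoin k {P j / P i}`. `P i ≠ 0` (`IsGenPt.ne_zero`). Choose a transcendence basis of
`Kc = chartRing k P i` (a domain) over `k` contained in the generators: Mathlib `exists_isTranscendenceBasis_subset`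
(or similar; the family `j ↦ P j / P i`), with index set `B`. If `B` has at least `n - 2` elements, restrict to `n - 2` of
them. Suppose `B` has `m ≤ n - 3` elements. Let `V = {c : Fin (n + 1) → K | b(P, c) = 0, g(P, P, c) = 0, c 0 = 0}`: dimension
at least `n + 1 - 3 = n - 2 > m`. For a basis `c_1, .., c_(n-2)` (or `m + 1` independent vectors) of `V` let `δ_l` be derivations of
`K` over `k` with `δ_l P = c_l` (`exists_derivation_pt`). The vectors `(δ_l (y))_(y ∈ B)` in `K ^ m` are linearly dependent:
`δ = ∑ λ_l δ_l` with `(λ_l) ≠ 0` kills `B`, hence kills every element of `K` algebraic over `k(B)` (characteristic zero; see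
`Q6_const`, `Q6_der`, `Q6_up` in LibHPF/Q6.lean, private: copy them), in particular all `P j / P i`, so all
`P j = (P j / P i) / (P 0 / P i)` (`P 0 = 1`). So `∑ λ_l c_l = δP = 0`, contradiction.
-/

/-- A derivation killing a subfield kills the integral elements over it. -/
private theorem E10_der {Ω : Type} [Field Ω] [Algebra k Ω] (δ : Derivation k Ω Ω) (C : Subfield Ω)
    (hC : ∀ x, x ∈ C ↔ δ x = 0) (x : Ω) (hx : IsIntegral C x) : δ x = 0 := by
  let δ' : Derivation C Ω Ω := Derivation.mk'
    { toFun := δ
      map_add' := map_add δ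
      map_smul' := fun c z => by
        show δ ((c : Ω) * z) = (c : Ω) * δ z
        rw [Derivation.leibniz, (hC c).1 c.2, smul_zero, add_zero, smul_eq_mul] }
    (fun a b => by
      show δ (a * b) = a • δ b + b • δ a
      exact δ.leibniz a b)
  have : CharZero Ω := charZero_of_injective_algebraMap (algebraMap k Ω).injective
  have h1 : δ' (Polynomial.aeval x (minpoly C x)) =
      Polynomial.aeval x (Polynomial.derivative (minpoly C x)) • δ' x := δ'.map_aeval _ _
  rw [minpoly.aeval, map_zero, smul_eq_mul] at h1
  have hsep : (minpoly C x).Separable := (minpoly.irreducible hx).separable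
  have h2 := hsep.aeval_derivative_ne_zero (minpoly.aeval C x)
  rcases mul_eq_zero.1 h1.symm with h | h
  · exact absurd h h2
  · exact h

omit [CharZero k] in
/-- The constants of a derivation. -/
private theorem E10_const {Ω : Type} [Field Ω] [Algebra k Ω] (δ : Derivation k Ω Ω) :
    ∃ C : Subfield Ω, ∀ x, x ∈ C ↔ δ x = 0 := by
  refine ⟨{ carrier := {x | δ x = 0}
            mul_mem' := fun {a b} ha hb => ?_
            one_mem' := ?_
            add_mem' := fun {a b} ha hb => ?_
            zero_mem' := ?_
            neg_mem' := fun {a} ha => ?_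
            inv_mem' := fun a ha => ?_ }, fun x => Iff.rfl⟩
  · show δ (a * b) = 0
    have ha' : δ a = 0 := ha
    have hb' : δ b = 0 := hb
    rw [δ.leibniz, ha', hb', smul_zero, smul_zero, add_zero]
  · exact δ.map_one_eq_zero
  · show δ (a + b) = 0
    have ha' : δ a = 0 := ha
    have hb' : δ b = 0 := hb
    rw [map_add, ha', hb', add_zero]
  · exact map_zero δ
  · show δ (-a) = 0
    have ha' : δ a = 0 := ha
    rw [map_neg, ha', neg_zero]
  · show δ a⁻¹ = 0
    have ha' : δ a = 0 := ha
    rw [δ.leibniz_inv, ha', smul_zero]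

/-- A derivation killing `s` kills the elements algebraic over the algebra generated by `s`. -/
private theorem E10_alg {Ω : Type} [Field Ω] [Algebra k Ω] (δ : Derivation k Ω Ω)
    (R' : Subalgebra k Ω) (s : Set R') (hs : ∀ y ∈ s, δ (y : Ω) = 0) (x : R')
    (hx : IsAlgebraic (Algebra.adjoin k s) x) : δ (x : Ω) = 0 := by
  obtain ⟨C, hC⟩ := E10_const δ
  have hA : ∀ a ∈ Algebra.adjoin k s, ((a : R') : Ω) ∈ C := by
    intro a ha
    induction ha using Algebra.adjoin_induction with
    | mem y hy => exact (hC _).2 (hs y hy)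
    | algebraMap r => exact (hC _).2 (δ.map_algebraMap r)
    | add a b _ _ ha hb => exact C.add_mem ha hb
    | mul a b _ _ ha hb => exact C.mul_mem ha hb
  let g : Algebra.adjoin k s →+* C :=
    { toFun := fun a => ⟨((a : R') : Ω), hA _ a.2⟩
      map_one' := rfl
      map_mul' := fun a b => rfl
      map_zero' := rfl
      map_add' := fun a b => rfl }
  obtain ⟨p, hp0, hp⟩ := hx
  have hg : Function.Injective g := by
    intro a b hab
    have h1 : ((a : R') : Ω) = ((b : R') : Ω) := congrArg (fun z : C => (z : Ω)) hab
    exact Subtype.ext (Subtype.ext h1)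
  have h1 : IsAlgebraic C (x : Ω) := by
    refine ⟨p.map g, ?_, ?_⟩
    · rwa [Ne, Polynomial.map_eq_zero_iff hg]
    · have h2 : Polynomial.aeval (x : Ω) (p.map g) = R'.val (Polynomial.aeval x p) := by
        rw [Polynomial.aeval_def, Polynomial.eval₂_map, Polynomial.aeval_def]
        have h3 := Polynomial.hom_eval₂ p (algebraMap (Algebra.adjoin k s) R') (R'.val : R' →+* Ω) x
        exact h3.symm
      rw [h2, hp, map_zero]
  exact E10_der δ C hC _ h1.isIntegral

theorem independent_chart (hD : IsSymm23 D) (hs : Smooth23 D) (hn : 3 ≤ n) {K : Type} [Field K]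
    [Algebra k K] (P : Fin (n + 1) → K) (hP : IsGenPt D P) (i : Fin (n + 1)) :
    ∃ t : Fin (n - 2) → chartRing k P i, AlgebraicIndependent k t := by
  classical
  have hPi : P i ≠ 0 := hP.ne_zero i
  set t : Set (chartRing k P i) := Set.range (fun j => chartMap k P i (X j)) with ht
  have htop : Algebra.adjoin k t = ⊤ := by
    rw [eq_top_iff]
    rintro z -
    obtain ⟨G, rfl⟩ := chartMap_surjective k P i z
    have h : (chartMap k P i) = aeval (fun j => chartMap k P i (X j)) :=
      MvPolynomial.algHom_ext fun j => by rw [aeval_X]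
    rw [ht, Algebra.adjoin_range_eq_range_aeval]
    exact ⟨G, (congrArg (fun f => f G) h).symm⟩
  have halg : Algebra.IsAlgebraic (Algebra.adjoin k t) (chartRing k P i) := ⟨fun z => by
    have hz : z ∈ Algebra.adjoin k t := by rw [htop]; trivial
    exact isAlgebraic_algebraMap (⟨z, hz⟩ : Algebra.adjoin k t)⟩
  obtain ⟨u, hut, hu⟩ := exists_isTranscendenceBasis_subset (R := k) t
  have hfin : Finite u := ((Set.finite_range _).subset hut).to_subtype
  have hfu : Fintype u := Fintype.ofFinite u
  by_cases hcard : n - 2 ≤ Fintype.card u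
  · let e : Fin (n - 2) ↪ u := (Fin.castLEEmb hcard).trans (Fintype.equivFin u).symm.toEmbedding
    exact ⟨fun m => (e m : chartRing k P i), hu.1.comp e e.injective⟩
  · exfalso
    push Not at hcard
    let L : (Fin (n + 1) → K) →ₗ[K] (Fin 3 → K) :=
      LinearMap.pi ![BqL D P, CqL D P P, LinearMap.proj 0]
    have hfr : n - 2 ≤ Module.finrank K (LinearMap.ker L) := by
      have h1 := LinearMap.finrank_range_add_finrank_ker L
      have h2 : Module.finrank K (LinearMap.range L) ≤ 3 := by
        have := Submodule.finrank_le (LinearMap.range L)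
        simpa using this
      rw [Module.finrank_fintype_fun_eq_card, Fintype.card_fin] at h1
      omega
    obtain ⟨c, hc⟩ := exists_linearIndependent_of_le_finrank (R := K) (M := LinearMap.ker L)
      (n := Fintype.card u + 1) (by omega)
    have hc' : LinearIndependent K (fun l => (c l : Fin (n + 1) → K)) :=
      hc.map' (Submodule.subtype _) (Submodule.ker_subtype _)
    have hker : ∀ l, Bq D P (c l) = 0 ∧ Cq D P P (c l) = 0 ∧ (c l : Fin (n + 1) → K) 0 = 0 := by
      intro l
      have h1 := LinearMap.mem_ker.1 (c l).2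
      exact ⟨congrFun h1 0, congrFun h1 1, congrFun h1 2⟩
    have hδ := fun l => exists_derivation_pt hD P (c l) hP (hker l).1 (hker l).2.1 (hker l).2.2
    choose δ hδ using hδ
    have hdep : ¬ LinearIndependent K
        (fun l => fun y : u => δ l ((y : chartRing k P i) : K)) := by
      intro h
      have h1 := h.fintype_card_le_finrank
      rw [Fintype.card_fin, Module.finrank_fintype_fun_eq_card] at h1
      omega
    rw [Fintype.not_linearIndependent_iff] at hdep
    obtain ⟨lam, hsum, l0, hl0⟩ := hdep
    let Δ : Derivation k K K := ∑ l, lam l • δ l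
    have hΔ : ∀ z, Δ z = ∑ l, lam l * δ l z := by
      intro z
      have h1 : (Δ : K → K) = ∑ l, ((lam l • δ l : Derivation k K K) : K → K) :=
        map_sum (Derivation.coeFnAddMonoidHom (R := k) (A := K) (M := K)) _ _
      rw [h1, Finset.sum_apply]
      exact Finset.sum_congr rfl fun l _ => rfl
    have hu0 : ∀ y ∈ u, Δ (y : K) = 0 := by
      intro y hy
      have h1 := congrFun hsum ⟨y, hy⟩
      rw [Finset.sum_apply, Pi.zero_apply] at h1
      rw [hΔ]
      exact h1
    have hR : ∀ x : chartRing k P i, Δ (x : K) = 0 := by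
      intro x
      have h1 := hu.isAlgebraic
      rw [Subtype.range_coe] at h1
      exact E10_alg Δ _ u hu0 x (h1.isAlgebraic x)
    have hPj : ∀ j, Δ (P j) = 0 := by
      intro j
      have hj := hR ⟨P j / P i, Algebra.subset_adjoin ⟨j, rfl⟩⟩
      have h0 := hR ⟨P 0 / P i, Algebra.subset_adjoin ⟨0, rfl⟩⟩
      have e : P j = (P j / P i) * (P 0 / P i)⁻¹ := by
        rw [hP.1]
        field_simp
      rw [e, Derivation.leibniz, Derivation.leibniz_inv]
      show (P j / P i) • (-((P 0 / P i)⁻¹ ^ 2) • Δ (P 0 / P i)) + (P 0 / P i)⁻¹ • Δ (P j / P i) = 0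
      have hj' : Δ (P j / P i) = 0 := hj
      have h0' : Δ (P 0 / P i) = 0 := h0
      rw [hj', h0']
      simp
    have hz : ∑ l, lam l • (c l : Fin (n + 1) → K) = 0 := by
      funext j
      have h1 := hPj j
      rw [hΔ] at h1
      rw [Finset.sum_apply, Pi.zero_apply, ← h1]
      refine Finset.sum_congr rfl fun l _ => ?_
      rw [hδ l j]
      rfl
    exact hl0 (Fintype.linearIndependent_iff.1 hc' lam hz l0)

end Pool.Agent.LibHP.CI
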