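import Pool.Agent.LibHPC.Defs0
import Pool.Agent.LibHPF.Q2

set_option autoImplicit false
open MvPolynomial

namespace Pool.Agent.LibHP.CI

variable {k : Type} [Field k] [CharZero k] {n : ℕ} {D : Dat k n}

/-!
# Row E2: derivations moving the generic point

PLAN. Same proof as in LibHPF/Q2.lean (proved): `exists_derivation_of_rel` (there) reduces to
`∑ i, c i * aeval P (pderiv i G) = 0` for all `G` with `aeval P G = 0`. For the cone, `G ∈ II D`, `G = A * QQ D + B * CC D`
(`mem_II_iff`), Leibniz, `sum_pderiv_QQ`, `sum_pderiv_CC`, `aeval_QQ`, `aeval_CC` (`QQ D`, `CC D` vanish at `P`).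
For the point with `P 0 = 1`, `c 0 = 0`: see how Q2.lean treats non homogeneous relations.
-/

private theorem E2_leib (hD : IsSymm23 D) {Ω : Type} [Field Ω] [Algebra k Ω]
    (P c : Fin (n + 1) → Ω) (h1 : Bq D P c = 0) (h2 : Cq D P P c = 0)
    (hB : Bq D P P = 0) (hC : Cq D P P P = 0) (G : MvPolynomial (Fin (n + 1)) k)
    (hG : G ∈ II D) : ∑ i, c i * aeval P (pderiv i G) = 0 := by
  obtain ⟨A, B, rfl⟩ := (mem_II_iff D G).1 hG
  have e : ∀ i, c i * aeval P (pderiv i (A * QQ D + B * CC D)) =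
      aeval P A * (c i * aeval P (pderiv i (QQ D))) +
        aeval P B * (c i * aeval P (pderiv i (CC D))) := by
    intro i
    rw [map_add, Derivation.leibniz, Derivation.leibniz, smul_eq_mul, smul_eq_mul, smul_eq_mul,
      smul_eq_mul, map_add, map_add, map_add, map_mul, map_mul, map_mul, map_mul, aeval_QQ,
      aeval_CC, hB, hC]
    ring
  simp only [e]
  rw [Finset.sum_add_distrib, ← Finset.mul_sum, ← Finset.mul_sum, sum_pderiv_QQ hD,
    sum_pderiv_CC hD, h1, h2]
  ring

theorem exists_derivation_cone (hD : IsSymm23 D) {Ω : Type} [Field Ω] [Algebra k Ω]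
    (P c : Fin (n + 1) → Ω) (hP : IsGenCone D P) (h1 : Bq D P c = 0) (h2 : Cq D P P c = 0) :
    ∃ δ : Derivation k Ω Ω, ∀ i, δ (P i) = c i := by
  refine exists_derivation_of_rel k Ω (Fin (n + 1)) P c fun G hG => ?_
  have hB : Bq D P P = 0 := by rw [← aeval_QQ]; exact (hP _).2 (QQ_mem D)
  have hC : Cq D P P P = 0 := by rw [← aeval_CC]; exact (hP _).2 (CC_mem D)
  exact E2_leib hD P c h1 h2 hB hC G ((hP G).1 hG)

theorem exists_derivation_pt (hD : IsSymm23 D) {Ω : Type} [Field Ω] [Algebra k Ω]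
    (P c : Fin (n + 1) → Ω) (hP : IsGenPt D P) (h1 : Bq D P c = 0) (h2 : Cq D P P c = 0)
    (hc0 : c 0 = 0) : ∃ δ : Derivation k Ω Ω, ∀ i, δ (P i) = c i := by
  refine exists_derivation_of_rel k Ω (Fin (n + 1)) P c fun G hG => ?_
  set m := G.totalDegree with hm
  set Gh : MvPolynomial (Fin (n + 1)) k :=
    ∑ e ∈ Finset.range (m + 1), X 0 ^ (m - e) * homogeneousComponent e G with hGh
  have hsum : ∑ e ∈ Finset.range (m + 1), homogeneousComponent e G = G :=
    sum_homogeneousComponent G
  have hhom : Gh.IsHomogeneous m := by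
    refine IsHomogeneous.sum _ _ _ fun e he => ?_
    have h1 : m = (m - e) + e := by
      have := Finset.mem_range.1 he
      omega
    have h2 : ((X 0 : MvPolynomial (Fin (n + 1)) k) ^ (m - e)).IsHomogeneous (m - e) := by
      have h3 := (isHomogeneous_X k (0 : Fin (n + 1))).pow (m - e)
      rwa [one_mul] at h3
    have h3 := h2.mul (homogeneousComponent_isHomogeneous e G)
    rwa [← h1] at h3
  have h0 : aeval P Gh = 0 := by
    rw [hGh, map_sum]
    have h1 : ∀ e ∈ Finset.range (m + 1),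
        aeval P (X 0 ^ (m - e) * homogeneousComponent e G) =
          aeval P (homogeneousComponent e G) := by
      intro e _
      rw [map_mul, map_pow, aeval_X, hP.1, one_pow, one_mul]
    rw [Finset.sum_congr rfl h1, ← map_sum, hsum, hG]
  have hH := (hP.2 m Gh hhom).1 h0
  have hB : Bq D P P = 0 := by
    rw [← aeval_QQ]
    exact (hP.2 2 _ (isHomogeneous_QQ D)).2 (QQ_mem D)
  have hC : Cq D P P P = 0 := by
    rw [← aeval_CC]
    exact (hP.2 3 _ (isHomogeneous_CC D)).2 (CC_mem D)
  have h2 := E2_leib hD P c h1 h2 hB hC Gh hH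
  rw [← h2]
  refine Finset.sum_congr rfl fun i _ => ?_
  by_cases hi : i = 0
  · rw [hi, hc0, zero_mul, zero_mul]
  · congr 1
    conv_lhs => rw [← hsum]
    rw [hGh, map_sum, map_sum, map_sum, map_sum]
    refine Finset.sum_congr rfl fun e _ => ?_
    rw [Derivation.leibniz, Derivation.leibniz_pow, pderiv_X, Pi.single_eq_of_ne (Ne.symm hi),
      smul_zero, smul_zero, smul_zero, add_zero, smul_eq_mul, map_mul, map_pow, aeval_X, hP.1,
      one_pow, one_mul]

end Pool.Agent.LibHP.CI
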