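import Pool.Agent.LibHPC.E3

set_option autoImplicit false
open MvPolynomial

namespace Pool.Agent.LibHP.CI

variable {k : Type} [Field k] [CharZero k] {n : ℕ} {D : Dat k n}

/-!
# Row E3b: the vertex of the quadric

NOTATION. `b(x, y) = Bq D x y`, `g(x, y, z) = Cq D x y z`. A vector `u` with `b(u, a) = 0` for all `a` is a vertex.

PLAN. `vertex_unique`: if `r1, r2` (entries in `k`) are vertices and linearly independent over `k`, then over
`Kb = AlgebraicClosure k` there is `(s, t) ≠ 0` with `g(w, w, w) = 0`, `w = s r1 + t r2` (`exists_zero_of_lt`, LibHPF/Q4.lean,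
one cubic form in two variables: `∑` of the expansion, or `Cq` applied to the polynomial vector
`X 0 • r1 + X 1 • r2`); `w ≠ 0` is a vertex on the cubic, `b(w, a) = 0` for all `a`: `smooth_ext` (`r = 1`, `s = 0`)
gives `1 = 0`.
`vertex_rational`: take a basis `B` of `Ω` over `k`; the coordinate vectors `u_b : Fin (n + 1) → k` of `u` are vertices
over `k` (the matrix of `b` has entries in `k`; test with `a = Pi.single i 1`). If all are zero: `u = 0`, `r = 0`.
Else fix one `r = u_b0 ≠ 0`; by `vertex_unique` every `u_b = c_b • r`, so `u = (∑ c_b B_b) • r`.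
`quad_mem` (a quadratic form in `II D` is a multiple of `QQ D`) is in E4.
`vertex_not_tangent`: `u = ω r`. If `u ≠ 0` then `ω ≠ 0`, `r ≠ 0`, and `g(P, P, r) = 0`. The quadratic form
`G = Cq D X X (C ∘ r)` over `k` vanishes at `P`, so `G ∈ II D`, `G = c * QQ D`; evaluate at `r`:
`g(r, r, r) = c * b(r, r) = 0`, contradiction to `smooth_ext` at `r` (`1 * b(r, a) + 0 = 0`).
`vertex_relation`: if `u ≠ 0`: `G = 4 * C g(r, r, r) * Cq D X X (C ∘ r) - 3 * (Cq D X (C ∘ r) (C ∘ r)) ^ 2` vanishes at `P`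
(divide the hypothesis by `ω ^ 4`), so `G = c * QQ D`; at `r`: `4 g(r, r, r)^2 - 3 g(r, r, r)^2 = 0`: `g(r, r, r) = 0`,
contradiction again.
-/

omit [CharZero k] in
private theorem E3b_map_single {R S : Type} [CommRing R] [Algebra k R] [CommRing S] [Algebra k S] (f : R →ₐ[k] S)
    (i : Fin (n + 1)) :
    (fun j => f ((Pi.single i (1 : R) : Fin (n + 1) → R) j)) = (Pi.single i (1 : S) : Fin (n + 1) → S) := by
  funext j
  by_cases h : j = i
  · subst h; simp
  · rw [Pi.single_eq_of_ne h, Pi.single_eq_of_ne h, map_zero]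

omit [CharZero k] in
/-- A vertex over `k` is a vertex over every algebra. -/
private theorem E3b_lift {Ω : Type} [CommRing Ω] [Algebra k Ω] (r : Fin (n + 1) → k)
    (h : ∀ a, Bq D r a = 0) (a : Fin (n + 1) → Ω) : Bq D (fun i => algebraMap k Ω (r i)) a = 0 := by
  rw [Bq_eq_sum]
  refine Finset.sum_eq_zero fun i _ => ?_
  have h1 := Bq_map D (Algebra.ofId k Ω) r (Pi.single i 1)
  rw [E3b_map_single, h, map_zero] at h1
  have h2 : (fun i => (Algebra.ofId k Ω) (r i)) = fun i => algebraMap k Ω (r i) := rfl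
  rw [h2] at h1
  rw [← h1, mul_zero]

omit [CharZero k] in
private theorem E3b_Cmap {Ω : Type} [CommRing Ω] [Algebra k Ω] (r₁ r₂ r₃ : Fin (n + 1) → k) :
    Cq D (fun i => algebraMap k Ω (r₁ i)) (fun i => algebraMap k Ω (r₂ i)) (fun i => algebraMap k Ω (r₃ i)) =
      algebraMap k Ω (Cq D r₁ r₂ r₃) :=
  (Cq_map D (Algebra.ofId k Ω) r₁ r₂ r₃).symm

/-- A nonzero vertex over `k` does not lie on the cubic. -/
private theorem E3b_off (hs : Smooth23 D) {Ω : Type} [Field Ω] [Algebra k Ω] (w : Fin (n + 1) → Ω) (hw : w ≠ 0)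
    (h : ∀ a, Bq D w a = 0) : Cq D w w w ≠ 0 := by
  intro h3
  have := (smooth_ext hs w hw (h w) h3 1 0 (fun a => by rw [h a]; ring)).1
  exact one_ne_zero this

theorem vertex_unique (hs : Smooth23 D) (r₁ r₂ : Fin (n + 1) → k) (h1 : ∀ a, Bq D r₁ a = 0)
    (h2 : ∀ a, Bq D r₂ a = 0) (hr : r₁ ≠ 0) : ∃ c : k, r₂ = c • r₁ := by
  obtain ⟨i0, hi0⟩ : ∃ i, r₁ i ≠ 0 := by
    by_contra hne
    push Not at hne
    exact hr (funext hne)
  let K := AlgebraicClosure k
  let R1 : Fin (n + 1) → K := fun i => algebraMap k K (r₁ i)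
  let R2 : Fin (n + 1) → K := fun i => algebraMap k K (r₂ i)
  have hR1 : ∀ a, Bq D R1 a = 0 := E3b_lift r₁ h1
  have hR2 : ∀ a, Bq D R2 a = 0 := E3b_lift r₂ h2
  have ha : Cq D R1 R1 R1 ≠ 0 := by
    refine E3b_off hs R1 ?_ hR1
    intro h0
    have := congrFun h0 i0
    exact hi0 ((map_eq_zero (algebraMap k K)).1 this)
  -- a zero of the cubic on the line
  obtain ⟨s, hsr⟩ : ∃ s : K, Cq D (s • R1 + R2) (s • R1 + R2) (s • R1 + R2) = 0 := by
    set a := Cq D R1 R1 R1 with hadef
    set b := Cq D R1 R1 R2 + Cq D R1 R2 R1 + Cq D R2 R1 R1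
    set c := Cq D R1 R2 R2 + Cq D R2 R1 R2 + Cq D R2 R2 R1
    set e := Cq D R2 R2 R2
    obtain ⟨s, hroot⟩ := IsAlgClosed.exists_root
      (Polynomial.C a * Polynomial.X ^ 3 + Polynomial.C b * Polynomial.X ^ 2 + Polynomial.C c * Polynomial.X
        + Polynomial.C e) (by
        rw [Polynomial.degree_cubic ha]; norm_num)
    refine ⟨s, ?_⟩
    simp only [Polynomial.IsRoot, Polynomial.eval_add, Polynomial.eval_mul, Polynomial.eval_C,
      Polynomial.eval_pow, Polynomial.eval_X] at hroot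
    simp only [Cq_add1, Cq_add2, Cq_add3, Cq_smul1, Cq_smul2, Cq_smul3]
    linear_combination hroot
  by_cases hw : s • R1 + R2 = 0
  · refine ⟨r₂ i0 / r₁ i0, ?_⟩
    funext i
    rw [Pi.smul_apply, smul_eq_mul]
    have e0 : s * algebraMap k K (r₁ i0) + algebraMap k K (r₂ i0) = 0 := congrFun hw i0
    have ei : s * algebraMap k K (r₁ i) + algebraMap k K (r₂ i) = 0 := congrFun hw i
    have key : algebraMap k K (r₂ i * r₁ i0) = algebraMap k K (r₂ i0 * r₁ i) := by
      rw [map_mul, map_mul]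
      linear_combination (algebraMap k K (r₁ i0)) * ei - (algebraMap k K (r₁ i)) * e0
    have key2 := (algebraMap k K).injective key
    field_simp
    exact key2
  · exfalso
    refine E3b_off hs (s • R1 + R2) hw (fun a => ?_) hsr
    rw [Bq_add1, Bq_smul1, hR1, hR2]
    ring

omit [CharZero k] in
private theorem E3b_coord {Ω : Type} [Field Ω] [Algebra k Ω] (φ : Ω →ₗ[k] k) (u : Fin (n + 1) → Ω)
    (a : Fin (n + 1) → k) :
    φ (Bq D u (fun i => algebraMap k Ω (a i))) = Bq D (fun i => φ (u i)) a := by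
  unfold Bq
  rw [map_sum]
  refine Finset.sum_congr rfl fun i _ => ?_
  rw [map_sum]
  refine Finset.sum_congr rfl fun j _ => ?_
  have : algebraMap k Ω (D.β i j) * (u i * algebraMap k Ω (a j)) = (D.β i j * a j) • u i := by
    rw [Algebra.smul_def, map_mul]; ring
  rw [this, map_smul, smul_eq_mul]
  show _ = D.β i j * (φ (u i) * a j)
  ring

theorem vertex_rational (hs : Smooth23 D) {Ω : Type} [Field Ω] [Algebra k Ω]
    (u : Fin (n + 1) → Ω) (hu : ∀ a, Bq D u a = 0) :
    ∃ (r : Fin (n + 1) → k) (ω : Ω), (∀ a, Bq D r a = 0) ∧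
      u = fun i => ω * algebraMap k Ω (r i) := by
  classical
  let B := Module.Basis.ofVectorSpace k Ω
  have hv : ∀ b, ∀ a, Bq D (fun i => B.coord b (u i)) a = 0 := by
    intro b a
    rw [← E3b_coord (B.coord b) u a, hu, map_zero]
  by_cases hz : ∀ b, (fun i => B.coord b (u i)) = 0
  · refine ⟨0, 0, fun a => Bq_zero1 D a, ?_⟩
    funext i
    rw [zero_mul]
    refine B.ext_elem fun b => ?_
    have := congrFun (hz b) i
    simpa using this
  · push Not at hz
    obtain ⟨b0, hb0⟩ := hz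
    have hb0' : (fun i => B.coord b0 (u i)) ≠ 0 := hb0
    obtain ⟨i0, hi0⟩ : ∃ i, B.coord b0 (u i) ≠ 0 := by
      by_contra hne
      push Not at hne
      exact hb0' (funext hne)
    refine ⟨fun i => B.coord b0 (u i), u i0 / algebraMap k Ω (B.coord b0 (u i0)), hv b0, ?_⟩
    funext i
    have hne : algebraMap k Ω (B.coord b0 (u i0)) ≠ 0 := by
      intro h0
      exact hi0 ((map_eq_zero (algebraMap k Ω)).1 h0)
    have key : B.coord b0 (u i0) • u i = B.coord b0 (u i) • u i0 := by
      refine B.ext_elem fun b => ?_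
      obtain ⟨c, hc⟩ := vertex_unique hs _ _ (hv b0) (hv b) hb0'
      have e1 := congrFun hc i
      have e2 := congrFun hc i0
      simp only [Pi.smul_apply, smul_eq_mul, Module.Basis.coord_apply] at e1 e2
      rw [map_smul, map_smul, Finsupp.smul_apply, Finsupp.smul_apply, smul_eq_mul, smul_eq_mul,
        Module.Basis.coord_apply, Module.Basis.coord_apply, e1, e2]
      ring
    rw [Algebra.smul_def, Algebra.smul_def] at key
    field_simp
    linear_combination key

omit [CharZero k] in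
/-- The quadratic form `g(X, X, r)`. -/
private theorem E3b_homQ (r : Fin (n + 1) → k) :
    (Cq D X X (fun i => (C (r i) : MvPolynomial (Fin (n + 1)) k))).IsHomogeneous 2 := by
  unfold Cq
  refine IsHomogeneous.sum _ _ _ fun i _ => IsHomogeneous.sum _ _ _ fun j _ =>
    IsHomogeneous.sum _ _ _ fun s _ => ?_
  have h : (2 : ℕ) = 0 + (1 + 1 + 0) := by norm_num
  rw [h]
  exact (isHomogeneous_C _ _).mul
    (((isHomogeneous_X k i).mul (isHomogeneous_X k j)).mul (isHomogeneous_C _ _))

omit [CharZero k] in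
/-- The linear form `g(X, r, r)`. -/
private theorem E3b_homL (r : Fin (n + 1) → k) :
    (Cq D X (fun i => (C (r i) : MvPolynomial (Fin (n + 1)) k)) (fun i => C (r i))).IsHomogeneous 1 := by
  unfold Cq
  refine IsHomogeneous.sum _ _ _ fun i _ => IsHomogeneous.sum _ _ _ fun j _ =>
    IsHomogeneous.sum _ _ _ fun s _ => ?_
  have h := (isHomogeneous_C (Fin (n + 1)) (D.γ i j s)).mul
    (((isHomogeneous_X k i).mul (isHomogeneous_C (Fin (n + 1)) (r j))).mul
      (isHomogeneous_C (Fin (n + 1)) (r s)))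
  have e : 0 + (1 + 0 + 0) = 1 := rfl
  rw [e] at h
  exact h

omit [CharZero k] in
private theorem E3b_evQ {R : Type} [CommRing R] [Algebra k R] (x : Fin (n + 1) → R) (r : Fin (n + 1) → k) :
    aeval x (Cq D X X (fun i => (C (r i) : MvPolynomial (Fin (n + 1)) k))) =
      Cq D x x (fun i => algebraMap k R (r i)) := by
  rw [aeval_Cq]
  simp only [aeval_X, aeval_C]

omit [CharZero k] in
private theorem E3b_evL {R : Type} [CommRing R] [Algebra k R] (x : Fin (n + 1) → R) (r : Fin (n + 1) → k) :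
    aeval x (Cq D X (fun i => (C (r i) : MvPolynomial (Fin (n + 1)) k)) (fun i => C (r i))) =
      Cq D x (fun i => algebraMap k R (r i)) (fun i => algebraMap k R (r i)) := by
  rw [aeval_Cq]
  simp only [aeval_X, aeval_C]

theorem vertex_not_tangent (hs : Smooth23 D) {Ω : Type} [Field Ω] [Algebra k Ω]
    (P u : Fin (n + 1) → Ω)
    (hP : ∀ (d : ℕ) (G : MvPolynomial (Fin (n + 1)) k), G.IsHomogeneous d →
      (aeval P G = 0 ↔ G ∈ II D))
    (hu : ∀ a, Bq D u a = 0) (h : Cq D P P u = 0) : u = 0 := by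
  by_contra hne
  obtain ⟨r, ω, hr, hur⟩ := vertex_rational hs u hu
  have hu' : u = ω • (fun i => algebraMap k Ω (r i)) := by rw [hur]; rfl
  have hω : ω ≠ 0 := by
    rintro rfl
    exact hne (by rw [hu', zero_smul])
  have hr0 : r ≠ 0 := by
    rintro rfl
    refine hne ?_
    rw [hur]
    funext i
    simp
  have h' : Cq D P P (fun i => algebraMap k Ω (r i)) = 0 := by
    rw [hu', Cq_smul3] at h
    exact (mul_eq_zero.1 h).resolve_left hω
  set G := Cq D X X (fun i => (C (r i) : MvPolynomial (Fin (n + 1)) k)) with hG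
  have hmem : G ∈ II D := (hP 2 G (E3b_homQ r)).1 (by rw [hG, E3b_evQ, h'])
  obtain ⟨c, hc⟩ := quad_mem G (E3b_homQ r) hmem
  have e1 := congrArg (aeval r) hc
  rw [hG, E3b_evQ, map_mul, aeval_QQ, hr r, mul_zero] at e1
  exact E3b_off hs r hr0 hr e1

theorem vertex_relation (hs : Smooth23 D) {Ω : Type} [Field Ω] [Algebra k Ω]
    (P u : Fin (n + 1) → Ω)
    (hP : ∀ (d : ℕ) (G : MvPolynomial (Fin (n + 1)) k), G.IsHomogeneous d →
      (aeval P G = 0 ↔ G ∈ II D))
    (hu : ∀ a, Bq D u a = 0) (h : 4 * Cq D u u u * Cq D P P u = 3 * Cq D P u u ^ 2) : u = 0 := by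
  by_contra hne
  obtain ⟨r, ω, hr, hur⟩ := vertex_rational hs u hu
  have hu' : u = ω • (fun i => algebraMap k Ω (r i)) := by rw [hur]; rfl
  have hω : ω ≠ 0 := by
    rintro rfl
    exact hne (by rw [hu', zero_smul])
  have hr0 : r ≠ 0 := by
    rintro rfl
    refine hne ?_
    rw [hur]
    funext i
    simp
  set R : Fin (n + 1) → Ω := fun i => algebraMap k Ω (r i) with hR
  have h' : 4 * Cq D R R R * Cq D P P R = 3 * Cq D P R R ^ 2 := by
    rw [hu'] at h
    simp only [Cq_smul1, Cq_smul2, Cq_smul3] at h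
    have h4 : ω ^ 4 ≠ 0 := pow_ne_zero 4 hω
    refine mul_left_cancel₀ h4 ?_
    linear_combination h
  set G := 4 * C (Cq D r r r) * Cq D X X (fun i => (C (r i) : MvPolynomial (Fin (n + 1)) k))
    - 3 * (Cq D X (fun i => (C (r i) : MvPolynomial (Fin (n + 1)) k)) (fun i => C (r i))) ^ 2 with hG
  have hhom : G.IsHomogeneous 2 := by
    refine IsHomogeneous.sub ?_ ?_
    · have h4 : (4 * C (Cq D r r r) : MvPolynomial (Fin (n + 1)) k) = C (4 * Cq D r r r) := by
        rw [C_mul]; rfl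
      rw [h4]
      have := (isHomogeneous_C (Fin (n + 1)) (4 * Cq D r r r)).mul (E3b_homQ (D := D) r)
      simpa using this
    · have h3 : (3 : MvPolynomial (Fin (n + 1)) k) = C 3 := rfl
      rw [h3]
      have := (isHomogeneous_C (Fin (n + 1)) (3 : k)).mul ((E3b_homL (D := D) r).pow 2)
      simpa using this
  have hev : ∀ {T : Type} [CommRing T] [Algebra k T] (x : Fin (n + 1) → T), aeval x G =
      4 * algebraMap k T (Cq D r r r) * Cq D x x (fun i => algebraMap k T (r i))
        - 3 * Cq D x (fun i => algebraMap k T (r i)) (fun i => algebraMap k T (r i)) ^ 2 := by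
    intro T _ _ x
    rw [hG, map_sub, map_mul, map_mul, map_mul, map_pow, E3b_evQ, E3b_evL, aeval_C, map_ofNat, map_ofNat]
  have hmem : G ∈ II D := (hP 2 G hhom).1 (by
    rw [hev, ← E3b_Cmap]
    linear_combination h')
  obtain ⟨c, hc⟩ := quad_mem G hhom hmem
  have e1 := congrArg (aeval r) hc
  rw [hev, map_mul, aeval_QQ, hr r, mul_zero] at e1
  have e2 : Cq D r r r * Cq D r r r = 0 := by
    have e3 : (4 : k) * Cq D r r r * Cq D r r r - 3 * Cq D r r r ^ 2 = 0 := e1
    linear_combination e3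
  exact E3b_off hs r hr0 hr (mul_self_eq_zero.1 e2)

end Pool.Agent.LibHP.CI
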