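import Pool.Agent.LibHPC.Defs0
import Pool.Agent.LibHPF.Q5

set_option autoImplicit false
open MvPolynomial

namespace Pool.Agent.LibHP.CI

variable {k : Type} [Field k] [CharZero k] {n : ℕ} {D : Dat k n}

/-!
# Row E4: generic points, cones, the ideal

PLAN. `exists_cone`, `IsGenPt.map`: see `exists_cone`, `IsGenPt.map` in LibHPF/Q5.lean (proved; `exists_cone_of_point` there
is general). `IsGenPt.self`: `QQ D`, `CC D` are in `II D` and homogeneous; `aeval_QQ`, `aeval_CC`. `II_hom`: the ideal is
generated by homogeneous polynomials (`G = A * QQ D + B * CC D`; the component of degree `d` is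
`A_(d-2) * QQ D + B_(d-3) * CC D`, see `Q3_hc_mul` in LibHPF/Q3.lean, or Mathlib `Ideal.IsHomogeneous`).
`quad_mem`, `lin_mem`: take the component of degree 2 (1) of `G = A * QQ D + B * CC D`. `IsGenPt.ne_zero`: `X i ∈ II D`
contradicts `lin_mem` (`X i ≠ 0`).
-/

private theorem E4_hc_mul {Ω σ : Type} [Field Ω] (a g : MvPolynomial σ Ω) (d D : ℕ)
    (hg : g.IsHomogeneous d) :
    homogeneousComponent D (a * g) =
      if d ≤ D then homogeneousComponent (D - d) a * g else 0 := by
  classical
  conv_lhs => rw [← sum_homogeneousComponent a, Finset.sum_mul, map_sum]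
  have h : ∀ n, homogeneousComponent D (homogeneousComponent n a * g) =
      if D = n + d then homogeneousComponent n a * g else 0 := fun n =>
    homogeneousComponent_of_mem ((homogeneousComponent_isHomogeneous n a).mul hg)
  simp only [h]
  split_ifs with hd
  · by_cases hn : D - d ∈ Finset.range (a.totalDegree + 1)
    · rw [Finset.sum_eq_single (D - d)]
      · rw [if_pos (by omega)]
      · intro b _ hb
        rw [if_neg (by omega)]
      · intro h'
        exact absurd hn h'
    · have h1 : homogeneousComponent (D - d) a = 0 := by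
        apply homogeneousComponent_eq_zero
        rw [Finset.mem_range] at hn
        omega
      rw [h1, zero_mul]
      refine Finset.sum_eq_zero fun n hn' => ?_
      rw [if_neg]
      intro h'
      apply hn
      have : n = D - d := by omega
      rwa [← this]
  · refine Finset.sum_eq_zero fun n _ => ?_
    rw [if_neg (by omega)]

private theorem E4_comp {k : Type} [Field k] {n : ℕ} (D : Dat k n)
    (A B : MvPolynomial (Fin (n + 1)) k) (d : ℕ) :
    homogeneousComponent d (A * QQ D + B * CC D) =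
      (if 2 ≤ d then homogeneousComponent (d - 2) A * QQ D else 0) +
      (if 3 ≤ d then homogeneousComponent (d - 3) B * CC D else 0) := by
  rw [map_add, E4_hc_mul A (QQ D) 2 d (isHomogeneous_QQ D),
    E4_hc_mul B (CC D) 3 d (isHomogeneous_CC D)]

private theorem E4_homogeneous {k : Type} [Field k] {n : ℕ} (D : Dat k n)
    (G : MvPolynomial (Fin (n + 1)) k) :
    G ∈ II D ↔ ∀ e, homogeneousComponent e G ∈ II D := by
  let _ : GradedAlgebra (homogeneousSubmodule (Fin (n + 1)) k) := gradedAlgebra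
  exact mem_iff_homogeneousComponent_mem (Ideal.homogeneous_span _ _ (by
    intro x hx
    rcases hx with hx | hx
    · rw [hx]
      exact ⟨2, isHomogeneous_QQ D⟩
    · rw [Set.mem_singleton_iff] at hx
      rw [hx]
      exact ⟨3, isHomogeneous_CC D⟩)) G

theorem exists_cone {Ω : Type} [Field Ω] [Algebra k Ω] (P : Fin (n + 1) → Ω) (hP : IsGenPt D P) :
    ∃ (Ω' : Type) (_ : Field Ω') (_ : Algebra k Ω') (_ : IsAlgClosed Ω') (f : Ω →ₐ[k] Ω') (s : Ω'),
      s ≠ 0 ∧ IsGenCone D (fun i => s * f (P i)) := by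
  classical
  obtain ⟨κ', _, _, f, s, hs, h1, -⟩ := exists_cone_of_point k (Fin (n + 1)) Ω P 0 hP.1
  refine ⟨AlgebraicClosure κ', inferInstance, inferInstance, inferInstance,
    (IsScalarTower.toAlgHom k κ' (AlgebraicClosure κ')).comp f,
    algebraMap κ' (AlgebraicClosure κ') s, ?_, ?_⟩
  · intro h
    exact hs ((map_eq_zero _).1 h)
  · intro G
    have h2 : aeval (fun i => algebraMap κ' (AlgebraicClosure κ') s *
        ((IsScalarTower.toAlgHom k κ' (AlgebraicClosure κ')).comp f) (P i)) G =
        algebraMap κ' (AlgebraicClosure κ') (aeval (fun i => s * f (P i)) G) := by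
      rw [← aeval_algebraMap_apply]
      congr 2
      funext i
      show _ = algebraMap κ' (AlgebraicClosure κ') (s * f (P i))
      rw [map_mul]
      rfl
    rw [h2, map_eq_zero, h1 G, E4_homogeneous D G]
    exact forall_congr' fun e => hP.2 e _ (homogeneousComponent_isHomogeneous e G)

theorem IsGenPt.map {Ω Ω' : Type} [Field Ω] [Algebra k Ω] [Field Ω'] [Algebra k Ω']
    {P : Fin (n + 1) → Ω} (hP : IsGenPt D P) (f : Ω →ₐ[k] Ω') :
    IsGenPt D (fun i => f (P i)) := by
  refine ⟨?_, fun d G hG => ?_⟩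
  · show f (P 0) = 1
    rw [hP.1, map_one]
  rw [← hP.2 d G hG, ← map_eq_zero_iff f f.injective]
  have h : aeval (fun i => f (P i)) G = f (aeval P G) := by
    rw [← AlgHom.comp_apply, MvPolynomial.comp_aeval]
  rw [h]

theorem IsGenPt.self {Ω : Type} [Field Ω] [Algebra k Ω] {P : Fin (n + 1) → Ω}
    (hP : IsGenPt D P) : Bq D P P = 0 ∧ Cq D P P P = 0 := by
  rw [← aeval_QQ, ← aeval_CC]
  exact ⟨(hP.2 2 _ (isHomogeneous_QQ D)).2 (QQ_mem D),
    (hP.2 3 _ (isHomogeneous_CC D)).2 (CC_mem D)⟩

theorem IsGenCone.self {Ω : Type} [Field Ω] [Algebra k Ω] {P : Fin (n + 1) → Ω}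
    (hP : IsGenCone D P) : Bq D P P = 0 ∧ Cq D P P P = 0 := by
  rw [← aeval_QQ, ← aeval_CC]
  exact ⟨(hP _).2 (QQ_mem D), (hP _).2 (CC_mem D)⟩

theorem II_hom (G : MvPolynomial (Fin (n + 1)) k) (hG : G ∈ II D) (d : ℕ) :
    homogeneousComponent d G ∈ II D :=
  (E4_homogeneous D G).1 hG d

theorem quad_mem (G : MvPolynomial (Fin (n + 1)) k) (hG : G.IsHomogeneous 2) (h : G ∈ II D) :
    ∃ c : k, G = C c * QQ D := by
  obtain ⟨A, B, hAB⟩ := (mem_II_iff D G).1 h
  refine ⟨coeff 0 A, ?_⟩
  have h1 : homogeneousComponent 2 G = G := by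
    rw [homogeneousComponent_of_mem hG, if_pos rfl]
  have h2 := E4_comp D A B 2
  rw [if_pos le_rfl, if_neg (by norm_num), add_zero, Nat.sub_self, homogeneousComponent_zero,
    ← hAB, h1] at h2
  exact h2

theorem lin_mem (G : MvPolynomial (Fin (n + 1)) k) (hG : G.IsHomogeneous 1) (h : G ∈ II D) :
    G = 0 := by
  obtain ⟨A, B, hAB⟩ := (mem_II_iff D G).1 h
  have h1 : homogeneousComponent 1 G = G := by
    rw [homogeneousComponent_of_mem hG, if_pos rfl]
  have h2 := E4_comp D A B 1
  rw [if_neg (by norm_num), if_neg (by norm_num), add_zero, ← hAB, h1] at h2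
  exact h2

theorem IsGenPt.ne_zero {Ω : Type} [Field Ω] [Algebra k Ω] {P : Fin (n + 1) → Ω}
    (hP : IsGenPt D P) (i : Fin (n + 1)) : P i ≠ 0 := by
  intro h0
  have h1 : (X i : MvPolynomial (Fin (n + 1)) k) ∈ II D :=
    (hP.2 1 _ (isHomogeneous_X k i)).1 (by rw [aeval_X, h0])
  exact X_ne_zero (R := k) i (lin_mem _ (isHomogeneous_X k i) h1)

end Pool.Agent.LibHP.CI
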