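import Pool.Agent.LibHPC.E2
import Pool.Agent.LibHPC.E3b
import Pool.Agent.LibHPF.Q6

set_option autoImplicit false
open MvPolynomial

namespace Pool.Agent.LibHP.CI

variable {k : Type} [Field k] [CharZero k] {n : ℕ} {D : Dat k n}

/-!
# Row E5: nondegeneracy of the tangential restriction of the quadric at the generic point (Lemma A)

NOTATION. `b(x, y) = Bq D x y`, `g(x, y, z) = Cq D x y z`, `T = {c : b(P, c) = 0, g(P, P, c) = 0}`, `e_i = Pi.single i 1`.

PLAN of `hess_cone`. Put `u = v - α P`. Then `u ∈ T` (`IsGenCone.self`) and `b(u, a) = β g(P, P, a)` for all `a` (as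
`b(v, a) = α b(P, a) + β g(P, P, a)`). CASE `β = 0`: `u` is a vertex and `g(P, P, u) = 0`, so `u = 0` by
`vertex_not_tangent`. CASE `β ≠ 0`: (1) `b(u, u) = β g(P, P, u) = 0`. (2) For `c ∈ T` let `δ` be a derivation with
`δ (P i) = c i` (`exists_derivation_cone`). Apply `δ` to `b(u, e_i) = β g(P, P, e_i)`:
`b(δu, e_i) = δβ g(P, P, e_i) + 2 β g(P, c, e_i)`, so by linearity for all vectors instead of `e_i`; at `u`:
`b(δu, u) = 2 β g(P, c, u)`. And `δ (b(u, u)) = 0` gives `b(u, δu) = 0`. So `g(P, c, u) = 0` for all `c ∈ T`. (3) So the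
functional `g(P, u, .)` vanishes on `T`, and there are `x, y` with `g(P, u, a) = x b(P, a) + y g(P, P, a)` for all `a`
(linear algebra: a functional vanishing on the common kernel of two functionals is a combination of them,
Mathlib `mem_span_of_iInf_ker_le_ker` / `LinearMap` dual lemma). (4) Let `δ` be the derivation with `δP = u`, and `ε` the one
with `εP = P` (`P ∈ T`). With `b_i = b(P, e_i)`, `g_i = g(P, P, e_i)`: `δ b_i = b(u, e_i) = β g_i`, `δ g_i = 2 g(P, u, e_i) =
2 x b_i + 2 y g_i`, so `δ m = 2 y m` for every minor `m = b_i g_j - b_j g_i` (`min2 D P`); `ε m = 3 m`. So the derivation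
`δ - (2 y / 3) ε` kills all minors, and `k̄` (algebraic over `k`), hence everything integral over them, in particular all
`P j` (`min_integral`, and `Q6_const`, `Q6_der`, `Q6_up`, `Q6_ext` of LibHPF/Q6.lean, private there: copy them).
So `u = (2 y / 3) P` and `(2 y / 3) b(P, a) = b(u, a) = β g(P, P, a)` for all `a`: `smooth_ext` (`P ≠ 0`) gives `β = 0`,
contradiction.
`lemmaA`: `exists_cone`: apply `hess_cone` to `P' = s • f P`, `v' = f v`, `α' = f α / s`, `β' = f β / s ^ 2` (identity on
`a = Pi.single i 1`, then linearity), get `f v = (f α / s) • (s • f P)`, `f` injective.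
`lemmaA'`: as in (3): the functional `b(v, .)` vanishes on `T`, so it is a combination.
-/

private theorem E5_single {R S : Type} [CommRing R] [Algebra k R] [CommRing S] [Algebra k S]
    (f : R →ₐ[k] S) (i : Fin (n + 1)) :
    (fun j => f ((Pi.single i 1 : Fin (n + 1) → R) j)) = Pi.single i 1 := by
  funext j
  by_cases hj : j = i
  · subst hj
    rw [Pi.single_eq_same, Pi.single_eq_same, map_one]
  · rw [Pi.single_eq_of_ne hj, Pi.single_eq_of_ne hj, map_zero]

/-- An algebraically closed extension contains the algebraic closure of the ground field. -/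
private theorem E5_ext (Ω : Type) [Field Ω] [Algebra k Ω] [IsAlgClosed Ω] :
    ∃ (_ : Algebra (AlgebraicClosure k) Ω), IsScalarTower k (AlgebraicClosure k) Ω := by
  let f : AlgebraicClosure k →ₐ[k] Ω := IsAlgClosed.lift
  let _ : Algebra (AlgebraicClosure k) Ω := f.toRingHom.toAlgebra
  exact ⟨inferInstance, IsScalarTower.of_algebraMap_eq fun x => (f.commutes x).symm⟩

/-- A derivation killing a subfield kills the integral elements over it. -/
private theorem E5_der {Ω : Type} [Field Ω] [Algebra k Ω] (δ : Derivation k Ω Ω) (C : Subfield Ω)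
    (hC : ∀ x, x ∈ C ↔ δ x = 0) (x : Ω) (hx : IsIntegral C x) : δ x = 0 := by
  let δ' : Derivation C Ω Ω := Derivation.mk'
    { toFun := δ
      map_add' := map_add δ
      map_smul' := fun c z => by
        show δ ((c : Ω) * z) = (c : Ω) * δ z
        rw [Derivation.leibniz, (hC c).1 c.2, smul_zero, add_zero, smul_eq_mul] }
    (fun a b => by
      show δ (a * b) = a • δ b + b • δ a
      exact δ.leibniz a b)
  have : CharZero Ω := charZero_of_injective_algebraMap (algebraMap k Ω).injective
  have h1 : δ' (Polynomial.aeval x (minpoly C x)) =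
      Polynomial.aeval x (Polynomial.derivative (minpoly C x)) • δ' x := δ'.map_aeval _ _
  rw [minpoly.aeval, map_zero, smul_eq_mul] at h1
  have hsep : (minpoly C x).Separable := (minpoly.irreducible hx).separable
  have h2 := hsep.aeval_derivative_ne_zero (minpoly.aeval C x)
  rcases mul_eq_zero.1 h1.symm with h | h
  · exact absurd h h2
  · exact h

/-- The constants of a derivation. -/
private theorem E5_const {Ω : Type} [Field Ω] [Algebra k Ω] (δ : Derivation k Ω Ω) :
    ∃ C : Subfield Ω, ∀ x, x ∈ C ↔ δ x = 0 := by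
  refine ⟨{ carrier := {x | δ x = 0}
            mul_mem' := fun {a b} ha hb => ?_
            one_mem' := ?_
            add_mem' := fun {a b} ha hb => ?_
            zero_mem' := ?_
            neg_mem' := fun {a} ha => ?_
            inv_mem' := fun a ha => ?_ }, fun x => Iff.rfl⟩
  · show δ (a * b) = 0
    have ha' : δ a = 0 := ha
    have hb' : δ b = 0 := hb
    rw [δ.leibniz, ha', hb', smul_zero, smul_zero, add_zero]
  · exact δ.map_one_eq_zero
  · show δ (a + b) = 0
    have ha' : δ a = 0 := ha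
    have hb' : δ b = 0 := hb
    rw [map_add, ha', hb', add_zero]
  · exact map_zero δ
  · show δ (-a) = 0
    have ha' : δ a = 0 := ha
    rw [map_neg, ha', neg_zero]
  · show δ a⁻¹ = 0
    have ha' : δ a = 0 := ha
    rw [δ.leibniz_inv, ha', smul_zero]

/-- Integrality over a subring of a subfield. -/
private theorem E5_up {A Ω : Type} [CommRing A] [Field Ω] [Algebra A Ω] (C : Subfield Ω)
    (hA : ∀ a : A, algebraMap A Ω a ∈ C) (x : Ω) (hx : IsIntegral A x) : IsIntegral C x := by
  obtain ⟨p, hp, hpx⟩ := hx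
  let g : A →+* C :=
    { toFun := fun a => ⟨algebraMap A Ω a, hA a⟩
      map_one' := Subtype.ext (map_one _)
      map_mul' := fun a b => Subtype.ext (map_mul _ _ _)
      map_zero' := Subtype.ext (map_zero _)
      map_add' := fun a b => Subtype.ext (map_add _ _ _) }
  refine ⟨p.map g, hp.map g, ?_⟩
  rw [Polynomial.eval₂_map]
  exact hpx

/-- A functional vanishing on the common kernel of two functionals. -/
private theorem E5_span {Ω V : Type} [Field Ω] [AddCommGroup V] [Module Ω V]
    (f g h : V →ₗ[Ω] Ω) (H : ∀ a, g a = 0 → h a = 0 → f a = 0) :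
    ∃ x y : Ω, ∀ a, f a = x * g a + y * h a := by
  have h1 : f ∈ Submodule.span Ω (Set.range ![g, h]) := by
    refine mem_span_of_iInf_ker_le_ker ?_
    intro a ha
    rw [Submodule.mem_iInf] at ha
    have h2 := ha 0
    have h3 := ha 1
    rw [LinearMap.mem_ker] at h2 h3 ⊢
    exact H a h2 h3
  have h2 : Set.range ![g, h] = {g, h} := by
    rw [Matrix.range_cons, Matrix.range_cons, Matrix.range_empty, Set.union_empty]
    rfl
  rw [h2, Submodule.mem_span_pair] at h1
  obtain ⟨x, y, hxy⟩ := h1
  refine ⟨x, y, fun a => ?_⟩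
  rw [← hxy]
  rfl

/-- Two functionals agree if they agree on the standard vectors. -/
private theorem E5_lin {Ω : Type} [Field Ω] (f g : (Fin (n + 1) → Ω) →ₗ[Ω] Ω)
    (h : ∀ i, f (Pi.single i 1) = g (Pi.single i 1)) (a : Fin (n + 1) → Ω) : f a = g a := by
  have : f = g := by
    refine LinearMap.pi_ext' fun i => LinearMap.ext_ring ?_
    exact h i
  rw [this]

theorem hess_cone (hD : IsSymm23 D) (hs : Smooth23 D) {Ω : Type} [Field Ω] [Algebra k Ω]
    [IsAlgClosed Ω] (P v : Fin (n + 1) → Ω) (hP : IsGenCone D P) (h1 : Bq D P v = 0)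
    (h2 : Cq D P P v = 0) (α β : Ω) (hv : ∀ a, Bq D v a = α * Bq D P a + β * Cq D P P a) :
    v = α • P := by
  have hch : CharZero Ω := charZero_of_injective_algebraMap (algebraMap k Ω).injective
  obtain ⟨hPP, hPPP⟩ := hP.self
  have hP0 : P ≠ 0 := by
    intro h0
    have h3 : (X 0 : MvPolynomial (Fin (n + 1)) k) ∈ II D := by
      rw [← hP, aeval_X, h0, Pi.zero_apply]
    have h4 := lin_mem _ (isHomogeneous_X k 0) h3
    exact X_ne_zero _ h4
  obtain ⟨u, hu⟩ : ∃ u, u = v - α • P := ⟨_, rfl⟩
  have hPu : Bq D P u = 0 := by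
    rw [hu, Bq_sub2, Bq_smul2, h1, hPP]; ring
  have hPPu : Cq D P P u = 0 := by
    rw [hu, Cq_sub3, Cq_smul3, h2, hPPP]; ring
  have hua : ∀ a, Bq D u a = β * Cq D P P a := by
    intro a
    rw [hu, Bq_sub1, Bq_smul1, hv]; ring
  suffices hu0 : u = 0 by
    rw [hu0] at hu
    exact (sub_eq_zero.1 hu.symm)
  by_cases hβ : β = 0
  · refine vertex_not_tangent hs P u (fun d G _ => hP G) (fun a => ?_) hPPu
    rw [hua, hβ, zero_mul]
  have huu : Bq D u u = 0 := by rw [hua, hPPu, mul_zero]
  -- the functional `g(P, u, .)` vanishes on the tangent space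
  have hT : ∀ c, Bq D P c = 0 → Cq D P P c = 0 → Cq D P u c = 0 := by
    intro c hc1 hc2
    obtain ⟨δ, hδ⟩ := exists_derivation_cone hD P c hP hc1 hc2
    have hδP : (fun i => δ (P i)) = c := funext hδ
    have e0 : ∀ i : Fin (n + 1), (fun j => δ ((Pi.single i 1 : Fin (n + 1) → Ω) j)) = 0 := by
      intro i
      funext j
      by_cases hj : j = i
      · subst hj
        rw [Pi.single_eq_same, Derivation.map_one_eq_zero, Pi.zero_apply]
      · rw [Pi.single_eq_of_ne hj, map_zero, Pi.zero_apply]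
    have e1 : ∀ i, Bq D (fun j => δ (u j)) (Pi.single i 1) =
        δ β * Cq D P P (Pi.single i 1) + 2 * β * Cq D P c (Pi.single i 1) := by
      intro i
      have e2 := congrArg δ (hua (Pi.single i 1))
      rw [Bq_deriv, e0, Bq_zero2, Derivation.leibniz, Cq_deriv, e0, Cq_zero3, hδP,
        Cq_comm12 hD c P, smul_eq_mul, smul_eq_mul] at e2
      linear_combination e2
    have e3 : ∀ a, Bq D (fun j => δ (u j)) a = δ β * Cq D P P a + 2 * β * Cq D P c a := by
      intro a
      have e4 := E5_lin (BqL D (fun j => δ (u j))) (δ β • CqL D P P + (2 * β) • CqL D P c)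
        (fun i => by
          rw [BqL_apply, e1]
          rfl) a
      rw [BqL_apply] at e4
      rw [e4]
      rfl
    have e5 := Bq_deriv2 hD δ u
    rw [huu, map_zero, Bq_comm hD, e3, hPPu] at e5
    have e6 : β * Cq D P c u = 0 := by
      have : (4 : Ω) ≠ 0 := by norm_num
      apply mul_left_cancel₀ this
      linear_combination -e5
    rw [Cq_comm23 hD]
    exact (mul_eq_zero.1 e6).resolve_left hβ
  obtain ⟨x, y, hxy⟩ := E5_span (CqL D P u) (BqL D P) (CqL D P P) hT
  have hxy' : ∀ a, Cq D P u a = x * Bq D P a + y * Cq D P P a := hxy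
  -- the derivation
  obtain ⟨w, hw⟩ : ∃ w, w = u - (2 * y / 3) • P := ⟨_, rfl⟩
  have hPw : Bq D P w = 0 := by rw [hw, Bq_sub2, Bq_smul2, hPu, hPP]; ring
  have hPPw : Cq D P P w = 0 := by rw [hw, Cq_sub3, Cq_smul3, hPPu, hPPP]; ring
  obtain ⟨δ, hδ⟩ := exists_derivation_cone hD P w hP hPw hPPw
  have hδP : (fun i => δ (P i)) = w := funext hδ
  have e0 : ∀ i : Fin (n + 1), (fun j => δ ((Pi.single i 1 : Fin (n + 1) → Ω) j)) = 0 := by
    intro i
    funext j
    by_cases hj : j = i
    · subst hj
      rw [Pi.single_eq_same, Derivation.map_one_eq_zero, Pi.zero_apply]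
    · rw [Pi.single_eq_of_ne hj, map_zero, Pi.zero_apply]
  have d1 : ∀ i, δ (Bq D P (Pi.single i 1)) =
      β * Cq D P P (Pi.single i 1) - 2 * y / 3 * Bq D P (Pi.single i 1) := by
    intro i
    rw [Bq_deriv, e0, Bq_zero2, hδP, hw, Bq_sub1, Bq_smul1, hua]
    ring
  have d2 : ∀ i, δ (Cq D P P (Pi.single i 1)) =
      2 * x * Bq D P (Pi.single i 1) + 2 * y / 3 * Cq D P P (Pi.single i 1) := by
    intro i
    rw [Cq_deriv, e0, Cq_zero3, hδP, Cq_comm12 hD w P, hw, Cq_sub2, Cq_smul2, hxy']
    ring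
  have hg : ∀ p, δ (min2 D P p) = 0 := by
    intro p
    unfold min2
    rw [map_sub, Derivation.leibniz, Derivation.leibniz, d1, d2, d1, d2]
    simp only [smul_eq_mul]
    ring
  obtain ⟨C, hC⟩ := E5_const δ
  obtain ⟨iA, iT⟩ := E5_ext (k := k) Ω
  have hkb : ∀ z : AlgebraicClosure k, algebraMap (AlgebraicClosure k) Ω z ∈ C := by
    intro z
    rw [hC]
    refine E5_der δ C hC _ (E5_up (A := k) C (fun a => ?_) _ ?_)
    · rw [hC]
      exact δ.map_algebraMap a
    · exact (Algebra.IsIntegral.isIntegral (R := k) z).algebraMap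
  have hS : ∀ s ∈ Algebra.adjoin (AlgebraicClosure k) (Set.range (min2 D P)), s ∈ C := by
    intro s hs'
    induction hs' using Algebra.adjoin_induction with
    | mem x hx =>
      obtain ⟨i, rfl⟩ := hx
      rw [hC]
      exact hg i
    | algebraMap r => exact hkb r
    | add x y _ _ hx hy => exact C.add_mem hx hy
    | mul x y _ _ hx hy => exact C.mul_mem hx hy
  have hPj : ∀ j, δ (P j) = 0 := by
    intro j
    refine E5_der δ C hC _ (E5_up (A := Algebra.adjoin (AlgebraicClosure k)
      (Set.range (min2 D P))) C (fun a => ?_) _ (min_integral hs P hPP hPPP j))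
    exact hS _ a.2
  have hw0 : w = 0 := by
    funext j
    rw [← hδ j, hPj, Pi.zero_apply]
  have hu2 : u = (2 * y / 3) • P := by
    rw [hw0] at hw
    exact (sub_eq_zero.1 hw.symm)
  have h5 := smooth_ext hs P hP0 hPP hPPP (2 * y / 3) (-β) (fun a => by
    have h6 := hua a
    rw [hu2, Bq_smul1] at h6
    linear_combination h6)
  exact absurd (neg_eq_zero.1 h5.2) hβ

theorem lemmaA (hD : IsSymm23 D) (hs : Smooth23 D) {Ω : Type} [Field Ω] [Algebra k Ω]
    (P v : Fin (n + 1) → Ω) (hP : IsGenPt D P) (h1 : Bq D P v = 0) (h2 : Cq D P P v = 0)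
    (α β : Ω) (hv : ∀ a, Bq D v a = α * Bq D P a + β * Cq D P P a) : v = α • P := by
  obtain ⟨Ω', i1, i2, i3, f, s, hs0, hcone⟩ := exists_cone P hP
  have hf : Function.Injective f := f.toRingHom.injective
  have hP' : (fun i => s * f (P i)) = s • (fun i => f (P i)) := rfl
  have h := hess_cone hD hs (fun i => s * f (P i)) (fun i => f (v i)) hcone
    (by
      rw [hP', Bq_smul1, ← Bq_map, h1, map_zero, mul_zero])
    (by
      rw [hP', Cq_smul1, Cq_smul2, ← Cq_map, h2, map_zero, mul_zero, mul_zero])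
    (f α / s) (f β / s ^ 2) (by
    intro a
    refine E5_lin (BqL D (fun i => f (v i)))
      ((f α / s) • BqL D (fun i => s * f (P i)) +
        (f β / s ^ 2) • CqL D (fun i => s * f (P i)) (fun i => s * f (P i))) (fun i => ?_) a
    have h3 := congrArg f (hv (Pi.single i 1))
    rw [map_add, map_mul, map_mul, Bq_map, Bq_map, Cq_map, E5_single] at h3
    rw [BqL_apply, h3]
    show _ = f α / s * Bq D (fun i => s * f (P i)) (Pi.single i 1) +
      f β / s ^ 2 * Cq D (fun i => s * f (P i)) (fun i => s * f (P i)) (Pi.single i 1)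
    rw [hP', Bq_smul1, Cq_smul1, Cq_smul2]
    field_simp)
  funext j
  apply hf
  have h2 := congrFun h j
  show f (v j) = f (α * P j)
  rw [map_mul]
  have h3 : f (v j) = f α / s * (s * f (P j)) := h2
  rw [h3]
  field_simp

theorem lemmaA' (hD : IsSymm23 D) (hs : Smooth23 D) {Ω : Type} [Field Ω] [Algebra k Ω]
    (P v : Fin (n + 1) → Ω) (hP : IsGenPt D P) (h1 : Bq D P v = 0) (h2 : Cq D P P v = 0)
    (hv : ∀ a, Bq D P a = 0 → Cq D P P a = 0 → Bq D v a = 0) : ∃ c : Ω, v = c • P := by
  obtain ⟨x, y, hxy⟩ := E5_span (BqL D v) (BqL D P) (CqL D P P) hv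
  exact ⟨x, lemmaA hD hs P v hP h1 h2 x y hxy⟩

end Pool.Agent.LibHP.CI
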