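import Pool.Agent.LibHPC.E5

set_option autoImplicit false
open MvPolynomial

namespace Pool.Agent.LibHP.CI

variable {k : Type} [Field k] [CharZero k] {n : ℕ} {D : Dat k n}

/-!
# Row E6: the lines of the complete intersection through the generic point (Lemma B)

NOTATION. `b(x, y) = Bq D x y`, `g(x, y, z) = Cq D x y z`. See LibHPF/Q7.lean (proved) for the model.

PLAN of `lemmaB_cone`. Let `R ⊆ Fin 5 → Ω` be the subspace of all `ρ` satisfying `hρ`. CLAIM: for `ρ ∈ R` there is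
`ρ' ∈ R` with `ρ' 1 = ρ 0`, `ρ' 3 = 2 * ρ 2`, `ρ' 4 = ρ 3 / 2`, and `ρ'` is unique, linear in `ρ`. Proof: let `b(P, a) = 0`,
`g(P, P, a) = 0`, `δ` a derivation with `δP = a` (`exists_derivation_cone`), `w = δv`. Apply `δ` to `h1, ..., h5`:
`b(a, v) + b(P, w) = 0`, `2 g(P, a, v) + g(P, P, w) = 0`, `b(v, w) = 0`, `g(a, v, v) + 2 g(P, v, w) = 0`, `g(v, v, w) = 0`. The
relation at `w` gives `ρ 0 * b(v, a) + 2 * ρ 2 * g(P, v, a) + (ρ 3 / 2) * g(v, v, a) = 0`. This holds for all `a` in the common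
kernel of `b(P, .)`, `g(P, P, .)`, so the left side is `x b(P, a) + y g(P, P, a)` for all `a`, with unique `x, y`
(`smooth_ext` at `P`). Put `ρ' = ![-x, ρ 0, -y, 2 * ρ 2, ρ 3 / 2]`.
So `f : ρ ↦ ρ'` is an endomorphism of `R`. If `R ≠ 0`, `f` has an eigenvector `ρ ≠ 0` (`Module.End.exists_eigenvalue`,
`Ω` algebraically closed): `ξ ρ 1 = ρ 0`, `ξ ρ 3 = 2 ρ 2`, `ξ ρ 4 = ρ 3 / 2`, so `ρ 3 = 2 ξ ρ 4`, `ρ 2 = ξ ^ 2 ρ 4`, and the relation is
`ρ 1 * b(y, a) + ρ 4 * g(y, y, a) = 0` with `y = ξ P + v`; `b(y, y) = g(y, y, y) = 0` and `y ≠ 0` (`hv`), so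
`ρ 1 = ρ 4 = 0` by `smooth_ext` and `ρ = 0`, contradiction. (One can avoid the endomorphism: as in Q7.lean.)
`lemmaB`: `exists_cone`, `P' = s • f P`, `v' = f v`, coefficients `![ρ 0 / s, ρ 1, ρ 2 / s ^ 2, ρ 3 / s, ρ 4]` (images by `f`),
identity on `a = Pi.single i 1`, then linearity.
-/

private theorem E6_dual {Ω' : Type} [Field Ω'] (L M : (Fin (n + 1) → Ω') → Ω')
    (hLa : ∀ a b, L (a - b) = L a - L b) (hMa : ∀ a b, M (a - b) = M a - M b)
    (hLs : ∀ (c : Ω') a, L (c • a) = c * L a) (hMs : ∀ (c : Ω') a, M (c • a) = c * M a)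
    (h : ∀ r s : Ω', (∀ a, r * L a + s * M a = 0) → r = 0 ∧ s = 0) :
    ∃ w₁ w₂, L w₁ = 1 ∧ M w₁ = 0 ∧ L w₂ = 0 ∧ M w₂ = 1 := by
  have h1 : ∃ a, L a ≠ 0 := by
    by_contra hcon
    push Not at hcon
    have := (h 1 0 (fun a => by rw [hcon a]; ring)).1
    exact one_ne_zero this
  obtain ⟨a, ha⟩ := h1
  have h2 : ∃ b, L b = 0 ∧ M b ≠ 0 := by
    by_contra hcon
    push Not at hcon
    have h3 := (h (-(M a / L a)) 1 (fun c => by
      have h4 : L (c - (L c / L a) • a) = 0 := by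
        rw [hLa, hLs]
        field_simp
        ring
      have h5 := hcon _ h4
      rw [hMa, hMs] at h5
      field_simp at h5 ⊢
      linear_combination h5)).2
    exact one_ne_zero h3
  obtain ⟨b, hb1, hb2⟩ := h2
  have e2 : L ((M b)⁻¹ • b) = 0 := by rw [hLs, hb1, mul_zero]
  have e3 : M ((M b)⁻¹ • b) = 1 := by rw [hMs, inv_mul_cancel₀ hb2]
  refine ⟨(L a)⁻¹ • a - M ((L a)⁻¹ • a) • ((M b)⁻¹ • b), (M b)⁻¹ • b, ?_, ?_, e2, e3⟩
  · rw [hLa, hLs _ ((M b)⁻¹ • b), e2, mul_zero, sub_zero, hLs, inv_mul_cancel₀ ha]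
  · rw [hMa, hMs _ ((M b)⁻¹ • b), e3, mul_one, sub_self]

private theorem E6_ne {Ω : Type} [Field Ω] [Algebra k Ω] (P : Fin (n + 1) → Ω)
    (hP : IsGenCone D P) : P ≠ 0 := by
  intro h0
  have h1 : (X 0 : MvPolynomial (Fin (n + 1)) k) ∈ II D := by
    rw [← hP (X 0), aeval_X, h0]
    rfl
  exact X_ne_zero 0 (lin_mem (X 0) (isHomogeneous_X k 0) h1)

/-- the five derived equations -/
private theorem E6_der (hD : IsSymm23 D) {Ω : Type} [Field Ω] [Algebra k Ω]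
    (P v : Fin (n + 1) → Ω) (hP : IsGenCone D P)
    (h1 : Bq D P v = 0) (h2 : Cq D P P v = 0) (h3 : Bq D v v = 0) (h4 : Cq D P v v = 0)
    (h5 : Cq D v v v = 0) (a : Fin (n + 1) → Ω) (ha1 : Bq D P a = 0) (ha2 : Cq D P P a = 0) :
    ∃ b : Fin (n + 1) → Ω, Bq D P b = -Bq D v a ∧ Cq D P P b = -2 * Cq D P v a ∧
      Bq D v b = 0 ∧ 2 * Cq D P v b = -Cq D v v a ∧ Cq D v v b = 0 := by
  have : CharZero Ω := charZero_of_injective_algebraMap (algebraMap k Ω).injective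
  obtain ⟨δ, hδ⟩ := exists_derivation_cone hD P a hP ha1 ha2
  have hδP : (fun i => δ (P i)) = a := funext hδ
  refine ⟨fun i => δ (v i), ?_, ?_, ?_, ?_, ?_⟩
  · have e := Bq_deriv D δ P v
    rw [h1, map_zero, hδP, Bq_comm hD a v] at e
    linear_combination -e
  · have e := Cq_deriv D δ P P v
    rw [h2, map_zero, hδP, Cq_comm12 hD a P v, Cq_comm23 hD P a v] at e
    linear_combination -e
  · have e := Bq_deriv2 hD δ v
    rw [h3, map_zero] at e
    have h6 : (2 : Ω) ≠ 0 := by norm_num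
    exact (mul_eq_zero.1 e.symm).resolve_left h6
  · have e := Cq_deriv D δ P v v
    rw [h4, map_zero, hδP, Cq_comm12 hD a v v, Cq_comm23 hD v a v,
      Cq_comm23 hD P _ v] at e
    linear_combination -e
  · have e := Cq_deriv3 hD δ v
    rw [h5, map_zero] at e
    have h6 : (3 : Ω) ≠ 0 := by norm_num
    exact (mul_eq_zero.1 e.symm).resolve_left h6

private theorem E6_sq (hD : IsSymm23 D) {Ω : Type} [Field Ω] [Algebra k Ω]
    (P v a : Fin (n + 1) → Ω) (x : Ω) :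
    Cq D (x • P + v) (x • P + v) a =
      x ^ 2 * Cq D P P a + 2 * x * Cq D P v a + Cq D v v a := by
  simp only [Cq_add1, Cq_add2, Cq_smul1, Cq_smul2]
  rw [Cq_comm12 hD v P a]
  ring

theorem lemmaB_cone (hD : IsSymm23 D) (hs : Smooth23 D) {Ω : Type} [Field Ω] [Algebra k Ω]
    [IsAlgClosed Ω] (P v : Fin (n + 1) → Ω) (hP : IsGenCone D P)
    (h1 : Bq D P v = 0) (h2 : Cq D P P v = 0) (h3 : Bq D v v = 0) (h4 : Cq D P v v = 0)
    (h5 : Cq D v v v = 0) (hv : ∀ c : Ω, v ≠ c • P) (ρ : Fin 5 → Ω)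
    (hρ : ∀ a, ρ 0 * Bq D P a + ρ 1 * Bq D v a + ρ 2 * Cq D P P a + ρ 3 * Cq D P v a +
      ρ 4 * Cq D v v a = 0) : ρ = 0 := by
  have : CharZero Ω := charZero_of_injective_algebraMap (algebraMap k Ω).injective
  have h20 : (2 : Ω) ≠ 0 := by norm_num
  have hP0 := E6_ne P hP
  have hself := hP.self
  obtain ⟨w₁, w₂, a11, a12, a21, a22⟩ := E6_dual (fun a => Bq D P a) (fun a => Cq D P P a)
    (fun a b => Bq_sub2 D P a b) (fun a b => Cq_sub3 D P P a b)
    (fun c a => Bq_smul2 D c P a) (fun c a => Cq_smul3 D c P P a)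
    (fun r s h => smooth_ext hs P hP0 hself.1 hself.2 r s h)
  let R : Submodule Ω (Fin 5 → Ω) :=
    { carrier := {ρ | ∀ a, ρ 0 * Bq D P a + ρ 1 * Bq D v a + ρ 2 * Cq D P P a +
        ρ 3 * Cq D P v a + ρ 4 * Cq D v v a = 0}
      add_mem' := by
        intro ρ ρ' h h' a
        simp only [Pi.add_apply]
        linear_combination h a + h' a
      zero_mem' := by
        intro a
        simp
      smul_mem' := by
        intro c ρ h a
        simp only [Pi.smul_apply, smul_eq_mul]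
        linear_combination c * h a }
  let f : (Fin 5 → Ω) →ₗ[Ω] (Fin 5 → Ω) :=
    { toFun := fun ρ => ![-(ρ 0 * Bq D v w₁ + 2 * ρ 2 * Cq D P v w₁ + ρ 3 / 2 * Cq D v v w₁),
        ρ 0, -(ρ 0 * Bq D v w₂ + 2 * ρ 2 * Cq D P v w₂ + ρ 3 / 2 * Cq D v v w₂),
        2 * ρ 2, ρ 3 / 2]
      map_add' := by
        intro ρ ρ'
        ext i
        fin_cases i <;> simp <;> ring
      map_smul' := by
        intro c ρ
        ext i
        fin_cases i <;> simp <;> ring }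
  have hf : ∀ ρ ∈ R, f ρ ∈ R := by
    intro ρ hρR
    have key : ∀ a, Bq D P a = 0 → Cq D P P a = 0 →
        ρ 0 * Bq D v a + 2 * ρ 2 * Cq D P v a + ρ 3 / 2 * Cq D v v a = 0 := by
      intro a ha ha'
      obtain ⟨b, b1, b2, b3, b4, b5⟩ := E6_der hD P v hP h1 h2 h3 h4 h5 a ha ha'
      have hb := hρR b
      have b4' : Cq D P v b = -(1 / 2) * Cq D v v a := by
        field_simp
        linear_combination b4
      rw [b1, b2, b3, b4', b5] at hb
      linear_combination -hb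
    intro a
    have ha : Bq D P (a - Bq D P a • w₁ - Cq D P P a • w₂) = 0 := by
      rw [Bq_sub2, Bq_sub2, Bq_smul2, Bq_smul2, a11, a21]
      ring
    have ha' : Cq D P P (a - Bq D P a • w₁ - Cq D P P a • w₂) = 0 := by
      rw [Cq_sub3, Cq_sub3, Cq_smul3, Cq_smul3, a12, a22]
      ring
    have h6 := key _ ha ha'
    simp only [Bq_sub2, Bq_smul2, Cq_sub3, Cq_smul3] at h6
    change -(ρ 0 * Bq D v w₁ + 2 * ρ 2 * Cq D P v w₁ + ρ 3 / 2 * Cq D v v w₁) * Bq D P a +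
      ρ 0 * Bq D v a + -(ρ 0 * Bq D v w₂ + 2 * ρ 2 * Cq D P v w₂ + ρ 3 / 2 * Cq D v v w₂) *
      Cq D P P a + 2 * ρ 2 * Cq D P v a + ρ 3 / 2 * Cq D v v a = 0
    linear_combination h6
  by_contra hne
  have hRne : Nontrivial R := by
    refine ⟨⟨⟨ρ, hρ⟩, 0, fun h => hne ?_⟩⟩
    exact congrArg Subtype.val h
  obtain ⟨x, hx⟩ := Module.End.exists_eigenvalue (f.restrict hf)
  obtain ⟨τ, hτ⟩ := hx.exists_hasEigenvector
  have e0 := hτ.apply_eq_smul
  have hτ0 : (τ : Fin 5 → Ω) ≠ 0 := fun h => hτ.2 (Subtype.ext h)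
  have e1 : f (τ : Fin 5 → Ω) = x • (τ : Fin 5 → Ω) := by
    have := congrArg Subtype.val e0
    exact this
  have c1 : (τ : Fin 5 → Ω) 0 = x * (τ : Fin 5 → Ω) 1 := congrFun e1 1
  have c3 : 2 * (τ : Fin 5 → Ω) 2 = x * (τ : Fin 5 → Ω) 3 := congrFun e1 3
  have c4 : (τ : Fin 5 → Ω) 3 / 2 = x * (τ : Fin 5 → Ω) 4 := congrFun e1 4
  have d3 : (τ : Fin 5 → Ω) 3 = 2 * x * (τ : Fin 5 → Ω) 4 := by
    field_simp at c4
    linear_combination c4
  have d2 : (τ : Fin 5 → Ω) 2 = x ^ 2 * (τ : Fin 5 → Ω) 4 := by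
    have : 2 * (τ : Fin 5 → Ω) 2 = 2 * (x ^ 2 * (τ : Fin 5 → Ω) 4) := by
      rw [c3, d3]
      ring
    exact mul_left_cancel₀ h20 this
  have hy0 : x • P + v ≠ 0 := by
    intro hz
    apply hv (-x)
    rw [neg_smul]
    exact eq_neg_of_add_eq_zero_right hz
  have hy2 : Bq D (x • P + v) (x • P + v) = 0 := by
    simp only [Bq_add1, Bq_add2, Bq_smul1, Bq_smul2, Bq_comm hD v P, h1, h3, hself.1]
    ring
  have hy3 : Cq D (x • P + v) (x • P + v) (x • P + v) = 0 := by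
    rw [E6_sq hD]
    have e2 : Cq D P v P = Cq D P P v := Cq_comm23 hD _ _ _
    have e3 : Cq D v v P = Cq D P v v := by rw [Cq_comm23 hD v v P, Cq_comm12 hD v P v]
    simp only [Cq_add3, Cq_smul3, e2, e3, h2, h4, h5, hself.2]
    ring
  obtain ⟨r1, r4⟩ := smooth_ext hs (x • P + v) hy0 hy2 hy3 ((τ : Fin 5 → Ω) 1)
    ((τ : Fin 5 → Ω) 4) (by
      intro a
      have h6 := τ.2 a
      rw [c1, d2, d3] at h6
      rw [E6_sq hD, Bq_add1, Bq_smul1]
      linear_combination h6)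
  apply hτ0
  funext i
  fin_cases i
  · change (τ : Fin 5 → Ω) 0 = 0
    rw [c1, r1, mul_zero]
  · exact r1
  · change (τ : Fin 5 → Ω) 2 = 0
    rw [d2, r4, mul_zero]
  · change (τ : Fin 5 → Ω) 3 = 0
    rw [d3, r4, mul_zero]
  · exact r4

theorem lemmaB (hD : IsSymm23 D) (hs : Smooth23 D) {Ω : Type} [Field Ω] [Algebra k Ω]
    (P v : Fin (n + 1) → Ω) (hP : IsGenPt D P)
    (h1 : Bq D P v = 0) (h2 : Cq D P P v = 0) (h3 : Bq D v v = 0) (h4 : Cq D P v v = 0)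
    (h5 : Cq D v v v = 0) (hv : ∀ c : Ω, v ≠ c • P) (ρ : Fin 5 → Ω)
    (hρ : ∀ a, ρ 0 * Bq D P a + ρ 1 * Bq D v a + ρ 2 * Cq D P P a + ρ 3 * Cq D P v a +
      ρ 4 * Cq D v v a = 0) : ρ = 0 := by
  obtain ⟨Ω', _, _, _, f, s, hs0, hgen⟩ := exists_cone P hP
  set Q : Fin (n + 1) → Ω' := fun i => f (P i) with hQ
  set u : Fin (n + 1) → Ω' := fun i => f (v i) with hu
  have hP' : (fun i => s * f (P i)) = s • Q := by
    funext i
    rfl
  rw [hP'] at hgen
  have m1 : Bq D Q u = 0 := by rw [hQ, hu, ← Bq_map D f, h1, map_zero]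
  have m2 : Cq D Q Q u = 0 := by rw [hQ, hu, ← Cq_map D f, h2, map_zero]
  have m3 : Bq D u u = 0 := by rw [hu, ← Bq_map D f, h3, map_zero]
  have m4 : Cq D Q u u = 0 := by rw [hQ, hu, ← Cq_map D f, h4, map_zero]
  have m5 : Cq D u u u = 0 := by rw [hu, ← Cq_map D f, h5, map_zero]
  have g1 : ∀ i, f (ρ 0) * Bq D Q (Pi.single i 1) + f (ρ 1) * Bq D u (Pi.single i 1) +
      f (ρ 2) * Cq D Q Q (Pi.single i 1) + f (ρ 3) * Cq D Q u (Pi.single i 1) +
      f (ρ 4) * Cq D u u (Pi.single i 1) = 0 := by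
    intro i
    have h5 := congrArg f (hρ (Pi.single i 1))
    have h6 : (fun j => f ((Pi.single i (1 : Ω) : Fin (n + 1) → Ω) j)) =
        (Pi.single i (1 : Ω') : Fin (n + 1) → Ω') := by
      funext j
      by_cases h : j = i
      · subst h
        simp
      · rw [Pi.single_eq_of_ne h, Pi.single_eq_of_ne h, map_zero]
    simp only [map_add, map_mul, Bq_map, Cq_map, map_zero, h6] at h5
    exact h5
  have g2 : ∀ a, f (ρ 0) * Bq D Q a + f (ρ 1) * Bq D u a + f (ρ 2) * Cq D Q Q a +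
      f (ρ 3) * Cq D Q u a + f (ρ 4) * Cq D u u a = 0 := by
    intro a
    rw [Bq_eq_sum D Q a, Bq_eq_sum D u a, Cq_eq_sum D Q Q a, Cq_eq_sum D Q u a,
      Cq_eq_sum D u u a, Finset.mul_sum, Finset.mul_sum, Finset.mul_sum, Finset.mul_sum,
      Finset.mul_sum, ← Finset.sum_add_distrib, ← Finset.sum_add_distrib,
      ← Finset.sum_add_distrib, ← Finset.sum_add_distrib]
    refine Finset.sum_eq_zero fun i _ => ?_
    linear_combination a i * g1 i
  have hv' : ∀ c : Ω', u ≠ c • (s • Q) := by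
    intro c hc
    have h0 := congrFun hc 0
    simp only [hu, hQ, Pi.smul_apply, smul_eq_mul, hP.1, map_one, mul_one] at h0
    apply hv (v 0)
    funext i
    apply f.injective
    have h7 := congrFun hc i
    simp only [hu, hQ, Pi.smul_apply, smul_eq_mul] at h7
    change f (v i) = f (v 0 * P i)
    rw [map_mul, h7, h0]
    ring
  have hcone := lemmaB_cone hD hs (s • Q) u hgen
    (by simp only [Bq_smul1, m1, mul_zero])
    (by simp only [Cq_smul1, Cq_smul2, m2, mul_zero]) m3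
    (by simp only [Cq_smul1, m4, mul_zero]) m5 hv'
    ![f (ρ 0) / s, f (ρ 1), f (ρ 2) / s ^ 2, f (ρ 3) / s, f (ρ 4)] (by
      intro a
      have h8 := g2 a
      simp only [Bq_smul1, Cq_smul1, Cq_smul2, Matrix.cons_val_zero, Matrix.cons_val_one,
        Matrix.cons_val]
      field_simp
      linear_combination h8)
  have k0 := congrFun hcone 0
  have k1 := congrFun hcone 1
  have k2 := congrFun hcone 2
  have k3 := congrFun hcone 3
  have k4 := congrFun hcone 4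
  change f (ρ 0) / s = 0 at k0
  change f (ρ 1) = 0 at k1
  change f (ρ 2) / s ^ 2 = 0 at k2
  change f (ρ 3) / s = 0 at k3
  change f (ρ 4) = 0 at k4
  have inj : ∀ y : Ω, f y = 0 → y = 0 := fun y hy => f.injective (hy.trans (map_zero f).symm)
  have hs2 : s ^ 2 ≠ 0 := pow_ne_zero _ hs0
  funext i
  fin_cases i
  · exact inj _ (by simpa [hs0] using k0)
  · exact inj _ k1
  · exact inj _ (by simpa [hs0, hs2] using k2)
  · exact inj _ (by simpa [hs0] using k3)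
  · exact inj _ k4

end Pool.Agent.LibHP.CI
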