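import Pool.Agent.LibHPC.E6
import Pool.Agent.LibHPF.Q8

set_option autoImplicit false
open MvPolynomial

namespace Pool.Agent.LibHP.CI

variable {k : Type} [Field k] [CharZero k] {n : ℕ} {D : Dat k n}

/-!
# Row E8: generic linear sections of the cone of lines through the generic point

PLAN. Same proof as `lines_section` in LibHPF/Q8.lean (proved). Suppose `x` is not a multiple of `P'`. The space
`E = {a : b(P', a) = b(x, a) = g(P', P', a) = g(P', x, a) = g(x, x, a) = 0}` has dimension `n + 1 - 5 = n - 4` by `lemmaB`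
(`hP.map`). For every `t : Fin (n - 5) → Ω1` there is a derivation `δ` of `Ω1` over `Ω0` (so `δ (P' j) = 0`) with
`∑ j, h (i, j) * (δ (x j) - δ (x 0) * P' j) = t i` (see Q8.lean, or `exists_deriv_section` in T2a.lean);
`a = δx` is in `E`: `δ` of `h1 .. h5` gives `b(P', a) = 0`, `2 b(x, a) = 0`, `g(P', P', a) = 0`, `2 g(P', x, a) = 0`,
`3 g(x, x, a) = 0`. So `E → Ω1 ^ (n - 5)` is onto with the two independent vectors `P'`, `x` in the kernel
(`P' 0 = 1`; both in `E`): `n - 4 ≥ (n - 5) + 2`, contradiction.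
-/

omit [CharZero k] in
private theorem E8_const (hD : IsSymm23 D) {R : Type} [CommRing R] [Algebra k R]
    (δ : Derivation k R R) (P x : Fin (n + 1) → R) (hP : ∀ i, δ (P i) = 0) :
    δ (Bq D P x) = Bq D P (fun i => δ (x i)) ∧
    δ (Cq D P P x) = Cq D P P (fun i => δ (x i)) ∧
    δ (Cq D P x x) = 2 * Cq D P x (fun i => δ (x i)) := by
  have h0 : (fun i => δ (P i)) = 0 := by
    funext i
    exact hP i
  refine ⟨?_, ?_, ?_⟩
  · rw [Bq_deriv, h0, Bq_zero1, zero_add]
  · rw [Cq_deriv, h0, Cq_zero1, Cq_zero2, zero_add, zero_add]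
  · rw [Cq_deriv, h0, Cq_zero1, Cq_comm23 hD P (fun i => δ (x i)) x]
    ring

theorem lines_section (hD : IsSymm23 D) (hs : Smooth23 D) (hn : 5 ≤ n) {Ω0 Ω1 : Type} [Field Ω0]
    [Algebra k Ω0] [Field Ω1] [Algebra k Ω1] [Algebra Ω0 Ω1] [IsScalarTower k Ω0 Ω1]
    (P : Fin (n + 1) → Ω0) (hP : IsGenPt D P) (h : Fin (n - 5) × Fin (n + 1) → Ω1)
    (hh : AlgebraicIndependent Ω0 h) (P' x : Fin (n + 1) → Ω1)
    (hP' : ∀ i, P' i = algebraMap Ω0 Ω1 (P i))
    (h1 : Bq D P' x = 0) (h2 : Bq D x x = 0) (h3 : Cq D P' P' x = 0) (h4 : Cq D P' x x = 0)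
    (h5 : Cq D x x x = 0) (hx : ∀ i, ∑ j, h (i, j) * (x j - x 0 * P' j) = 0) :
    ∃ c : Ω1, x = c • P' := by
  classical
  by_contra hcon
  push Not at hcon
  have : CharZero Ω0 := charZero_of_injective_algebraMap (algebraMap k Ω0).injective
  have : CharZero Ω1 := charZero_of_injective_algebraMap (algebraMap k Ω1).injective
  have hG : IsGenPt D P' := by
    have h5 := hP.map (IsScalarTower.toAlgHom k Ω0 Ω1)
    have h6 : P' = fun i => (IsScalarTower.toAlgHom k Ω0 Ω1) (P i) := by
      funext i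
      exact hP' i
    rw [h6]
    exact h5
  have hP0 : P' 0 = 1 := hG.1
  obtain ⟨h0, h0'⟩ : Bq D P' P' = 0 ∧ Cq D P' P' P' = 0 := hG.self
  -- the five functionals
  obtain ⟨T, hT⟩ : ∃ T : (Fin (n + 1) → Ω1) →ₗ[Ω1] (Fin 5 → Ω1), T = LinearMap.pi
    ![BqL D P', BqL D x, CqL D P' P', CqL D P' x, CqL D x x] := ⟨_, rfl⟩
  have hT0 : ∀ b, T b 0 = Bq D P' b := fun b => by rw [hT]; rfl
  have hT1 : ∀ b, T b 1 = Bq D x b := fun b => by rw [hT]; rfl
  have hT2 : ∀ b, T b 2 = Cq D P' P' b := fun b => by rw [hT]; rfl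
  have hT3 : ∀ b, T b 3 = Cq D P' x b := fun b => by rw [hT]; rfl
  have hT4 : ∀ b, T b 4 = Cq D x x b := fun b => by rw [hT]; rfl
  have hTs : LinearMap.range T = ⊤ := by
    by_contra hne
    obtain ⟨f, hf, hle⟩ := Submodule.exists_le_ker_of_lt_top _ (lt_top_iff_ne_top.2 hne)
    obtain ⟨ρ, hρ⟩ : ∃ ρ : Fin 5 → Ω1, ρ = fun i => f (Pi.single i 1) := ⟨_, rfl⟩
    have hfy : ∀ y : Fin 5 → Ω1, f y = ∑ i, y i * ρ i := by
      intro y
      have h7 := f.pi_apply_eq_sum_univ y
      rw [h7]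
      refine Finset.sum_congr rfl fun i _ => ?_
      rw [smul_eq_mul, hρ]
      congr 2
      funext j
      rw [Pi.single_apply]
      simp only [eq_comm]
    have hρ0 : ρ = 0 := by
      refine lemmaB hD hs P' x hG h1 h3 h2 h4 h5 hcon ρ fun a => ?_
      have h8 : f (T a) = 0 := hle ⟨a, rfl⟩
      rw [hfy, Fin.sum_univ_five, hT0, hT1, hT2, hT3, hT4] at h8
      rw [← h8]
      ring
    apply hf
    ext y
    rw [LinearMap.comp_apply, LinearMap.zero_comp, LinearMap.zero_apply, hfy, hρ0]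
    simp
  -- the linear section
  obtain ⟨Λ, hΛ⟩ : ∃ Λ : (Fin (n + 1) → Ω1) →ₗ[Ω1] (Fin (n - 5) → Ω1),
      ∀ b i, Λ b i = ∑ j, h (i, j) * (b j - b 0 * P' j) := by
    refine ⟨⟨⟨fun b i => ∑ j, h (i, j) * (b j - b 0 * P' j), ?_⟩, ?_⟩, fun b i => rfl⟩
    · intro a b
      funext i
      show ∑ j, h (i, j) * ((a j + b j) - (a 0 + b 0) * P' j) =
        ∑ j, h (i, j) * (a j - a 0 * P' j) + ∑ j, h (i, j) * (b j - b 0 * P' j)
      rw [← Finset.sum_add_distrib]
      refine Finset.sum_congr rfl fun j _ => ?_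
      ring
    · intro r b
      funext i
      simp only [RingHom.id_apply, Pi.smul_apply, smul_eq_mul, Finset.mul_sum]
      refine Finset.sum_congr rfl fun j _ => ?_
      ring
  have hΛs : ∀ t : Fin (n - 5) → Ω1, ∃ b, T b = 0 ∧ Λ b = t := by
    intro t
    obtain ⟨j1, hj1⟩ : ∃ j1, x j1 - x 0 * P' j1 ≠ 0 := by
      by_contra hall
      push Not at hall
      apply hcon (x 0)
      funext j
      rw [Pi.smul_apply, smul_eq_mul]
      exact sub_eq_zero.1 (hall j)
    obtain ⟨c, hc⟩ : ∃ c : Fin (n - 5) × Fin (n + 1) → Ω1,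
      c = fun q => if q.2 = j1 then -t q.1 / (x j1 - x 0 * P' j1) else 0 := ⟨_, rfl⟩
    obtain ⟨δ, hδ⟩ := exists_derivation_of_rel Ω0 Ω1 (Fin (n - 5) × Fin (n + 1)) h c (by
      intro G hG0
      have h9 : G = 0 := (injective_iff_map_eq_zero _).1 hh G hG0
      rw [h9]
      simp)
    obtain ⟨E, hE⟩ : ∃ E : Derivation k Ω1 Ω1, ∀ y, E y = δ y := ⟨δ.restrictScalars k, fun y => rfl⟩
    have hEP : ∀ i, E (P' i) = 0 := by
      intro i
      rw [hE, hP', δ.map_algebraMap]
    obtain ⟨e1, e3, e4⟩ := E8_const hD E P' x hEP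
    have e2 := Bq_deriv2 hD E x
    have e5 := Cq_deriv3 hD E x
    rw [h1, map_zero] at e1
    rw [h2, map_zero] at e2
    rw [h3, map_zero] at e3
    rw [h4, map_zero] at e4
    rw [h5, map_zero] at e5
    refine ⟨fun i => E (x i), ?_, ?_⟩
    · funext i
      fin_cases i
      · exact (hT0 _).trans e1.symm
      · refine (hT1 _).trans ?_
        rcases mul_eq_zero.1 e2.symm with h | h
        · exact absurd h two_ne_zero
        · exact h
      · exact (hT2 _).trans e3.symm
      · refine (hT3 _).trans ?_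
        rcases mul_eq_zero.1 e4.symm with h | h
        · exact absurd h two_ne_zero
        · exact h
      · refine (hT4 _).trans ?_
        rcases mul_eq_zero.1 e5.symm with h | h
        · exact absurd h three_ne_zero
        · exact h
    · funext i
      rw [hΛ]
      have h10 := congrArg E (hx i)
      rw [map_zero, map_sum] at h10
      have h11 : ∀ j, E (h (i, j) * (x j - x 0 * P' j)) =
          c (i, j) * (x j - x 0 * P' j) + h (i, j) * (E (x j) - E (x 0) * P' j) := by
        intro j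
        rw [Derivation.leibniz, map_sub, Derivation.leibniz, hEP, hE (h (i, j)), hδ]
        simp only [smul_eq_mul]
        ring
      rw [Finset.sum_congr rfl fun j _ => h11 j, Finset.sum_add_distrib] at h10
      have h12 : ∑ j, c (i, j) * (x j - x 0 * P' j) = -t i := by
        rw [Finset.sum_eq_single j1]
        · rw [hc]
          dsimp only
          rw [if_pos rfl, div_mul_cancel₀ _ hj1]
        · intro j _ hj
          rw [hc]
          dsimp only
          rw [if_neg hj, zero_mul]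
        · intro hj
          exact absurd (Finset.mem_univ j1) hj
      rw [h12] at h10
      linear_combination h10
  -- dimension count
  obtain ⟨M, hM⟩ : ∃ M : (Fin (n + 1) → Ω1) →ₗ[Ω1] (Fin 5 → Ω1) × (Fin (n - 5) → Ω1), M = T.prod Λ :=
    ⟨_, rfl⟩
  have hMs : LinearMap.range M = ⊤ := by
    rw [LinearMap.range_eq_top]
    rintro ⟨u, t⟩
    obtain ⟨b0, hb0⟩ := LinearMap.range_eq_top.1 hTs u
    obtain ⟨b1, hb1, hb1'⟩ := hΛs (t - Λ b0)
    refine ⟨b0 + b1, ?_⟩
    rw [hM, LinearMap.prod_apply]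
    show (T (b0 + b1), Λ (b0 + b1)) = (u, t)
    rw [map_add, map_add, hb0, hb1, hb1', add_zero, add_sub_cancel]
  have hdim := LinearMap.finrank_range_add_finrank_ker M
  rw [hMs, finrank_top, Module.finrank_prod, Module.finrank_fin_fun, Module.finrank_fin_fun,
    Module.finrank_fin_fun] at hdim
  have hker : Module.finrank Ω1 (LinearMap.ker M) = 1 := by omega
  have hP'M : P' ∈ LinearMap.ker M := by
    rw [LinearMap.mem_ker, hM]
    show (T P', Λ P') = (0, 0)
    refine Prod.ext ?_ ?_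
    · funext i
      fin_cases i
      · exact (hT0 _).trans h0
      · refine (hT1 _).trans ?_
        rw [Bq_comm hD]
        exact h1
      · exact (hT2 _).trans h0'
      · refine (hT3 _).trans ?_
        rw [Cq_comm23 hD]
        exact h3
      · refine (hT4 _).trans ?_
        rw [Cq_comm23 hD, Cq_comm12 hD]
        exact h4
    · funext i
      refine (hΛ _ _).trans ?_
      refine Finset.sum_eq_zero fun j _ => ?_
      rw [hP0, one_mul, sub_self, mul_zero]
  have hxM : x ∈ LinearMap.ker M := by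
    rw [LinearMap.mem_ker, hM]
    show (T x, Λ x) = (0, 0)
    refine Prod.ext ?_ ?_
    · funext i
      fin_cases i
      · exact (hT0 _).trans h1
      · exact (hT1 _).trans h2
      · exact (hT2 _).trans h3
      · exact (hT3 _).trans h4
      · exact (hT4 _).trans h5
    · funext i
      exact (hΛ _ _).trans (hx i)
  have hP'0 : (⟨P', hP'M⟩ : LinearMap.ker M) ≠ 0 := by
    intro h13
    have h14 : P' = 0 := congrArg Subtype.val h13
    rw [h14] at hP0
    exact zero_ne_one hP0
  obtain ⟨c, hc⟩ := (finrank_eq_one_iff_of_nonzero' _ hP'0).1 hker ⟨x, hxM⟩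
  exact hcon c (congrArg Subtype.val hc).symm

end Pool.Agent.LibHP.CI
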