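import Pool.Agent.LibHPC.C13

set_option autoImplicit false
open AlgebraicGeometry CategoryTheory

namespace Pool.Agent.LibHPC.FinalC

open Pool.Agent.LibHP in
/-- Let `k` be a number field, `Q` a quadratic form and `C` a cubic form over `k` in `n + 1 ≥ 6`
variables defining a smooth complete intersection, and `X` a smooth separated quasi-compact integral
scheme over `k`, birational to it, whose base change to the algebraic closure has no nontrivial
connected finite etale cover. Suppose that
(a) the points of `Q = C = 0` over `k` through which there is a line over `k` contained in the quadric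
`Q = 0` and tangent there to the cubic `C = 0` are dense, or
(b) `n ≥ 7`, the rational points of `X` are dense and every quadratic form in five variables over `k` is
isotropic (this is so for all totally imaginary `k`, by the theorem of Hasse and Minkowski).
Then `X` has the Hilbert property. -/
theorem result :
    ∀ (k : Type) [Field k] [NumberField k] (X : Scheme) [AlgebraicGeometry.IsIntegral X]
      (f : X ⟶ Spec (CommRingCat.of k)),
      AlgebraicGeometry.Smooth f →
      AlgebraicGeometry.IsSeparated f → QuasiCompact f →
      (∀ (Y : Scheme)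
          (g : Y ⟶ Limits.pullback f
            (Spec.map (CommRingCat.ofHom (algebraMap k (AlgebraicClosure k))))),
          AlgebraicGeometry.IsFinite g → AlgebraicGeometry.Etale g → ConnectedSpace Y →
            IsIso g) →
      ∀ (n : ℕ) (Q C : MvPolynomial (Fin (n + 1)) k), 5 ≤ n →
      Q.IsHomogeneous 2 → C.IsHomogeneous 3 → IsSmoothCI Q C → IsCIModelOf f Q C →
      (DenseContact23 Q C ∨
        (7 ≤ n ∧ (∀ q : MvPolynomial (Fin 5) k, q.IsHomogeneous 2 →
            ∃ v : Fin 5 → k, v ≠ 0 ∧ MvPolynomial.eval v q = 0) ∧
          Dense {x : X | ∃ s : Spec (CommRingCat.of k) ⟶ X, s ≫ f = 𝟙 _ ∧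
            x ∈ Set.range s.base})) →
      ∀ (m : ℕ) (Y : Fin m → Scheme) (π : ∀ i, Y i ⟶ X),
        (∀ i, AlgebraicGeometry.IsIntegral (Y i)) →
        (∀ i, AlgebraicGeometry.IsFinite (π i)) →
        (∀ i, AlgebraicGeometry.Surjective (π i)) →
        (∀ i, ¬ IsIso (π i)) →
        Dense {x : X | ∃ s : Spec (CommRingCat.of k) ⟶ X, s ≫ f = 𝟙 _ ∧
          x ∈ Set.range s.base ∧
          ∀ i (t : Spec (CommRingCat.of k) ⟶ Y i), t ≫ π i ≠ s} := by
  intro k _ _ X _ f h1 h2 h3 h4 n Q C hn hQ hC hsm hX hd
  exact main_ci_or k f h4 hn Q C hQ hC hsm hX hd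

end Pool.Agent.LibHPC.FinalC
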