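import Pool.Agent.LibHPC.DefsH
import Pool.Agent.LibHPF.G3b

/-! H1. Charts with etale neighbourhoods: fraction field, normality. -/

set_option autoImplicit false

namespace Pool.Agent.LibHP

theorem chart_isFractionRing' {k K : Type} [Field k] [Field K] [Algebra k K] {n : ℕ}
    (y : Fin (n + 1) → K) (h0 : y 0 = 1)
    (hgen : IntermediateField.adjoin k (Set.range y) = ⊤) (i : Fin (n + 1)) (hi : y i ≠ 0) :
    IsFractionRing (chartRing k y i) K := by
  have htop : IntermediateField.adjoin k (Set.range fun j => y j / y i) = ⊤ := by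
    rw [eq_top_iff, ← hgen]
    apply IntermediateField.adjoin_le_iff.2
    rintro _ ⟨j, rfl⟩
    have h0' : y 0 / y i ∈ IntermediateField.adjoin k (Set.range fun j => y j / y i) :=
      IntermediateField.subset_adjoin _ _ ⟨0, rfl⟩
    have hj : y j / y i ∈ IntermediateField.adjoin k (Set.range fun j => y j / y i) :=
      IntermediateField.subset_adjoin _ _ ⟨j, rfl⟩
    have h1 := div_mem hj h0'
    rw [h0] at h1
    have h2 : y j / y i / (1 / y i) = y j := by field_simp
    rwa [h2] at h1
  apply IsFractionRing.of_field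
  intro z
  have hz : z ∈ IntermediateField.adjoin k (Set.range fun j => y j / y i) := by
    rw [htop]; trivial
  rw [IntermediateField.mem_adjoin_iff_div] at hz
  obtain ⟨r, hr, s, hs, rfl⟩ := hz
  exact ⟨⟨r, hr⟩, ⟨s, hs⟩, rfl⟩

section
variable {k K : Type} [Field k] [Field K] [Algebra k K] {n : ℕ}

theorem chartRing_le_chartRingH (y : Fin (n + 1) → K) (i : Fin (n + 1))
    (H : MvPolynomial (Fin (n + 1)) k) : chartRing k y i ≤ chartRingH y i H :=
  Algebra.adjoin_mono Set.subset_union_left

theorem H1_mem (y : Fin (n + 1) → K) (i : Fin (n + 1)) (H : MvPolynomial (Fin (n + 1)) k) :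
    MvPolynomial.aeval (fun l => y l / y i) H ∈ chartRing k y i := by
  rw [chartRing, Algebra.adjoin_range_eq_range_aeval]
  exact ⟨_, rfl⟩

theorem H1_inv_mem (y : Fin (n + 1) → K) (i : Fin (n + 1)) (H : MvPolynomial (Fin (n + 1)) k) :
    (MvPolynomial.aeval (fun l => y l / y i) H)⁻¹ ∈ chartRingH y i H :=
  Algebra.subset_adjoin (Or.inr rfl)

theorem H1_denom (y : Fin (n + 1) → K) (i : Fin (n + 1)) (H : MvPolynomial (Fin (n + 1)) k)
    (h0 : MvPolynomial.aeval (fun l => y l / y i) H ≠ 0) (x : K) (hx : x ∈ chartRingH y i H) :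
    ∃ N : ℕ, (MvPolynomial.aeval (fun l => y l / y i) H) ^ N * x ∈ chartRing k y i := by
  have hh := H1_mem y i H
  revert hx
  rw [chartRingH]
  generalize MvPolynomial.aeval (fun l => y l / y i) H = h at *
  intro hx
  induction hx using Algebra.adjoin_induction with
  | mem x hx =>
    rcases hx with ⟨l, rfl⟩ | hx
    · refine ⟨0, ?_⟩
      rw [pow_zero, one_mul]
      exact Algebra.subset_adjoin ⟨l, rfl⟩
    · rw [Set.mem_singleton_iff] at hx
      refine ⟨1, ?_⟩
      rw [hx, pow_one, mul_inv_cancel₀ h0]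
      exact one_mem _
  | algebraMap r =>
    refine ⟨0, ?_⟩
    rw [pow_zero, one_mul]
    exact Subalgebra.algebraMap_mem _ r
  | add x z _ _ hx hz =>
    obtain ⟨N, hN⟩ := hx
    obtain ⟨M, hM⟩ := hz
    refine ⟨N + M, ?_⟩
    have e : h ^ (N + M) * (x + z) = h ^ M * (h ^ N * x) + h ^ N * (h ^ M * z) := by ring
    rw [e]
    exact add_mem (mul_mem (pow_mem hh _) hN) (mul_mem (pow_mem hh _) hM)
  | mul x z _ _ hx hz =>
    obtain ⟨N, hN⟩ := hx
    obtain ⟨M, hM⟩ := hz
    refine ⟨N + M, ?_⟩
    have e : h ^ (N + M) * (x * z) = (h ^ N * x) * (h ^ M * z) := by ring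
    rw [e]
    exact mul_mem hN hM

theorem H1_ne (y : Fin (n + 1) → K) (i : Fin (n + 1)) (H : MvPolynomial (Fin (n + 1)) k)
    (P : Ideal (chartRing k y i)) (hH : MvPolynomial.aeval (chartCoord k y i) H ∉ P) :
    MvPolynomial.aeval (fun l => y l / y i) H ≠ 0 := by
  rw [← g3b_coe]
  intro h
  apply hH
  have : MvPolynomial.aeval (chartCoord k y i) H = 0 := Subtype.ext h
  rw [this]
  exact zero_mem _

theorem H1_isIntegrallyClosed [CharZero k] (y : Fin (n + 1) → K) (i : Fin (n + 1))
    (H : MvPolynomial (Fin (n + 1)) k)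
    (h : ∃ (N : ℕ) (ψ : MvPolynomial (Fin N) k →+* chartRingH y i H), ψ.Etale) :
    IsIntegrallyClosed (chartRingH y i H) := by
  obtain ⟨N, ψ, hψ⟩ := h
  letI := ψ.toAlgebra
  haveI : Algebra.Etale (MvPolynomial (Fin N) k) (chartRingH y i H) := hψ
  exact isIntegrallyClosed_of_etale k N (chartRingH y i H)

theorem H1_isFractionRing (y : Fin (n + 1) → K) (h0 : y 0 = 1)
    (hgen : IntermediateField.adjoin k (Set.range y) = ⊤) (i : Fin (n + 1)) (hi : y i ≠ 0)
    (H : MvPolynomial (Fin (n + 1)) k) : IsFractionRing (chartRingH y i H) K := by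
  have h1 := chart_isFractionRing' y h0 hgen i hi
  refine IsFractionRing.of_field _ _ fun z => ?_
  obtain ⟨a, b, hb, rfl⟩ := IsFractionRing.div_surjective (A := chartRing k y i) z
  refine ⟨⟨a, chartRing_le_chartRingH y i H a.2⟩, ⟨b, chartRing_le_chartRingH y i H b.2⟩, ?_⟩
  rfl

theorem chartRing_isIntegrallyClosed' [CharZero k] (y : Fin (n + 1) → K) (h0 : y 0 = 1)
    (hgen : IntermediateField.adjoin k (Set.range y) = ⊤) (hE : EtaleCharts k y)
    (i : Fin (n + 1)) (hi : y i ≠ 0) :
    IsIntegrallyClosed (chartRing k y i) := by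
  haveI hfr : IsFractionRing (chartRing k y i) K := chart_isFractionRing' y h0 hgen i hi
  rw [isIntegrallyClosed_iff K]
  intro x hx
  let I : Ideal (chartRing k y i) :=
    { carrier := {a | (a : K) * x ∈ chartRing k y i}
      add_mem' := by
        intro a b ha hb
        simp only [Set.mem_setOf_eq, Subalgebra.coe_add, add_mul] at ha hb ⊢
        exact add_mem ha hb
      zero_mem' := by
        simp only [Set.mem_setOf_eq, Subalgebra.coe_zero, zero_mul]
        exact zero_mem _
      smul_mem' := by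
        intro c a ha
        simp only [Set.mem_setOf_eq, smul_eq_mul, Subalgebra.coe_mul, mul_assoc] at ha ⊢
        exact mul_mem c.2 ha }
  have hI : I = ⊤ := by
    by_contra hne
    obtain ⟨P, hP, hIP⟩ := Ideal.exists_le_maximal I hne
    obtain ⟨H, hj, hψ⟩ := hE i hi P hP.isPrime
    have h0' := H1_ne y i H P hj
    haveI := H1_isIntegrallyClosed y i H hψ
    have hle : chartRing k y i ≤ chartRingH y i H := chartRing_le_chartRingH y i H
    haveI : IsFractionRing (chartRingH y i H) K := H1_isFractionRing y h0 hgen i hi H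
    have hx2 : IsIntegral (chartRingH y i H) x := by
      obtain ⟨p, hp, hpx⟩ := hx
      refine ⟨p.map (Subalgebra.inclusion hle).toRingHom, hp.map _, ?_⟩
      rw [Polynomial.eval₂_map]
      exact hpx
    obtain ⟨b, hb⟩ := (isIntegrallyClosed_iff K).mp inferInstance hx2
    obtain ⟨N, hN⟩ := H1_denom y i H h0' x (by rw [← hb]; exact b.2)
    apply hj
    apply hP.isPrime.mem_of_pow_mem N
    apply hIP
    show ((_ : chartRing k y i) : K) * x ∈ chartRing k y i
    rw [Subalgebra.coe_pow, g3b_coe]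
    exact hN
  have h1 : (1 : chartRing k y i) ∈ I := by rw [hI]; trivial
  have h2 : ((1 : chartRing k y i) : K) * x ∈ chartRing k y i := h1
  rw [Subalgebra.coe_one, one_mul] at h2
  exact ⟨⟨x, h2⟩, rfl⟩

end

end Pool.Agent.LibHP
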