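import Pool.Agent.LibHPC.H1
import Pool.Agent.LibHP.S2

/-! H2. The localizations of the chart rings at height one primes are discrete valuation rings. -/

set_option autoImplicit false

namespace Pool.Agent.LibHP

theorem chartRing_dvr' {k K : Type} [Field k] [CharZero k] [Field K] [Algebra k K]
    {n : ℕ} (y : Fin (n + 1) → K) (h0 : y 0 = 1)
    (hgen : IntermediateField.adjoin k (Set.range y) = ⊤) (hE : EtaleCharts k y)
    (i : Fin (n + 1)) (hi : y i ≠ 0)
    (p : Ideal (chartRing k y i)) [hp : p.IsPrime] (hp1 : p.height = 1) :
    IsDiscreteValuationRing (Localization.AtPrime p) := by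
  haveI := chartRing_isNoetherianRing k y i
  haveI := chartRing_isIntegrallyClosed' y h0 hgen hE i hi
  have hle : p.primeCompl ≤ nonZeroDivisors (chartRing k y i) := p.primeCompl_le_nonZeroDivisors
  haveI : IsDomain (Localization.AtPrime p) := IsLocalization.isDomain_localization hle
  haveI : IsNoetherianRing (Localization.AtPrime p) :=
    IsLocalization.isNoetherianRing p.primeCompl _ inferInstance
  haveI : IsIntegrallyClosed (Localization.AtPrime p) :=
    isIntegrallyClosed_of_isLocalization (R := chartRing k y i) _ p.primeCompl hle
  refine isDiscreteValuationRing_of_dim_one _ ?_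
  rw [IsLocalization.AtPrime.ringKrullDim_eq_height p (Localization.AtPrime p), hp1]
  rfl

end Pool.Agent.LibHP
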