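import Pool.Agent.LibHPC.H1

/-! H4. If `L` is unramified at all height one primes of `A = chartRing k y i` then the integral closure of
`B = A[1/h]` in `L` is finite etale over `B`. -/

set_option autoImplicit false

namespace Pool.Agent.LibHP

theorem finEt_chart' {k K : Type} [Field k] [CharZero k] [Field K] [Algebra k K] {n : ℕ}
    (y : Fin (n + 1) → K) (h0 : y 0 = 1)
    (hgen : IntermediateField.adjoin k (Set.range y) = ⊤) (i : Fin (n + 1)) (hi : y i ≠ 0)
    (H : MvPolynomial (Fin (n + 1)) k)
    (hh' : MvPolynomial.aeval (fun l => y l / y i) H ≠ 0)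
    (hE : ∃ (N : ℕ) (ψ : MvPolynomial (Fin N) k →+* chartRingH y i H), ψ.Etale)
    (L : Type) [Field L] [Algebra K L] [FiniteDimensional K L]
    (hu : ∀ P : Ideal (chartRing k y i), P.IsPrime → P.height = 1 →
      UnramAt (chartRing k y i) L P) :
    Module.Finite (chartRingH y i H) (integralClosure (chartRingH y i H) L) ∧
      Algebra.Etale (chartRingH y i H) (integralClosure (chartRingH y i H) L) := by
  classical
  obtain ⟨N, ψ, hψ⟩ := hE
  let : Algebra (MvPolynomial (Fin N) k) (chartRingH y i H) := ψ.toAlgebra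
  have : Algebra.Etale (MvPolynomial (Fin N) k) (chartRingH y i H) := hψ
  have hle := chartRing_le_chartRingH y i H
  let : Algebra (chartRing k y i) (chartRingH y i H) :=
    (Subalgebra.inclusion hle).toRingHom.toAlgebra
  have hmapK : ∀ x : chartRing k y i,
      ((algebraMap (chartRing k y i) (chartRingH y i H) x : chartRingH y i H) : K) = x :=
    fun _ => rfl
  have : IsScalarTower (chartRing k y i) (chartRingH y i H) L := by
    refine IsScalarTower.of_algebraMap_eq fun x => ?_
    rfl
  have hAf : IsFractionRing (chartRing k y i) K := chart_isFractionRing' y h0 hgen i hi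
  have hBf : IsFractionRing (chartRingH y i H) K := H1_isFractionRing y h0 hgen i hi H
  set h : K := MvPolynomial.aeval (fun l => y l / y i) H with hdef
  let hA : chartRing k y i := ⟨h, H1_mem y i H⟩
  let hB : chartRingH y i H := algebraMap _ _ hA
  have hBu : hB * ⟨h⁻¹, H1_inv_mem y i H⟩ = 1 := by
    apply Subtype.ext
    exact mul_inv_cancel₀ hh'
  have hloc : IsLocalization.Away hA (chartRingH y i H) := by
    refine IsLocalization.Away.mk hA ?_ ?_ ?_
    · exact IsUnit.of_mul_eq_one _ hBu
    · intro s
      obtain ⟨M, hM⟩ := H1_denom y i H hh' s s.2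
      refine ⟨M, ⟨_, hM⟩, ?_⟩
      apply Subtype.ext
      change (s : K) * h ^ M = h ^ M * s
      ring
    · intro a b hab
      refine ⟨0, ?_⟩
      have h1 : (a : K) = b := congrArg (fun x : chartRingH y i H => (x : K)) hab
      rw [pow_zero, one_mul, one_mul]
      exact Subtype.ext h1
  refine etale_of_codim_one k N (chartRingH y i H) K L ?_
  intro P hP hht D hD b hb
  have hBP : hB ∉ P := by
    intro h
    apply hP.ne_top
    rw [Ideal.eq_top_iff_one, ← hBu]
    exact P.mul_mem_right _ h
  have hP0 : (P.under (chartRing k y i)).IsPrime := inferInstance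
  have hht0 : (P.under (chartRing k y i)).height = 1 := by
    rw [IsLocalization.height_under (Submonoid.powers hA)]
    exact hht
  have hpow : ∀ M : ℕ, hA ^ M ∉ P.under (chartRing k y i) := by
    intro M h
    have h1 : algebraMap _ (chartRingH y i H) (hA ^ M) ∈ P := h
    rw [map_pow] at h1
    exact hBP (hP.mem_of_pow_mem _ h1)
  obtain ⟨⟨_, M, rfl⟩, hM⟩ := IsIntegral.exists_multiple_integral_of_isLocalization
    (Submonoid.powers hA) b hb
  have hun := hu _ hP0 hht0 D (by
    intro x
    obtain ⟨c, hc⟩ := hD (algebraMap _ _ x)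
    obtain ⟨M', hM'⟩ := H1_denom y i H hh' c c.2
    refine ⟨⟨_, hM'⟩, hA ^ M', hpow M', ?_⟩
    have e1 : algebraMap (chartRing k y i) L x =
      algebraMap (chartRingH y i H) L (algebraMap _ _ x) := rfl
    rw [e1, hc]
    change algebraMap K L (h ^ M') * algebraMap K L c =
      algebraMap K L (h ^ M' * c)
    rw [map_mul]) _ hM
  obtain ⟨r, hr, hr'⟩ := hun
  obtain ⟨c, hc⟩ := hD (algebraMap _ _ (hA ^ M))
  refine ⟨algebraMap _ _ (r * hA ^ M), ?_, ?_⟩
  · intro h
    have h1 : r * hA ^ M ∈ P.under (chartRing k y i) := h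
    rcases hP0.mem_or_mem h1 with h2 | h2
    · exact hr h2
    · exact hpow M h2
  · have e2 : D ((⟨hA ^ M, M, rfl⟩ : Submonoid.powers hA) • b) =
        algebraMap (chartRing k y i) L (hA ^ M) * D b +
          b * algebraMap (chartRingH y i H) L c := by
      have e3 : ((⟨hA ^ M, M, rfl⟩ : Submonoid.powers hA) • b : L) =
        algebraMap (chartRing k y i) L (hA ^ M) * b := by
        rw [Submonoid.smul_def, Algebra.smul_def]
      rw [e3, D.leibniz, ← hc]
      rw [smul_eq_mul, smul_eq_mul]
      rfl
    have e4 : algebraMap (chartRingH y i H) L (algebraMap _ _ (r * hA ^ M)) * D b =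
        algebraMap (chartRing k y i) L r * D ((⟨hA ^ M, M, rfl⟩ : Submonoid.powers hA) • b) -
          algebraMap (chartRingH y i H) L (algebraMap _ _ r * c) * b := by
      rw [e2, ← IsScalarTower.algebraMap_apply, map_mul, map_mul, ← IsScalarTower.algebraMap_apply]
      ring
    rw [e4]
    refine IsIntegral.sub ?_ ?_
    · exact hr'.tower_top
    · exact isIntegral_algebraMap.mul hb

end Pool.Agent.LibHP
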