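import Pool.Agent.LibHPC.H1
import Pool.Agent.LibHPF.G5

/-! H5. Every valuation ring of `K` over `k` contains one of the rings `chartRingH y i H`, etale over a
polynomial ring. -/

set_option autoImplicit false

namespace Pool.Agent.LibHP

theorem exists_chart' {k K : Type} [Field k] [CharZero k] [Field K] [Algebra k K] {n : ℕ}
    (y : Fin (n + 1) → K) (h0 : y 0 = 1) (hE : EtaleCharts k y)
    (O : Type) [CommRing O] [IsDomain O] [ValuationRing O] [Algebra O K] [IsFractionRing O K]
    (hk : ∀ c : k, ∃ o : O, algebraMap O K o = algebraMap k K c) :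
    ∃ (i : Fin (n + 1)) (H : MvPolynomial (Fin (n + 1)) k), y i ≠ 0 ∧
      MvPolynomial.aeval (fun l => y l / y i) H ≠ 0 ∧
      (∃ (N : ℕ) (ψ : MvPolynomial (Fin N) k →+* chartRingH y i H), ψ.Etale) ∧
      ∀ a ∈ chartRingH y i H, ∃ o : O, algebraMap O K o = a := by
  obtain ⟨i, hi, hV⟩ := G5_index (O := O) y h0 Finset.univ
  have hinj : Function.Injective (algebraMap O K) := IsFractionRing.injective O K
  have hA : ∀ a ∈ chartRing k y i, ∃ o : O, algebraMap O K o = a := by
    intro a ha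
    refine Algebra.adjoin_induction (p := fun a _ => ∃ o : O, algebraMap O K o = a)
      ?_ hk ?_ ?_ ha
    · rintro x ⟨l, rfl⟩
      exact hV l (Finset.mem_univ l)
    · rintro x x' _ _ ⟨o, rfl⟩ ⟨o', rfl⟩
      exact ⟨o + o', map_add _ _ _⟩
    · rintro x x' _ _ ⟨o, rfl⟩ ⟨o', rfl⟩
      exact ⟨o * o', map_mul _ _ _⟩
  choose f hf using fun a : chartRing k y i => hA a.1 a.2
  let φ : chartRing k y i →+* O :=
    { toFun := f
      map_one' := hinj (by rw [hf, map_one]; rfl)
      map_mul' := fun a b => hinj (by rw [map_mul, hf, hf, hf]; rfl)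
      map_zero' := hinj (by rw [hf, map_zero]; rfl)
      map_add' := fun a b => hinj (by rw [map_add, hf, hf, hf]; rfl) }
  have hφ : ∀ a : chartRing k y i, algebraMap O K (φ a) = a.1 := hf
  let P : Ideal (chartRing k y i) := (IsLocalRing.maximalIdeal O).comap φ
  have hP : P.IsPrime := Ideal.comap_isPrime _ _
  obtain ⟨H, hj, hψ⟩ := hE i hi P hP
  have hunit : IsUnit (φ (MvPolynomial.aeval (chartCoord k y i) H)) := by
    by_contra hn
    exact hj ((IsLocalRing.mem_maximalIdeal _).mpr hn)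
  have hval : algebraMap O K (φ (MvPolynomial.aeval (chartCoord k y i) H)) =
      MvPolynomial.aeval (fun l => y l / y i) H := by
    rw [hφ]
    exact g3b_coe y i H
  obtain ⟨u, hu⟩ := hunit
  have hval' : algebraMap O K (u : O) = MvPolynomial.aeval (fun l => y l / y i) H := by
    rw [hu, hval]
  have hne : MvPolynomial.aeval (fun l => y l / y i) H ≠ 0 := by
    rw [← hval']
    intro h0
    exact u.ne_zero (hinj (by rw [h0, map_zero]))
  have hinv : algebraMap O K ((u⁻¹ : Oˣ) : O) =
      (MvPolynomial.aeval (fun l => y l / y i) H)⁻¹ := by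
    rw [← hval']
    refine eq_inv_of_mul_eq_one_left ?_
    rw [← map_mul, Units.inv_mul, map_one]
  refine ⟨i, H, hi, hne, hψ, fun a ha => ?_⟩
  refine Algebra.adjoin_induction (p := fun a _ => ∃ o : O, algebraMap O K o = a)
      ?_ hk ?_ ?_ ha
  · rintro x (⟨l, rfl⟩ | hx)
    · exact hV l (Finset.mem_univ l)
    · rw [Set.mem_singleton_iff] at hx
      exact ⟨_, hinv.trans hx.symm⟩
  · rintro x x' _ _ ⟨o, rfl⟩ ⟨o', rfl⟩
    exact ⟨o + o', map_add _ _ _⟩
  · rintro x x' _ _ ⟨o, rfl⟩ ⟨o', rfl⟩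
    exact ⟨o * o', map_mul _ _ _⟩

end Pool.Agent.LibHP
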