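import Pool.Agent.LibHPC.H2
import Pool.Agent.LibHPC.H4
import Pool.Agent.LibHPC.H5
import Pool.Agent.LibHPF.G7

/-! H7. Unramified on the charts ⇒ `PresAt` at every codimension one point of the model `X`. -/

set_option autoImplicit false
open AlgebraicGeometry CategoryTheory

namespace Pool.Agent.LibHP

theorem presAt_of_unram' {k : Type} [Field k] [CharZero k] {X : Scheme}
    (f : X ⟶ Spec (CommRingCat.of k)) [IsIntegral X] [Smooth f]
    [Algebra k X.functionField]
    (halg : ∀ c : k, algebraMap k X.functionField c = toStalk f (genericPoint X) c)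
    {n : ℕ} (y : Fin (n + 1) → X.functionField) (h0 : y 0 = 1)
    (hgen : IntermediateField.adjoin k (Set.range y) = ⊤) (hE : EtaleCharts k y)
    (L : Type) [Field L] [Algebra X.functionField L] [FiniteDimensional X.functionField L]
    (hu : ∀ i, y i ≠ 0 → ∀ P : Ideal (chartRing k y i), P.IsPrime → P.height = 1 →
      UnramAt (chartRing k y i) L P)
    (x : X) (hx : ringKrullDim (X.presheaf.stalk x) = 1) :
    PresAt (algebraMap X.functionField L) x := by
  have hdvr := isDiscreteValuationRing_stalk f x hx
  have hinj : Function.Injective (algebraMap (X.presheaf.stalk x) X.functionField) :=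
    IsFractionRing.injective _ _
  obtain ⟨i, H, hi, hh, hψ, hle⟩ := exists_chart' y h0 hE (X.presheaf.stalk x)
    (fun c => ⟨toStalk f x c, by
      rw [halg, algebraMap_toStalk]⟩)
  have hfr := H1_isFractionRing y h0 hgen i hi H
  obtain ⟨φ, hφ⟩ := exists_ringHom_of_le (chartRingH y i H) (X.presheaf.stalk x) hinj hle
  letI : Algebra (chartRingH y i H) (X.presheaf.stalk x) := φ.toAlgebra
  have tow1 : IsScalarTower (chartRingH y i H) (X.presheaf.stalk x) X.functionField :=
    IsScalarTower.of_algebraMap_eq fun b => (hφ b).symm
  letI : Algebra (X.presheaf.stalk x) L := (stalkTo (algebraMap X.functionField L) x).toAlgebra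
  have tow2 : IsScalarTower (X.presheaf.stalk x) X.functionField L :=
    IsScalarTower.of_algebraMap_eq fun b => rfl
  obtain ⟨h1, h2⟩ := finEt_chart' y h0 hgen i hi H hh hψ L (fun P => hu i hi P)
  have hcz : CharZero X.functionField :=
    charZero_of_injective_ringHom (toStalk f (genericPoint X)).injective
  have het := etale_baseChange_dvr (chartRingH y i H) (X.presheaf.stalk x) X.functionField L h1 h2
  intro D hD b hb
  exact isIntegral_derivation_of_etale (X.presheaf.stalk x) X.functionField L D hD b hb

end Pool.Agent.LibHP
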