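import Pool.Agent.LibHPC.TD
import Pool.Agent.LibHPC.E7
import Pool.Agent.LibHPC.E8

set_option autoImplicit false
open MvPolynomial

namespace Pool.Agent.LibHP.CI

variable {k : Type} [Field k] [CharZero k] {n : ℕ} {D : Dat k n}

theorem IsGenPt.q {K : Type} [Field K] [Algebra k K] {P : Fin (n + 1) → K} (hP : IsGenPt D P) :
    Bq D P P = 0 := hP.self.1

theorem IsGenPt.c {K : Type} [Field K] [Algebra k K] {P : Fin (n + 1) → K} (hP : IsGenPt D P) :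
    Cq D P P P = 0 := hP.self.2

theorem tri3 (hD : IsSymm23 D) (hs : Smooth23 D) {Ω : Type} [Field Ω] [Algebra k Ω]
    (x P : Fin (n + 1) → Ω) (hx : IsGenPt D x) (h0 : Bq D P P = 0) (h1 : Cq D P P P = 0)
    (h2 : Bq D x P = 0) (h3 : Cq D P P x = 0) (h4 : Cq D P x x ≠ 0) (ρ : Fin 3 → Ω)
    (hρ : ∀ a, ρ 0 * Bq D P a + ρ 1 * Cq D P P a + ρ 2 * Bq D x a = 0) : ρ = 0 := by
  have h := tri_indep hD hs x P hx h0 h1 (by rw [Bq_comm hD]; exact h2) h3 h4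
    ![ρ 0, ρ 1, ρ 2, 0] (fun a => by
      have h5 : ρ 0 * Bq D P a + ρ 1 * Cq D P P a + ρ 2 * Bq D x a + 0 * Cq D P x a = 0 := by
        rw [zero_mul, add_zero]
        exact hρ a
      exact h5)
  funext i
  fin_cases i
  · exact congrFun h 0
  · exact congrFun h 1
  · exact congrFun h 2

theorem bad4 (hD : IsSymm23 D) (hs : Smooth23 D) {Ω : Type} [Field Ω] [Algebra k Ω]
    (x y : Fin (n + 1) → Ω) (hx : IsGenPt D x) (h1 : Bq D x y = 0) (h2 : Bq D y y = 0)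
    (h3 : Cq D x x y = 0) (h4 : Cq D x y y = 0) (hy : ∀ c : Ω, y ≠ c • x) (ρ : Fin 4 → Ω)
    (hρ : ∀ a, ρ 0 * Bq D x a + ρ 1 * Cq D x x a + ρ 2 * Bq D y a + ρ 3 * Cq D x y a = 0) :
    ρ = 0 := by
  have h := bad_indep hD hs x y hx h1 h2 h3 h4 hy ![ρ 0, ρ 2, ρ 1, ρ 3] (fun a => by
      have h5 : ρ 0 * Bq D x a + ρ 2 * Bq D y a + ρ 1 * Cq D x x a + ρ 3 * Cq D x y a = 0 := by
        rw [← hρ a]
        ring
      exact h5)
  funext i
  fin_cases i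
  · exact congrFun h 0
  · exact congrFun h 2
  · exact congrFun h 1
  · exact congrFun h 3

theorem line5 (hD : IsSymm23 D) (hs : Smooth23 D) {Ω : Type} [Field Ω] [Algebra k Ω]
    (x y : Fin (n + 1) → Ω) (hx : IsGenPt D x) (h1 : Bq D x y = 0) (h2 : Bq D y y = 0)
    (h3 : Cq D x x y = 0) (h4 : Cq D x y y = 0) (h5 : Cq D y y y = 0) (hy : ∀ c : Ω, y ≠ c • x)
    (ρ : Fin 5 → Ω)
    (hρ : ∀ a, ρ 0 * Bq D x a + ρ 1 * Cq D x x a + ρ 2 * Bq D y a + ρ 3 * Cq D x y a +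
      ρ 4 * Cq D y y a = 0) : ρ = 0 := by
  have h := lemmaB hD hs x y hx h1 h3 h2 h4 h5 hy ![ρ 0, ρ 2, ρ 1, ρ 3, ρ 4] (fun a => by
      have h5 : ρ 0 * Bq D x a + ρ 2 * Bq D y a + ρ 1 * Cq D x x a + ρ 3 * Cq D x y a +
          ρ 4 * Cq D y y a = 0 := by
        rw [← hρ a]
        ring
      exact h5)
  funext i
  fin_cases i
  · exact congrFun h 0
  · exact congrFun h 2
  · exact congrFun h 1
  · exact congrFun h 3
  · exact congrFun h 4

end Pool.Agent.LibHP.CI
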