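import Pool.Agent.LibHPF.TD
import Pool.Agent.LibHPC.Defs0

set_option autoImplicit false
open MvPolynomial

namespace Pool.Agent.LibHP.CI

/-! ### The curve `B = 0`, `A0 A2 = A1 ^ 2` -/

/-- `A0 A2 - A1 ^ 2`. -/
def dsc {S : Type} [CommRing S] (A : Fin 3 → S) : S := A 0 * A 2 - A 1 ^ 2

/-- The ideal of the curve `B = 0`, `A0 A2 = A1 ^ 2`. -/
def ciI {S : Type} [CommRing S] (A : Fin 3 → S) (B : S) : Ideal S := Ideal.span {B, dsc A}

/-- The ideal of its affine part `X 0 = 1`. -/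
noncomputable def affC {Ω : Type} [Field Ω] (A : Fin 3 → MvPolynomial (Fin 4) Ω)
    (B : MvPolynomial (Fin 4) Ω) : Ideal (MvPolynomial (Fin 3) Ω) := Ideal.span {dh B, dh (dsc A)}

/-! ### The restriction of the two forms to a line -/

section
variable {k : Type} [Field k] {n : ℕ} (D : Dat k n)
variable {R : Type} [CommRing R] [Algebra k R]

/-- For `C(x) = 0`: `2 C(y + s x) = A0 s ^ 2 + 2 A1 s + A2` with `A = cf D x y`. -/
noncomputable def cf (x y : Fin (n + 1) → R) : Fin 3 → R :=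
  ![6 * Cq D x x y, 3 * Cq D x y y, 2 * Cq D y y y]

end

section
variable {k : Type} [Field k] {n : ℕ} (D : Dat k n)

/-- The coefficients as polynomials in the coordinates of the frame `u`. -/
noncomputable def cfP {Ω : Type} [Field Ω] [Algebra k Ω] (x : Fin (n + 1) → Ω)
    (u : Fin 4 → Fin (n + 1) → Ω) : Fin 3 → MvPolynomial (Fin 4) Ω :=
  cf D (fun j => C (x j)) (frm (fun a j => C (u a j)) X)

/-- The quadratic form as a polynomial in the coordinates of the frame `u`. -/
noncomputable def bP {Ω : Type} [Field Ω] [Algebra k Ω] (u : Fin 4 → Fin (n + 1) → Ω) :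
    MvPolynomial (Fin 4) Ω :=
  Bq D (frm (fun a j => C (u a j)) X) (frm (fun a j => C (u a j)) X)

/-- The vector `A0 y - A1 x`. -/
noncomputable def vec01 {L : Type} [Field L] [Algebra k L] (x : Fin (n + 1) → L)
    (u : Fin 4 → Fin (n + 1) → L) : Fin (n + 1) → MvPolynomial (Fin 4) L :=
  fun j => cfP D x u 0 * frm (fun a j => C (u a j)) X j - cfP D x u 1 * C (x j)

/-- `x, u 0, ..., u 3` is a basis of the space `lin (h (some i)) x y = 0` (all `i`), `b(x, y) = 0`, adapted to the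
linear forms `6 g(x, x, y)` and `lin (h none) x y`. -/
structure IsFrame {L : Type} [Field L] [Algebra k L] (x : Fin (n + 1) → L)
    (h : Option (Fin (n - 5)) × Fin (n + 1) → L) (u : Fin 4 → Fin (n + 1) → L) : Prop where
  hu : ∀ a i, lin (fun j => h (some i, j)) x (u a) = 0
  hb : ∀ a, Bq D x (u a) = 0
  hg : ∀ a, lin (fun j => h (none, j)) x (u a) = if a = 1 then 1 else 0
  h0 : ∀ a, 6 * Cq D x x (u a) = if a = 0 then 1 else 0
  indep : ∀ (ξ : L) (c : Fin 4 → L), (∀ j, ξ * x j + frm u c j = 0) → ξ = 0 ∧ c = 0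
  span : ∀ y : Fin (n + 1) → L, (∀ i, lin (fun j => h (some i, j)) x y = 0) → Bq D x y = 0 →
    ∃ (ξ : L) (c : Fin 4 → L), ∀ j, y j = ξ * x j + frm u c j

end

end Pool.Agent.LibHP.CI
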