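import Mathlib
import Pool.Agent.LibHPC.TD

set_option autoImplicit false

namespace Pool.Agent.LibHP.CI

/-!
# Row T4: the ideal `(B, D)`, abstract commutative algebra

`y, B, D`, `x` are elements of a commutative ring `S`.
-/

private theorem T4_mem {S : Type} [CommRing S] (B D f : S) :
    f ∈ Ideal.span {B, D} ↔ ∃ a b : S, a * B + b * D = f := Ideal.mem_span_pair

/-- Syzygies of `B, D` modulo an ideal. -/
private theorem T4_S {S : Type} [CommRing S] (B D : S) (J : Ideal S)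
    (hr1 : ∀ a, B * a ∈ J → a ∈ J)
    (hr2 : ∀ a, D * a ∈ J ⊔ Ideal.span {B} → a ∈ J ⊔ Ideal.span {B})
    (c1 c2 : S) (h : c1 * B + c2 * D ∈ J) :
    ∃ d : S, c1 + d * D ∈ J ∧ c2 - d * B ∈ J := by
  have h2 : D * c2 ∈ J ⊔ Ideal.span {B} := by
    have : D * c2 = (c1 * B + c2 * D) + (-c1) * B := by ring
    rw [this]
    exact Submodule.add_mem_sup h (Ideal.mul_mem_left _ _ (Ideal.mem_span_singleton_self _))
  obtain ⟨j1, hj1, w, hw, hc2⟩ := Submodule.mem_sup.mp (hr2 _ h2)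
  obtain ⟨d, rfl⟩ := Ideal.mem_span_singleton'.mp hw
  refine ⟨d, hr1 _ ?_, ?_⟩
  · have : B * (c1 + d * D) = (c1 * B + c2 * D) - D * j1 := by
      rw [← hc2]; ring
    rw [this]
    exact J.sub_mem h (J.mul_mem_left _ hj1)
  · have : c2 - d * B = j1 := by rw [← hc2]; ring
    rw [this]
    exact hj1

theorem ci_reg (S : Type) [CommRing S] (y B D : S) (x : S)
    (h0 : ∀ a, y * a = 0 → a = 0)
    (h1 : ∀ a, x * a ∈ Ideal.span {y} → a ∈ Ideal.span {y})
    (r1 : ∀ a, B * a ∈ Ideal.span {y} → a ∈ Ideal.span {y})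
    (r2 : ∀ a, D * a ∈ Ideal.span {y} ⊔ Ideal.span {B} → a ∈ Ideal.span {y} ⊔ Ideal.span {B})
    (s1 : ∀ a, B * a ∈ Ideal.span {y, x} → a ∈ Ideal.span {y, x})
    (s2 : ∀ a, D * a ∈ Ideal.span {y, x} ⊔ Ideal.span {B} →
      a ∈ Ideal.span {y, x} ⊔ Ideal.span {B}) :
    (∀ f, y * f ∈ Ideal.span {B, D} → f ∈ Ideal.span {B, D}) ∧
    ∀ (N M : ℕ) (f : S), x ^ M * f ∈ Ideal.span {y ^ N} ⊔ Ideal.span {B, D} →
      f ∈ Ideal.span {y ^ N} ⊔ Ideal.span {B, D} := by
  -- (1)
  have P1 : ∀ f, y * f ∈ Ideal.span {B, D} → f ∈ Ideal.span {B, D} := by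
    intro f hf
    obtain ⟨c1, c2, hc⟩ := (T4_mem B D _).mp hf
    obtain ⟨d, e1, e2⟩ := T4_S B D (Ideal.span {y}) r1 r2 c1 c2 (by
        rw [hc]
        exact Ideal.mul_mem_right _ _ (Ideal.mem_span_singleton_self _))
    obtain ⟨b1, hb1⟩ := Ideal.mem_span_singleton'.mp e1
    obtain ⟨b2, hb2⟩ := Ideal.mem_span_singleton'.mp e2
    have key : y * (f - (b1 * B + b2 * D)) = 0 := by
      linear_combination (-1 : S) * hc - B * hb1 - D * hb2
    have := h0 _ key
    rw [sub_eq_zero] at this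
    rw [this]
    exact (T4_mem B D _).mpr ⟨b1, b2, rfl⟩
  -- (2)
  have P2 : ∀ f, x * f ∈ Ideal.span {B, D} ⊔ Ideal.span {y} →
      f ∈ Ideal.span {B, D} ⊔ Ideal.span {y} := by
    intro f hf
    obtain ⟨i, hi, w, hw, hxf⟩ := Submodule.mem_sup.mp hf
    obtain ⟨r, rfl⟩ := Ideal.mem_span_singleton'.mp hw
    obtain ⟨c1, c2, hc⟩ := (T4_mem B D _).mp hi
    have hy : y ∈ Ideal.span {y, x} := Ideal.subset_span (by simp)
    have hx : x ∈ Ideal.span {y, x} := Ideal.subset_span (by simp)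
    obtain ⟨d, e1, e2⟩ := T4_S B D (Ideal.span {y, x}) s1 s2 c1 c2 (by
        have : c1 * B + c2 * D = f * x - r * y := by
          rw [hc]
          linear_combination hxf
        rw [this]
        exact Ideal.sub_mem _ (Ideal.mul_mem_left _ _ hx) (Ideal.mul_mem_left _ _ hy))
    obtain ⟨b1, g1, hb1⟩ := Ideal.mem_span_pair.mp e1
    obtain ⟨b2, g2, hb2⟩ := Ideal.mem_span_pair.mp e2
    have key : x * (f - (g1 * B + g2 * D)) ∈ Ideal.span {y} := by
      refine Ideal.mem_span_singleton'.mpr ⟨r + (b1 * B + b2 * D), ?_⟩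
      rw [← hc] at hxf
      linear_combination hxf + B * hb1 + D * hb2
    have := h1 _ key
    have hf2 : f = (g1 * B + g2 * D) + (f - (g1 * B + g2 * D)) := by
      ring
    rw [hf2]
    exact Submodule.add_mem_sup ((T4_mem B D _).mpr ⟨g1, g2, rfl⟩) this
  -- (3)
  have P3 : ∀ (N : ℕ) (f : S), x * f ∈ Ideal.span {y ^ N} ⊔ Ideal.span {B, D} →
      f ∈ Ideal.span {y ^ N} ⊔ Ideal.span {B, D} := by
    intro N
    induction N with
    | zero =>
      intro f _
      rw [pow_zero]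
      exact Submodule.mem_sup_left (Ideal.mem_span_singleton.2 (one_dvd _))
    | succ N ih =>
      intro f hf
      have h3 : x * f ∈ Ideal.span {B, D} ⊔ Ideal.span {y} := by
        obtain ⟨w, hw, i, hi, hxf⟩ := Submodule.mem_sup.mp hf
        obtain ⟨r, rfl⟩ := Ideal.mem_span_singleton'.mp hw
        rw [← hxf, add_comm]
        exact Submodule.add_mem_sup hi (Ideal.mem_span_singleton'.2 ⟨r * y ^ N, by ring⟩)
      obtain ⟨i, hi, w, hw, hf2⟩ := Submodule.mem_sup.mp (P2 f h3)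
      obtain ⟨q, rfl⟩ := Ideal.mem_span_singleton'.mp hw
      obtain ⟨w', hw', i', hi', hxf⟩ := Submodule.mem_sup.mp hf
      obtain ⟨r, rfl⟩ := Ideal.mem_span_singleton'.mp hw'
      have h4 : y * (x * q - r * y ^ N) ∈ Ideal.span {B, D} := by
        have : y * (x * q - r * y ^ N) = i' - x * i := by
          linear_combination x * hf2 - hxf
        rw [this]
        exact Ideal.sub_mem _ hi' (Ideal.mul_mem_left _ _ hi)
      have h5 := P1 _ h4
      have h6 : x * q ∈ Ideal.span {y ^ N} ⊔ Ideal.span {B, D} := by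
        have : x * q = r * y ^ N + (x * q - r * y ^ N) := by ring
        rw [this]
        exact Submodule.add_mem_sup (Ideal.mem_span_singleton'.2 ⟨r, rfl⟩) h5
      obtain ⟨w2, hw2, i2, hi2, hq⟩ := Submodule.mem_sup.mp (ih q h6)
      obtain ⟨r2', rfl⟩ := Ideal.mem_span_singleton'.mp hw2
      have h7 : f = r2' * y ^ (N + 1) + (i + y * i2) := by
        linear_combination (-1 : S) * hf2 - y * hq
      rw [h7]
      exact Submodule.add_mem_sup (Ideal.mem_span_singleton'.2 ⟨r2', rfl⟩)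
        (Ideal.add_mem _ hi (Ideal.mul_mem_left _ _ hi2))
  refine ⟨P1, fun N M => ?_⟩
  induction M with
  | zero =>
    intro f hf
    rwa [pow_zero, one_mul] at hf
  | succ M ih =>
    intro f hf
    rw [pow_succ', mul_assoc] at hf
    exact ih f (P3 N _ hf)

end Pool.Agent.LibHP.CI
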