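import Pool.Agent.LibHPF.T5
import Pool.Agent.LibHPC.T4

set_option autoImplicit false
open MvPolynomial

namespace Pool.Agent.LibHP.CI

/-!
# Row T5: regular sequences of forms in four variables
-/

theorem dsc_hom {Ω : Type} [Field Ω] (A : Fin 3 → MvPolynomial (Fin 4) Ω)
    (hA : ∀ a : Fin 3, (A a).IsHomogeneous (a.val + 1)) : (dsc A).IsHomogeneous 4 := by
  unfold dsc
  have h02 : (A 0 * A 2).IsHomogeneous 4 := (hA 0).mul (hA 2)
  have h11 : (A 1 ^ 2).IsHomogeneous 4 := (hA 1).pow 2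
  exact h02.sub h11

theorem ci_reg_forms (Ω : Type) [Field Ω] [IsAlgClosed Ω] (A : Fin 3 → MvPolynomial (Fin 4) Ω)
    (B : MvPolynomial (Fin 4) Ω)
    (hA0 : A 0 = X 0) (hA : ∀ a : Fin 3, (A a).IsHomogeneous (a.val + 1)) (hB : B.IsHomogeneous 2)
    (h4 : ∀ z : Fin 4 → Ω, z 0 = 0 → z 1 = 0 → eval z B = 0 → eval z (A 1) = 0 → z = 0) :
    (∀ f, X 0 * f ∈ ciI A B → f ∈ ciI A B) ∧
    ∀ (N M : ℕ) (f : MvPolynomial (Fin 4) Ω), X 1 ^ M * f ∈ Ideal.span {X 0 ^ N} ⊔ ciI A B →
      f ∈ Ideal.span {X 0 ^ N} ⊔ ciI A B := by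
  classical
  have hD : (dsc A).IsHomogeneous 4 := dsc_hom A hA
  -- the maps
  let g3 : Fin 4 → MvPolynomial (Fin 3) Ω := Fin.cons 0 X
  let g2 : Fin 4 → MvPolynomial (Fin 2) Ω := Fin.cons 0 (Fin.cons 0 X)
  let π3 : MvPolynomial (Fin 4) Ω →ₐ[Ω] MvPolynomial (Fin 3) Ω := aeval g3
  let π2 : MvPolynomial (Fin 4) Ω →ₐ[Ω] MvPolynomial (Fin 2) Ω := aeval g2
  have e30 : π3 (X 0) = 0 := aeval_X _ _
  have e3s : ∀ j : Fin 3, π3 (X j.succ) = X j := fun j => aeval_X _ _
  have e20 : π2 (X 0) = 0 := aeval_X _ _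
  have e21 : π2 (X 1) = 0 := aeval_X _ _
  have e2s : ∀ j : Fin 2, π2 (X j.succ.succ) = X j := fun j => aeval_X _ _
  have sur3 : Function.Surjective (π3 : MvPolynomial (Fin 4) Ω →+* MvPolynomial (Fin 3) Ω) := by
    intro f
    refine ⟨rename Fin.succ f, ?_⟩
    have : π3.comp (rename Fin.succ) = AlgHom.id Ω _ := by
      refine MvPolynomial.algHom_ext fun j => ?_
      rw [AlgHom.comp_apply, rename_X, e3s]
      rfl
    exact congrArg (fun g => g f) this
  have sur2 : Function.Surjective (π2 : MvPolynomial (Fin 4) Ω →+* MvPolynomial (Fin 2) Ω) := by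
    intro f
    refine ⟨rename (fun j : Fin 2 => j.succ.succ) f, ?_⟩
    have : π2.comp (rename (fun j : Fin 2 => j.succ.succ)) = AlgHom.id Ω _ := by
      refine MvPolynomial.algHom_ext fun j => ?_
      rw [AlgHom.comp_apply, rename_X, e2s]
      rfl
    exact congrArg (fun g => g f) this
  have ker3 : RingHom.ker (π3 : MvPolynomial (Fin 4) Ω →+* MvPolynomial (Fin 3) Ω) =
      Ideal.span {X 0} := by
    refine T5_ker π3 (rename Fin.succ) _ (fun i => ?_) ?_
    · refine Fin.cases ?_ (fun j => ?_) i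
      · rw [e30, map_zero, zero_sub]
        exact neg_mem (Ideal.subset_span rfl)
      · rw [e3s, rename_X, sub_self]
        exact zero_mem _
    · rw [Ideal.span_le]
      rintro _ rfl
      exact e30
  have ker2 : RingHom.ker (π2 : MvPolynomial (Fin 4) Ω →+* MvPolynomial (Fin 2) Ω) =
      Ideal.span {X 0, X 1} := by
    refine T5_ker π2 (rename (fun j : Fin 2 => j.succ.succ)) _ (fun i => ?_) ?_
    · refine Fin.cases ?_ (fun j => Fin.cases ?_ (fun j' => ?_) j) i
      · rw [e20, map_zero, zero_sub]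
        exact neg_mem (Ideal.subset_span (by simp))
      · have : π2 (X (Fin.succ 0)) = 0 := e21
        rw [this, map_zero, zero_sub]
        exact neg_mem (Ideal.subset_span (by simp))
      · rw [e2s, rename_X, sub_self]
        exact zero_mem _
    · rw [Ideal.span_le]
      rintro f hf
      rcases hf with hf | hf
      · rw [hf]; exact e20
      · rw [Set.mem_singleton_iff.1 hf]; exact e21
  have hom3 : ∀ (P : MvPolynomial (Fin 4) Ω) (m : ℕ), P.IsHomogeneous m →
      (π3 P).IsHomogeneous m := by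
    intro P m hP
    have := hP.aeval g3 (n := 1) (fun i => by
      refine Fin.cases ?_ (fun j => ?_) i
      · exact isHomogeneous_zero _ _ _
      · exact isHomogeneous_X _ _)
    rwa [one_mul] at this
  have hom2 : ∀ (P : MvPolynomial (Fin 4) Ω) (m : ℕ), P.IsHomogeneous m →
      (π2 P).IsHomogeneous m := by
    intro P m hP
    have := hP.aeval g2 (n := 1) (fun i => by
      refine Fin.cases ?_ (fun j => Fin.cases ?_ (fun j' => ?_) j) i
      · exact isHomogeneous_zero _ _ _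
      · exact isHomogeneous_zero _ _ _
      · exact isHomogeneous_X _ _)
    rwa [one_mul] at this
  have z3 : ∀ z : Fin 3 → Ω, eval z (π3 B) = 0 → eval z (π3 (dsc A)) = 0 →
      (∀ _ : Unit, eval z (X 0 : MvPolynomial (Fin 3) Ω) = 0) → z = 0 := by
    intro z h1 h2 h3
    have h2' : eval z (π3 (A 1)) = 0 := by
      rw [dsc, hA0, map_sub, map_mul, e30, zero_mul, zero_sub, map_pow, map_neg, map_pow,
        neg_eq_zero] at h2
      exact pow_eq_zero_iff (two_ne_zero) |>.1 h2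
    have hz0 : z 0 = 0 := by
      have := h3 ()
      rwa [eval_X] at this
    have hev : ∀ f, eval z (π3 f) = eval (Fin.cons 0 z : Fin 4 → Ω) f := by
      intro f
      rw [T5_eval]
      congr 1
      congr 1
      funext i
      refine Fin.cases ?_ (fun j => ?_) i
      · exact map_zero _
      · exact eval_X _
    rw [hev] at h1 h2'
    have := h4 (Fin.cons 0 z) rfl hz0 h1 h2'
    funext j
    exact congrFun this j.succ
  have z2 : ∀ z : Fin 2 → Ω, eval z (π2 B) = 0 → eval z (π2 (dsc A)) = 0 →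
      (∀ i : Fin 0, eval z (i.elim0 : MvPolynomial (Fin 2) Ω) = 0) → z = 0 := by
    intro z h1 h2 _
    have h2' : eval z (π2 (A 1)) = 0 := by
      rw [dsc, hA0, map_sub, map_mul, e20, zero_mul, zero_sub, map_pow, map_neg, map_pow,
        neg_eq_zero] at h2
      exact pow_eq_zero_iff (two_ne_zero) |>.1 h2
    have hev : ∀ f, eval z (π2 f) = eval (Fin.cons 0 (Fin.cons 0 z) : Fin 4 → Ω) f := by
      intro f
      rw [T5_eval]
      congr 1
      congr 1
      funext i
      refine Fin.cases ?_ (fun j => Fin.cases ?_ (fun j' => ?_) j) i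
      · exact map_zero _
      · exact map_zero _
      · exact eval_X _
    rw [hev] at h1 h2'
    have := h4 (Fin.cons 0 (Fin.cons 0 z)) rfl rfl h1 h2'
    funext j
    exact congrFun this j.succ.succ
  have c3 : Fintype.card Unit + 1 < Fintype.card (Fin 3) := by
    rw [Fintype.card_unit, Fintype.card_fin]; norm_num
  have c2 : Fintype.card (Fin 0) + 1 < Fintype.card (Fin 2) := by
    rw [Fintype.card_fin, Fintype.card_fin]; norm_num
  have ne3 : π3 B ≠ 0 := T5_ne c3 (π3 B) (π3 (dsc A)) 4 (by norm_num) (hom3 _ _ hD)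
    (fun _ : Unit => X 0) (fun _ => 1) (fun _ => one_pos) (fun _ => isHomogeneous_X _ _) z3
  have rel3 : IsRelPrime (π3 B) (π3 (dsc A)) := T5_rel c3 (π3 B) (π3 (dsc A)) _ _
    (by norm_num) (hom3 _ _ hB) (hom3 _ _ hD)
    (fun _ : Unit => X 0) (fun _ => 1) (fun _ => one_pos) (fun _ => isHomogeneous_X _ _) z3
  have ne2 : π2 B ≠ 0 := T5_ne c2 (π2 B) (π2 (dsc A)) 4 (by norm_num) (hom2 _ _ hD)
    (fun i : Fin 0 => i.elim0) (fun _ => 1) (fun _ => one_pos) (fun i => i.elim0) z2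
  have rel2 : IsRelPrime (π2 B) (π2 (dsc A)) := T5_rel c2 (π2 B) (π2 (dsc A)) _ _
    (by norm_num) (hom2 _ _ hB) (hom2 _ _ hD)
    (fun i : Fin 0 => i.elim0) (fun _ => 1) (fun _ => one_pos) (fun i => i.elim0) z2
  obtain ⟨r1, r2⟩ := T5_lift (π3 : MvPolynomial (Fin 4) Ω →+* MvPolynomial (Fin 3) Ω) sur3
    B (dsc A) ne3 rel3
  obtain ⟨s1, s2⟩ := T5_lift (π2 : MvPolynomial (Fin 4) Ω →+* MvPolynomial (Fin 2) Ω) sur2
    B (dsc A) ne2 rel2
  rw [ker3] at r1 r2
  rw [ker2] at s1 s2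
  have h0 : ∀ a : MvPolynomial (Fin 4) Ω, X 0 * a = 0 → a = 0 := by
    intro a ha
    exact (mul_eq_zero.1 ha).resolve_left (X_ne_zero _)
  have h1 : ∀ a : MvPolynomial (Fin 4) Ω, X 1 * a ∈ Ideal.span {X 0} → a ∈ Ideal.span {X 0} := by
    intro a ha
    rw [← ker3, RingHom.mem_ker, map_mul] at ha
    rw [← ker3, RingHom.mem_ker]
    refine (mul_eq_zero.1 ha).resolve_left ?_
    have : π3 (X 1) = X 0 := e3s 0
    exact fun h => X_ne_zero (R := Ω) (0 : Fin 3) (this.symm.trans h)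
  exact ci_reg (MvPolynomial (Fin 4) Ω) (X 0) B (dsc A) (X 1) h0 h1 r1 r2 s1 s2

end Pool.Agent.LibHP.CI
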