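import Pool.Agent.LibHPF.T8
import Pool.Agent.LibHPC.T5

set_option autoImplicit false
open MvPolynomial

namespace Pool.Agent.LibHP.CI

private theorem T8_X0 {Ω : Type} [Field Ω] : dh (X 0 : MvPolynomial (Fin 4) Ω) = 1 := by
  rw [dh, aeval_X]
  rfl

theorem mem_of_dh_ci {Ω : Type} [Field Ω] (A : Fin 3 → MvPolynomial (Fin 4) Ω)
    (B : MvPolynomial (Fin 4) Ω)
    (hA : ∀ a : Fin 3, (A a).IsHomogeneous (a.val + 1)) (hB : B.IsHomogeneous 2)
    (hreg : ∀ f, X 0 * f ∈ ciI A B → f ∈ ciI A B) (G : MvPolynomial (Fin 4) Ω) (d : ℕ)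
    (hG : G.IsHomogeneous d) (h : dh G ∈ affC A B) : G ∈ ciI A B := by
  classical
  obtain ⟨c3, c2, hc⟩ := Ideal.mem_span_pair.1 h
  have h2 : (dsc A).IsHomogeneous 4 := dsc_hom A hA
  set E : ℕ := 5 + c3.totalDegree + c2.totalDegree with hE
  obtain ⟨C3, hC3, hd3⟩ := exists_dh c3 (E + d - 2) (by omega)
  obtain ⟨C2, hC2, hd2⟩ := exists_dh c2 (E + d - 4) (by omega)
  have k3 : (C3 * B).IsHomogeneous (E + d) := by
    have h4 := hC3.mul hB
    have h5 : E + d - 2 + 2 = E + d := by omega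
    rwa [h5] at h4
  have k2 : (C2 * dsc A).IsHomogeneous (E + d) := by
    have h4 := hC2.mul h2
    have h5 : E + d - 4 + 4 = E + d := by omega
    rwa [h5] at h4
  have k1 : ((X 0 : MvPolynomial (Fin 4) Ω) ^ E * G).IsHomogeneous (E + d) :=
    (isHomogeneous_X_pow _ _).mul hG
  have hz : (X 0 : MvPolynomial (Fin 4) Ω) ^ E * G - (C3 * B + C2 * dsc A) = 0 := by
    refine dh_inj _ (E + d) (k1.sub (k3.add k2)) ?_
    rw [map_sub, map_add, map_mul, map_mul, map_mul, map_pow, T8_X0, one_pow, one_mul, hd3, hd2,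
      hc, sub_self]
  have hmem : (X 0 : MvPolynomial (Fin 4) Ω) ^ E * G ∈ ciI A B := by
    rw [sub_eq_zero.1 hz]
    refine Ideal.add_mem _ (Ideal.mul_mem_left _ _ (Ideal.subset_span ?_))
      (Ideal.mul_mem_left _ _ (Ideal.subset_span ?_))
    · simp
    · simp
  have hall : ∀ (e : ℕ) (f : MvPolynomial (Fin 4) Ω), X 0 ^ e * f ∈ ciI A B → f ∈ ciI A B := by
    intro e
    induction e with
    | zero =>
      intro f hf
      rwa [pow_zero, one_mul] at hf
    | succ e ih =>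
      intro f hf
      refine ih f (hreg _ ?_)
      rwa [pow_succ', mul_assoc] at hf
  exact hall E G hmem

end Pool.Agent.LibHP.CI
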