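import Pool.Agent.LibHPF.T10a
import Pool.Agent.LibHPC.T8

set_option autoImplicit false
open MvPolynomial

namespace Pool.Agent.LibHP.CI

/-! # Row T10a: the local rings of the affine part are integral -/

theorem affC_local (Ω : Type) [Field Ω] [IsAlgClosed Ω] (A : Fin 3 → MvPolynomial (Fin 4) Ω)
    (B : MvPolynomial (Fin 4) Ω)
    (hA : ∀ a : Fin 3, (A a).IsHomogeneous (a.val + 1)) (hB : B.IsHomogeneous 2)
    (h1 : ∀ z : Fin 4 → Ω, z 0 ≠ 0 → eval z B = 0 → eval z (dsc A) = 0 →
      LinearIndependent Ω ![fun i => eval z (pderiv i B),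
        fun i => eval z (pderiv i (dsc A))])
    (m : Ideal (MvPolynomial (Fin 3) Ω ⧸ affC A B)) (hm : m.IsMaximal)
    (f g : MvPolynomial (Fin 3) Ω ⧸ affC A B) (hfg : f * g = 0) :
    ∃ s, s ∉ m ∧ (s * f = 0 ∨ s * g = 0) := by
  have hM : (m.comap (Ideal.Quotient.mk (affC A B))).IsMaximal :=
    Ideal.comap_isMaximal_of_surjective _ Ideal.Quotient.mk_surjective
  obtain ⟨z', hz'⟩ := (isMaximal_iff_eq_vanishingIdeal_singleton (K := Ω)).1 hM
  have hmem : ∀ p : MvPolynomial (Fin 3) Ω, Ideal.Quotient.mk (affC A B) p ∈ m ↔ eval z' p = 0 := by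
    intro p
    rw [← Ideal.mem_comap, hz', mem_vanishingIdeal_singleton_iff, aeval_eq_eval]
  have hz0 : ∀ p ∈ affC A B, eval z' p = 0 := by
    intro p hp
    rw [← hmem, Ideal.Quotient.eq_zero_iff_mem.2 hp]
    exact m.zero_mem
  set z : Fin 4 → Ω := Fin.cons 1 z' with hz
  have hm3 : eval z B = 0 := by
    rw [hz, ← T10a_eval_dh]
    exact hz0 _ (Ideal.subset_span (by simp))
  have hm2 : eval z (dsc A) = 0 := by
    rw [hz, ← T10a_eval_dh]
    exact hz0 _ (Ideal.subset_span (by simp))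
  have hli := h1 z (by rw [hz, Fin.cons_zero]; exact one_ne_zero) hm3 hm2
  rw [LinearIndependent.pair_iff] at hli
  have hgr : Set.range ![dh B, dh (dsc A)] = {dh B, dh (dsc A)} := by
    rw [Matrix.range_cons, Matrix.range_cons, Matrix.range_empty, Set.union_empty]
    rfl
  have hJ : LinearIndependent Ω (fun (i : Fin 2) (j : Fin 3) =>
      eval z' (pderiv j ((![dh B, dh (dsc A)] : Fin 2 → MvPolynomial (Fin 3) Ω) i))) := by
    have he : (fun (i : Fin 2) (j : Fin 3) =>
      eval z' (pderiv j ((![dh B, dh (dsc A)] : Fin 2 → MvPolynomial (Fin 3) Ω) i))) =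
      ![fun j : Fin 3 => eval z (pderiv j.succ B),
        fun j : Fin 3 => eval z (pderiv j.succ (dsc A))] := by
      funext i j
      fin_cases i
      · simp only [Fin.zero_eta, Matrix.cons_val_zero]
        rw [T10a_pderiv_dh, T10a_eval_dh]
      · simp only [Fin.mk_one, Matrix.cons_val_one, Matrix.cons_val_fin_one]
        rw [T10a_pderiv_dh, T10a_eval_dh]
    rw [he, LinearIndependent.pair_iff]
    intro s t hst
    apply hli
    have hst' : ∀ j : Fin 3, s * eval z (pderiv j.succ B) +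
        t * eval z (pderiv j.succ (dsc A)) = 0 := fun j => congrFun hst j
    funext i
    refine Fin.cases ?_ (fun j => ?_) i
    · change s * eval z (pderiv 0 B) + t * eval z (pderiv 0 (dsc A)) = 0
      rw [hz] at hst' hm3 hm2 ⊢
      rw [T10a_euler z' _ 2 hB hm3, T10a_euler z' _ 4 (dsc_hom A hA) hm2]
      have : ∑ j : Fin 3, z' j * (s * eval (Fin.cons 1 z' : Fin 4 → Ω) (pderiv j.succ B) +
        t * eval (Fin.cons 1 z' : Fin 4 → Ω) (pderiv j.succ (dsc A))) = 0 :=
        Finset.sum_eq_zero fun j _ => by rw [hst' j, mul_zero]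
      rw [← neg_eq_zero] at this
      rw [← this]
      simp only [Fin.sum_univ_three]
      ring
    · exact hst' j
  obtain ⟨F, rfl⟩ := Ideal.Quotient.mk_surjective f
  obtain ⟨G, rfl⟩ := Ideal.Quotient.mk_surjective g
  have hFG : F * G ∈ Ideal.span (Set.range ![dh B, dh (dsc A)]) := by
    rw [← map_mul, Ideal.Quotient.eq_zero_iff_mem] at hfg
    rw [hgr]
    exact hfg
  have hzg : ∀ i, eval z' ((![dh B, dh (dsc A)] : Fin 2 → MvPolynomial (Fin 3) Ω) i) = 0 := by
    intro i
    fin_cases i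
    · exact hz0 _ (Ideal.subset_span (by simp))
    · exact hz0 _ (Ideal.subset_span (by simp))
  obtain ⟨s, hs, hs'⟩ := local_domain Ω 3 2 ![dh B, dh (dsc A)] z' hzg hJ F G hFG
  rw [hgr] at hs'
  refine ⟨Ideal.Quotient.mk (affC A B) s, fun h => hs ((hmem s).1 h), ?_⟩
  rw [← map_mul, ← map_mul, Ideal.Quotient.eq_zero_iff_mem, Ideal.Quotient.eq_zero_iff_mem]
  exact hs'

end Pool.Agent.LibHP.CI
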