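import Pool.Agent.LibHPF.T7
import Pool.Agent.LibHPC.T8

set_option autoImplicit false
open MvPolynomial

namespace Pool.Agent.LibHP.CI

/-! # Row T10b: the affine part is connected -/

section

variable {Ω : Type} [Field Ω] (A : Fin 3 → MvPolynomial (Fin 4) Ω) (B : MvPolynomial (Fin 4) Ω)

private theorem T10b_m1 : B ∈ ciI A B := Ideal.subset_span (by simp)

private theorem T10b_m2 : dsc A ∈ ciI A B := Ideal.subset_span (by simp)

private theorem T10b_le {J : Ideal (MvPolynomial (Fin 4) Ω)} (h1 : B ∈ J) (h2 : dsc A ∈ J) :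
    ciI A B ≤ J := by
  unfold ciI
  rw [Ideal.span_le]
  rintro x (rfl | rfl)
  · exact h1
  · exact h2

private theorem T10b_vanish (z : Fin 4 → Ω) (h1 : eval z B = 0) (h2 : eval z (dsc A) = 0)
    {f : MvPolynomial (Fin 4) Ω} (hf : f ∈ ciI A B) : eval z f = 0 := by
  have h : ciI A B ≤ RingHom.ker (eval z) := T10b_le A B h1 h2
  exact h hf

private theorem T10b_comp {σ : Type} (c m : MvPolynomial σ Ω) {d : ℕ} (hm : m.IsHomogeneous d)
    (N : ℕ) : homogeneousComponent N (c * m) =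
      if d ≤ N then homogeneousComponent (N - d) c * m else 0 := by
  have h1 : ∀ e, homogeneousComponent N (homogeneousComponent e c * m) =
      if N = e + d then homogeneousComponent e c * m else 0 := fun e =>
    homogeneousComponent_of_mem ((homogeneousComponent_isHomogeneous e c).mul hm)
  conv_lhs => rw [← sum_homogeneousComponent c, Finset.sum_mul, map_sum]
  rw [Finset.sum_congr rfl fun e _ => h1 e]
  split_ifs with hd
  · by_cases hN : N - d ∈ Finset.range (c.totalDegree + 1)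
    · rw [Finset.sum_eq_single_of_mem (N - d) hN, if_pos (by omega)]
      intro e _ he
      rw [if_neg (by omega)]
    · rw [homogeneousComponent_eq_zero (N - d) c (by
        rw [Finset.mem_range] at hN; omega), zero_mul]
      refine Finset.sum_eq_zero fun e he => ?_
      rw [if_neg]
      rintro rfl
      apply hN
      rw [Nat.add_sub_cancel]
      exact he
  · refine Finset.sum_eq_zero fun e _ => ?_
    rw [if_neg (by omega)]

private theorem T10b_comp_mem {J : Ideal (MvPolynomial (Fin 4) Ω)} (c m : MvPolynomial (Fin 4) Ω)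
    {d : ℕ} (hm : m.IsHomogeneous d) (hJ : m ∈ J) (N : ℕ) : homogeneousComponent N (c * m) ∈ J := by
  rw [T10b_comp c m hm N]
  split_ifs
  · exact J.mul_mem_left _ hJ
  · exact J.zero_mem

variable {A B}

private theorem T10b_homI (hA : ∀ a : Fin 3, (A a).IsHomogeneous (a.val + 1))
    (hB : B.IsHomogeneous 2) (N : ℕ)
    {f : MvPolynomial (Fin 4) Ω} (hf : f ∈ ciI A B) : homogeneousComponent N f ∈ ciI A B := by
  obtain ⟨a, b, rfl⟩ := Ideal.mem_span_pair.1 hf
  rw [map_add]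
  exact (ciI A B).add_mem (T10b_comp_mem a _ hB (T10b_m1 A B) N)
    (T10b_comp_mem b _ (dsc_hom A hA) (T10b_m2 A B) N)

end

theorem affC_ne_top (Ω : Type) [Field Ω] [IsAlgClosed Ω] (A : Fin 3 → MvPolynomial (Fin 4) Ω)
    (B : MvPolynomial (Fin 4) Ω) (hA0 : A 0 = X 0)
    (hA : ∀ a : Fin 3, (A a).IsHomogeneous (a.val + 1)) (hB : B.IsHomogeneous 2)
    (h4 : ∀ z : Fin 4 → Ω, z 0 = 0 → z 1 = 0 → eval z B = 0 → eval z (A 1) = 0 → z = 0) :
    affC A B ≠ ⊤ := by
  intro h
  have h1 : dh (1 : MvPolynomial (Fin 4) Ω) ∈ affC A B := by rw [h]; trivial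
  have h2 : (1 : MvPolynomial (Fin 4) Ω) ∈ ciI A B :=
    mem_of_dh_ci A B hA hB (ci_reg_forms Ω A B hA0 hA hB h4).1 1 0 (isHomogeneous_one _ _) h1
  have h0 : ∀ a : Fin 3, constantCoeff (A a) = 0 := fun a => by
    rw [constantCoeff_eq]
    exact (hA a).coeff_eq_zero (by simp)
  have hB0 : constantCoeff B = 0 := by
    rw [constantCoeff_eq]
    exact hB.coeff_eq_zero (by simp)
  have h3 : eval (0 : Fin 4 → Ω) (1 : MvPolynomial (Fin 4) Ω) = 0 := by
    refine T10b_vanish A B 0 ?_ ?_ h2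
    · simp [hB0]
    · simp [dsc, h0]
  rw [map_one] at h3
  exact one_ne_zero h3

theorem dh_ciI (Ω : Type) [Field Ω] (A : Fin 3 → MvPolynomial (Fin 4) Ω)
    (B : MvPolynomial (Fin 4) Ω)
    (G : MvPolynomial (Fin 4) Ω) (hG : G ∈ ciI A B) : dh G ∈ affC A B := by
  have h3 : dh B ∈ affC A B := Ideal.subset_span (by simp)
  have h2 : dh (dsc A) ∈ affC A B := Ideal.subset_span (by simp)
  have h : ciI A B ≤ (affC A B).comap (dh : MvPolynomial (Fin 4) Ω →ₐ[Ω] MvPolynomial (Fin 3) Ω) :=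
    T10b_le A B h3 h2
  exact h hG

private theorem T10b_zero {Ω : Type} [Field Ω] (A : Fin 3 → MvPolynomial (Fin 4) Ω)
    (B : MvPolynomial (Fin 4) Ω) (hA0 : A 0 = X 0)
    (h2 : ∀ z : Fin 4 → Ω, z ≠ 0 → z 0 = 0 → eval z B = 0 → eval z (A 1) = 0 →
      eval z (A 2) ≠ 0 ∧ ∃ i, i ≠ 0 ∧ eval z (pderiv i B) ≠ 0)
    (N : ℕ) (hN : N ≠ 0) (p : MvPolynomial (Fin 4) Ω) (hp : p * (X 0 ^ N - p) ∈ ciI A B)
    (z : Fin 4 → Ω)
    (J : Ideal (MvPolynomial (Fin 4) Ω)) (hIJ : ciI A B ≤ J) (hXJ : X 0 ^ N ∈ J)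
    (hz : ∀ s : MvPolynomial (Fin 4) Ω, s * p ∈ J → eval z s = 0) : z = 0 := by
  by_contra hne
  have z0 : z 0 = 0 := by
    have := hz (X 0 ^ N) (Ideal.mul_mem_right _ _ hXJ)
    rw [map_pow, eval_X] at this
    exact pow_eq_zero_iff hN |>.1 this
  have a0 : eval z (A 0) = 0 := by rw [hA0, eval_X, z0]
  have b0 : eval z B = 0 := hz B (hIJ (Ideal.mul_mem_right _ _ (T10b_m1 A B)))
  have a1 : eval z (A 1) = 0 := by
    have := hz (dsc A) (hIJ (Ideal.mul_mem_right _ _ (T10b_m2 A B)))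
    rw [dsc, map_sub, map_mul, a0, zero_mul, map_pow, zero_sub, neg_eq_zero] at this
    exact pow_eq_zero_iff (two_ne_zero) |>.1 this
  obtain ⟨a2, i, hi, hd⟩ := h2 z hne z0 b0 a1
  have d2 : ∀ j, eval z (pderiv j (dsc A)) = eval z (A 2) * eval z (pderiv j (A 0)) := by
    intro j
    rw [dsc, map_sub, Derivation.leibniz, Derivation.leibniz_pow]
    simp only [smul_eq_mul, map_sub, map_add, map_mul, map_pow, a0, a1, nsmul_eq_mul, map_natCast]
    ring
  have hJ : LinearIndependent Ω (fun (i : Fin 2) (j : Fin 4) =>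
      eval z (pderiv j ((![B, dsc A] : Fin 2 → MvPolynomial (Fin 4) Ω) i))) := by
    rw [Fintype.linearIndependent_iff]
    intro c hc
    rw [Fin.sum_univ_two] at hc
    have hc1 := congrFun hc i
    have hc0 := congrFun hc 0
    simp only [Pi.add_apply, Pi.smul_apply, smul_eq_mul, Matrix.cons_val_zero,
      Matrix.cons_val_one, Pi.zero_apply, d2, hA0] at hc1 hc0
    rw [pderiv_X_of_ne hi.symm, map_zero, mul_zero, mul_zero, add_zero] at hc1
    have e0 : c 0 = 0 := by
      rcases mul_eq_zero.1 hc1 with h | h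
      · exact h
      · exact absurd h hd
    rw [e0, zero_mul, zero_add, pderiv_X_self, map_one, mul_one] at hc0
    have e1 : c 1 = 0 := by
      rcases mul_eq_zero.1 hc0 with h | h
      · exact h
      · exact absurd h a2
    intro j
    fin_cases j
    · exact e0
    · exact e1
  obtain ⟨s, hs, hs'⟩ := local_domain Ω 4 2 ![B, dsc A] z (by
    intro i
    fin_cases i
    · exact b0
    · show eval z (dsc A) = 0
      rw [dsc, map_sub, map_mul, map_pow, a0, a1]; ring) hJ p (X 0 ^ N - p) (by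
    have hr : Ideal.span (Set.range ![B, dsc A]) = ciI A B := by
      rw [Matrix.range_cons, Matrix.range_cons, Matrix.range_empty, Set.union_empty]
      rfl
    rw [hr]
    exact hp)
  have hle : Ideal.span (Set.range ![B, dsc A]) ≤ ciI A B := by
    rw [Ideal.span_le]
    rintro x ⟨i, rfl⟩
    fin_cases i
    · exact T10b_m1 A B
    · exact T10b_m2 A B
  rcases hs' with hs' | hs'
  · exact hs (hz s (hIJ (hle hs')))
  · refine hs (hz s ?_)
    have h5 : s * p = s * X 0 ^ N - s * (X 0 ^ N - p) := by ring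
    rw [h5]
    exact Ideal.sub_mem _ (Ideal.mul_mem_left _ _ hXJ) (hIJ (hle hs'))

theorem affC_idem (Ω : Type) [Field Ω] [IsAlgClosed Ω] (A : Fin 3 → MvPolynomial (Fin 4) Ω)
    (B : MvPolynomial (Fin 4) Ω) (hA0 : A 0 = X 0)
    (hA : ∀ a : Fin 3, (A a).IsHomogeneous (a.val + 1)) (hB : B.IsHomogeneous 2)
    (h4 : ∀ z : Fin 4 → Ω, z 0 = 0 → z 1 = 0 → eval z B = 0 → eval z (A 1) = 0 → z = 0)
    (h2 : ∀ z : Fin 4 → Ω, z ≠ 0 → z 0 = 0 → eval z B = 0 → eval z (A 1) = 0 →
      eval z (A 2) ≠ 0 ∧ ∃ i, i ≠ 0 ∧ eval z (pderiv i B) ≠ 0)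
    (p0 : MvPolynomial (Fin 3) Ω) (hp : p0 * p0 - p0 ∈ affC A B) :
    p0 ∈ affC A B ∨ p0 - 1 ∈ affC A B := by
  obtain ⟨reg1, reg2⟩ := ci_reg_forms Ω A B hA0 hA hB h4
  set N := p0.totalDegree + 1 with hN
  obtain ⟨p, hph, hpd⟩ := exists_dh p0 N (by omega)
  have hdX : dh (X 0 : MvPolynomial (Fin 4) Ω) = 1 := by
    rw [dh, aeval_X]
    rfl
  have hXh : (X 0 ^ N : MvPolynomial (Fin 4) Ω).IsHomogeneous N := by
    have := (isHomogeneous_X Ω (0 : Fin 4)).pow N
    rwa [one_mul] at this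
  have hP : p * (X 0 ^ N - p) ∈ ciI A B := by
    refine mem_of_dh_ci A B hA hB reg1 _ (N + N) (hph.mul (hXh.sub hph)) ?_
    rw [map_mul, map_sub, map_pow, hdX, one_pow, hpd]
    have : p0 * (1 - p0) = -(p0 * p0 - p0) := by ring
    rw [this]
    exact (affC A B).neg_mem hp
  let D : Ideal (MvPolynomial (Fin 4) Ω) :=
    Submodule.comap (LinearMap.mulRight (MvPolynomial (Fin 4) Ω) p)
      (Ideal.span {X 0 ^ N} ⊔ ciI A B : Ideal (MvPolynomial (Fin 4) Ω))
  have hD : ∀ s, s ∈ D ↔ s * p ∈ Ideal.span {X 0 ^ N} ⊔ ciI A B := fun s => Iff.rfl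
  have hrad : (X 1 : MvPolynomial (Fin 4) Ω) ∈ D.radical := by
    rw [← vanishingIdeal_zeroLocus_eq_radical (K := Ω), mem_vanishingIdeal_iff]
    intro z hz
    have hz0 : z = 0 := T10b_zero A B hA0 h2 N (by omega) p hP z
      (Ideal.span {X 0 ^ N} ⊔ ciI A B) le_sup_right (Ideal.mem_sup_left
      (Ideal.mem_span_singleton_self _)) (fun s hs => by
      have := hz s ((hD s).2 hs)
      exact this)
    rw [hz0, aeval_X]
    rfl
  obtain ⟨M, hM⟩ := hrad
  have hpJ : p ∈ Ideal.span {X 0 ^ N} ⊔ ciI A B := reg2 N M p ((hD _).1 hM)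
  obtain ⟨y, hy, i, hi, hyi⟩ := Submodule.mem_sup.1 hpJ
  obtain ⟨a, rfl⟩ := Ideal.mem_span_singleton'.1 hy
  have h5 : p = C (coeff 0 a) * X 0 ^ N + homogeneousComponent N i := by
    conv_lhs => rw [← homogeneousComponent_eq_self hph, ← hyi, map_add, T10b_comp a _ hXh N,
      if_pos le_rfl, Nat.sub_self, homogeneousComponent_zero]
  have h6 : p0 - C (coeff 0 a) ∈ affC A B := by
    have h7 : p0 = C (coeff 0 a) + dh (homogeneousComponent N i) := by
      conv_lhs => rw [← hpd, h5, map_add, map_mul, map_pow, hdX, one_pow, mul_one]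
      congr 1
      rw [dh]
      exact aeval_C _ _
    rw [h7, add_sub_cancel_left]
    exact dh_ciI Ω A B _ (T10b_homI hA hB N hi)
  set ε := coeff 0 a with hε
  have h7 : (C (ε * ε - ε) : MvPolynomial (Fin 3) Ω) ∈ affC A B := by
    have h8 : (C (ε * ε - ε) : MvPolynomial (Fin 3) Ω) =
        (p0 * p0 - p0) - (p0 + C ε - 1) * (p0 - C ε) := by
      rw [map_sub, map_mul]; ring
    rw [h8]
    exact (affC A B).sub_mem hp ((affC A B).mul_mem_left _ h6)
  have h8 : ε * ε - ε = 0 := by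
    by_contra hne
    exact affC_ne_top Ω A B hA0 hA hB h4 ((affC A B).eq_top_of_isUnit_mem h7
      ((isUnit_iff_ne_zero.2 hne).map C))
  have h9 : ε = 0 ∨ ε = 1 := by
    have : ε * (ε - 1) = 0 := by rw [← h8]; ring
    rcases mul_eq_zero.1 this with h | h
    · exact Or.inl h
    · exact Or.inr (sub_eq_zero.1 h)
  rcases h9 with h | h
  · left
    rwa [h, map_zero, sub_zero] at h6
  · right
    rwa [h, map_one] at h6

end Pool.Agent.LibHP.CI
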