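import Pool.Agent.LibHPF.T12
import Pool.Agent.LibHPC.TD

set_option autoImplicit false
open MvPolynomial

namespace Pool.Agent.LibHP.CI

variable {k : Type} [Field k] {n : ℕ} {D : Dat k n}

/-! # Row T12: the polynomials `cfP`, `bP` -/

section
variable {R S : Type} [CommRing R] [Algebra k R] [CommRing S] [Algebra k S]

theorem T12_cf_map (f : R →+* S) (hf : ∀ c : k, f (algebraMap k R c) = algebraMap k S c)
    (x y : Fin (n + 1) → R) (a : Fin 3) :
    f (cf D x y a) = cf D (fun j => f (x j)) (fun j => f (y j)) a := by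
  fin_cases a
  · change f (6 * Cq D x x y) = 6 * Cq D _ _ _
    rw [map_mul, Cq_map_ringHom D f hf, map_ofNat]
  · change f (3 * Cq D x y y) = 3 * Cq D _ _ _
    rw [map_mul, Cq_map_ringHom D f hf, map_ofNat]
  · change f (2 * Cq D y y y) = 2 * Cq D _ _ _
    rw [map_mul, Cq_map_ringHom D f hf, map_ofNat]

theorem Cq_frm (a b : Fin (n + 1) → R) (u : Fin 4 → Fin (n + 1) → R) (z : Fin 4 → R) :
    Cq D a b (frm u z) = ∑ i, z i * Cq D a b (u i) := by
  have h : frm u z = ∑ i, z i • u i := by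
    funext j
    simp only [frm, Finset.sum_apply, Pi.smul_apply, smul_eq_mul]
  rw [h, ← CqL_apply, map_sum]
  refine Finset.sum_congr rfl fun i _ => ?_
  rw [map_smul, CqL_apply, smul_eq_mul]

theorem Bq_frm (a : Fin (n + 1) → R) (u : Fin 4 → Fin (n + 1) → R) (z : Fin 4 → R) :
    Bq D a (frm u z) = ∑ i, z i * Bq D a (u i) := by
  have h : frm u z = ∑ i, z i • u i := by
    funext j
    simp only [frm, Finset.sum_apply, Pi.smul_apply, smul_eq_mul]
  rw [h, ← BqL_apply, map_sum]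
  refine Finset.sum_congr rfl fun i _ => ?_
  rw [map_smul, BqL_apply, smul_eq_mul]

end

section
variable {Ω : Type} [Field Ω] [Algebra k Ω]

private theorem T12_homC (a b c : Fin (n + 1) → MvPolynomial (Fin 4) Ω) (p q r : ℕ)
    (ha : ∀ i, (a i).IsHomogeneous p) (hb : ∀ i, (b i).IsHomogeneous q)
    (hc : ∀ i, (c i).IsHomogeneous r) :
    (Cq D a b c).IsHomogeneous (p + q + r) := by
  unfold Cq
  refine IsHomogeneous.sum _ _ _ fun i _ => IsHomogeneous.sum _ _ _ fun j _ =>
    IsHomogeneous.sum _ _ _ fun l _ => ?_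
  have h : p + q + r = 0 + (p + q + r) := by omega
  rw [h, T12_alg_C]
  exact (isHomogeneous_C _ _).mul (((ha i).mul (hb j)).mul (hc l))

private theorem T12_homB (a b : Fin (n + 1) → MvPolynomial (Fin 4) Ω) (p q : ℕ)
    (ha : ∀ i, (a i).IsHomogeneous p) (hb : ∀ i, (b i).IsHomogeneous q) :
    (Bq D a b).IsHomogeneous (p + q) := by
  unfold Bq
  refine IsHomogeneous.sum _ _ _ fun i _ => IsHomogeneous.sum _ _ _ fun j _ => ?_
  have h : p + q = 0 + (p + q) := by omega
  rw [h, T12_alg_C]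
  exact (isHomogeneous_C _ _).mul ((ha i).mul (hb j))

end

section
variable {Ω Ω' : Type} [Field Ω] [Algebra k Ω] [Field Ω'] [Algebra k Ω']

theorem cfP_eval (x : Fin (n + 1) → Ω) (u : Fin 4 → Fin (n + 1) → Ω) (z : Fin 4 → Ω) (a : Fin 3) :
    eval z (cfP D x u a) = cf D x (frm u z) a := by
  have hf : ∀ c : k, eval z (algebraMap k (MvPolynomial (Fin 4) Ω) c) = algebraMap k Ω c := by
    intro c
    rw [T12_alg_C, eval_C]
  unfold cfP
  rw [T12_cf_map (D := D) (eval z) hf]
  congr 1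
  · funext j
    rw [eval_C]
  · funext j
    rw [T12_frm_map]
    simp only [eval_C, eval_X]

theorem bP_eval (u : Fin 4 → Fin (n + 1) → Ω) (z : Fin 4 → Ω) :
    eval z (bP D u) = Bq D (frm u z) (frm u z) := by
  have hf : ∀ c : k, eval z (algebraMap k (MvPolynomial (Fin 4) Ω) c) = algebraMap k Ω c := by
    intro c
    rw [T12_alg_C, eval_C]
  unfold bP
  have e : (fun j => eval z (frm (fun a j => C (u a j)) X j)) = frm u z := by
    funext j
    rw [T12_frm_map]
    simp only [eval_C, eval_X]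
  rw [Bq_map_ringHom D (eval z) hf, e]

theorem cfP_aeval [Algebra Ω Ω'] [IsScalarTower k Ω Ω'] (x : Fin (n + 1) → Ω)
    (u : Fin 4 → Fin (n + 1) → Ω) (z : Fin 4 → Ω') (a : Fin 3) :
    aeval z (cfP D x u a) = cf D (fun j => algebraMap Ω Ω' (x j))
      (frm (fun a j => algebraMap Ω Ω' (u a j)) z) a := by
  have hf : ∀ c : k, ((aeval z : MvPolynomial (Fin 4) Ω →ₐ[Ω] Ω') : MvPolynomial (Fin 4) Ω →+* Ω')
      (algebraMap k (MvPolynomial (Fin 4) Ω) c) = algebraMap k Ω' c := by
    intro c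
    rw [T12_alg_C]
    change aeval z (C (algebraMap k Ω c)) = _
    rw [aeval_C, ← IsScalarTower.algebraMap_apply k Ω Ω']
  unfold cfP
  have h := T12_cf_map (D := D) ((aeval z : MvPolynomial (Fin 4) Ω →ₐ[Ω] Ω') :
    MvPolynomial (Fin 4) Ω →+* Ω') hf (fun j => C (x j)) (frm (fun a j => C (u a j)) X) a
  change aeval z (cf D (fun j => C (x j)) (frm (fun a j => C (u a j)) X) a) = _ at h
  rw [h]
  congr 1
  · funext j
    exact aeval_C z (x j)
  · funext j
    rw [T12_frm_map]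
    congr 1
    · funext a j
      exact aeval_C z (u a j)
    · funext a
      exact aeval_X z a

theorem bP_aeval [Algebra Ω Ω'] [IsScalarTower k Ω Ω']
    (u : Fin 4 → Fin (n + 1) → Ω) (z : Fin 4 → Ω') :
    aeval z (bP D u) = Bq D (frm (fun a j => algebraMap Ω Ω' (u a j)) z)
      (frm (fun a j => algebraMap Ω Ω' (u a j)) z) := by
  have hf : ∀ c : k, ((aeval z : MvPolynomial (Fin 4) Ω →ₐ[Ω] Ω') : MvPolynomial (Fin 4) Ω →+* Ω')
      (algebraMap k (MvPolynomial (Fin 4) Ω) c) = algebraMap k Ω' c := by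
    intro c
    rw [T12_alg_C]
    change aeval z (C (algebraMap k Ω c)) = _
    rw [aeval_C, ← IsScalarTower.algebraMap_apply k Ω Ω']
  have e : (fun j => ((aeval z : MvPolynomial (Fin 4) Ω →ₐ[Ω] Ω') : MvPolynomial (Fin 4) Ω →+* Ω')
      (frm (fun a j => C (u a j)) X j)) = frm (fun a j => algebraMap Ω Ω' (u a j)) z := by
    funext j
    rw [T12_frm_map]
    congr 1
    · funext a j
      exact aeval_C z (u a j)
    · funext a
      exact aeval_X z a
  have h := Bq_map_ringHom D ((aeval z : MvPolynomial (Fin 4) Ω →ₐ[Ω] Ω') :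
    MvPolynomial (Fin 4) Ω →+* Ω') hf (frm (fun a j => C (u a j)) X) (frm (fun a j => C (u a j)) X)
  rw [e] at h
  exact h

theorem cfP_map (f : Ω →ₐ[k] Ω') (x : Fin (n + 1) → Ω) (u : Fin 4 → Fin (n + 1) → Ω)
    (a : Fin 3) :
    MvPolynomial.map (f : Ω →+* Ω') (cfP D x u a) =
      cfP D (fun j => f (x j)) (fun a j => f (u a j)) a := by
  have hf : ∀ c : k, MvPolynomial.map (f : Ω →+* Ω') (algebraMap k (MvPolynomial (Fin 4) Ω) c) =
      algebraMap k (MvPolynomial (Fin 4) Ω') c := by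
    intro c
    rw [T12_alg_C, T12_alg_C, map_C]
    congr 1
    exact f.commutes c
  unfold cfP
  rw [T12_cf_map (D := D) (MvPolynomial.map (f : Ω →+* Ω')) hf]
  congr 1
  · funext j
    rw [map_C]
    rfl
  · funext j
    rw [T12_frm_map]
    simp only [map_C, map_X]
    rfl

theorem bP_map (f : Ω →ₐ[k] Ω') (u : Fin 4 → Fin (n + 1) → Ω) :
    MvPolynomial.map (f : Ω →+* Ω') (bP D u) = bP D (fun a j => f (u a j)) := by
  have hf : ∀ c : k, MvPolynomial.map (f : Ω →+* Ω') (algebraMap k (MvPolynomial (Fin 4) Ω) c) =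
      algebraMap k (MvPolynomial (Fin 4) Ω') c := by
    intro c
    rw [T12_alg_C, T12_alg_C, map_C]
    congr 1
    exact f.commutes c
  have e : (fun j => MvPolynomial.map (f : Ω →+* Ω') (frm (fun a j => C (u a j)) X j)) =
      frm (fun a j => C (f (u a j))) X := by
    funext j
    rw [T12_frm_map]
    simp only [map_C, map_X]
    rfl
  unfold bP
  rw [Bq_map_ringHom D (MvPolynomial.map (f : Ω →+* Ω')) hf, e]

theorem cfP_hom (x : Fin (n + 1) → Ω) (u : Fin 4 → Fin (n + 1) → Ω) (a : Fin 3) :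
    (cfP D x u a).IsHomogeneous (a.val + 1) := by
  have hC := T12_hom_C (n := n) x
  have hY := T12_hom_frm (n := n) u
  fin_cases a
  · exact T12_hom_num 6 _ 1 (T12_homC _ _ _ 0 0 1 hC hC hY)
  · exact T12_hom_num 3 _ 2 (T12_homC _ _ _ 0 1 1 hC hY hY)
  · exact T12_hom_num 2 _ 3 (T12_homC _ _ _ 1 1 1 hY hY hY)

theorem bP_hom (u : Fin 4 → Fin (n + 1) → Ω) : (bP D u).IsHomogeneous 2 :=
  T12_homB _ _ 1 1 (T12_hom_frm (n := n) u) (T12_hom_frm (n := n) u)

theorem cfP_zero (x : Fin (n + 1) → Ω) (u : Fin 4 → Fin (n + 1) → Ω)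
    (h0 : ∀ a, 6 * Cq D x x (u a) = if a = 0 then 1 else 0) : cfP D x u 0 = X 0 := by
  change 6 * Cq D (fun j => C (x j)) (fun j => C (x j)) (frm (fun a j => C (u a j)) X) = X 0
  rw [Cq_frm, Finset.mul_sum, Finset.sum_eq_single 0]
  · have h1 := Cq_map_ringHom D (C : Ω →+* MvPolynomial (Fin 4) Ω)
      (fun c => (T12_alg_C c).symm) x x (u 0)
    rw [← h1]
    have h2 := congrArg (C : Ω →+* MvPolynomial (Fin 4) Ω) (h0 0)
    rw [if_pos rfl, map_mul, map_ofNat, map_one] at h2
    linear_combination X 0 * h2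
  · intro b _ hb
    have h1 := Cq_map_ringHom D (C : Ω →+* MvPolynomial (Fin 4) Ω)
      (fun c => (T12_alg_C c).symm) x x (u b)
    rw [← h1]
    have h2 := congrArg (C : Ω →+* MvPolynomial (Fin 4) Ω) (h0 b)
    rw [if_neg hb, map_mul, map_ofNat, map_zero] at h2
    linear_combination X b * h2
  · intro h
    exact absurd (Finset.mem_univ 0) h

theorem bP_pderiv (hD : IsSymm23 D) (u : Fin 4 → Fin (n + 1) → Ω)
    (z : Fin 4 → Ω) (i : Fin 4) :
    eval z (pderiv i (bP D u)) = 2 * Bq D (frm u z) (u i) := by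
  set d : Derivation k (MvPolynomial (Fin 4) Ω) (MvPolynomial (Fin 4) Ω) :=
    (pderiv i : Derivation Ω (MvPolynomial (Fin 4) Ω) _).restrictScalars k with hd
  have hDY := T12_D_frm (k := k) i u
  rw [← hd] at hDY
  have hf : ∀ c : k, eval z (algebraMap k (MvPolynomial (Fin 4) Ω) c) = algebraMap k Ω c := by
    intro c
    rw [T12_alg_C, eval_C]
  have eY : (fun j => eval z (frm (fun a j => C (u a j)) X j)) = frm u z := by
    funext j
    rw [T12_frm_map]
    simp only [eval_C, eval_X]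
  have eU : (fun j => eval z (C (u i j) : MvPolynomial (Fin 4) Ω)) = u i := by
    funext j
    exact eval_C _
  have h1 : pderiv i (bP D u) = d (bP D u) := rfl
  rw [h1, bP, Bq_deriv2 hD, hDY, map_mul, Bq_map_ringHom D (eval z) hf, eY, eU, map_ofNat]

theorem cfP_pderiv (hD : IsSymm23 D) (x : Fin (n + 1) → Ω) (u : Fin 4 → Fin (n + 1) → Ω)
    (z : Fin 4 → Ω) (i : Fin 4) (a : Fin 3) :
    eval z (pderiv i (cfP D x u a)) = ![6 * Cq D x x (u i), 6 * Cq D x (frm u z) (u i),
      6 * Cq D (frm u z) (frm u z) (u i)] a := by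
  set d : Derivation k (MvPolynomial (Fin 4) Ω) (MvPolynomial (Fin 4) Ω) :=
    (pderiv i : Derivation Ω (MvPolynomial (Fin 4) Ω) _).restrictScalars k with hd
  have hDC := T12_D_C (k := k) i x
  have hDY := T12_D_frm (k := k) i u
  rw [← hd] at hDC hDY
  set XX : Fin (n + 1) → MvPolynomial (Fin 4) Ω := fun j => C (x j) with hXX
  set YY : Fin (n + 1) → MvPolynomial (Fin 4) Ω := frm (fun a j => C (u a j)) X with hYY
  have hf : ∀ c : k, eval z (algebraMap k (MvPolynomial (Fin 4) Ω) c) = algebraMap k Ω c := by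
    intro c
    rw [T12_alg_C, eval_C]
  have eX : (fun j => eval z (XX j)) = x := by
    funext j
    rw [hXX]
    exact eval_C _
  have eY : (fun j => eval z (YY j)) = frm u z := by
    funext j
    rw [hYY, T12_frm_map]
    simp only [eval_C, eval_X]
  have eU : (fun j => eval z (C (u i j) : MvPolynomial (Fin 4) Ω)) = u i := by
    funext j
    exact eval_C _
  have hnum : ∀ (m : ℕ) (P : MvPolynomial (Fin 4) Ω),
      pderiv i ((m : MvPolynomial (Fin 4) Ω) * P) = m * d P := by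
    intro m P
    rw [Derivation.leibniz, Derivation.map_natCast, smul_zero, add_zero, smul_eq_mul]
    rfl
  fin_cases a
  · change eval z (pderiv i (((6 : ℕ) : MvPolynomial (Fin 4) Ω) * Cq D XX XX YY)) =
      6 * Cq D x x (u i)
    rw [hnum, Cq_deriv, hDC, hDY, Cq_zero1, Cq_zero2, map_mul,
      map_natCast, zero_add, zero_add, Cq_map_ringHom D (eval z) hf, eX, eU]
    norm_num
  · change eval z (pderiv i (((3 : ℕ) : MvPolynomial (Fin 4) Ω) * Cq D XX YY YY)) =
      6 * Cq D x (frm u z) (u i)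
    rw [hnum, Cq_deriv, hDC, hDY, Cq_zero1, map_mul,
      map_natCast, zero_add, map_add, Cq_map_ringHom D (eval z) hf,
      Cq_map_ringHom D (eval z) hf, eX, eU, eY, Cq_comm23 hD x (u i) (frm u z)]
    push_cast
    ring
  · change eval z (pderiv i (((2 : ℕ) : MvPolynomial (Fin 4) Ω) * Cq D YY YY YY)) =
      6 * Cq D (frm u z) (frm u z) (u i)
    rw [hnum, Cq_deriv3 hD, hDY, map_mul, map_mul,
      map_natCast, map_ofNat, Cq_map_ringHom D (eval z) hf, eU, eY]
    push_cast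
    ring

end

/-- The restriction of the two forms to the line through `y` and the point `x`. -/
theorem cf_line (hD : IsSymm23 D) {R : Type} [CommRing R] [Algebra k R] (x y : Fin (n + 1) → R)
    (hx : Cq D x x x = 0) (hq : Bq D x x = 0) (hb : Bq D x y = 0) (s : R) :
    2 * Cq D (y + s • x) (y + s • x) (y + s • x) =
      cf D x y 0 * s ^ 2 + 2 * cf D x y 1 * s + cf D x y 2 ∧
    3 * Cq D (y + s • x) (y + s • x) x = cf D x y 0 * s + cf D x y 1 ∧
    6 * Cq D (y + s • x) x x = cf D x y 0 ∧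
    Bq D (y + s • x) (y + s • x) = Bq D y y ∧ Bq D x (y + s • x) = 0 := by
  have h1 : Cq D x y x = Cq D x x y := Cq_comm23 hD _ _ _
  have h2 : Cq D y x x = Cq D x x y := by rw [Cq_comm12 hD, h1]
  have h3 : Cq D y x y = Cq D x y y := Cq_comm12 hD _ _ _
  have h4 : Cq D y y x = Cq D x y y := by rw [Cq_comm23 hD, h3]
  have h5 : Bq D y x = Bq D x y := Bq_comm hD _ _
  have c0 : cf D x y 0 = 6 * Cq D x x y := rfl
  have c1 : cf D x y 1 = 3 * Cq D x y y := rfl
  have c2 : cf D x y 2 = 2 * Cq D y y y := rfl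
  rw [c0, c1, c2]
  simp only [Cq_add1, Cq_add2, Cq_add3, Cq_smul1, Cq_smul2, Cq_smul3, Bq_add1, Bq_add2, Bq_smul1,
    Bq_smul2, h1, h2, h3, h4, h5, hx, hq, hb]
  refine ⟨?_, ?_, ?_, ?_, ?_⟩ <;> ring

end Pool.Agent.LibHP.CI
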