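import Pool.Agent.LibHPC.T13a

set_option autoImplicit false
open MvPolynomial

namespace Pool.Agent.LibHP.CI

variable {k : Type} [Field k] [CharZero k] {n : ℕ} {D : Dat k n}

/-! # Row T13b: the points of the curve with `z 0 ≠ 0` -/

omit [CharZero k] in
private theorem T13b_exp (hD : IsSymm23 D) {R : Type} [CommRing R] [Algebra k R]
    (x y b : Fin (n + 1) → R) (s : R) :
    Cq D (y + s • x) (y + s • x) b = Cq D y y b + 2 * s * Cq D x y b + s ^ 2 * Cq D x x b := by
  have e1 : Cq D y x b = Cq D x y b := Cq_comm12 hD _ _ _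
  simp only [Cq_add1, Cq_add2, Cq_smul1, Cq_smul2, e1]
  ring

private theorem T13b_lin_add {R : Type} [CommRing R] (g x y : Fin (n + 1) → R) (s : R)
    (hx : x 0 = 1) : lin g x (y + s • x) = lin g x y := by
  rw [lin_add, lin_smul, lin_self _ _ hx, mul_zero, add_zero]

theorem frame_h1 (hD : IsSymm23 D) (hs : Smooth23 D) {K Ω : Type} [Field K]
    [Algebra k K] [Field Ω] [Algebra k Ω] [Algebra K Ω] [IsScalarTower k K Ω]
    (x : Fin (n + 1) → K) (hx : IsGenPt D x) (h : Option (Fin (n - 5)) × Fin (n + 1) → Ω)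
    (hh : AlgebraicIndependent K h) (x' : Fin (n + 1) → Ω)
    (hx' : ∀ i, x' i = algebraMap K Ω (x i)) (u : Fin 4 → Fin (n + 1) → Ω)
    (hu : IsFrame D x' h u) (z : Fin 4 → Ω) (hz0 : z 0 ≠ 0)
    (h3 : eval z (bP D u) = 0) (h2 : eval z (dsc (cfP D x' u)) = 0) :
    LinearIndependent Ω ![fun i => eval z (pderiv i (bP D u)),
      fun i => eval z (pderiv i (dsc (cfP D x' u)))] := by
  have : CharZero Ω := charZero_of_injective_algebraMap (algebraMap k Ω).injective
  have hxg : IsGenPt D x' := gen_img x hx x' hx'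
  have hself : Cq D x' x' x' = 0 := hxg.c
  have hselfq : Bq D x' x' = 0 := hxg.q
  -- the values
  obtain ⟨y, hy⟩ : ∃ y, y = frm u z := ⟨_, rfl⟩
  have hyb : Bq D x' y = 0 := by rw [hy]; exact fr_b hu z
  have hA : ∀ a, eval z (cfP D x' u a) = cf D x' y a := fun a => by rw [cfP_eval, hy]
  have hA0' : eval z (cfP D x' u 0) = z 0 := by
    rw [cfP_zero x' u hu.h0, eval_X]
  obtain ⟨A0, hA0⟩ : ∃ A0, A0 = cf D x' y 0 := ⟨_, rfl⟩
  obtain ⟨A1, hA1⟩ : ∃ A1, A1 = cf D x' y 1 := ⟨_, rfl⟩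
  obtain ⟨A2, hA2⟩ : ∃ A2, A2 = cf D x' y 2 := ⟨_, rfl⟩
  have hA0ne : A0 ≠ 0 := by
    rw [hA0, ← hA, hA0']
    exact hz0
  have h3' : Bq D y y = 0 := by
    rw [bP_eval, ← hy] at h3
    exact h3
  have h2' : A0 * A2 - A1 ^ 2 = 0 := by
    have h := h2
    simp only [dsc, map_sub, map_mul, map_pow, hA, ← hA0, ← hA1, ← hA2] at h
    exact h
  obtain ⟨s, hs'⟩ : ∃ s, s = -A1 / A0 := ⟨_, rfl⟩
  have e1 : A1 = -(s * A0) := by
    rw [hs']
    field_simp
  have e2 : A2 = s ^ 2 * A0 := by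
    have h : A0 * A2 = A0 * (s ^ 2 * A0) := by
      rw [e1] at h2'
      linear_combination h2'
    exact mul_left_cancel₀ hA0ne h
  -- the point `P`
  obtain ⟨P, hP⟩ : ∃ P, P = y + s • x' := ⟨_, rfl⟩
  obtain ⟨l0, l1, l2, l3, l4⟩ := cf_line hD x' y hself hselfq hyb s
  rw [← hA0, ← hA1, ← hA2, ← hP] at l0
  rw [← hA0, ← hA1, ← hP] at l1
  rw [← hA0, ← hP] at l2
  rw [← hP, h3'] at l3
  rw [← hP] at l4
  have p1 : Cq D P P P = 0 := by
    have h : (2 : Ω) * Cq D P P P = 0 := by rw [l0, e1, e2]; ring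
    exact (mul_eq_zero.1 h).resolve_left (by norm_num)
  have p2 : Cq D P P x' = 0 := by
    have h : (3 : Ω) * Cq D P P x' = 0 := by rw [l1, e1]; ring
    exact (mul_eq_zero.1 h).resolve_left (by norm_num)
  have p3 : Cq D P x' x' ≠ 0 := by
    intro h
    rw [h, mul_zero] at l2
    exact hA0ne l2.symm
  have hPl : ∀ i, lin (fun j => h (some i, j)) x' P = 0 := by
    intro i
    rw [hP, T13b_lin_add _ _ _ _ hxg.1, hy]
    exact fr_some hu z i
  -- the gradients
  have g3 : ∀ i, eval z (pderiv i (bP D u)) = 2 * Bq D y (u i) := by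
    intro i
    rw [bP_pderiv hD, hy]
  have g2 : ∀ i, eval z (pderiv i (dsc (cfP D x' u))) =
      A0 * (6 * Cq D y y (u i)) + A2 * (6 * Cq D x' x' (u i)) -
        2 * A1 * (6 * Cq D x' y (u i)) := by
    intro i
    have d0 := cfP_pderiv hD x' u z i 0
    have d1 := cfP_pderiv hD x' u z i 1
    have d2 := cfP_pderiv hD x' u z i 2
    simp only [Matrix.cons_val_zero, Matrix.cons_val_one, Matrix.cons_val, ← hy] at d0 d1 d2
    unfold dsc
    rw [map_sub, Derivation.leibniz, pow_two, Derivation.leibniz]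
    simp only [smul_eq_mul, map_sub, map_add, map_mul, d0, d1, d2, hA, ← hA0, ← hA1, ← hA2]
    ring
  -- the pairing
  have key : ∀ (b : Fin (n + 1) → Ω) (ξ : Ω) (c : Fin 4 → Ω), Bq D x' b = 0 →
      (∀ j, b j = ξ * x' j + frm u c j) →
      ∑ a, c a * eval z (pderiv a (bP D u)) = 2 * Bq D P b ∧
      ∑ a, c a * eval z (pderiv a (dsc (cfP D x' u))) = 6 * A0 * Cq D P P b := by
    intro b ξ c hxb hb
    have hb' : b = ξ • x' + frm u c := by
      funext j
      rw [hb j, Pi.add_apply, Pi.smul_apply, smul_eq_mul]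
    have hDq : ∀ p : Fin (n + 1) → Ω, ∑ a, c a * (2 * Bq D p (u a)) =
        2 * Bq D p b - ξ * (2 * Bq D p x') := by
      intro p
      rw [hb', Bq_add2, Bq_smul2, Bq_frm]
      have h : ∑ a, c a * (2 * Bq D p (u a)) = 2 * ∑ a, c a * Bq D p (u a) := by
        rw [Finset.mul_sum]
        exact Finset.sum_congr rfl fun a _ => by ring
      rw [h]
      ring
    have hDc : ∀ p q : Fin (n + 1) → Ω, ∑ a, c a * (6 * Cq D p q (u a)) =
        6 * Cq D p q b - ξ * (6 * Cq D p q x') := by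
      intro p q
      rw [hb', Cq_add3, Cq_smul3, Cq_frm]
      have h : ∑ a, c a * (6 * Cq D p q (u a)) = 6 * ∑ a, c a * Cq D p q (u a) := by
        rw [Finset.mul_sum]
        exact Finset.sum_congr rfl fun a _ => by ring
      rw [h]
      ring
    have f1 : 6 * Cq D x' y x' = A0 := by
      rw [Cq_comm23 hD, hA0]
      simp [cf]
    have f2 : 6 * Cq D y y x' = 2 * A1 := by
      rw [Cq_comm23 hD, Cq_comm12 hD, hA1]
      simp only [cf, Matrix.cons_val_zero, Matrix.cons_val_one, Matrix.cons_val]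
      ring
    have hD0 := hDc x' x'
    have hD1 := hDc x' y
    have hD2 := hDc y y
    rw [hself, mul_zero, mul_zero, sub_zero] at hD0
    rw [f1] at hD1
    rw [f2] at hD2
    have x2 := T13b_exp hD x' y b s
    rw [← hP] at x2
    constructor
    · simp only [g3]
      rw [hDq, Bq_comm hD y x', hyb, hP, Bq_add1, Bq_smul1, hxb]
      ring
    · have h : ∑ a, c a * eval z (pderiv a (dsc (cfP D x' u))) =
          A0 * ∑ a, c a * (6 * Cq D y y (u a)) + A2 * ∑ a, c a * (6 * Cq D x' x' (u a)) -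
            2 * A1 * ∑ a, c a * (6 * Cq D x' y (u a)) := by
        simp only [Finset.mul_sum, ← Finset.sum_add_distrib, ← Finset.sum_sub_distrib]
        refine Finset.sum_congr rfl fun a _ => ?_
        rw [g2 a]
        ring
      rw [h, hD0, hD1, hD2, x2, e1, e2]
      ring
  -- the two vectors
  obtain ⟨b0, hb0l, hb0x, hb00, hb01⟩ :=
    sec_tri hD hs x hx h hh x' hx' P hPl l3 p1 l4 p2 p3 1 0
  obtain ⟨b1, hb1l, hb1x, hb10, hb11⟩ :=
    sec_tri hD hs x hx h hh x' hx' P hPl l3 p1 l4 p2 p3 0 1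
  obtain ⟨ξ0, c0, hc0⟩ := hu.span b0 hb0l hb0x
  obtain ⟨ξ1, c1, hc1⟩ := hu.span b1 hb1l hb1x
  obtain ⟨k0, k0'⟩ := key b0 ξ0 c0 hb0x hc0
  obtain ⟨k1, k1'⟩ := key b1 ξ1 c1 hb1x hc1
  rw [hb00] at k0
  rw [hb01, mul_zero] at k0'
  rw [hb10, mul_zero] at k1
  rw [hb11] at k1'
  rw [LinearIndependent.pair_iff]
  intro α β hαβ
  have hpair : ∀ c : Fin 4 → Ω, α * ∑ a, c a * eval z (pderiv a (bP D u)) +
      β * ∑ a, c a * eval z (pderiv a (dsc (cfP D x' u))) = 0 := by
    intro c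
    rw [Finset.mul_sum, Finset.mul_sum, ← Finset.sum_add_distrib]
    refine Finset.sum_eq_zero fun a _ => ?_
    have h := congrFun hαβ a
    simp only [Pi.add_apply, Pi.smul_apply, smul_eq_mul, Pi.zero_apply] at h
    linear_combination c a * h
  have q0 := hpair c0
  have q1 := hpair c1
  rw [k0, k0'] at q0
  rw [k1, k1'] at q1
  refine ⟨?_, ?_⟩
  · have h : α * 2 = 0 := by linear_combination q0
    exact (mul_eq_zero.1 h).resolve_right (by norm_num)
  · have h : β * (6 * A0) = 0 := by linear_combination q1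
    exact (mul_eq_zero.1 h).resolve_right (mul_ne_zero (by norm_num) hA0ne)

end Pool.Agent.LibHP.CI
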