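import Pool.Agent.LibHPC.T10
import Pool.Agent.LibHPC.T13b

set_option autoImplicit false
open MvPolynomial

namespace Pool.Agent.LibHP.CI

variable {k : Type} [Field k] [CharZero k] {n : ℕ} {D : Dat k n}

/-- The curve of a frame. -/
theorem frame_prime (hD : IsSymm23 D) (hs : Smooth23 D) (hn : 5 ≤ n) {K Ω : Type} [Field K]
    [Algebra k K] [Field Ω] [IsAlgClosed Ω] [Algebra k Ω] [Algebra K Ω] [IsScalarTower k K Ω]
    (x : Fin (n + 1) → K) (hx : IsGenPt D x) (h : Option (Fin (n - 5)) × Fin (n + 1) → Ω)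
    (hh : AlgebraicIndependent K h) (x' : Fin (n + 1) → Ω)
    (hx' : ∀ i, x' i = algebraMap K Ω (x i)) (u : Fin 4 → Fin (n + 1) → Ω)
    (hu : IsFrame D x' h u) :
    (affC (cfP D x' u) (bP D u)).IsPrime ∧
    (∀ f, X 0 * f ∈ ciI (cfP D x' u) (bP D u) → f ∈ ciI (cfP D x' u) (bP D u)) ∧
    ∃ z : Fin 4 → Ω, z 0 = 0 ∧ eval z (bP D u) = 0 ∧ eval z (cfP D x' u 1) = 0 ∧
      eval z (cfP D x' u 2) ≠ 0 := by
  have hA0 := cfP_zero x' u hu.h0
  have hA := cfP_hom (D := D) x' u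
  have hB := bP_hom (D := D) u
  have h4 := frame_h4 hD hs hn x hx h hh x' hx' u hu
  have h2 := frame_h2 hD hs hn x hx h hh x' hx' u hu
  refine ⟨prime_affC Ω _ _ hA0 hA hB h4 h2 (frame_h1 hD hs x hx h hh x' hx' u hu),
    (ci_reg_forms Ω _ _ hA0 hA hB h4).1, ?_⟩
  obtain ⟨z, hz, hz'⟩ := exists_zero_of_lt Ω (Fin 4) (Fin 3) (by simp)
    ![X 0, bP D u, cfP D x' u 1] ![1, 2, 2] (by
      intro i; fin_cases i <;> simp) (by
      intro i
      fin_cases i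
      · exact isHomogeneous_X Ω 0
      · exact hB
      · exact hA 1)
  have e0 : z 0 = 0 := by simpa using hz' 0
  have e1 : eval z (bP D u) = 0 := hz' 1
  have e2 : eval z (cfP D x' u 1) = 0 := hz' 2
  exact ⟨z, e0, e1, e2, (h2 z hz e0 e1 e2).1⟩

end Pool.Agent.LibHP.CI
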