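import Pool.Agent.LibHPC.T3
import Pool.Agent.LibHPC.T12

set_option autoImplicit false
open MvPolynomial

namespace Pool.Agent.LibHP.CI

variable {k : Type} [Field k] [CharZero k] {n : ℕ} {D : Dat k n}

/-! # Row T13a: the points of the curve with `z 0 = 0` -/

section
variable {Ω : Type} [Field Ω] [Algebra k Ω]

omit [CharZero k] in
theorem lin_frm {n : ℕ} {Ω : Type} [CommRing Ω] (h x : Fin (n + 1) → Ω)
    (u : Fin 4 → Fin (n + 1) → Ω)
    (z : Fin 4 → Ω) : lin h x (frm u z) = ∑ a, z a * lin h x (u a) := by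
  simp only [lin, frm, Finset.mul_sum, Finset.sum_mul, ← Finset.sum_sub_distrib]
  rw [Finset.sum_comm]
  refine Finset.sum_congr rfl fun a _ => Finset.sum_congr rfl fun j _ => ?_
  ring

omit [CharZero k] in
theorem fr_z0 {x : Fin (n + 1) → Ω} {h : Option (Fin (n - 5)) × Fin (n + 1) → Ω}
    {u : Fin 4 → Fin (n + 1) → Ω} (hu : IsFrame D x h u) (z : Fin 4 → Ω) :
    6 * Cq D x x (frm u z) = z 0 := by
  rw [Cq_frm, Finset.mul_sum]
  have h1 : ∀ a, 6 * (z a * Cq D x x (u a)) = z a * if a = 0 then 1 else 0 := by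
    intro a
    rw [← hu.h0 a]
    ring
  simp only [h1, mul_ite, mul_one, mul_zero, Finset.sum_ite_eq', Finset.mem_univ, if_true]

omit [CharZero k] in
theorem fr_b {x : Fin (n + 1) → Ω} {h : Option (Fin (n - 5)) × Fin (n + 1) → Ω}
    {u : Fin 4 → Fin (n + 1) → Ω} (hu : IsFrame D x h u) (z : Fin 4 → Ω) :
    Bq D x (frm u z) = 0 := by
  rw [Bq_frm]
  simp only [hu.hb, mul_zero, Finset.sum_const_zero]

omit [CharZero k] in
theorem fr_z1 {x : Fin (n + 1) → Ω} {h : Option (Fin (n - 5)) × Fin (n + 1) → Ω}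
    {u : Fin 4 → Fin (n + 1) → Ω} (hu : IsFrame D x h u) (z : Fin 4 → Ω) :
    lin (fun j => h (none, j)) x (frm u z) = z 1 := by
  rw [lin_frm]
  simp only [hu.hg, mul_ite, mul_one, mul_zero, Finset.sum_ite_eq', Finset.mem_univ, if_true]

omit [CharZero k] in
theorem fr_some {x : Fin (n + 1) → Ω} {h : Option (Fin (n - 5)) × Fin (n + 1) → Ω}
    {u : Fin 4 → Fin (n + 1) → Ω} (hu : IsFrame D x h u) (z : Fin 4 → Ω) (i : Fin (n - 5)) :
    lin (fun j => h (some i, j)) x (frm u z) = 0 := by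
  rw [lin_frm]
  simp only [hu.hu, mul_zero, Finset.sum_const_zero]

omit [CharZero k] in
theorem fr_mul {x : Fin (n + 1) → Ω} {h : Option (Fin (n - 5)) × Fin (n + 1) → Ω}
    {u : Fin 4 → Fin (n + 1) → Ω} (hu : IsFrame D x h u) {z : Fin 4 → Ω} {c : Ω}
    (hc : frm u z = c • x) : z = 0 := by
  refine (hu.indep (-c) z fun j => ?_).2
  rw [hc, Pi.smul_apply, smul_eq_mul]
  ring

end

section
variable {K Ω : Type} [Field K] [Algebra k K] [Field Ω] [Algebra k Ω] [Algebra K Ω]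
  [IsScalarTower k K Ω]

theorem frame_h4 (hD : IsSymm23 D) (hs : Smooth23 D) (hn : 5 ≤ n) (x : Fin (n + 1) → K)
    (hx : IsGenPt D x) (h : Option (Fin (n - 5)) × Fin (n + 1) → Ω)
    (hh : AlgebraicIndependent K h) (x' : Fin (n + 1) → Ω)
    (hx' : ∀ i, x' i = algebraMap K Ω (x i)) (u : Fin 4 → Fin (n + 1) → Ω)
    (hu : IsFrame D x' h u) (z : Fin 4 → Ω) (hz0 : z 0 = 0) (hz1 : z 1 = 0)
    (h1 : eval z (bP D u) = 0) (h2 : eval z (cfP D x' u 1) = 0) : z = 0 := by
  have hc0 : CharZero Ω := charZero_of_injective_algebraMap (algebraMap k Ω).injective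
  have e0 := fr_z0 hu z
  rw [hz0] at e0
  have e1 : Cq D x' x' (frm u z) = 0 :=
    (mul_eq_zero.1 e0).resolve_left (by norm_num)
  rw [cfP_eval] at h2
  rw [bP_eval] at h1
  have e2 : Cq D x' (frm u z) (frm u z) = 0 := by
    have h3 : 3 * Cq D x' (frm u z) (frm u z) = 0 := h2
    exact (mul_eq_zero.1 h3).resolve_left (by norm_num)
  obtain ⟨c, hc⟩ := sec_bad hD hs hn x hx h hh x' hx' (frm u z) (by
    intro i
    match i with
    | none => rw [fr_z1 hu, hz1]
    | some i => exact fr_some hu z i) (fr_b hu z) h1 e1 e2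
  exact fr_mul hu hc

theorem frame_h2 (hD : IsSymm23 D) (hs : Smooth23 D) (hn : 5 ≤ n) (x : Fin (n + 1) → K)
    (hx : IsGenPt D x) (h : Option (Fin (n - 5)) × Fin (n + 1) → Ω)
    (hh : AlgebraicIndependent K h) (x' : Fin (n + 1) → Ω)
    (hx' : ∀ i, x' i = algebraMap K Ω (x i)) (u : Fin 4 → Fin (n + 1) → Ω)
    (hu : IsFrame D x' h u) (z : Fin 4 → Ω) (hz : z ≠ 0) (hz0 : z 0 = 0)
    (h1 : eval z (bP D u) = 0) (h2 : eval z (cfP D x' u 1) = 0) :
    eval z (cfP D x' u 2) ≠ 0 ∧ ∃ i, i ≠ 0 ∧ eval z (pderiv i (bP D u)) ≠ 0 := by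
  have hc0 : CharZero Ω := charZero_of_injective_algebraMap (algebraMap k Ω).injective
  have e0 := fr_z0 hu z
  rw [hz0] at e0
  have e1 : Cq D x' x' (frm u z) = 0 :=
    (mul_eq_zero.1 e0).resolve_left (by norm_num)
  rw [cfP_eval] at h2
  rw [bP_eval] at h1
  have e2 : Cq D x' (frm u z) (frm u z) = 0 := by
    have h3 : 3 * Cq D x' (frm u z) (frm u z) = 0 := h2
    exact (mul_eq_zero.1 h3).resolve_left (by norm_num)
  have eb := fr_b hu z
  have hyx : ∀ c : Ω, frm u z ≠ c • x' := fun c hc => hz (fr_mul hu hc)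
  refine ⟨?_, ?_⟩
  · intro h3
    rw [cfP_eval] at h3
    have e4 : Cq D (frm u z) (frm u z) (frm u z) = 0 := by
      have h4 : 2 * Cq D (frm u z) (frm u z) (frm u z) = 0 := h3
      exact (mul_eq_zero.1 h4).resolve_left (by norm_num)
    obtain ⟨c, hc⟩ := sec_line hD hs hn x hx h hh x' hx' (frm u z) (fun i => fr_some hu z i)
      eb h1 e1 e2 e4
    exact hyx c hc
  · obtain ⟨b, hb1, hb2, hb3, hb4⟩ := sec_bad_tangent hD hs x hx h hh x' hx' (frm u z) hyx
      (fun i => fr_some hu z i) eb h1 e1 e2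
    obtain ⟨ξ, c, hbc⟩ := hu.span b hb1 hb2
    have hb : b = ξ • x' + frm u c := by
      funext j
      rw [hbc j]
      rfl
    have hself : Cq D x' x' x' = 0 := (gen_img x hx x' hx').c
    have hc0' : c 0 = 0 := by
      have h3 := fr_z0 hu c
      rw [hb, Cq_add3, Cq_smul3, hself, mul_zero, zero_add] at hb3
      rw [hb3, mul_zero] at h3
      exact h3.symm
    have hsum : ∑ i, c i * Bq D (frm u z) (u i) = 1 := by
      rw [hb, Bq_add2, Bq_smul2, Bq_comm hD (frm u z) x', eb, mul_zero, zero_add, Bq_frm] at hb4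
      exact hb4
    obtain ⟨i, -, hi⟩ := Finset.exists_ne_zero_of_sum_ne_zero (by rw [hsum]; exact one_ne_zero)
    refine ⟨i, ?_, ?_⟩
    · rintro rfl
      rw [hc0', zero_mul] at hi
      exact hi rfl
    · rw [bP_pderiv hD]
      exact mul_ne_zero (by norm_num) (right_ne_zero_of_mul hi)

end

end Pool.Agent.LibHP.CI
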