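import Pool.Agent.LibHPF.T2a
import Pool.Agent.LibHPC.T1

set_option autoImplicit false
open MvPolynomial

namespace Pool.Agent.LibHP.CI

variable {k : Type} [Field k] [CharZero k] {n : ℕ} {D : Dat k n}

/-!
# Row T2: generic linear sections through the generic point `x`
-/

section
variable {R : Type} [CommRing R] {n : ℕ}

theorem lin_add (h x b b' : Fin (n + 1) → R) : lin h x (b + b') = lin h x b + lin h x b' := by
  unfold lin
  rw [← Finset.sum_add_distrib]
  refine Finset.sum_congr rfl fun j _ => ?_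
  rw [Pi.add_apply, Pi.add_apply]
  ring

theorem lin_sub (h x a b : Fin (n + 1) → R) : lin h x (a - b) = lin h x a - lin h x b := by
  unfold lin
  rw [← Finset.sum_sub_distrib]
  refine Finset.sum_congr rfl fun j _ => ?_
  rw [Pi.sub_apply, Pi.sub_apply]
  ring

theorem lin_smul (h x b : Fin (n + 1) → R) (r : R) : lin h x (r • b) = r * lin h x b := by
  unfold lin
  rw [Finset.mul_sum]
  refine Finset.sum_congr rfl fun j _ => ?_
  rw [Pi.smul_apply, Pi.smul_apply, smul_eq_mul, smul_eq_mul]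
  ring

theorem lin_self (h x : Fin (n + 1) → R) (hx : x 0 = 1) : lin h x x = 0 := by
  unfold lin
  refine Finset.sum_eq_zero fun j _ => ?_
  rw [hx, one_mul, sub_self, mul_zero]

theorem lin_LL {ι : Type} (h : ι × Fin (n + 1) → R)
    (x : Fin (n + 1) → R) : ∃ Λ : (Fin (n + 1) → R) →ₗ[R] (ι → R),
      ∀ b i, Λ b i = lin (fun j => h (i, j)) x b := by
  refine ⟨⟨⟨fun b i => lin (fun j => h (i, j)) x b, ?_⟩, ?_⟩, fun b i => rfl⟩
  · intro a b
    funext i
    exact lin_add _ _ _ _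
  · intro r b
    funext i
    exact lin_smul _ _ _ _

end

/-- independent functionals take arbitrary values -/
theorem indep_surj {Ω : Type} [Field Ω] {n m : ℕ} (T : (Fin (n + 1) → Ω) →ₗ[Ω] (Fin m → Ω))
    (hT : ∀ ρ : Fin m → Ω, (∀ a, ∑ i, ρ i * T a i = 0) → ρ = 0) : Function.Surjective T := by
  classical
  rw [← LinearMap.range_eq_top]
  by_contra hne
  obtain ⟨f, hf, hle⟩ := Submodule.exists_le_ker_of_lt_top _ (lt_top_iff_ne_top.2 hne)
  obtain ⟨ρ, hρ⟩ : ∃ ρ : Fin m → Ω, ρ = fun i => f (Pi.single i 1) := ⟨_, rfl⟩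
  have hfy : ∀ y : Fin m → Ω, f y = ∑ i, y i * ρ i := by
    intro y
    have h7 := f.pi_apply_eq_sum_univ y
    rw [h7]
    refine Finset.sum_congr rfl fun i _ => ?_
    rw [smul_eq_mul, hρ]
    congr 2
    funext j
    rw [Pi.single_apply]
    simp only [eq_comm]
  have hρ0 : ρ = 0 := by
    refine hT ρ fun a => ?_
    have h8 : f (T a) = 0 := hle ⟨a, rfl⟩
    rw [hfy] at h8
    rw [← h8]
    exact Finset.sum_congr rfl fun i _ => mul_comm _ _
  apply hf
  ext y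
  rw [LinearMap.comp_apply, LinearMap.zero_comp, LinearMap.zero_apply, hfy, hρ0]
  simp

/-- the dimension count -/
theorem dim_bound {Ω ι : Type} [Field Ω] [Fintype ι] {n m : ℕ}
    (T : (Fin (n + 1) → Ω) →ₗ[Ω] (Fin m → Ω)) (hT : Function.Surjective T)
    (Λ : (Fin (n + 1) → Ω) →ₗ[Ω] (ι → Ω)) (x y : Fin (n + 1) → Ω) (hx : x ≠ 0)
    (hy : ∀ c : Ω, y ≠ c • x) (hTx : T x = 0) (hTy : T y = 0) (hΛx : Λ x = 0) (hΛy : Λ y = 0)
    (hsur : ∀ t : ι → Ω, ∃ b, T b = 0 ∧ Λ b = t) : m + Fintype.card ι + 2 ≤ n + 1 := by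
  classical
  obtain ⟨F, hF⟩ : ∃ F : (Fin (n + 1) → Ω) →ₗ[Ω] (Fin m → Ω) × (ι → Ω), F = T.prod Λ := ⟨_, rfl⟩
  have hFb : ∀ b, F b = (T b, Λ b) := fun b => by rw [hF]; rfl
  have hFs : LinearMap.range F = ⊤ := by
    rw [LinearMap.range_eq_top]
    rintro ⟨s, t⟩
    obtain ⟨b0, hb0⟩ := hT s
    obtain ⟨b1, hb1, hb2⟩ := hsur (t - Λ b0)
    refine ⟨b0 + b1, ?_⟩
    rw [hFb, map_add, map_add, hb0, hb1, hb2, add_zero, add_sub_cancel]
  have h3 := LinearMap.finrank_range_add_finrank_ker F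
  rw [hFs, finrank_top, Module.finrank_prod, Module.finrank_fin_fun,
    Module.finrank_fintype_fun_eq_card, Module.finrank_fin_fun] at h3
  have hli : LinearIndependent Ω ![x, y] := by
    rw [LinearIndependent.pair_iff]
    intro s t hst
    have ht : t = 0 := by
      by_contra ht
      apply hy (-(s / t))
      have h5 : t • y = -(s • x) := eq_neg_of_add_eq_zero_right hst
      have h6 : y = t⁻¹ • (t • y) := by rw [smul_smul, inv_mul_cancel₀ ht, one_smul]
      rw [h6, h5, smul_neg, smul_smul, neg_smul]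
      congr 2
      field_simp
    rw [ht, zero_smul, add_zero] at hst
    exact ⟨(smul_eq_zero.1 hst).resolve_right hx, ht⟩
  have h4 : Submodule.span Ω (Set.range ![x, y]) ≤ LinearMap.ker F := by
    rw [Submodule.span_le]
    rintro z ⟨i, rfl⟩
    fin_cases i
    · show F x = 0
      rw [hFb, hTx, hΛx]
      rfl
    · show F y = 0
      rw [hFb, hTy, hΛy]
      rfl
  have h5 := Submodule.finrank_mono h4
  rw [finrank_span_eq_card hli, Fintype.card_fin] at h5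
  omega

section
variable {Ω0 Ω1 : Type} [Field Ω0] [Algebra k Ω0] [Field Ω1] [Algebra k Ω1] [Algebra Ω0 Ω1]
  [IsScalarTower k Ω0 Ω1]

theorem der_full (x : Fin (n + 1) → Ω0) (h : Option (Fin (n - 5)) × Fin (n + 1) → Ω1)
    (hh : AlgebraicIndependent Ω0 h) (x' : Fin (n + 1) → Ω1)
    (hx' : ∀ i, x' i = algebraMap Ω0 Ω1 (x i)) (y : Fin (n + 1) → Ω1)
    (hyx : ∀ c : Ω1, y ≠ c • x') (hy : ∀ i, lin (fun j => h (i, j)) x' y = 0)
    (t : Option (Fin (n - 5)) → Ω1) :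
    ∃ δ : Derivation k Ω1 Ω1, (∀ i, δ (x' i) = 0) ∧
      ∀ i, lin (fun j => h (i, j)) x' (fun j => δ (y j)) = t i := by
  have : CharZero Ω0 := charZero_of_injective_algebraMap (algebraMap k Ω0).injective
  obtain ⟨δ, hδ⟩ := exists_deriv_section Ω0 Ω1 (Option (Fin (n - 5))) h hh x x' hx' y hyx hy t
  refine ⟨δ.restrictScalars k, fun i => ?_, fun i => hδ i⟩
  show δ (x' i) = 0
  rw [hx', δ.map_algebraMap]

theorem der_some (x : Fin (n + 1) → Ω0) (h : Option (Fin (n - 5)) × Fin (n + 1) → Ω1)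
    (hh : AlgebraicIndependent Ω0 h) (x' : Fin (n + 1) → Ω1)
    (hx' : ∀ i, x' i = algebraMap Ω0 Ω1 (x i)) (y : Fin (n + 1) → Ω1)
    (hyx : ∀ c : Ω1, y ≠ c • x') (hy : ∀ i, lin (fun j => h (some i, j)) x' y = 0)
    (t : Fin (n - 5) → Ω1) :
    ∃ δ : Derivation k Ω1 Ω1, (∀ i, δ (x' i) = 0) ∧
      ∀ i, lin (fun j => h (some i, j)) x' (fun j => δ (y j)) = t i := by
  have : CharZero Ω0 := charZero_of_injective_algebraMap (algebraMap k Ω0).injective
  have hinj : Function.Injective (fun q : Fin (n - 5) × Fin (n + 1) =>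
      ((some q.1, q.2) : Option (Fin (n - 5)) × Fin (n + 1))) := by
    rintro ⟨a, b⟩ ⟨a', b'⟩ hab
    simp only [Prod.mk.injEq, Option.some.injEq] at hab
    exact Prod.ext hab.1 hab.2
  obtain ⟨δ, hδ⟩ := exists_deriv_section Ω0 Ω1 (Fin (n - 5)) (fun q => h (some q.1, q.2))
    (hh.comp _ hinj) x x' hx' y hyx hy t
  refine ⟨δ.restrictScalars k, fun i => ?_, fun i => hδ i⟩
  show δ (x' i) = 0
  rw [hx', δ.map_algebraMap]

theorem gen_img (x : Fin (n + 1) → Ω0) (hx : IsGenPt D x) (x' : Fin (n + 1) → Ω1)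
    (hx' : ∀ i, x' i = algebraMap Ω0 Ω1 (x i)) : IsGenPt D x' := by
  have h5 := hx.map (IsScalarTower.toAlgHom k Ω0 Ω1)
  have h6 : x' = fun i => (IsScalarTower.toAlgHom k Ω0 Ω1) (x i) := by
    funext i
    exact hx' i
  rw [h6]
  exact h5

/-- Derivatives of the equations at `(x, y)` for a derivation killing `x`. -/
theorem der_eqs (hD : IsSymm23 D) {Ω : Type} [Field Ω] [Algebra k Ω] (δ : Derivation k Ω Ω)
    (x y : Fin (n + 1) → Ω) (hx : ∀ i, δ (x i) = 0) :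
    δ (Bq D x y) = Bq D x (fun i => δ (y i)) ∧ δ (Bq D y y) = 2 * Bq D y (fun i => δ (y i)) ∧
    δ (Cq D x x y) = Cq D x x (fun i => δ (y i)) ∧
    δ (Cq D x y y) = 2 * Cq D x y (fun i => δ (y i)) ∧
    δ (Cq D y y y) = 3 * Cq D y y (fun i => δ (y i)) := by
  have h0 : (fun i => δ (x i)) = 0 := by
    funext i
    exact hx i
  refine ⟨?_, Bq_deriv2 hD δ y, ?_, ?_, Cq_deriv3 hD δ y⟩
  · rw [Bq_deriv, h0, Bq_zero1, zero_add]
  · rw [Cq_deriv, h0, Cq_zero1, Cq_zero2, zero_add, zero_add]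
  · rw [Cq_deriv, h0, Cq_zero1, Cq_comm23 hD x (fun i => δ (y i)) y]
    ring

/-- Two independent functionals on a generic point. -/
theorem gen_two (hs : Smooth23 D) (x : Fin (n + 1) → Ω1) (hx : IsGenPt D x) (t0 t1 : Ω1) :
    ∃ b, Bq D x b = t0 ∧ Cq D x x b = t1 := by
  obtain ⟨T, hT⟩ : ∃ T : (Fin (n + 1) → Ω1) →ₗ[Ω1] (Fin 2 → Ω1), T = LinearMap.pi
    ![BqL D x, CqL D x x] := ⟨_, rfl⟩
  have hTb : ∀ b, T b = ![Bq D x b, Cq D x x b] := by
    intro b
    rw [hT]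
    funext i
    fin_cases i <;> rfl
  obtain ⟨b, hb⟩ := indep_surj T (fun ρ hρ => by
    obtain ⟨h1, h2⟩ := grad_ne hs x hx (ρ 0) (ρ 1) (fun a => by
      have h8 := hρ a
      rw [hTb, Fin.sum_univ_two] at h8
      exact h8)
    funext i
    fin_cases i
    · exact h1
    · exact h2) ![t0, t1]
  rw [hTb] at hb
  exact ⟨b, congrFun hb 0, congrFun hb 1⟩

theorem sec_surj (hD : IsSymm23 D) (hs : Smooth23 D) (hn : 5 ≤ n) (x : Fin (n + 1) → Ω0)
    (hx : IsGenPt D x) (h : Option (Fin (n - 5)) × Fin (n + 1) → Ω1)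
    (hh : AlgebraicIndependent Ω0 h) (x' : Fin (n + 1) → Ω1)
    (hx' : ∀ i, x' i = algebraMap Ω0 Ω1 (x i)) (t0 t1 : Ω1) (t : Option (Fin (n - 5)) → Ω1) :
    ∃ b : Fin (n + 1) → Ω1, Bq D x' b = t0 ∧ 6 * Cq D x' x' b = t1 ∧
      ∀ i, lin (fun j => h (i, j)) x' b = t i := by
  classical
  have : CharZero Ω1 := charZero_of_injective_algebraMap (algebraMap k Ω1).injective
  have hG : IsGenPt D x' := gen_img x hx x' hx'
  obtain ⟨Λ, hΛ⟩ := lin_LL h x'
  obtain ⟨M, hM⟩ : ∃ M : (Fin (n + 1) → Ω1) →ₗ[Ω1] (Ω1 × Ω1) × (Option (Fin (n - 5)) → Ω1),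
      M = ((BqL D x').prod (CqL D x' x')).prod Λ := ⟨_, rfl⟩
  have hMb : ∀ b, M b = ((Bq D x' b, Cq D x' x' b), Λ b) := fun b => by rw [hM]; rfl
  -- a vector in the kernel which is not a multiple of the point
  obtain ⟨y, hyM, hyx⟩ : ∃ y, M y = 0 ∧ ∀ c : Ω1, y ≠ c • x' := by
    by_contra hcon
    push Not at hcon
    have hle : LinearMap.ker M ≤ Submodule.span Ω1 {x'} := by
      intro y hy
      obtain ⟨c, hc⟩ := hcon y (LinearMap.mem_ker.1 hy)
      rw [hc]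
      exact Submodule.smul_mem _ _ (Submodule.mem_span_singleton_self x')
    have h1 := Submodule.finrank_mono hle
    have h2 : Module.finrank Ω1 (Submodule.span Ω1 {x'}) ≤ 1 := by
      refine (finrank_span_le_card ({x'} : Set (Fin (n + 1) → Ω1))).trans ?_
      simp
    have h3 := LinearMap.finrank_range_add_finrank_ker M
    have h4 := Submodule.finrank_le (LinearMap.range M)
    rw [Module.finrank_prod, Module.finrank_prod, Module.finrank_self,
      Module.finrank_fintype_fun_eq_card, Fintype.card_option, Fintype.card_fin] at h4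
    rw [Module.finrank_fin_fun] at h3
    omega
  rw [hMb, Prod.mk_eq_zero, Prod.mk_eq_zero] at hyM
  obtain ⟨⟨y1, y2⟩, y3⟩ := hyM
  have hy : ∀ i, lin (fun j => h (i, j)) x' y = 0 := by
    intro i
    rw [← hΛ, y3]
    rfl
  obtain ⟨b0, hb0, hb1⟩ := gen_two hs x' hG t0 (t1 / 6)
  obtain ⟨δ, hδx, hδ⟩ := der_full (k := k) x h hh x' hx' y hyx hy
    (fun i => t i - lin (fun j => h (i, j)) x' b0)
  obtain ⟨e1, -, e2, -, -⟩ := der_eqs hD δ x' y hδx
  rw [y1, map_zero] at e1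
  rw [y2, map_zero] at e2
  refine ⟨b0 + fun i => δ (y i), ?_, ?_, ?_⟩
  · rw [Bq_add2, ← e1, add_zero, hb0]
  · rw [Cq_add3, ← e2, add_zero, hb1]
    field_simp
  · intro i
    rw [lin_add, hδ]
    ring

theorem sec_bad (hD : IsSymm23 D) (hs : Smooth23 D) (hn : 5 ≤ n) (x : Fin (n + 1) → Ω0)
    (hx : IsGenPt D x) (h : Option (Fin (n - 5)) × Fin (n + 1) → Ω1)
    (hh : AlgebraicIndependent Ω0 h) (x' : Fin (n + 1) → Ω1)
    (hx' : ∀ i, x' i = algebraMap Ω0 Ω1 (x i)) (y : Fin (n + 1) → Ω1)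
    (hy : ∀ i, lin (fun j => h (i, j)) x' y = 0) (h1 : Bq D x' y = 0) (h2 : Bq D y y = 0)
    (h3 : Cq D x' x' y = 0) (h4 : Cq D x' y y = 0) : ∃ c : Ω1, y = c • x' := by
  classical
  by_contra hcon
  push Not at hcon
  have : CharZero Ω1 := charZero_of_injective_algebraMap (algebraMap k Ω1).injective
  have hG : IsGenPt D x' := gen_img x hx x' hx'
  obtain ⟨T, hT⟩ : ∃ T : (Fin (n + 1) → Ω1) →ₗ[Ω1] (Fin 4 → Ω1), T = LinearMap.pi
    ![BqL D x', CqL D x' x', BqL D y, CqL D x' y] := ⟨_, rfl⟩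
  have hTb : ∀ b, T b = ![Bq D x' b, Cq D x' x' b, Bq D y b, Cq D x' y b] := by
    intro b
    rw [hT]
    funext i
    fin_cases i <;> rfl
  obtain ⟨Λ, hΛ⟩ := lin_LL h x'
  have hb := dim_bound T (indep_surj T fun ρ hρ => bad4 hD hs x' y hG h1 h2 h3 h4 hcon ρ
      fun a => by
        have h8 := hρ a
        rw [hTb, Fin.sum_univ_four] at h8
        exact h8) Λ x' y (by
      intro h0
      have := hG.1
      rw [h0] at this
      exact zero_ne_one this) hcon (by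
      rw [hTb, hG.q, hG.c, Bq_comm hD y x', h1, Cq_comm23 hD x' y x', h3]
      funext i
      fin_cases i <;> rfl) (by
      rw [hTb, h1, h2, h3, h4]
      funext i
      fin_cases i <;> rfl) (by
      funext i
      rw [hΛ]
      exact lin_self _ _ hG.1) (by
      funext i
      rw [hΛ]
      exact hy i) (by
      intro t
      obtain ⟨δ, hδx, hδ⟩ := der_full (k := k) x h hh x' hx' y hcon hy t
      obtain ⟨e1, e2, e3, e4, -⟩ := der_eqs hD δ x' y hδx
      rw [h1, map_zero] at e1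
      rw [h2, map_zero] at e2
      rw [h3, map_zero] at e3
      rw [h4, map_zero] at e4
      refine ⟨fun i => δ (y i), ?_, ?_⟩
      · rw [hTb, ← e1, ← e3, (mul_eq_zero.1 e2.symm).resolve_left two_ne_zero,
          (mul_eq_zero.1 e4.symm).resolve_left two_ne_zero]
        funext i
        fin_cases i <;> rfl
      · funext i
        rw [hΛ]
        exact hδ i)
  rw [Fintype.card_option, Fintype.card_fin] at hb
  omega

theorem sec_line (hD : IsSymm23 D) (hs : Smooth23 D) (hn : 5 ≤ n) (x : Fin (n + 1) → Ω0)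
    (hx : IsGenPt D x) (h : Option (Fin (n - 5)) × Fin (n + 1) → Ω1)
    (hh : AlgebraicIndependent Ω0 h) (x' : Fin (n + 1) → Ω1)
    (hx' : ∀ i, x' i = algebraMap Ω0 Ω1 (x i)) (y : Fin (n + 1) → Ω1)
    (hy : ∀ i, lin (fun j => h (some i, j)) x' y = 0) (h1 : Bq D x' y = 0) (h2 : Bq D y y = 0)
    (h3 : Cq D x' x' y = 0) (h4 : Cq D x' y y = 0) (h5 : Cq D y y y = 0) :
    ∃ c : Ω1, y = c • x' := by
  classical
  by_contra hcon
  push Not at hcon
  have : CharZero Ω1 := charZero_of_injective_algebraMap (algebraMap k Ω1).injective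
  have hG : IsGenPt D x' := gen_img x hx x' hx'
  obtain ⟨T, hT⟩ : ∃ T : (Fin (n + 1) → Ω1) →ₗ[Ω1] (Fin 5 → Ω1), T = LinearMap.pi
    ![BqL D x', CqL D x' x', BqL D y, CqL D x' y, CqL D y y] := ⟨_, rfl⟩
  have hTb : ∀ b, T b = ![Bq D x' b, Cq D x' x' b, Bq D y b, Cq D x' y b, Cq D y y b] := by
    intro b
    rw [hT]
    funext i
    fin_cases i <;> rfl
  obtain ⟨Λ, hΛ⟩ := lin_LL (fun q : Fin (n - 5) × Fin (n + 1) => h (some q.1, q.2)) x'
  have hb := dim_bound T (indep_surj T fun ρ hρ => line5 hD hs x' y hG h1 h2 h3 h4 h5 hcon ρ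
      fun a => by
        have h8 := hρ a
        rw [hTb, Fin.sum_univ_five] at h8
        exact h8) Λ x' y (by
      intro h0
      have := hG.1
      rw [h0] at this
      exact zero_ne_one this) hcon (by
      rw [hTb, hG.q, hG.c, Bq_comm hD y x', h1, Cq_comm23 hD x' y x', h3, Cq_comm23 hD y y x',
        Cq_comm12 hD y x' y, h4]
      funext i
      fin_cases i <;> rfl) (by
      rw [hTb, h1, h2, h3, h4, h5]
      funext i
      fin_cases i <;> rfl) (by
      funext i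
      rw [hΛ]
      exact lin_self _ _ hG.1) (by
      funext i
      rw [hΛ]
      exact hy i) (by
      intro t
      obtain ⟨δ, hδx, hδ⟩ := der_some (k := k) x h hh x' hx' y hcon hy t
      obtain ⟨e1, e2, e3, e4, e5⟩ := der_eqs hD δ x' y hδx
      rw [h1, map_zero] at e1
      rw [h2, map_zero] at e2
      rw [h3, map_zero] at e3
      rw [h4, map_zero] at e4
      rw [h5, map_zero] at e5
      refine ⟨fun i => δ (y i), ?_, ?_⟩
      · rw [hTb, ← e1, ← e3, (mul_eq_zero.1 e2.symm).resolve_left two_ne_zero,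
          (mul_eq_zero.1 e4.symm).resolve_left two_ne_zero,
          (mul_eq_zero.1 e5.symm).resolve_left three_ne_zero]
        funext i
        fin_cases i <;> rfl
      · funext i
        rw [hΛ]
        exact hδ i)
  rw [Fintype.card_fin] at hb
  omega

theorem sec_bad_tangent (hD : IsSymm23 D) (hs : Smooth23 D) (x : Fin (n + 1) → Ω0)
    (hx : IsGenPt D x) (h : Option (Fin (n - 5)) × Fin (n + 1) → Ω1)
    (hh : AlgebraicIndependent Ω0 h) (x' : Fin (n + 1) → Ω1)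
    (hx' : ∀ i, x' i = algebraMap Ω0 Ω1 (x i)) (y : Fin (n + 1) → Ω1)
    (hyx : ∀ c : Ω1, y ≠ c • x') (hy : ∀ i, lin (fun j => h (some i, j)) x' y = 0)
    (h1 : Bq D x' y = 0) (h2 : Bq D y y = 0) (h3 : Cq D x' x' y = 0) (h4 : Cq D x' y y = 0) :
    ∃ b : Fin (n + 1) → Ω1, (∀ i, lin (fun j => h (some i, j)) x' b = 0) ∧
      Bq D x' b = 0 ∧ Cq D x' x' b = 0 ∧ Bq D y b = 1 := by
  have : CharZero Ω1 := charZero_of_injective_algebraMap (algebraMap k Ω1).injective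
  have hG : IsGenPt D x' := gen_img x hx x' hx'
  obtain ⟨T, hT⟩ : ∃ T : (Fin (n + 1) → Ω1) →ₗ[Ω1] (Fin 4 → Ω1), T = LinearMap.pi
    ![BqL D x', CqL D x' x', BqL D y, CqL D x' y] := ⟨_, rfl⟩
  have hTb : ∀ b, T b = ![Bq D x' b, Cq D x' x' b, Bq D y b, Cq D x' y b] := by
    intro b
    rw [hT]
    funext i
    fin_cases i <;> rfl
  obtain ⟨b1, hb1⟩ := indep_surj T (fun ρ hρ => bad4 hD hs x' y hG h1 h2 h3 h4 hyx ρ
      fun a => by
        have h8 := hρ a
        rw [hTb, Fin.sum_univ_four] at h8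
        exact h8) ![0, 0, 1, 0]
  rw [hTb] at hb1
  have f0 : Bq D x' b1 = 0 := congrFun hb1 0
  have f1 : Cq D x' x' b1 = 0 := congrFun hb1 1
  have f2 : Bq D y b1 = 1 := congrFun hb1 2
  obtain ⟨δ, hδx, hδ⟩ := der_some (k := k) x h hh x' hx' y hyx hy
    (fun i => lin (fun j => h (some i, j)) x' b1)
  obtain ⟨e1, e2, e3, -, -⟩ := der_eqs hD δ x' y hδx
  rw [h1, map_zero] at e1
  rw [h2, map_zero] at e2
  rw [h3, map_zero] at e3
  refine ⟨b1 - fun i => δ (y i), fun i => ?_, ?_, ?_, ?_⟩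
  · rw [lin_sub, hδ, sub_self]
  · rw [Bq_sub2, f0, ← e1, sub_zero]
  · rw [Cq_sub3, f1, ← e3, sub_zero]
  · rw [Bq_sub2, f2, (mul_eq_zero.1 e2.symm).resolve_left two_ne_zero, sub_zero]

theorem sec_tri (hD : IsSymm23 D) (hs : Smooth23 D) (x : Fin (n + 1) → Ω0)
    (hx : IsGenPt D x) (h : Option (Fin (n - 5)) × Fin (n + 1) → Ω1)
    (hh : AlgebraicIndependent Ω0 h) (x' : Fin (n + 1) → Ω1)
    (hx' : ∀ i, x' i = algebraMap Ω0 Ω1 (x i)) (P : Fin (n + 1) → Ω1)
    (hP : ∀ i, lin (fun j => h (some i, j)) x' P = 0) (h0 : Bq D P P = 0) (h1 : Cq D P P P = 0)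
    (h2 : Bq D x' P = 0) (h3 : Cq D P P x' = 0) (h4 : Cq D P x' x' ≠ 0) (t0 t1 : Ω1) :
    ∃ b : Fin (n + 1) → Ω1, (∀ i, lin (fun j => h (some i, j)) x' b = 0) ∧
      Bq D x' b = 0 ∧ Bq D P b = t0 ∧ Cq D P P b = t1 := by
  have : CharZero Ω1 := charZero_of_injective_algebraMap (algebraMap k Ω1).injective
  have hG : IsGenPt D x' := gen_img x hx x' hx'
  have hyx : ∀ c : Ω1, P ≠ c • x' := by
    intro c hc
    apply h4
    rw [hc, Cq_smul1, hG.c, mul_zero]
  obtain ⟨T, hT⟩ : ∃ T : (Fin (n + 1) → Ω1) →ₗ[Ω1] (Fin 3 → Ω1), T = LinearMap.pi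
    ![BqL D P, CqL D P P, BqL D x'] := ⟨_, rfl⟩
  have hTb : ∀ b, T b = ![Bq D P b, Cq D P P b, Bq D x' b] := by
    intro b
    rw [hT]
    funext i
    fin_cases i <;> rfl
  obtain ⟨b1, hb1⟩ := indep_surj T (fun ρ hρ => tri3 hD hs x' P hG h0 h1 h2 h3 h4 ρ
      fun a => by
        have h8 := hρ a
        rw [hTb, Fin.sum_univ_three] at h8
        exact h8) ![t0, t1, 0]
  rw [hTb] at hb1
  have f0 : Bq D P b1 = t0 := congrFun hb1 0
  have f1 : Cq D P P b1 = t1 := congrFun hb1 1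
  have f2 : Bq D x' b1 = 0 := congrFun hb1 2
  obtain ⟨δ, hδx, hδ⟩ := der_some (k := k) x h hh x' hx' P hyx hP
    (fun i => lin (fun j => h (some i, j)) x' b1)
  obtain ⟨e1, e2, -, -, e5⟩ := der_eqs hD δ x' P hδx
  rw [h2, map_zero] at e1
  rw [h0, map_zero] at e2
  rw [h1, map_zero] at e5
  refine ⟨b1 - fun i => δ (P i), fun i => ?_, ?_, ?_, ?_⟩
  · rw [lin_sub, hδ, sub_self]
  · rw [Bq_sub2, f2, ← e1, sub_zero]
  · rw [Bq_sub2, f0, (mul_eq_zero.1 e2.symm).resolve_left two_ne_zero, sub_zero]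
  · rw [Cq_sub3, f1, (mul_eq_zero.1 e5.symm).resolve_left three_ne_zero, sub_zero]

end

end Pool.Agent.LibHP.CI
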