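import Pool.Agent.LibHPC.T2

set_option autoImplicit false
open MvPolynomial

namespace Pool.Agent.LibHP.CI

variable {k : Type} [Field k] [CharZero k] {n : ℕ} {D : Dat k n}

/-!
# Row T3: frames
-/

section
variable {R : Type} [CommRing R]

/-- `lin` as a linear map in the last argument -/
private noncomputable def T3_linL (h x : Fin (n + 1) → R) : (Fin (n + 1) → R) →ₗ[R] R where
  toFun y := lin h x y
  map_add' y z := lin_add h x y z
  map_smul' c y := lin_smul h x y c

theorem frm_eq (u : Fin 4 → Fin (n + 1) → R) (z : Fin 4 → R) :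
    frm u z = z 0 • u 0 + z 1 • u 1 + z 2 • u 2 + z 3 • u 3 := by
  funext j
  simp only [frm, Fin.sum_univ_four, Pi.add_apply, Pi.smul_apply, smul_eq_mul]

end

theorem exists_lframe (hD : IsSymm23 D) (hs : Smooth23 D) (hn : 5 ≤ n) {K L : Type} [Field K]
    [Algebra k K] [Field L] [Algebra k L] [Algebra K L] [IsScalarTower k K L]
    (x : Fin (n + 1) → K) (hx : IsGenPt D x) (h : Option (Fin (n - 5)) × Fin (n + 1) → L)
    (hh : AlgebraicIndependent K h) (x' : Fin (n + 1) → L)
    (hx' : ∀ i, x' i = algebraMap K L (x i)) :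
    ∃ u : Fin 4 → Fin (n + 1) → L, IsFrame D x' h u := by
  classical
  have hxg : IsGenPt D x' := by
    have h1 := hx.map (IsScalarTower.toAlgHom k K L)
    have h2 : (fun i => IsScalarTower.toAlgHom k K L (x i)) = x' := by
      funext i
      rw [hx', IsScalarTower.coe_toAlgHom']
    rwa [h2] at h1
  have hx0 : x' 0 = 1 := hxg.1
  have hselfq : Bq D x' x' = 0 := hxg.q
  have hself : Cq D x' x' x' = 0 := hxg.c
  let Λ : (Fin (n + 1) → L) →ₗ[L] ((L × L) × (Option (Fin (n - 5)) → L)) :=
    ((BqL D x').prod ((6 : L) • CqL D x' x')).prod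
      (LinearMap.pi fun i => T3_linL (fun j => h (i, j)) x')
  have hΛ0 : ∀ y, (Λ y).1.1 = Bq D x' y := fun y => rfl
  have hΛ1 : ∀ y, (Λ y).1.2 = 6 * Cq D x' x' y := fun y => rfl
  have hΛ2 : ∀ y i, (Λ y).2 i = lin (fun j => h (i, j)) x' y := fun y i => rfl
  have hsurj : ∀ (t1 t0 : L) (t : Option (Fin (n - 5)) → L), ∃ b, Λ b = ((t1, t0), t) := by
    intro t1 t0 t
    obtain ⟨b, hb0, hb1, hb2⟩ := sec_surj hD hs hn x hx h hh x' hx' t1 t0 t
    refine ⟨b, Prod.ext (Prod.ext ?_ ?_) (funext fun i => ?_)⟩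
    · rw [hΛ0, hb0]
    · rw [hΛ1, hb1]
    · rw [hΛ2, hb2]
  have hrange : LinearMap.range Λ = ⊤ := by
    rw [LinearMap.range_eq_top]
    rintro ⟨⟨t1, t0⟩, t⟩
    exact hsurj t1 t0 t
  have hker : Module.finrank L (LinearMap.ker Λ) = 3 := by
    have h1 := Λ.finrank_range_add_finrank_ker
    rw [hrange, finrank_top, Module.finrank_prod, Module.finrank_prod, Module.finrank_self,
      Module.finrank_fintype_fun_eq_card,
      Module.finrank_fintype_fun_eq_card, Fintype.card_option, Fintype.card_fin,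
      Fintype.card_fin] at h1
    omega
  have hxne : x' ≠ 0 := by
    intro h0
    rw [h0, Pi.zero_apply] at hx0
    exact zero_ne_one hx0
  have hxker : x' ∈ LinearMap.ker Λ := by
    rw [LinearMap.mem_ker]
    refine Prod.ext (Prod.ext ?_ ?_) (funext fun i => ?_)
    · rw [hΛ0, hselfq]
      rfl
    · rw [hΛ1, hself, mul_zero]
      rfl
    · rw [hΛ2, lin_self _ _ hx0]
      rfl
  obtain ⟨W', hW'⟩ := Submodule.exists_isCompl (L ∙ x')
  have hSle : (L ∙ x') ≤ LinearMap.ker Λ := by
    rw [Submodule.span_singleton_le_iff_mem]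
    exact hxker
  set W : Submodule L (Fin (n + 1) → L) := W' ⊓ LinearMap.ker Λ with hW
  have hsup : (L ∙ x') ⊔ W = LinearMap.ker Λ := by
    rw [hW, ← sup_inf_assoc_of_le _ hSle, hW'.sup_eq_top, top_inf_eq]
  have hinf : (L ∙ x') ⊓ W = ⊥ := by
    rw [hW, ← inf_assoc, hW'.inf_eq_bot, bot_inf_eq]
  have hWr : Module.finrank L W = 2 := by
    have h1 := Submodule.finrank_sup_add_finrank_inf_eq (L ∙ x') W
    rw [hsup, hinf, hker, finrank_bot, finrank_span_singleton hxne] at h1
    omega
  let bW := Module.finBasisOfFinrankEq L W hWr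
  obtain ⟨u0, hu0⟩ := hsurj 0 1 0
  obtain ⟨u1, hu1⟩ := hsurj 0 0 (fun i => if i = none then 1 else 0)
  have hb : ∀ i, Λ (bW i : Fin (n + 1) → L) = 0 := fun i => LinearMap.mem_ker.1 (bW i).2.2
  let u : Fin 4 → Fin (n + 1) → L := ![u0, u1, (bW 0 : Fin (n + 1) → L), (bW 1 : Fin (n + 1) → L)]
  have e0 : u 0 = u0 := rfl
  have e1 : u 1 = u1 := rfl
  have e2 : u 2 = (bW 0 : Fin (n + 1) → L) := rfl
  have e3 : u 3 = (bW 1 : Fin (n + 1) → L) := rfl
  have hL0 : Λ (u 0) = ((0, 1), 0) := by rw [e0, hu0]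
  have hL1 : Λ (u 1) = ((0, 0), fun i => if i = none then 1 else 0) := by rw [e1, hu1]
  have hL2 : Λ (u 2) = 0 := by rw [e2, hb]
  have hL3 : Λ (u 3) = 0 := by rw [e3, hb]
  have hΛfrm : ∀ (ξ : L) (c : Fin 4 → L), Λ (ξ • x' + frm u c) =
      ((0, c 0), fun i => if i = none then c 1 else 0) := by
    intro ξ c
    rw [frm_eq, map_add, map_add, map_add, map_add, map_smul, map_smul, map_smul, map_smul, map_smul,
      hL0, hL1, hL2, hL3, LinearMap.mem_ker.1 hxker]
    refine Prod.ext (Prod.ext ?_ ?_) (funext fun i => ?_)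
    · simp
    · simp
    · by_cases hi : i = none
      · simp [hi]
      · simp [hi]
  refine ⟨u, ?_, ?_, ?_, ?_, ?_, ?_⟩
  · intro a i
    rw [← hΛ2]
    fin_cases a
    · change (Λ (u 0)).2 (some i) = 0
      rw [hL0]
      rfl
    · change (Λ (u 1)).2 (some i) = 0
      rw [hL1]
      simp
    · change (Λ (u 2)).2 (some i) = 0
      rw [hL2]
      rfl
    · change (Λ (u 3)).2 (some i) = 0
      rw [hL3]
      rfl
  · intro a
    rw [← hΛ0]
    fin_cases a
    · change (Λ (u 0)).1.1 = _
      rw [hL0]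
    · change (Λ (u 1)).1.1 = _
      rw [hL1]
    · change (Λ (u 2)).1.1 = _
      rw [hL2]
      rfl
    · change (Λ (u 3)).1.1 = _
      rw [hL3]
      rfl
  · intro a
    rw [← hΛ2]
    fin_cases a
    · change (Λ (u 0)).2 none = _
      rw [hL0]
      simp
    · change (Λ (u 1)).2 none = _
      rw [hL1]
      simp
    · change (Λ (u 2)).2 none = _
      rw [hL2]
      simp
    · change (Λ (u 3)).2 none = _
      rw [hL3]
      simp
  · intro a
    rw [← hΛ1]
    fin_cases a
    · change (Λ (u 0)).1.2 = _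
      rw [hL0]
      simp
    · change (Λ (u 1)).1.2 = _
      rw [hL1]
      simp
    · change (Λ (u 2)).1.2 = _
      rw [hL2]
      simp
    · change (Λ (u 3)).1.2 = _
      rw [hL3]
      simp
  · intro ξ c hc
    have hv : ξ • x' + frm u c = 0 := by
      funext j
      exact hc j
    have h1 := hΛfrm ξ c
    rw [hv, map_zero] at h1
    have hc0 : c 0 = 0 := (congrArg (fun p => p.1.2) h1).symm
    have hc1 : c 1 = 0 := by
      have h2 := congrFun (congrArg Prod.snd h1) none
      simpa using h2.symm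
    rw [frm_eq, hc0, hc1, e2, e3, zero_smul, zero_smul, zero_add, zero_add] at hv
    have hw : ((c 2 • bW 0 + c 3 • bW 1 : W) : Fin (n + 1) → L) = -(ξ • x') := by
      rw [Submodule.coe_add, Submodule.coe_smul, Submodule.coe_smul]
      exact eq_neg_of_add_eq_zero_right hv
    have hmem : ((c 2 • bW 0 + c 3 • bW 1 : W) : Fin (n + 1) → L) ∈ (L ∙ x') ⊓ W := by
      refine ⟨?_, (c 2 • bW 0 + c 3 • bW 1 : W).2⟩
      rw [hw]
      exact Submodule.neg_mem _ (Submodule.smul_mem _ _ (Submodule.mem_span_singleton_self x'))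
    rw [hinf, Submodule.mem_bot] at hmem
    have hξ : ξ = 0 := by
      rw [hw, neg_eq_zero, smul_eq_zero] at hmem
      exact hmem.resolve_right hxne
    have h3 : c 2 • bW 0 + c 3 • bW 1 = 0 := Subtype.ext hmem
    have h4 := (Fintype.linearIndependent_iff.1 bW.linearIndependent) ![c 2, c 3] (by
      rw [Fin.sum_univ_two]
      exact h3)
    refine ⟨hξ, funext fun a => ?_⟩
    fin_cases a
    · exact hc0
    · exact hc1
    · exact h4 0
    · exact h4 1
  · intro y hy hyb
    have hmem : y - (6 * Cq D x' x' y) • u 0 - lin (fun j => h (none, j)) x' y • u 1 ∈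
        (L ∙ x') ⊔ W := by
      rw [hsup, LinearMap.mem_ker, map_sub, map_sub, map_smul, map_smul, hL0, hL1]
      refine Prod.ext (Prod.ext ?_ ?_) (funext fun i => ?_)
      · change (Λ y).1.1 - (6 * Cq D x' x' y) * 0 - lin (fun j => h (none, j)) x' y * 0 = 0
        rw [hΛ0, hyb]
        ring
      · change (Λ y).1.2 - (6 * Cq D x' x' y) * 1 - lin (fun j => h (none, j)) x' y * 0 = 0
        rw [hΛ1]
        ring
      · change (Λ y).2 i - (6 * Cq D x' x' y) * 0 -
          lin (fun j => h (none, j)) x' y * (if i = none then 1 else 0) = 0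
        rw [hΛ2]
        cases i with
        | none => simp
        | some i =>
          rw [hy]
          simp
    obtain ⟨a, ha, w, hw, haw⟩ := Submodule.mem_sup.1 hmem
    obtain ⟨ξ, rfl⟩ := Submodule.mem_span_singleton.1 ha
    have hrep := bW.sum_repr ⟨w, hw⟩
    rw [Fin.sum_univ_two] at hrep
    have hrep' : bW.repr ⟨w, hw⟩ 0 • (bW 0 : Fin (n + 1) → L) +
        bW.repr ⟨w, hw⟩ 1 • (bW 1 : Fin (n + 1) → L) = w := congrArg Subtype.val hrep
    refine ⟨ξ, ![6 * Cq D x' x' y, lin (fun j => h (none, j)) x' y, bW.repr ⟨w, hw⟩ 0,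
      bW.repr ⟨w, hw⟩ 1], fun j => ?_⟩
    have hfin : y = ξ • x' + frm u ![6 * Cq D x' x' y, lin (fun j => h (none, j)) x' y,
        bW.repr ⟨w, hw⟩ 0, bW.repr ⟨w, hw⟩ 1] := by
      rw [frm_eq]
      change y = ξ • x' + ((6 * Cq D x' x' y) • u 0 + lin (fun j => h (none, j)) x' y • u 1 +
        bW.repr ⟨w, hw⟩ 0 • u 2 + bW.repr ⟨w, hw⟩ 1 • u 3)
      rw [e2, e3, add_assoc _ (bW.repr ⟨w, hw⟩ 0 • _), hrep']
      have h5 : y = (ξ • x' + w) + (6 * Cq D x' x' y) • u 0 +
          lin (fun j => h (none, j)) x' y • u 1 := by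
        rw [haw]
        abel
      conv_lhs => rw [h5]
      abel
    exact congrFun hfin j

theorem IsFrame.map {L Ω : Type} [Field L] [Algebra k L] [Field Ω] [Algebra k Ω]
    {x : Fin (n + 1) → L} {h : Option (Fin (n - 5)) × Fin (n + 1) → L}
    {u : Fin 4 → Fin (n + 1) → L} (hf : IsFrame D x h u) (f : L →ₐ[k] Ω) :
    IsFrame D (fun j => f (x j)) (fun i => f (h i)) (fun a j => f (u a j)) := by
  classical
  have hlin : ∀ (g z y : Fin (n + 1) → L),
      lin (fun j => f (g j)) (fun j => f (z j)) (fun j => f (y j)) = f (lin g z y) := by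
    intro g z y
    simp only [lin, map_sum, map_mul, map_sub]
  let _ : Algebra L Ω := (f : L →+* Ω).toAlgebra
  have hsm : ∀ (r : L) (z : Ω), f r * z = r • z := fun r z => rfl
  let B := Module.Basis.ofVectorSpace L Ω
  have hcoord : ∀ (g z : Fin (n + 1) → L) (y : Fin (n + 1) → Ω)
      (b : Module.Basis.ofVectorSpaceIndex L Ω),
      B.coord b (lin (fun j => f (g j)) (fun j => f (z j)) y) =
        lin g z (fun j => B.coord b (y j)) := by
    intro g z y b
    unfold lin
    rw [map_sum]
    refine Finset.sum_congr rfl fun j _ => ?_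
    rw [hsm, map_smul, map_sub, mul_comm (y 0), hsm, map_smul, smul_eq_mul, smul_eq_mul]
    ring
  have hfrm : ∀ (c : Fin 4 → Ω) (j : Fin (n + 1)) (b : Module.Basis.ofVectorSpaceIndex L Ω),
      B.coord b (frm (fun a j => f (u a j)) c j) = frm u (fun a => B.coord b (c a)) j := by
    intro c j b
    unfold frm
    rw [map_sum]
    refine Finset.sum_congr rfl fun a _ => ?_
    rw [mul_comm, hsm, map_smul, smul_eq_mul, mul_comm]
  have hBq : ∀ (y : Fin (n + 1) → Ω) (b : Module.Basis.ofVectorSpaceIndex L Ω),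
      B.coord b (Bq D (fun j => f (x j)) y) = Bq D x (fun j => B.coord b (y j)) := by
    intro y b
    rw [Bq_eq_sum D (fun j => f (x j)) y, Bq_eq_sum D x, map_sum]
    refine Finset.sum_congr rfl fun j _ => ?_
    have h1 : Bq D (fun j => f (x j)) (Pi.single j 1) = f (Bq D x (Pi.single j 1)) := by
      rw [Bq_map]
      congr 1
      funext l
      by_cases hl : l = j
      · subst hl
        rw [Pi.single_eq_same, Pi.single_eq_same, map_one]
      · rw [Pi.single_eq_of_ne hl, Pi.single_eq_of_ne hl, map_zero]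
    rw [h1, mul_comm, hsm, map_smul, smul_eq_mul, mul_comm]
  refine ⟨?_, ?_, ?_, ?_, ?_, ?_⟩
  · intro a i
    rw [hlin, hf.hu, map_zero]
  · intro a
    rw [← Bq_map, hf.hb, map_zero]
  · intro a
    rw [hlin, hf.hg]
    split_ifs
    · exact map_one f
    · exact map_zero f
  · intro a
    rw [← Cq_map]
    have h1 : (6 : Ω) = f 6 := (map_ofNat f 6).symm
    rw [h1, ← map_mul, hf.h0]
    split_ifs
    · exact map_one f
    · exact map_zero f
  · intro ξ c hc
    have key : ∀ b, B.coord b ξ = 0 ∧ (fun a => B.coord b (c a)) = 0 := by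
      intro b
      refine hf.indep _ _ fun j => ?_
      have h1 := congrArg (B.coord b) (hc j)
      rw [map_add, hfrm, mul_comm, hsm, map_smul, map_zero, smul_eq_mul, mul_comm] at h1
      exact h1
    have hz : ∀ z : Ω, (∀ b, B.coord b z = 0) → z = 0 := by
      intro z hz
      exact B.ext_elem fun b => by
        rw [map_zero, Finsupp.zero_apply]
        exact hz b
    exact ⟨hz _ fun b => (key b).1, funext fun a => hz _ fun b => congrFun (key b).2 a⟩
  · intro y hy hyb
    have key : ∀ b, ∃ (ξ : L) (c : Fin 4 → L), ∀ j, B.coord b (y j) = ξ * x j + frm u c j := by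
      intro b
      refine hf.span _ (fun i => ?_) ?_
      · rw [← hcoord, hy, map_zero]
      · rw [← hBq, hyb, map_zero]
    choose ξ c hξ using key
    let s : Finset (Module.Basis.ofVectorSpaceIndex L Ω) :=
      Finset.univ.biUnion fun j => (B.repr (y j)).support
    refine ⟨∑ b ∈ s, ξ b • B b, fun a => ∑ b ∈ s, c b a • B b, fun j => ?_⟩
    have h1 : y j = ∑ b ∈ s, B.coord b (y j) • B b := by
      have h2 : (B.repr (y j)).support ⊆ s :=
        Finset.subset_biUnion_of_mem (fun j => (B.repr (y j)).support) (Finset.mem_univ j)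
      conv_lhs => rw [← B.linearCombination_repr (y j)]
      rw [Finsupp.linearCombination_apply]
      exact Finsupp.sum_of_support_subset _ h2 (fun b r => r • B b) (fun b _ => zero_smul L _)
    rw [h1]
    have h3 : (∑ b ∈ s, ξ b • B b) * f (x j) = ∑ b ∈ s, (ξ b * x j) • B b := by
      rw [Finset.sum_mul]
      refine Finset.sum_congr rfl fun b _ => ?_
      rw [mul_comm, hsm, smul_smul, mul_comm]
    have h4 : frm (fun a j => f (u a j)) (fun a => ∑ b ∈ s, c b a • B b) j =
        ∑ b ∈ s, frm u (c b) j • B b := by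
      unfold frm
      simp only [Finset.sum_smul]
      rw [Finset.sum_comm]
      refine Finset.sum_congr rfl fun a _ => ?_
      rw [Finset.sum_mul]
      refine Finset.sum_congr rfl fun b _ => ?_
      rw [mul_comm, hsm, smul_smul, mul_comm]
    rw [h3, h4, ← Finset.sum_add_distrib]
    refine Finset.sum_congr rfl fun b _ => ?_
    rw [hξ b j, add_smul]

end Pool.Agent.LibHP.CI
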