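import Pool.Agent.LibHPC.E4
import Pool.Agent.LibHPF.W2

set_option autoImplicit false
open MvPolynomial

namespace Pool.Agent.LibHP.CI

variable {k : Type} [Field k] [CharZero k] {n : ℕ} {D : Dat k n}

/-!
# Row W2: relations of the generic direction specialise

PLAN. Same proofs as in LibHPF/W2.lean (proved). `eval_of_rel_pt`: each homogeneous component argument or homogenization as
there; elements of `II D` vanish at `a` (`aeval_of_mem_II`). `eval_of_rel`: as there, with the pair
`e₁ = Pi.single i0 1`, `e₂ = Pi.single i1 1`.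
-/

/-- homogenisation with `X 0` -/
private noncomputable def W2_hom (G : MvPolynomial (Fin (n + 1)) k) :
    MvPolynomial (Fin (n + 1)) k :=
  ∑ d ∈ Finset.range (G.totalDegree + 1), X 0 ^ (G.totalDegree - d) * homogeneousComponent d G

omit [CharZero k] in
private theorem W2_hom_homogeneous (G : MvPolynomial (Fin (n + 1)) k) :
    (W2_hom G).IsHomogeneous G.totalDegree := by
  refine IsHomogeneous.sum _ _ _ fun d hd => ?_
  have h := (isHomogeneous_X_pow (R := k) (0 : Fin (n + 1)) (G.totalDegree - d)).mul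
    (homogeneousComponent_isHomogeneous d G)
  rwa [Nat.sub_add_cancel (by have := Finset.mem_range.1 hd; omega)] at h

omit [CharZero k] in
private theorem W2_aeval_hom {R : Type} [CommRing R] [Algebra k R] {x : Fin (n + 1) → R}
    (hx : x 0 = 1) (G : MvPolynomial (Fin (n + 1)) k) : aeval x (W2_hom G) = aeval x G := by
  rw [W2_hom, map_sum]
  conv_rhs => rw [← sum_homogeneousComponent G, map_sum]
  refine Finset.sum_congr rfl fun d _ => ?_
  rw [map_mul, map_pow, aeval_X, hx, one_pow, one_mul]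

theorem eval_of_rel_pt {K : Type} [Field K] [Algebra k K] (P : Fin (n + 1) → K)
    (hP : IsGenPt D P) (G : MvPolynomial (Fin (n + 1)) k) (hG : aeval P G = 0) {F : Type} [Field F]
    [Algebra k F] (a : Fin (n + 1) → F) (ha0 : a 0 = 1) (ha2 : Bq D a a = 0)
    (ha3 : Cq D a a a = 0) : aeval a G = 0 := by
  have h1 : aeval P (W2_hom G) = 0 := by rw [W2_aeval_hom hP.1, hG]
  rw [← W2_aeval_hom ha0]
  exact aeval_of_mem_II D a ha2 ha3 _ ((hP.2 _ _ (W2_hom_homogeneous G)).1 h1)

/-- substitution of `P` for the first group of variables -/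
private noncomputable def W2_sub {K : Type} [Field K] [Algebra k K] (P : Fin (n + 1) → K) :
    MvPolynomial (Fin (n + 1) ⊕ Fin (n + 1)) k →ₐ[k] MvPolynomial (Fin (n + 1)) K :=
  aeval (Sum.elim (fun i => C (P i)) X)

omit [CharZero k] in
private theorem W2_sub_aeval {K M : Type} [Field K] [Algebra k K] [Field M] [Algebra K M]
    [Algebra k M] [IsScalarTower k K M] (P : Fin (n + 1) → K) (W : Fin (n + 1) → M)
    (G : MvPolynomial (Fin (n + 1) ⊕ Fin (n + 1)) k) :
    aeval W (W2_sub P G) = aeval (Sum.elim (fun i => algebraMap K M (P i)) W) G := by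
  induction G using MvPolynomial.induction_on with
  | C a =>
    rw [W2_sub, aeval_C, aeval_C, IsScalarTower.algebraMap_apply k K (MvPolynomial (Fin (n + 1)) K),
      algebraMap_eq, aeval_C, ← IsScalarTower.algebraMap_apply]
  | add p q hp hq => rw [map_add, map_add, map_add, hp, hq]
  | mul_X p i hp =>
    rw [map_mul, map_mul, map_mul, hp, W2_sub, aeval_X, aeval_X]
    congr 1
    cases i with
    | inl i => simp
    | inr i => simp

omit [CharZero k] in
private theorem W2_sub_inl {K : Type} [Field K] [Algebra k K] (P : Fin (n + 1) → K)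
    (A : MvPolynomial (Fin (n + 1)) k) : W2_sub P (rename Sum.inl A) = C (aeval P A) := by
  rw [W2_sub, aeval_rename]
  have h1 : (Sum.elim (fun i => C (P i)) X ∘ Sum.inl : Fin (n + 1) → MvPolynomial (Fin (n + 1)) K) =
      algebraMap K (MvPolynomial (Fin (n + 1)) K) ∘ P := by
    funext i
    rfl
  rw [h1, aeval_algebraMap_apply]
  rfl

omit [CharZero k] in
/-- common denominators -/
private theorem W2_denom {K : Type} [Field K] [Algebra k K] (P : Fin (n + 1) → K)
    (hK : GenBy k P) (Q : MvPolynomial (Fin (n + 1)) K) :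
    ∃ (A : MvPolynomial (Fin (n + 1)) k) (Q' : MvPolynomial (Fin (n + 1) ⊕ Fin (n + 1)) k),
      aeval P A ≠ 0 ∧ C (aeval P A) * Q = W2_sub P Q' := by
  induction Q using MvPolynomial.induction_on with
  | C a =>
    obtain ⟨G, H, hH, hGH⟩ := hK a
    refine ⟨H, rename Sum.inl G, hH, ?_⟩
    rw [W2_sub_inl, ← hGH, mul_comm, ← C_mul]
  | add p q hp hq =>
    obtain ⟨D1, Q1, h1, h2⟩ := hp
    obtain ⟨D2, Q2, h3, h4⟩ := hq
    refine ⟨D1 * D2, rename Sum.inl D2 * Q1 + rename Sum.inl D1 * Q2, ?_, ?_⟩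
    · rw [map_mul]
      exact mul_ne_zero h1 h3
    · have e1 : W2_sub P (rename Sum.inl D2 * Q1 + rename Sum.inl D1 * Q2) =
          C (aeval P D2) * W2_sub P Q1 + C (aeval P D1) * W2_sub P Q2 := by
        rw [map_add, map_mul, map_mul, W2_sub_inl, W2_sub_inl]
      rw [e1, ← h2, ← h4, map_mul, C_mul]
      ring
  | mul_X p i hp =>
    obtain ⟨D1, Q1, h1, h2⟩ := hp
    refine ⟨D1, Q1 * X (Sum.inr i), h1, ?_⟩
    rw [map_mul, ← h2, ← mul_assoc]
    congr 1
    rw [W2_sub, aeval_X, Sum.elim_inr]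

omit [CharZero k] in
private theorem W2_qW {R : Type} [CommRing R] [Algebra k R] (i0 i1 : Fin (n + 1))
    (x y : Fin (n + 1) → R) :
    aeval (Sum.elim x y) (qW D (fun i => X (Sum.inl i))
      (fun i => C ((Pi.single i0 1 : Fin (n + 1) → k) i))
      (fun i => C ((Pi.single i1 1 : Fin (n + 1) → k) i)) (fun i => X (Sum.inr i)) :
        MvPolynomial (Fin (n + 1) ⊕ Fin (n + 1)) k) =
      qW D x (Pi.single i0 1) (Pi.single i1 1) y := by
  rw [qW_map]
  have h0 : ∀ i2 : Fin (n + 1), (fun i => aeval (Sum.elim x y)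
      (C ((Pi.single i2 1 : Fin (n + 1) → k) i) : MvPolynomial (Fin (n + 1) ⊕ Fin (n + 1)) k)) =
      (Pi.single i2 1 : Fin (n + 1) → R) := by
    intro i2
    funext i
    rw [aeval_C]
    by_cases h : i = i2
    · subst h; simp
    · rw [Pi.single_eq_of_ne h, Pi.single_eq_of_ne h, map_zero]
  rw [h0, h0]
  congr 1
  · funext i
    rw [aeval_X, Sum.elim_inl]
  · funext i
    rw [aeval_X, Sum.elim_inr]

theorem eval_of_rel {K M : Type} [Field K] [Algebra k K] [Field M] [Algebra K M] [Algebra k M]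
    [IsScalarTower k K M] (P : Fin (n + 1) → K) (hP : IsGenPt D P) (hK : GenBy k P)
    (i0 i1 : Fin (n + 1)) (W : Fin (n + 1) → M)
    (hW : ∀ G : MvPolynomial (Fin (n + 1)) K, aeval W G = 0 ↔
      quadW D P (Pi.single i0 1) (Pi.single i1 1) ∣ G)
    (G : MvPolynomial (Fin (n + 1) ⊕ Fin (n + 1)) k)
    (hG : aeval (Sum.elim (fun i => algebraMap K M (P i)) W) G = 0) :
    ∃ N : MvPolynomial (Fin (n + 1)) k, aeval P N ≠ 0 ∧
      ∀ a b : Fin (n + 1) → k, a 0 = 1 → Bq D a a = 0 → Cq D a a a = 0 → aeval a N ≠ 0 →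
        qW D a (Pi.single i0 1) (Pi.single i1 1) b = 0 → aeval (Sum.elim a b) G = 0 := by
  obtain ⟨Q, hQ⟩ := (hW (W2_sub P G)).1 (by rw [W2_sub_aeval, hG])
  obtain ⟨A, Q', hA, hAQ⟩ := W2_denom P hK Q
  refine ⟨A, hA, fun a b ha0 ha2 ha3 haA hab => ?_⟩
  set q : MvPolynomial (Fin (n + 1) ⊕ Fin (n + 1)) k := qW D (fun i => X (Sum.inl i))
      (fun i => C ((Pi.single i0 1 : Fin (n + 1) → k) i))
      (fun i => C ((Pi.single i1 1 : Fin (n + 1) → k) i)) (fun i => X (Sum.inr i)) with hq
  set N : MvPolynomial (Fin (n + 1) ⊕ Fin (n + 1)) k := rename Sum.inl A * G - q * Q' with hN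
  have hs : ∀ i2 : Fin (n + 1), (fun i => C ((Pi.single i2 1 : Fin (n + 1) → K) i)) =
      (Pi.single i2 1 : Fin (n + 1) → MvPolynomial (Fin (n + 1)) K) := by
    intro i2
    funext i
    by_cases h : i = i2
    · subst h; simp
    · rw [Pi.single_eq_of_ne h, Pi.single_eq_of_ne h, map_zero]
  have hsq : W2_sub P q = quadW D P (Pi.single i0 1) (Pi.single i1 1) := by
    rw [W2_sub, hq, W2_qW, quadW, hs, hs]
  have hNP : W2_sub P N = 0 := by
    rw [hN, map_sub, map_mul, map_mul, W2_sub_inl, hsq, hQ, ← hAQ]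
    ring
  -- specialise the second group of variables
  set Gb : MvPolynomial (Fin (n + 1)) k := aeval (Sum.elim X (fun i => C (b i))) N with hGb
  have hcomp : ∀ {R : Type} [CommRing R] [Algebra k R] (x : Fin (n + 1) → R),
      aeval x Gb = aeval (Sum.elim x (fun i => algebraMap k R (b i))) N := by
    intro R _ _ x
    have h1 : (aeval x).comp (aeval (Sum.elim X (fun i => C (b i))) :
        MvPolynomial (Fin (n + 1) ⊕ Fin (n + 1)) k →ₐ[k] MvPolynomial (Fin (n + 1)) k) =
        aeval (Sum.elim x (fun i => algebraMap k R (b i))) := by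
      apply MvPolynomial.algHom_ext
      intro i
      cases i with
      | inl i => simp
      | inr i => simp
    rw [hGb, ← h1]
    rfl
  have h1 : aeval P Gb = 0 := by
    rw [hcomp P]
    have h2 := W2_sub_aeval (M := K) P (fun i => algebraMap k K (b i)) N
    rw [hNP, map_zero] at h2
    exact h2.symm
  have h2 := eval_of_rel_pt P hP Gb h1 a ha0 ha2 ha3
  rw [hcomp a] at h2
  have h3 : (fun i => algebraMap k k (b i)) = b := by
    funext i; rfl
  rw [h3, hN, map_sub, map_mul, map_mul, hq, W2_qW, hab, zero_mul, sub_zero, aeval_rename,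
    Sum.elim_comp_inl] at h2
  exact (mul_eq_zero.1 h2).resolve_left haA

end Pool.Agent.LibHP.CI
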