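import Pool.Agent.LibHPC.E5

set_option autoImplicit false
open MvPolynomial

namespace Pool.Agent.LibHP.CI

variable {k : Type} [Field k] [CharZero k] {n : ℕ} {D : Dat k n}

/-!
# Row W3a: the tangential nondegeneracy is an open condition

NOTATION. `b(x, y) = Bq D x y`, `g(x, y, z) = Cq D x y z`, `e_i = Pi.single i 1`.

PLAN. For a vector `a` with `a 0 = 1`, `b(a, a) = 0`, `g(a, a, a) = 0` consider the symmetric matrix `M(a)` of size
`(n + 1) + 2` (index type `Fin (n + 1) ⊕ Fin 2`): the block `b(e_i, e_j) + [i = 0][j = 0]`, the two columns (and rows)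
`b(a, e_i)`, `g(a, a, e_i)`, and the block zero of size 2. A vector `(v, s, t)` of its kernel satisfies
`b(v, .) + v_0 e_0* + s b(a, .) + t g(a, a, .) = 0` as functionals, `b(a, v) = 0`, `g(a, a, v) = 0`.
`N = det` of this matrix with polynomial entries (`a = X`). `aeval a N = det M(a)` (`RingHom.map_det`).
At the generic point `P`: a kernel vector `(v, s, t)`: evaluate the functional at `P`: `b(v, P) + v_0 + s b(P, P) + t g(P, P, P)
= v_0 = 0` (`b(v, P) = 0`, `P 0 = 1`). So `b(v, .) = - s b(P, .) - t g(P, P, .)`, `v = - s • P` by `lemmaA`, and `v 0 = 0` gives `s = 0`,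
`v = 0`; then `t g(P, P, .) = 0`, `t = 0` by `grad_ne`. So the determinant is not zero (`Matrix.exists_mulVec_eq_zero_iff`).
Conversely let `det M(a) ≠ 0` and `v` tangent at `a` with `b(v, y) = 0` for all tangent `y`: `b(v, .) = α b(a, .) + β g(a, a, .)`
(functional vanishing on the common kernel). Put `v' = v - v_0 • a`: `v'_0 = 0`, `b(v', .) = (α - v_0) b(a, .) + β g(a, a, .)`,
`b(a, v') = g(a, a, v') = 0`. So `(v', -(α - v_0), -β)` is in the kernel of `M(a)`, so `v' = 0`.
-/

/-- The quadratic form is nondegenerate modulo `a` on the tangent space at `a`. -/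
def NDat (D : Dat k n) {F : Type} [Field F] [Algebra k F] (a : Fin (n + 1) → F) : Prop :=
  ∀ v, Bq D a v = 0 → Cq D a a v = 0 →
    (∀ y, Bq D a y = 0 → Cq D a a y = 0 → Bq D v y = 0) → ∃ c : F, v = c • a

section W3a
variable {R S : Type} [CommRing R] [Algebra k R] [CommRing S] [Algebra k S]

/-- The bordered matrix. -/
private noncomputable def W3aM (D : Dat k n) (a : Fin (n + 1) → R) :
    Matrix (Fin (n + 1) ⊕ Fin 2) (Fin (n + 1) ⊕ Fin 2) R :=
  Matrix.fromBlocks
    (Matrix.of fun i j => Bq D (Pi.single i 1) (Pi.single j 1) + (if i = 0 then (if j = 0 then 1 else 0) else 0))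
    (Matrix.of fun i t => if t = 0 then Bq D a (Pi.single i 1) else Cq D a a (Pi.single i 1))
    (Matrix.of fun t j => if t = 0 then Bq D a (Pi.single j 1) else Cq D a a (Pi.single j 1))
    0

private theorem W3a_single (f : R →ₐ[k] S) (i : Fin (n + 1)) :
    (fun j => f ((Pi.single i (1 : R) : Fin (n + 1) → R) j)) =
      (Pi.single i (1 : S) : Fin (n + 1) → S) := by
  funext j
  by_cases h : j = i
  · subst h
    simp
  · rw [Pi.single_eq_of_ne h, Pi.single_eq_of_ne h, map_zero]

private theorem W3aM_map (D : Dat k n) (f : R →ₐ[k] S) (a : Fin (n + 1) → R) :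
    f.toRingHom.mapMatrix (W3aM D a) = W3aM D (fun i => f (a i)) := by
  ext p q
  rcases p with i | t <;> rcases q with j | t'
  · simp only [W3aM, RingHom.mapMatrix_apply, Matrix.map_apply, Matrix.fromBlocks_apply₁₁,
      Matrix.of_apply, AlgHom.toRingHom_eq_coe, RingHom.coe_coe, map_add, Bq_map, W3a_single]
    split_ifs <;> simp
  · simp only [W3aM, RingHom.mapMatrix_apply, Matrix.map_apply, Matrix.fromBlocks_apply₁₂,
      Matrix.of_apply, AlgHom.toRingHom_eq_coe, RingHom.coe_coe]
    split_ifs <;> simp only [Bq_map, Cq_map, W3a_single]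
  · simp only [W3aM, RingHom.mapMatrix_apply, Matrix.map_apply, Matrix.fromBlocks_apply₂₁,
      Matrix.of_apply, AlgHom.toRingHom_eq_coe, RingHom.coe_coe]
    split_ifs <;> simp only [Bq_map, Cq_map, W3a_single]
  · simp [W3aM]

private theorem W3a_inl (hD : IsSymm23 D) (a : Fin (n + 1) → R) (z : Fin (n + 1) ⊕ Fin 2 → R)
    (i : Fin (n + 1)) :
    (W3aM D a).mulVec z (Sum.inl i) = Bq D (fun j => z (Sum.inl j)) (Pi.single i 1) +
      (if i = 0 then z (Sum.inl 0) else 0) + z (Sum.inr 0) * Bq D a (Pi.single i 1) +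
      z (Sum.inr 1) * Cq D a a (Pi.single i 1) := by
  rw [Bq_comm hD (fun j => z (Sum.inl j)), Bq_eq_sum D (Pi.single i 1)]
  simp only [Matrix.mulVec, dotProduct, Fintype.sum_sum_type, W3aM, Matrix.fromBlocks_apply₁₁,
    Matrix.fromBlocks_apply₁₂, Matrix.of_apply, Fin.sum_univ_two, add_mul,
    Finset.sum_add_distrib]
  have h1 : ∑ j : Fin (n + 1), (if i = 0 then (if j = 0 then (1 : R) else 0) else 0) *
      z (Sum.inl j) = if i = 0 then z (Sum.inl 0) else 0 := by
    by_cases hi : i = 0
    · simp [hi]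
    · simp [hi]
  rw [h1]
  simp only [if_true, one_ne_zero, if_false]
  have h2 : ∑ j : Fin (n + 1), Bq D (Pi.single i 1) (Pi.single j 1) * z (Sum.inl j) =
      ∑ j : Fin (n + 1), z (Sum.inl j) * Bq D (Pi.single i 1) (Pi.single j 1) :=
    Finset.sum_congr rfl fun j _ => mul_comm _ _
  rw [h2]
  ring

private theorem W3a_inr0 (a : Fin (n + 1) → R) (z : Fin (n + 1) ⊕ Fin 2 → R) :
    (W3aM D a).mulVec z (Sum.inr 0) = Bq D a (fun j => z (Sum.inl j)) := by
  rw [Bq_eq_sum D a]
  simp only [Matrix.mulVec, dotProduct, Fintype.sum_sum_type, W3aM, Matrix.fromBlocks_apply₂₁,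
    Matrix.fromBlocks_apply₂₂, Matrix.of_apply, Fin.sum_univ_two, if_true, Matrix.zero_apply,
    zero_mul, add_zero]
  exact Finset.sum_congr rfl fun j _ => mul_comm _ _

private theorem W3a_inr1 (a : Fin (n + 1) → R) (z : Fin (n + 1) ⊕ Fin 2 → R) :
    (W3aM D a).mulVec z (Sum.inr 1) = Cq D a a (fun j => z (Sum.inl j)) := by
  rw [Cq_eq_sum D a a]
  simp only [Matrix.mulVec, dotProduct, Fintype.sum_sum_type, W3aM, Matrix.fromBlocks_apply₂₁,
    Matrix.fromBlocks_apply₂₂, Matrix.of_apply, Fin.sum_univ_two, one_ne_zero, if_false,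
    Matrix.zero_apply, zero_mul, add_zero]
  exact Finset.sum_congr rfl fun j _ => mul_comm _ _

end W3a

private theorem W3a_comb {F : Type} [Field F] [Algebra k F] (a v : Fin (n + 1) → F)
    (h : ∀ y, Bq D a y = 0 → Cq D a a y = 0 → Bq D v y = 0) :
    ∃ α β : F, ∀ y, Bq D v y = α * Bq D a y + β * Cq D a a y := by
  have h1 := mem_span_of_iInf_ker_le_ker (ι := Fin 2) (L := ![BqL D a, CqL D a a])
    (K := BqL D v) (by
      intro y hy
      rw [Submodule.mem_iInf] at hy
      have h2 := hy 0
      have h3 := hy 1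
      rw [LinearMap.mem_ker] at h2 h3 ⊢
      exact h y h2 h3)
  rw [Submodule.mem_span_range_iff_exists_fun] at h1
  obtain ⟨c, hc⟩ := h1
  refine ⟨c 0, c 1, fun y => ?_⟩
  have h4 := congrArg (fun L : (Fin (n + 1) → F) →ₗ[F] F => L y) hc
  simp only [Fin.sum_univ_two] at h4
  exact h4.symm

theorem nd_open (hD : IsSymm23 D) (hs : Smooth23 D) {K : Type} [Field K] [Algebra k K]
    (P : Fin (n + 1) → K) (hP : IsGenPt D P) :
    ∃ N : MvPolynomial (Fin (n + 1)) k, aeval P N ≠ 0 ∧
      ∀ a : Fin (n + 1) → k, a 0 = 1 → Bq D a a = 0 → Cq D a a a = 0 → aeval a N ≠ 0 →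
        NDat D a := by
  have hev : ∀ {F : Type} [Field F] [Algebra k F] (a : Fin (n + 1) → F),
      aeval a (W3aM D (X : Fin (n + 1) → MvPolynomial (Fin (n + 1)) k)).det =
        (W3aM D a).det := by
    intro F _ _ a
    have h1 := RingHom.map_det (aeval a : MvPolynomial (Fin (n + 1)) k →ₐ[k] F).toRingHom
      (W3aM D (X : Fin (n + 1) → MvPolynomial (Fin (n + 1)) k))
    rw [W3aM_map] at h1
    simp only [aeval_X] at h1
    exact h1
  refine ⟨(W3aM D (X : Fin (n + 1) → MvPolynomial (Fin (n + 1)) k)).det, ?_, ?_⟩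
  · rw [hev]
    intro h0
    rw [← Matrix.exists_mulVec_eq_zero_iff] at h0
    obtain ⟨z, hz, hM⟩ := h0
    apply hz
    have r0 := congrFun hM (Sum.inr 0)
    have r1 := congrFun hM (Sum.inr 1)
    rw [W3a_inr0] at r0
    rw [W3a_inr1] at r1
    simp only [Pi.zero_apply] at r0 r1
    set v : Fin (n + 1) → K := fun j => z (Sum.inl j) with hv
    have key : ∀ y, Bq D v y + v 0 * y 0 + z (Sum.inr 0) * Bq D P y +
        z (Sum.inr 1) * Cq D P P y = 0 := by
      intro y
      have h1 : ∀ i, y i * (Bq D v (Pi.single i 1) + (if i = 0 then v 0 else 0) +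
          z (Sum.inr 0) * Bq D P (Pi.single i 1) +
          z (Sum.inr 1) * Cq D P P (Pi.single i 1)) = 0 := by
        intro i
        have h2 := congrFun hM (Sum.inl i)
        rw [W3a_inl hD] at h2
        simp only [Pi.zero_apply] at h2
        rw [h2, mul_zero]
      have h3 : ∑ i, y i * (Bq D v (Pi.single i 1) + (if i = 0 then v 0 else 0) +
          z (Sum.inr 0) * Bq D P (Pi.single i 1) +
          z (Sum.inr 1) * Cq D P P (Pi.single i 1)) = 0 :=
        Finset.sum_eq_zero fun i _ => h1 i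
      have h4 : ∑ i, y i * (if i = 0 then v 0 else 0) = v 0 * y 0 := by
        simp [mul_comm]
      rw [Bq_eq_sum D v y, Bq_eq_sum D P y, Cq_eq_sum D P P y, ← h4]
      refine Eq.trans ?_ h3
      rw [Finset.mul_sum, Finset.mul_sum, ← Finset.sum_add_distrib, ← Finset.sum_add_distrib,
        ← Finset.sum_add_distrib]
      exact Finset.sum_congr rfl fun i _ => by ring
    have hself := hP.self
    have hv0 : v 0 = 0 := by
      have h1 := key P
      rw [Bq_comm hD v P, r0, hself.1, hself.2, hP.1] at h1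
      linear_combination h1
    have hvP := lemmaA hD hs P v hP r0 r1 (-z (Sum.inr 0)) (-z (Sum.inr 1)) (by
      intro a
      have h1 := key a
      rw [hv0] at h1
      linear_combination h1)
    have hs0 : z (Sum.inr 0) = 0 := by
      have h1 := congrFun hvP 0
      rw [hv0, Pi.smul_apply, hP.1, smul_eq_mul, mul_one] at h1
      linear_combination h1
    have hvz : v = 0 := by
      rw [hvP, hs0, neg_zero, zero_smul]
    have ht0 : z (Sum.inr 1) = 0 := by
      refine (grad_ne hs P hP 0 (z (Sum.inr 1)) (fun a => ?_)).2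
      have h1 := key a
      rw [hvz, Bq_zero1, hs0] at h1
      simp only [Pi.zero_apply] at h1
      linear_combination h1
    funext p
    rcases p with i | t
    · exact congrFun hvz i
    · fin_cases t
      · exact hs0
      · exact ht0
  · intro a ha0 hb hc hN v h1 h2 h3
    rw [hev] at hN
    obtain ⟨α, β, hαβ⟩ := W3a_comb a v h3
    refine ⟨v 0, ?_⟩
    by_contra hne
    apply hN
    rw [← Matrix.exists_mulVec_eq_zero_iff]
    have e1 : Bq D a (v - v 0 • a) = 0 := by
      rw [Bq_sub2, Bq_smul2, h1, hb]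
      ring
    have e2 : Cq D a a (v - v 0 • a) = 0 := by
      rw [Cq_sub3, Cq_smul3, h2, hc]
      ring
    refine ⟨Sum.elim (v - v 0 • a) ![-(α - v 0), -β], ?_, ?_⟩
    · intro h0
      apply hne
      have h4 : v - v 0 • a = 0 := by
        funext i
        have := congrFun h0 (Sum.inl i)
        exact this
      exact sub_eq_zero.1 h4
    · funext p
      rcases p with i | t
      · rw [W3a_inl hD]
        simp only [Sum.elim_inl, Sum.elim_inr, Pi.zero_apply]
        change Bq D (v - v 0 • a) (Pi.single i 1) + (if i = 0 then (v 0 - v 0 * a 0) else 0) +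
          -(α - v 0) * Bq D a (Pi.single i 1) + -β * Cq D a a (Pi.single i 1) = 0
        rw [ha0, mul_one, sub_self, ite_self, Bq_sub1, Bq_smul1, hαβ]
        ring
      · fin_cases t
        · exact (W3a_inr0 a _).trans e1
        · exact (W3a_inr1 a _).trans e2

end Pool.Agent.LibHP.CI
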